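import Pool.Agent.H10.Cub

/-!
The bridge between two-torsion classes and intersections of two quadrics.
-/

set_option autoImplicit false

open WeierstrassCurve

namespace Pool.Agent.H10

variable {L : Type*} [Field L]

namespace IsCub

variable {W : WeierstrassCurve L} {e₁ e₂ e₃ : L}

/-- Every point with nonzero `y` is a `half`. -/
lemma exists_half (h : IsCub W e₁ e₂ e₃) {X Y : L} (hns : W.toAffine.Nonsingular X Y) (hY : Y ≠ 0) :
    ∃ (x s₁ s₂ s₃ : L) (h1 : s₁ ^ 2 = x - e₁) (h2 : s₂ ^ 2 = x - e₂) (h3 : s₃ ^ 2 = x - e₃),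
      Affine.Point.some X Y hns = h.half x s₁ s₂ s₃ h1 h2 h3 ∧
      s₁ = (Y / (X - e₃) + Y / (X - e₂) - Y / (X - e₁)) / 2 ∧
      s₂ = (Y / (X - e₃) + Y / (X - e₁) - Y / (X - e₂)) / 2 ∧
      s₃ = (Y / (X - e₂) + Y / (X - e₁) - Y / (X - e₃)) / 2 := by
  have hEq : Y ^ 2 = (X - e₁) * (X - e₂) * (X - e₃) := (h.equation_iff X Y).1 hns.1
  have hY2 : (X - e₁) * (X - e₂) * (X - e₃) ≠ 0 := by rw [← hEq]; exact pow_ne_zero 2 hY
  have n1 : X - e₁ ≠ 0 := fun H => hY2 (by rw [H]; ring)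
  have n2 : X - e₂ ≠ 0 := fun H => hY2 (by rw [H]; ring)
  have n3 : X - e₃ ≠ 0 := fun H => hY2 (by rw [H]; ring)
  have two := h.two
  set s₁ := (Y / (X - e₃) + Y / (X - e₂) - Y / (X - e₁)) / 2 with hs1
  set s₂ := (Y / (X - e₃) + Y / (X - e₁) - Y / (X - e₂)) / 2 with hs2
  set s₃ := (Y / (X - e₂) + Y / (X - e₁) - Y / (X - e₃)) / 2 with hs3
  have u12 : s₁ + s₂ = Y / (X - e₃) := by rw [hs1, hs2]; field_simp; ring
  have u13 : s₁ + s₃ = Y / (X - e₂) := by rw [hs1, hs3]; field_simp; ring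
  have u23 : s₂ + s₃ = Y / (X - e₁) := by rw [hs2, hs3]; field_simp; ring
  have m1 : (s₁ + s₂) * (s₁ + s₃) = X - e₁ := by
    rw [u12, u13, div_mul_div_comm, ← sq, hEq]; field_simp
  have m2 : (s₁ + s₂) * (s₂ + s₃) = X - e₂ := by
    rw [u12, u23, div_mul_div_comm, ← sq, hEq]; field_simp
  have m3 : (s₁ + s₃) * (s₂ + s₃) = X - e₃ := by
    rw [u13, u23, div_mul_div_comm, ← sq, hEq]; field_simp
  have h2 : s₂ ^ 2 = (s₁ ^ 2 + e₁) - e₂ := by linear_combination m2 - m1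
  have h3 : s₃ ^ 2 = (s₁ ^ 2 + e₁) - e₃ := by linear_combination m3 - m1
  refine ⟨s₁ ^ 2 + e₁, s₁, s₂, s₃, by ring, h2, h3, ?_, rfl, rfl, rfl⟩
  unfold half
  rw [Affine.Point.some.injEq]
  refine ⟨?_, ?_⟩
  · linear_combination -m1
  · have : (s₁ + s₂) * (s₁ + s₃) * (s₂ + s₃) = Y := by
      rw [m1, u23]; field_simp
    exact this.symm

lemma half_inj (h : IsCub W e₁ e₂ e₃) {x s₁ s₂ s₃ : L}
    (h1 : s₁ ^ 2 = x - e₁) (h2 : s₂ ^ 2 = x - e₂) (h3 : s₃ ^ 2 = x - e₃) {x' s₁' s₂' s₃' : L}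
    (h1' : s₁' ^ 2 = x' - e₁) (h2' : s₂' ^ 2 = x' - e₂) (h3' : s₃' ^ 2 = x' - e₃)
    (H : h.half x s₁ s₂ s₃ h1 h2 h3 = h.half x' s₁' s₂' s₃' h1' h2' h3') :
    x = x' ∧ s₁ = s₁' ∧ s₂ = s₂' ∧ s₃ = s₃' := by
  unfold half at H
  rw [Affine.Point.some.injEq] at H
  obtain ⟨HX, HY⟩ := H
  have two := h.two
  have n12 : s₁ + s₂ ≠ 0 := by
    intro H
    apply h.h12
    linear_combination (s₁ - s₂) * (-H) + h1 - h2
  have n13 : s₁ + s₃ ≠ 0 := by
    intro H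
    apply h.h13
    linear_combination (s₁ - s₃) * (-H) + h1 - h3
  have n23 : s₂ + s₃ ≠ 0 := by
    intro H
    apply h.h23
    linear_combination (s₂ - s₃) * (-H) + h2 - h3
  have A : (s₁ + s₂) * (s₁ + s₃) = (s₁' + s₂') * (s₁' + s₃') := by
    linear_combination HX + h1 - h1'
  have B : (s₁ + s₂) * (s₂ + s₃) = (s₁' + s₂') * (s₂' + s₃') := by
    linear_combination HX + h2 - h2'
  have C : (s₁ + s₃) * (s₂ + s₃) = (s₁' + s₃') * (s₂' + s₃') := by
    linear_combination HX + h3 - h3'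
  have c12 : s₁ + s₂ = s₁' + s₂' := by
    have : ((s₁ + s₃) * (s₂ + s₃)) * (s₁ + s₂) = ((s₁ + s₃) * (s₂ + s₃)) * (s₁' + s₂') := by
      have hC := C
      calc ((s₁ + s₃) * (s₂ + s₃)) * (s₁ + s₂) = (s₁ + s₂) * (s₁ + s₃) * (s₂ + s₃) := by ring
        _ = (s₁' + s₂') * (s₁' + s₃') * (s₂' + s₃') := HY
        _ = ((s₁' + s₃') * (s₂' + s₃')) * (s₁' + s₂') := by ring
        _ = ((s₁ + s₃) * (s₂ + s₃)) * (s₁' + s₂') := by rw [hC]
    exact mul_left_cancel₀ (mul_ne_zero n13 n23) this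
  have c13 : s₁ + s₃ = s₁' + s₃' := by
    have : ((s₁ + s₂) * (s₂ + s₃)) * (s₁ + s₃) = ((s₁ + s₂) * (s₂ + s₃)) * (s₁' + s₃') := by
      have hB := B
      calc ((s₁ + s₂) * (s₂ + s₃)) * (s₁ + s₃) = (s₁ + s₂) * (s₁ + s₃) * (s₂ + s₃) := by ring
        _ = (s₁' + s₂') * (s₁' + s₃') * (s₂' + s₃') := HY
        _ = ((s₁' + s₂') * (s₂' + s₃')) * (s₁' + s₃') := by ring
        _ = ((s₁ + s₂) * (s₂ + s₃)) * (s₁' + s₃') := by rw [hB]
    exact mul_left_cancel₀ (mul_ne_zero n12 n23) this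
  have c23 : s₂ + s₃ = s₂' + s₃' := by
    have : ((s₁ + s₂) * (s₁ + s₃)) * (s₂ + s₃) = ((s₁ + s₂) * (s₁ + s₃)) * (s₂' + s₃') := by
      have hA := A
      calc ((s₁ + s₂) * (s₁ + s₃)) * (s₂ + s₃) = (s₁' + s₂') * (s₁' + s₃') * (s₂' + s₃') := HY
        _ = ((s₁ + s₂) * (s₁ + s₃)) * (s₂' + s₃') := by rw [hA]
    exact mul_left_cancel₀ (mul_ne_zero n12 n13) this
  have e1 : s₁ = s₁' := by
    have : (2 : L) * s₁ = 2 * s₁' := by linear_combination c12 + c13 - c23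
    exact mul_left_cancel₀ two this
  have e2 : s₂ = s₂' := by
    have : (2 : L) * s₂ = 2 * s₂' := by linear_combination c12 + c23 - c13
    exact mul_left_cancel₀ two this
  have e3 : s₃ = s₃' := by
    have : (2 : L) * s₃ = 2 * s₃' := by linear_combination c13 + c23 - c12
    exact mul_left_cancel₀ two this
  refine ⟨?_, e1, e2, e3⟩
  rw [e1] at h1
  linear_combination h1' - h1

/-- The two-torsion points, indexed by pairs of signs. -/
noncomputable def tau (h : IsCub W e₁ e₂ e₃) (a : ℤˣ × ℤˣ) : W.toAffine.Point :=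
  if a.1 = 1 then (if a.2 = 1 then 0 else h.T₂) else (if a.2 = 1 then h.T₃ else h.T₁)

lemma tau_one (h : IsCub W e₁ e₂ e₃) : h.tau 1 = 0 := by simp [tau]

variable [DecidableEq L]

lemma half_add_tau (h : IsCub W e₁ e₂ e₃) {x s₁ s₂ s₃ : L}
    (h1 : s₁ ^ 2 = x - e₁) (h2 : s₂ ^ 2 = x - e₂) (h3 : s₃ ^ 2 = x - e₃) (a : ℤˣ × ℤˣ)
    {t₁ t₂ t₃ : L} (k1 : t₁ ^ 2 = x - e₁) (k2 : t₂ ^ 2 = x - e₂) (k3 : t₃ ^ 2 = x - e₃)
    (q1 : t₁ = (((a.1 * a.2 : ℤˣ) : ℤ) : L) * s₁) (q2 : t₂ = ((a.1 : ℤ) : L) * s₂)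
    (q3 : t₃ = ((a.2 : ℤ) : L) * s₃) :
    h.half x s₁ s₂ s₃ h1 h2 h3 + h.tau a = h.half x t₁ t₂ t₃ k1 k2 k3 := by
  rcases a with ⟨u, v⟩
  subst q1 q2 q3
  rcases Int.units_eq_one_or u with rfl | rfl <;> rcases Int.units_eq_one_or v with rfl | rfl
  · simp [tau]
  · have : ((-1 : ℤˣ) = 1) = False := by decide
    simp only [tau, if_true, this, if_false]
    rw [h.half_add_T₂]
    congr 1 <;> simp
  · have : ((-1 : ℤˣ) = 1) = False := by decide
    simp only [tau, if_true, this, if_false]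
    rw [h.half_add_T₃]
    congr 1 <;> simp
  · have : ((-1 : ℤˣ) = 1) = False := by decide
    simp only [tau, this, if_false]
    rw [h.half_add_T₁]
    congr 1 <;> simp

lemma T_add_self (h : IsCub W e₁ e₂ e₃) : h.T₁ + h.T₁ = 0 := by
  unfold T₁
  apply Affine.Point.add_self_of_Y_eq
  rw [h.negY_eq]; ring

lemma T₁_add_T₂ (h : IsCub W e₁ e₂ e₃) : h.T₁ + h.T₂ = h.T₃ := by
  unfold T₁ T₂ T₃
  rw [Affine.Point.add_of_X_ne h.h12]
  have hsl : W.toAffine.slope e₁ e₂ 0 0 = 0 := by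
    rw [Affine.slope_of_X_ne h.h12]; simp
  have hX : W.toAffine.addX e₁ e₂ 0 = e₃ := by
    rw [Affine.addX, h.a₁, h.a₂]; ring
  rw [Affine.Point.some.injEq]
  refine ⟨?_, ?_⟩
  · rw [hsl, hX]
  · rw [hsl, Affine.addY, Affine.negAddY, hX, h.negY_eq]
    ring

lemma tau_add (h : IsCub W e₁ e₂ e₃) (a b : ℤˣ × ℤˣ) : h.tau (a * b) = h.tau a + h.tau b := by
  have h11 := h.T_add_self
  have h22 : h.T₂ + h.T₂ = 0 := h.swap12.T_add_self
  have h33 : h.T₃ + h.T₃ = 0 := h.swap13.T_add_self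
  have h12 : h.T₁ + h.T₂ = h.T₃ := h.T₁_add_T₂
  have h13 : h.T₁ + h.T₃ = h.T₂ := by rw [← h12, ← add_assoc, h11, zero_add]
  have h23 : h.T₂ + h.T₃ = h.T₁ := by rw [← h12, add_comm h.T₁, ← add_assoc, h22, zero_add]
  have hm : ((-1 : ℤˣ) = 1) = False := by decide
  have hmm : (-1 : ℤˣ) * (-1) = 1 := by decide
  rcases a with ⟨u, v⟩
  rcases b with ⟨u', v'⟩
  rcases Int.units_eq_one_or u with rfl | rfl <;> rcases Int.units_eq_one_or v with rfl | rfl <;>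
  rcases Int.units_eq_one_or u' with rfl | rfl <;> rcases Int.units_eq_one_or v' with rfl | rfl <;>
  simp [tau, hm, hmm, Prod.mk_mul_mk, h11, h22, h33, h12, h13, h23, add_comm h.T₂ h.T₁,
    add_comm h.T₃ h.T₁, add_comm h.T₃ h.T₂]

lemma tau_add_self (h : IsCub W e₁ e₂ e₃) (a : ℤˣ × ℤˣ) : h.tau a + h.tau a = 0 := by
  rw [← h.tau_add, ← h.tau_one]
  congr 1
  rcases a with ⟨u, v⟩
  rcases Int.units_eq_one_or u with rfl | rfl <;> rcases Int.units_eq_one_or v with rfl | rfl <;>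
  simp

lemma exists_tau (h : IsCub W e₁ e₂ e₃) (R : W.toAffine.Point) (hR : R + R = 0) :
    ∃ a, R = h.tau a := by
  have hm : ((-1 : ℤˣ) = 1) = False := by decide
  rcases R with _ | ⟨X, Y, hns⟩
  · exact ⟨1, by rw [h.tau_one]; rfl⟩
  · have hY : Y = 0 := by
      by_contra hY
      have hne : Y ≠ W.toAffine.negY X Y := by
        rw [h.negY_eq]
        intro H
        have : (2 : L) * Y = 0 := by linear_combination H
        rcases mul_eq_zero.1 this with H3 | H3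
        · exact h.two H3
        · exact hY H3
      rw [Affine.Point.add_self_of_Y_ne hne] at hR
      exact Affine.Point.some_ne_zero _ hR
    subst hY
    have hEq := (h.equation_iff X 0).1 hns.1
    have H' : (X - e₁) * (X - e₂) * (X - e₃) = 0 := by rw [← hEq]; ring
    rcases mul_eq_zero.1 H' with H' | H'
    · rcases mul_eq_zero.1 H' with H' | H'
      · have hx : X = e₁ := sub_eq_zero.1 H'
        subst hx
        exact ⟨(-1, -1), by simp [tau, hm, T₁]⟩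
      · have hx : X = e₂ := sub_eq_zero.1 H'
        subst hx
        exact ⟨(1, -1), by simp [tau, hm, T₂]⟩
    · have hx : X = e₃ := sub_eq_zero.1 H'
      subst hx
      exact ⟨(-1, 1), by simp [tau, hm, T₃]⟩

omit [DecidableEq L] in
lemma T₁_ne_zero (h : IsCub W e₁ e₂ e₃) : h.T₁ ≠ 0 := Affine.Point.some_ne_zero _

omit [DecidableEq L] in
lemma tau_eq_zero (h : IsCub W e₁ e₂ e₃) {a : ℤˣ × ℤˣ} (ha : h.tau a = 0) : a = 1 := by
  have hm : ((-1 : ℤˣ) = 1) = False := by decide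
  have n1 : h.T₁ ≠ 0 := Affine.Point.some_ne_zero _
  have n2 : h.T₂ ≠ 0 := Affine.Point.some_ne_zero _
  have n3 : h.T₃ ≠ 0 := Affine.Point.some_ne_zero _
  rcases a with ⟨u, v⟩
  rcases Int.units_eq_one_or u with rfl | rfl <;> rcases Int.units_eq_one_or v with rfl | rfl
  · rfl
  · simp [tau, hm, n2] at ha
  · simp [tau, hm, n3] at ha
  · simp [tau, hm, n1] at ha

lemma tau_injective (h : IsCub W e₁ e₂ e₃) : Function.Injective h.tau := by
  intro a b hab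
  have h1 : h.tau (a * b) = 0 := by
    rw [h.tau_add, hab, h.tau_add_self]
  have h2 := h.tau_eq_zero h1
  have h3 : b * b = 1 := by
    rcases b with ⟨u, v⟩
    rcases Int.units_eq_one_or u with rfl | rfl <;> rcases Int.units_eq_one_or v with rfl | rfl <;>
    simp
  calc a = a * (b * b) := by rw [h3, mul_one]
    _ = (a * b) * b := by rw [mul_assoc]
    _ = b := by rw [h2, one_mul]

end IsCub

end Pool.Agent.H10
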