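import Pool.Agent.H10.Bridge

/-!
The bridge between two-torsion classes and intersections of two quadrics, over `k ⊂ Ω`.
-/

set_option autoImplicit false

open WeierstrassCurve

namespace Pool.Agent.H10

/-- The intersection of two quadrics `d i * z i ^ 2 + e i * z 0 ^ 2` all equal
has a point over `k`. -/
def CPt {k : Type*} [Field k] (e₁ e₂ e₃ d₁ d₂ d₃ : k) : Prop :=
  ∃ z₀ z₁ z₂ z₃ : k, (z₀ ≠ 0 ∨ z₁ ≠ 0 ∨ z₂ ≠ 0 ∨ z₃ ≠ 0) ∧
    d₁ * z₁ ^ 2 + e₁ * z₀ ^ 2 = d₂ * z₂ ^ 2 + e₂ * z₀ ^ 2 ∧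
    d₁ * z₁ ^ 2 + e₁ * z₀ ^ 2 = d₃ * z₃ ^ 2 + e₃ * z₀ ^ 2

/-- The automorphism `σ` acts on `(r₁, r₂, r₃)` through the signs given by `a`. -/
def Sg {Ω : Type*} [Field Ω] (a : ℤˣ × ℤˣ) (σ : Ω → Ω) (r₁ r₂ r₃ : Ω) : Prop :=
  σ r₁ = (((a.1 * a.2 : ℤˣ) : ℤ) : Ω) * r₁ ∧ σ r₂ = ((a.1 : ℤ) : Ω) * r₂ ∧
    σ r₃ = ((a.2 : ℤ) : Ω) * r₃

variable {K₀ k Ω : Type*} [Field K₀] [Field k] [Field Ω] [Algebra K₀ k] [Algebra k Ω]
  [Algebra K₀ Ω] [IsScalarTower K₀ k Ω]
variable {W : WeierstrassCurve K₀} {e₁ e₂ e₃ : K₀}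

lemma IsCub.bc (h : IsCub W e₁ e₂ e₃) :
    IsCub (W.baseChange Ω) (algebraMap K₀ Ω e₁) (algebraMap K₀ Ω e₂) (algebraMap K₀ Ω e₃) where
  a₁ := by
    change algebraMap K₀ Ω W.a₁ = 0
    rw [h.a₁, map_zero]
  a₂ := by
    change algebraMap K₀ Ω W.a₂ = _
    rw [h.a₂]; simp
  a₃ := by
    change algebraMap K₀ Ω W.a₃ = 0
    rw [h.a₃, map_zero]
  a₄ := by
    change algebraMap K₀ Ω W.a₄ = _
    rw [h.a₄]; simp
  a₆ := by
    change algebraMap K₀ Ω W.a₆ = _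
    rw [h.a₆]; simp
  h12 := fun H => h.h12 ((algebraMap K₀ Ω).injective H)
  h13 := fun H => h.h13 ((algebraMap K₀ Ω).injective H)
  h23 := fun H => h.h23 ((algebraMap K₀ Ω).injective H)
  two := fun H => h.two ((algebraMap K₀ Ω).injective (by
    rw [map_zero, ← H]; exact map_ofNat (algebraMap K₀ Ω) 2))

variable [DecidableEq Ω]

lemma IsCub.map_half {e₁' e₂' e₃' : Ω} (h : IsCub (W.baseChange Ω) e₁' e₂' e₃')
    (σ : Ω →ₐ[K₀] Ω) (s1 : σ e₁' = e₁') (s2 : σ e₂' = e₂') (s3 : σ e₃' = e₃')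
    {x s₁ s₂ s₃ : Ω} (h1 : s₁ ^ 2 = x - e₁') (h2 : s₂ ^ 2 = x - e₂') (h3 : s₃ ^ 2 = x - e₃') :
    (Affine.Point.map σ : (W.baseChange Ω).toAffine.Point →+ (W.baseChange Ω).toAffine.Point)
      (h.half x s₁ s₂ s₃ h1 h2 h3) =
      h.half (σ x) (σ s₁) (σ s₂) (σ s₃) (by rw [← map_pow, h1, map_sub, s1])
        (by rw [← map_pow, h2, map_sub, s2]) (by rw [← map_pow, h3, map_sub, s3]) := by
  unfold IsCub.half
  rw [Affine.Point.map_some, Affine.Point.some.injEq]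
  constructor
  · simp only [map_add, map_mul]
  · simp only [map_add, map_mul]

lemma IsCub.map_tau (h : IsCub W e₁ e₂ e₃) (σ : Ω →ₐ[K₀] Ω) (a : ℤˣ × ℤˣ) :
    (Affine.Point.map σ : (W.baseChange Ω).toAffine.Point →+ (W.baseChange Ω).toAffine.Point)
      ((h.bc (Ω := Ω)).tau a) = (h.bc (Ω := Ω)).tau a := by
  unfold IsCub.tau
  split_ifs
  · exact map_zero _
  · unfold IsCub.T₂
    rw [Affine.Point.map_some, Affine.Point.some.injEq]
    exact ⟨σ.commutes _, map_zero _⟩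
  · unfold IsCub.T₃
    rw [Affine.Point.map_some, Affine.Point.some.injEq]
    exact ⟨σ.commutes _, map_zero _⟩
  · unfold IsCub.T₁
    rw [Affine.Point.map_some, Affine.Point.some.injEq]
    exact ⟨σ.commutes _, map_zero _⟩

omit [DecidableEq Ω] in
lemma units_cast_sq (u : ℤˣ) : (((u : ℤ) : Ω)) ^ 2 = 1 := by
  rcases Int.units_eq_one_or u with rfl | rfl <;> simp

omit [DecidableEq Ω] in
lemma units_cast_mul (u v : ℤˣ) : (((u * v : ℤˣ) : ℤ) : Ω) = ((u : ℤ) : Ω) * ((v : ℤ) : Ω) := by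
  push_cast
  ring

/-- From a point `R` over `Ω` with `σ R - R` two-torsion to a point on the intersection of
quadrics. -/
theorem bridge_mp (h : IsCub W e₁ e₂ e₃) (S : Set (Ω →ₐ[K₀] Ω))
    (hfix : ∀ z : Ω, (∀ σ ∈ S, σ z = z) → ∃ y : k, algebraMap k Ω y = z)
    {d₁ d₂ d₃ : k} {r₁ r₂ r₃ : Ω} (n1 : r₁ ≠ 0) (n2 : r₂ ≠ 0) (n3 : r₃ ≠ 0)
    (q1 : r₁ ^ 2 = algebraMap k Ω d₁) (q2 : r₂ ^ 2 = algebraMap k Ω d₂)
    (q3 : r₃ ^ 2 = algebraMap k Ω d₃)
    (R : (W.baseChange Ω).toAffine.Point)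
    (H : ∀ σ ∈ S, ∃ a, (Affine.Point.map σ :
      (W.baseChange Ω).toAffine.Point →+ (W.baseChange Ω).toAffine.Point) R =
        R + (h.bc (Ω := Ω)).tau a ∧ Sg a σ r₁ r₂ r₃) :
    CPt (algebraMap K₀ k e₁) (algebraMap K₀ k e₂) (algebraMap K₀ k e₃) d₁ d₂ d₃ := by
  have hb := h.bc (Ω := Ω)
  have inj := (algebraMap k Ω).injective
  have E1 : algebraMap K₀ Ω e₁ = algebraMap k Ω (algebraMap K₀ k e₁) :=
    IsScalarTower.algebraMap_apply K₀ k Ω e₁
  have E2 : algebraMap K₀ Ω e₂ = algebraMap k Ω (algebraMap K₀ k e₂) :=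
    IsScalarTower.algebraMap_apply K₀ k Ω e₂
  have E3 : algebraMap K₀ Ω e₃ = algebraMap k Ω (algebraMap K₀ k e₃) :=
    IsScalarTower.algebraMap_apply K₀ k Ω e₃
  by_cases hR : R + R = 0
  · -- R is two-torsion, hence rational
    obtain ⟨b, rfl⟩ := hb.exists_tau R hR
    have key : ∀ σ ∈ S, σ r₁ = r₁ ∧ σ r₂ = r₂ ∧ σ r₃ = r₃ := by
      intro σ hσ
      obtain ⟨a, ha, hs⟩ := H σ hσ
      rw [h.map_tau] at ha
      have h0 : hb.tau a = 0 := by
        have : hb.tau b + 0 = hb.tau b + hb.tau a := by rw [add_zero]; exact ha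
        exact (add_left_cancel this).symm
      have ha1 := hb.tau_eq_zero h0
      subst ha1
      simpa [Sg] using hs
    obtain ⟨y1, hy1⟩ := hfix r₁ (fun σ hσ => (key σ hσ).1)
    obtain ⟨y2, hy2⟩ := hfix r₂ (fun σ hσ => (key σ hσ).2.1)
    obtain ⟨y3, hy3⟩ := hfix r₃ (fun σ hσ => (key σ hσ).2.2)
    have m1 : y1 ≠ 0 := by rintro rfl; exact n1 (by rw [← hy1, map_zero])
    have m2 : y2 ≠ 0 := by rintro rfl; exact n2 (by rw [← hy2, map_zero])
    have m3 : y3 ≠ 0 := by rintro rfl; exact n3 (by rw [← hy3, map_zero])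
    have f1 : d₁ = y1 ^ 2 := inj (by rw [← q1, ← hy1, map_pow])
    have f2 : d₂ = y2 ^ 2 := inj (by rw [← q2, ← hy2, map_pow])
    have f3 : d₃ = y3 ^ 2 := inj (by rw [← q3, ← hy3, map_pow])
    refine ⟨0, y1⁻¹, y2⁻¹, y3⁻¹, Or.inr (Or.inl (inv_ne_zero m1)), ?_, ?_⟩
    · rw [f1, f2]; field_simp; ring
    · rw [f1, f3]; field_simp; ring
  · -- R is a half
    rcases R with _ | ⟨X, Y, hns⟩
    · exact absurd (by rfl) hR
    · have hY : Y ≠ 0 := by
        intro hY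
        apply hR
        apply Affine.Point.add_self_of_Y_eq
        rw [hb.negY_eq, hY]; ring
      obtain ⟨x, s₁, s₂, s₃, h1, h2, h3, hR', -, -, -⟩ := hb.exists_half hns hY
      have key : ∀ σ ∈ S, σ x = x ∧ σ (s₁ / r₁) = s₁ / r₁ ∧ σ (s₂ / r₂) = s₂ / r₂ ∧
          σ (s₃ / r₃) = s₃ / r₃ := by
        intro σ hσ
        obtain ⟨a, ha, hs1, hs2, hs3⟩ := H σ hσ
        rw [hR', hb.map_half σ (σ.commutes _) (σ.commutes _) (σ.commutes _)] at ha
        have k1 : ((((a.1 * a.2 : ℤˣ) : ℤ) : Ω) * s₁) ^ 2 = x - algebraMap K₀ Ω e₁ := by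
          rw [mul_pow, units_cast_sq, one_mul, h1]
        have k2 : (((a.1 : ℤ) : Ω) * s₂) ^ 2 = x - algebraMap K₀ Ω e₂ := by
          rw [mul_pow, units_cast_sq, one_mul, h2]
        have k3 : (((a.2 : ℤ) : Ω) * s₃) ^ 2 = x - algebraMap K₀ Ω e₃ := by
          rw [mul_pow, units_cast_sq, one_mul, h3]
        rw [hb.half_add_tau h1 h2 h3 a k1 k2 k3 rfl rfl rfl] at ha
        obtain ⟨g0, g1, g2, g3⟩ := hb.half_inj _ _ _ _ _ _ ha
        have c1 : (((a.1 * a.2 : ℤˣ) : ℤ) : Ω) ≠ 0 := by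
          intro H0; have := units_cast_sq (Ω := Ω) (a.1 * a.2); rw [H0] at this; simp at this
        have c2 : ((a.1 : ℤ) : Ω) ≠ 0 := by
          intro H0; have := units_cast_sq (Ω := Ω) a.1; rw [H0] at this; simp at this
        have c3 : ((a.2 : ℤ) : Ω) ≠ 0 := by
          intro H0; have := units_cast_sq (Ω := Ω) a.2; rw [H0] at this; simp at this
        refine ⟨g0, ?_, ?_, ?_⟩
        · rw [map_div₀, g1, hs1, mul_div_mul_left _ _ c1]
        · rw [map_div₀, g2, hs2, mul_div_mul_left _ _ c2]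
        · rw [map_div₀, g3, hs3, mul_div_mul_left _ _ c3]
      obtain ⟨x0, hx0⟩ := hfix x (fun σ hσ => (key σ hσ).1)
      obtain ⟨z1, hz1⟩ := hfix _ (fun σ hσ => (key σ hσ).2.1)
      obtain ⟨z2, hz2⟩ := hfix _ (fun σ hσ => (key σ hσ).2.2.1)
      obtain ⟨z3, hz3⟩ := hfix _ (fun σ hσ => (key σ hσ).2.2.2)
      have f1 : d₁ * z1 ^ 2 + algebraMap K₀ k e₁ = x0 := by
        apply inj
        rw [map_add, map_mul, map_pow, hz1, ← q1, hx0, div_pow, h1, E1]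
        field_simp
        ring
      have f2 : d₂ * z2 ^ 2 + algebraMap K₀ k e₂ = x0 := by
        apply inj
        rw [map_add, map_mul, map_pow, hz2, ← q2, hx0, div_pow, h2, E2]
        field_simp
        ring
      have f3 : d₃ * z3 ^ 2 + algebraMap K₀ k e₃ = x0 := by
        apply inj
        rw [map_add, map_mul, map_pow, hz3, ← q3, hx0, div_pow, h3, E3]
        field_simp
        ring
      refine ⟨1, z1, z2, z3, Or.inl one_ne_zero, ?_, ?_⟩
      · linear_combination f1 - f2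
      · linear_combination f1 - f3

/-- From a point on the intersection of quadrics to a point `R` over `Ω` with `σ R - R` the
prescribed two-torsion point. -/
theorem bridge_mpr (h : IsCub W e₁ e₂ e₃)
    {d₁ d₂ d₃ : k} {r₁ r₂ r₃ : Ω} (n1 : r₁ ≠ 0) (n2 : r₂ ≠ 0) (n3 : r₃ ≠ 0)
    (q1 : r₁ ^ 2 = algebraMap k Ω d₁) (q2 : r₂ ^ 2 = algebraMap k Ω d₂)
    (q3 : r₃ ^ 2 = algebraMap k Ω d₃)
    (hC : CPt (algebraMap K₀ k e₁) (algebraMap K₀ k e₂) (algebraMap K₀ k e₃) d₁ d₂ d₃) :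
    ∃ R : (W.baseChange Ω).toAffine.Point, ∀ (σ : Ω →ₐ[K₀] Ω)
      (_ : ∀ y : k, σ (algebraMap k Ω y) = algebraMap k Ω y) (a : ℤˣ × ℤˣ), Sg a σ r₁ r₂ r₃ →
      (Affine.Point.map σ :
        (W.baseChange Ω).toAffine.Point →+ (W.baseChange Ω).toAffine.Point) R =
        R + (h.bc (Ω := Ω)).tau a := by
  have hb := h.bc (Ω := Ω)
  have E1 : algebraMap K₀ Ω e₁ = algebraMap k Ω (algebraMap K₀ k e₁) :=
    IsScalarTower.algebraMap_apply K₀ k Ω e₁
  have E2 : algebraMap K₀ Ω e₂ = algebraMap k Ω (algebraMap K₀ k e₂) :=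
    IsScalarTower.algebraMap_apply K₀ k Ω e₂
  have E3 : algebraMap K₀ Ω e₃ = algebraMap k Ω (algebraMap K₀ k e₃) :=
    IsScalarTower.algebraMap_apply K₀ k Ω e₃
  obtain ⟨z₀, z₁, z₂, z₃, hne, E12, E13⟩ := hC
  by_cases hz : z₀ = 0
  · -- all `d i` are in the same square class, so all signs are trivial
    subst hz
    have E12' : d₁ * z₁ ^ 2 = d₂ * z₂ ^ 2 := by linear_combination E12
    have E13' : d₁ * z₁ ^ 2 = d₃ * z₃ ^ 2 := by linear_combination E13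
    have md1 : d₁ ≠ 0 := by rintro rfl; apply n1; rw [map_zero] at q1; exact pow_eq_zero_iff (two_ne_zero) |>.1 q1
    have md2 : d₂ ≠ 0 := by rintro rfl; apply n2; rw [map_zero] at q2; exact pow_eq_zero_iff (two_ne_zero) |>.1 q2
    have md3 : d₃ ≠ 0 := by rintro rfl; apply n3; rw [map_zero] at q3; exact pow_eq_zero_iff (two_ne_zero) |>.1 q3
    have hc : d₁ * z₁ ^ 2 ≠ 0 := by
      rcases hne with H | H | H | H
      · exact absurd rfl H
      · exact mul_ne_zero md1 (pow_ne_zero 2 H)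
      · rw [E12']; exact mul_ne_zero md2 (pow_ne_zero 2 H)
      · rw [E13']; exact mul_ne_zero md3 (pow_ne_zero 2 H)
    have t1 : r₁ * algebraMap k Ω z₁ ≠ 0 := by
      intro H0
      apply hc
      apply (algebraMap k Ω).injective
      rw [map_mul, map_pow, ← q1, map_zero, ← mul_pow, H0]; ring
    have sq12 : (r₁ * algebraMap k Ω z₁) ^ 2 = (r₂ * algebraMap k Ω z₂) ^ 2 := by
      rw [mul_pow, mul_pow, q1, q2, ← map_pow, ← map_pow, ← map_mul, ← map_mul, E12']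
    have sq13 : (r₁ * algebraMap k Ω z₁) ^ 2 = (r₃ * algebraMap k Ω z₃) ^ 2 := by
      rw [mul_pow, mul_pow, q1, q3, ← map_pow, ← map_pow, ← map_mul, ← map_mul, E13']
    refine ⟨0, ?_⟩
    intro σ σfix a hs
    have hw : a = 1 := by
      obtain ⟨hs1, hs2, hs3⟩ := hs
      have two := hb.two
      have v1 : σ (r₁ * algebraMap k Ω z₁) = (((a.1 * a.2 : ℤˣ) : ℤ) : Ω) * (r₁ * algebraMap k Ω z₁) := by
        rw [map_mul, hs1, σfix]; ring
      have v2 : σ (r₂ * algebraMap k Ω z₂) = ((a.1 : ℤ) : Ω) * (r₂ * algebraMap k Ω z₂) := by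
        rw [map_mul, hs2, σfix]; ring
      have v3 : σ (r₃ * algebraMap k Ω z₃) = ((a.2 : ℤ) : Ω) * (r₃ * algebraMap k Ω z₃) := by
        rw [map_mul, hs3, σfix]; ring
      have w12 : ((a.1 : ℤ) : Ω) = (((a.1 * a.2 : ℤˣ) : ℤ) : Ω) := by
        rcases sq_eq_sq_iff_eq_or_eq_neg.1 sq12 with H | H
        · rw [← H, v1] at v2
          exact (mul_right_cancel₀ t1 v2).symm
        · have H' : r₂ * algebraMap k Ω z₂ = -(r₁ * algebraMap k Ω z₁) := by rw [H]; ring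
          rw [H', map_neg, v1] at v2
          have : (((a.1 * a.2 : ℤˣ) : ℤ) : Ω) * (r₁ * algebraMap k Ω z₁) = ((a.1 : ℤ) : Ω) * (r₁ * algebraMap k Ω z₁) := by
            linear_combination -v2
          exact (mul_right_cancel₀ t1 this).symm
      have w13 : ((a.2 : ℤ) : Ω) = (((a.1 * a.2 : ℤˣ) : ℤ) : Ω) := by
        rcases sq_eq_sq_iff_eq_or_eq_neg.1 sq13 with H | H
        · rw [← H, v1] at v3
          exact (mul_right_cancel₀ t1 v3).symm
        · have H' : r₃ * algebraMap k Ω z₃ = -(r₁ * algebraMap k Ω z₁) := by rw [H]; ring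
          rw [H', map_neg, v1] at v3
          have : (((a.1 * a.2 : ℤˣ) : ℤ) : Ω) * (r₁ * algebraMap k Ω z₁) = ((a.2 : ℤ) : Ω) * (r₁ * algebraMap k Ω z₁) := by
            linear_combination -v3
          exact (mul_right_cancel₀ t1 this).symm
      rcases a with ⟨u, v⟩
      have hneg : (-1 : Ω) ≠ 1 := by
        intro H0
        apply two
        linear_combination -H0
      rcases Int.units_eq_one_or u with rfl | rfl <;> rcases Int.units_eq_one_or v with rfl | rfl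
      · rfl
      · simp at w12; exact absurd w12.symm hneg
      · simp at w13; exact absurd w13.symm hneg
      · simp at w13; exact absurd w13 hneg
    subst hw
    rw [map_zero, zero_add]
    exact hb.tau_one.symm
  · set c := algebraMap k Ω z₀ with hc
    have c0 : c ≠ 0 := by
      intro H0; apply hz; apply (algebraMap k Ω).injective; rw [← hc, H0, map_zero]
    set x : Ω := algebraMap k Ω ((d₁ * z₁ ^ 2 + algebraMap K₀ k e₁ * z₀ ^ 2) / z₀ ^ 2) with hx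
    have h1 : (r₁ * algebraMap k Ω z₁ / c) ^ 2 = x - algebraMap K₀ Ω e₁ := by
      rw [E1, div_pow, mul_pow, q1, hx, ← map_pow, hc, ← map_pow, ← map_mul, ← map_div₀, ← map_sub]
      congr 1
      field_simp
      ring
    have h2 : (r₂ * algebraMap k Ω z₂ / c) ^ 2 = x - algebraMap K₀ Ω e₂ := by
      rw [E2, div_pow, mul_pow, q2, hx, ← map_pow, hc, ← map_pow, ← map_mul, ← map_div₀, ← map_sub]
      congr 1
      field_simp
      linear_combination -E12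
    have h3 : (r₃ * algebraMap k Ω z₃ / c) ^ 2 = x - algebraMap K₀ Ω e₃ := by
      rw [E3, div_pow, mul_pow, q3, hx, ← map_pow, hc, ← map_pow, ← map_mul, ← map_div₀, ← map_sub]
      congr 1
      field_simp
      linear_combination -E13
    refine ⟨hb.half x _ _ _ h1 h2 h3, ?_⟩
    intro σ σfix a hs
    obtain ⟨hs1, hs2, hs3⟩ := hs
    rw [hb.map_half σ (σ.commutes _) (σ.commutes _) (σ.commutes _)]
    have σx : σ x = x := by rw [hx]; exact σfix _
    have σc : σ c = c := by rw [hc]; exact σfix _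
    have g1 : σ (r₁ * algebraMap k Ω z₁ / c) = (((a.1 * a.2 : ℤˣ) : ℤ) : Ω) * (r₁ * algebraMap k Ω z₁ / c) := by
      rw [map_div₀, map_mul, hs1, σfix, σc]; ring
    have g2 : σ (r₂ * algebraMap k Ω z₂ / c) = ((a.1 : ℤ) : Ω) * (r₂ * algebraMap k Ω z₂ / c) := by
      rw [map_div₀, map_mul, hs2, σfix, σc]; ring
    have g3 : σ (r₃ * algebraMap k Ω z₃ / c) = ((a.2 : ℤ) : Ω) * (r₃ * algebraMap k Ω z₃ / c) := by
      rw [map_div₀, map_mul, hs3, σfix, σc]; ring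
    have k1 : (σ (r₁ * algebraMap k Ω z₁ / c)) ^ 2 = x - algebraMap K₀ Ω e₁ := by
      rw [g1, mul_pow, units_cast_sq, one_mul, h1]
    have k2 : (σ (r₂ * algebraMap k Ω z₂ / c)) ^ 2 = x - algebraMap K₀ Ω e₂ := by
      rw [g2, mul_pow, units_cast_sq, one_mul, h2]
    have k3 : (σ (r₃ * algebraMap k Ω z₃ / c)) ^ 2 = x - algebraMap K₀ Ω e₃ := by
      rw [g3, mul_pow, units_cast_sq, one_mul, h3]
    rw [hb.half_add_tau h1 h2 h3 a k1 k2 k3 g1 g2 g3]
    congr 1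

end Pool.Agent.H10
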