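import Pool.Agent.H10.Bridge2

/-!
Group structure on the soluble triples, and the trace lemma.
-/

set_option autoImplicit false

open WeierstrassCurve

namespace Pool.Agent.H10

section signs

variable {k Ω : Type*} [Field k] [Field Ω] [Algebra k Ω]

lemma sign_of_sq_eq {r s : Ω} (h : s ^ 2 = r ^ 2) : ∃ u : ℤˣ, s = ((u : ℤ) : Ω) * r := by
  rcases sq_eq_sq_iff_eq_or_eq_neg.1 h with h | h
  · exact ⟨1, by simp [h]⟩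
  · exact ⟨-1, by simp [h]⟩

lemma exists_sg {F : Type*} [FunLike F Ω Ω] [RingHomClass F Ω Ω] (σ : F)
    (hσ : ∀ y : k, σ (algebraMap k Ω y) = algebraMap k Ω y)
    {d₁ d₂ d₃ c : k} {r₁ r₂ r₃ : Ω} (n1 : r₁ ≠ 0) (n2 : r₂ ≠ 0) (n3 : r₃ ≠ 0)
    (q1 : r₁ ^ 2 = algebraMap k Ω d₁) (q2 : r₂ ^ 2 = algebraMap k Ω d₂)
    (q3 : r₃ ^ 2 = algebraMap k Ω d₃) (hc : d₁ * d₂ * d₃ = c ^ 2) :
    ∃ a, Sg a σ r₁ r₂ r₃ := by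
  have s2 : (σ r₂) ^ 2 = r₂ ^ 2 := by rw [← map_pow, q2, hσ]
  have s3 : (σ r₃) ^ 2 = r₃ ^ 2 := by rw [← map_pow, q3, hσ]
  obtain ⟨u, hu⟩ := sign_of_sq_eq s2
  obtain ⟨v, hv⟩ := sign_of_sq_eq s3
  have hp : σ (r₁ * r₂ * r₃) = r₁ * r₂ * r₃ := by
    have hsq : (r₁ * r₂ * r₃) ^ 2 = (algebraMap k Ω c) ^ 2 := by
      rw [mul_pow, mul_pow, q1, q2, q3, ← map_mul, ← map_mul, hc, map_pow]
    rcases sq_eq_sq_iff_eq_or_eq_neg.1 hsq with h | h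
    · rw [h, hσ]
    · rw [h, map_neg, hσ]
  refine ⟨(u, v), ?_, hu, hv⟩
  rw [map_mul, map_mul, hu, hv] at hp
  have huu : ((u : ℤ) : Ω) ^ 2 = 1 := units_cast_sq u
  have hvv : ((v : ℤ) : Ω) ^ 2 = 1 := units_cast_sq v
  have n23 : r₂ * r₃ ≠ 0 := mul_ne_zero n2 n3
  have key : σ r₁ * (((u : ℤ) : Ω) * ((v : ℤ) : Ω)) = r₁ := by
    apply mul_right_cancel₀ n23
    linear_combination hp
  change σ r₁ = (((u * v : ℤˣ) : ℤ) : Ω) * r₁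
  rw [units_cast_mul]
  calc σ r₁ = σ r₁ * (((u : ℤ) : Ω) * ((v : ℤ) : Ω)) * (((u : ℤ) : Ω) * ((v : ℤ) : Ω)) := by
        linear_combination (-(σ r₁) * ((v : ℤ) : Ω) ^ 2) * huu - (σ r₁) * hvv
    _ = _ := by rw [key]; ring

lemma Sg.mul {a b : ℤˣ × ℤˣ} {F : Type*} [FunLike F Ω Ω] [RingHomClass F Ω Ω] {σ : F}
    {r₁ r₂ r₃ s₁ s₂ s₃ : Ω} (h : Sg a σ r₁ r₂ r₃) (h' : Sg b σ s₁ s₂ s₃) :
    Sg (a * b) σ (r₁ * s₁) (r₂ * s₂) (r₃ * s₃) := by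
  obtain ⟨h1, h2, h3⟩ := h
  obtain ⟨h1', h2', h3'⟩ := h'
  refine ⟨?_, ?_, ?_⟩
  · rw [map_mul, h1, h1']
    simp only [Prod.fst_mul, Prod.snd_mul, units_cast_mul]
    ring
  · rw [map_mul, h2, h2']
    simp only [Prod.fst_mul, units_cast_mul]
    ring
  · rw [map_mul, h3, h3']
    simp only [Prod.snd_mul, units_cast_mul]
    ring

end signs

/-- The standard curve. -/
def cub {k : Type*} [Field k] (e₁ e₂ e₃ : k) : WeierstrassCurve k :=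
  ⟨0, -(e₁ + e₂ + e₃), 0, e₁ * e₂ + e₁ * e₃ + e₂ * e₃, -(e₁ * e₂ * e₃)⟩

lemma isCub_cub {k : Type*} [Field k] {e₁ e₂ e₃ : k} (h12 : e₁ ≠ e₂) (h13 : e₁ ≠ e₃)
    (h23 : e₂ ≠ e₃) (two : (2 : k) ≠ 0) : IsCub (cub e₁ e₂ e₃) e₁ e₂ e₃ :=
  ⟨rfl, rfl, rfl, rfl, rfl, h12, h13, h23, two⟩

lemma fixed_of_galois {k Ω : Type*} [Field k] [Field Ω] [Algebra k Ω] [IsGalois k Ω]
    (z : Ω) (h : ∀ σ : Ω ≃ₐ[k] Ω, σ z = z) : ∃ y : k, algebraMap k Ω y = z :=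
  (InfiniteGalois.mem_range_algebraMap_iff_fixed z).2 h

lemma exists_sqrt {k : Type*} (Ω : Type*) [Field k] [Field Ω] [Algebra k Ω] [IsAlgClosed Ω]
    {d : k} (hd : d ≠ 0) : ∃ r : Ω, r ≠ 0 ∧ r ^ 2 = algebraMap k Ω d := by
  obtain ⟨r, hr⟩ := IsAlgClosed.exists_pow_nat_eq (algebraMap k Ω d) (n := 2) (by norm_num)
  refine ⟨r, ?_, hr⟩
  rintro rfl
  apply hd
  apply (algebraMap k Ω).injective
  rw [← hr, map_zero]; ring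

/-- Soluble triples are closed under multiplication. -/
theorem CPt.mul {k : Type*} [Field k] [PerfectField k] {e₁ e₂ e₃ : k} (h12 : e₁ ≠ e₂)
    (h13 : e₁ ≠ e₃) (h23 : e₂ ≠ e₃) (two : (2 : k) ≠ 0)
    {d₁ d₂ d₃ c b₁ b₂ b₃ c' : k} (hd : d₁ * d₂ * d₃ = c ^ 2) (hc : c ≠ 0)
    (hb : b₁ * b₂ * b₃ = c' ^ 2) (hc' : c' ≠ 0)
    (H : CPt e₁ e₂ e₃ d₁ d₂ d₃) (H' : CPt e₁ e₂ e₃ b₁ b₂ b₃) :
    CPt e₁ e₂ e₃ (d₁ * b₁) (d₂ * b₂) (d₃ * b₃) := by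
  classical
  have hW := isCub_cub h12 h13 h23 two
  have hdn : d₁ * d₂ * d₃ ≠ 0 := by rw [hd]; exact pow_ne_zero 2 hc
  have hbn : b₁ * b₂ * b₃ ≠ 0 := by rw [hb]; exact pow_ne_zero 2 hc'
  have hd1 : d₁ ≠ 0 := fun h => hdn (by rw [h]; ring)
  have hd2 : d₂ ≠ 0 := fun h => hdn (by rw [h]; ring)
  have hd3 : d₃ ≠ 0 := fun h => hdn (by rw [h]; ring)
  have hb1 : b₁ ≠ 0 := fun h => hbn (by rw [h]; ring)
  have hb2 : b₂ ≠ 0 := fun h => hbn (by rw [h]; ring)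
  have hb3 : b₃ ≠ 0 := fun h => hbn (by rw [h]; ring)
  let Ω := AlgebraicClosure k
  obtain ⟨r₁, n1, q1⟩ := exists_sqrt Ω hd1
  obtain ⟨r₂, n2, q2⟩ := exists_sqrt Ω hd2
  obtain ⟨r₃, n3, q3⟩ := exists_sqrt Ω hd3
  obtain ⟨s₁, m1, p1⟩ := exists_sqrt Ω hb1
  obtain ⟨s₂, m2, p2⟩ := exists_sqrt Ω hb2
  obtain ⟨s₃, m3, p3⟩ := exists_sqrt Ω hb3
  obtain ⟨R, hR⟩ := bridge_mpr (K₀ := k) (k := k) hW n1 n2 n3 q1 q2 q3 H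
  obtain ⟨R', hR'⟩ := bridge_mpr (K₀ := k) (k := k) hW m1 m2 m3 p1 p2 p3 H'
  refine bridge_mp (K₀ := k) (k := k) (Ω := Ω) hW Set.univ ?_ (mul_ne_zero n1 m1)
    (mul_ne_zero n2 m2) (mul_ne_zero n3 m3) (by rw [mul_pow, q1, p1, map_mul])
    (by rw [mul_pow, q2, p2, map_mul]) (by rw [mul_pow, q3, p3, map_mul]) (R + R') ?_
  · intro z hz
    exact fixed_of_galois z (fun σ => hz σ.toAlgHom (Set.mem_univ _))
  · intro σ _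
    obtain ⟨a, ha⟩ := exists_sg σ (fun y => σ.commutes y) n1 n2 n3 q1 q2 q3 hd
    obtain ⟨b, hb⟩ := exists_sg σ (fun y => σ.commutes y) m1 m2 m3 p1 p2 p3 hb
    refine ⟨a * b, ?_, ha.mul hb⟩
    rw [map_add, hR σ (fun y => σ.commutes y) a ha, hR' σ (fun y => σ.commutes y) b hb,
      IsCub.tau_add]
    abel

end Pool.Agent.H10
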