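import Pool.Agent.H10.LocalRing

/-!
Elements with even valuations in fields of odd class number.
-/

set_option autoImplicit false

open IsDedekindDomain NumberField nonZeroDivisors UniqueFactorizationMonoid

namespace Pool.Agent.H10

section

variable {K : Type*} [Field K] [NumberField K]

lemma exists_unit_mul_sq_int (hcl : Odd (NumberField.classNumber K)) {y : 𝓞 K} (hy : y ≠ 0)
    (hev : ∀ v : HeightOneSpectrum (𝓞 K), Even (multiplicity v.asIdeal (Ideal.span {y}))) :
    ∃ (ε : (𝓞 K)ˣ) (c : K), c ≠ 0 ∧ (y : K) = ((ε : 𝓞 K) : K) * c ^ 2 := by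
  classical
  have hI : Ideal.span {y} ≠ 0 := by
    rw [Ideal.zero_eq_bot, Ne, Ideal.span_singleton_eq_bot]; exact hy
  obtain ⟨u, hu⟩ := Multiset.exists_smul_of_dvd_count (normalizedFactors (Ideal.span {y})) (k := 2)
    (by
      intro P hP
      have hirr := irreducible_of_normalized_factor P hP
      have hpr : Prime P := hirr.prime
      have hev' := hev ⟨P, Ideal.isPrime_of_prime hpr, hpr.ne_zero⟩
      rw [multiplicity_eq_count_normalizedFactors hirr hI, normalize_eq] at hev'
      exact hev'.two_dvd)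
  set J := u.prod with hJ
  have hJ2 : J ^ 2 = Ideal.span {y} := by
    rw [hJ, ← Multiset.prod_nsmul, ← hu]
    exact Ideal.prod_normalizedFactors_eq_self hI
  have hJ0 : J ≠ 0 := by
    intro h
    rw [h] at hJ2
    exact hI (by rw [← hJ2, zero_pow two_ne_zero])
  have hJm : J ∈ (Ideal (𝓞 K))⁰ := mem_nonZeroDivisors_of_ne_zero hJ0
  have hh : ClassGroup.mk0 ⟨J, hJm⟩ ^ (NumberField.classNumber K) = 1 := by
    unfold NumberField.classNumber
    exact pow_card_eq_one
  rw [← map_pow] at hh
  have hh' := (ClassGroup.mk0_eq_one_iff (I := J ^ (NumberField.classNumber K))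
    (pow_mem hJm _)).mp hh
  obtain ⟨⟨c, hc⟩⟩ := hh'
  obtain ⟨k, hk⟩ := hcl
  have h1 : Ideal.span {y ^ (NumberField.classNumber K)} = Ideal.span {c ^ 2} := by
    rw [← Ideal.span_singleton_pow, ← Ideal.span_singleton_pow, ← hJ2]
    have : Ideal.span {c} = J ^ (NumberField.classNumber K) := by
      rw [hc]
    rw [this]
    ring
  rw [Ideal.span_singleton_eq_span_singleton] at h1
  obtain ⟨ε, hε⟩ := h1.symm
  have hyK : (y : K) ≠ 0 := RingOfIntegers.coe_ne_zero_iff.mpr hy
  have hcK : (c : K) ≠ 0 := by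
    rw [RingOfIntegers.coe_ne_zero_iff]
    intro h0
    rw [h0, zero_pow two_ne_zero, zero_mul] at hε
    exact pow_ne_zero _ hy hε.symm
  refine ⟨ε, (c : K) / (y : K) ^ k, div_ne_zero hcK (pow_ne_zero _ hyK), ?_⟩
  have h2 : (y : K) ^ (2 * k + 1) = (c : K) ^ 2 * ((ε : 𝓞 K) : K) := by
    rw [← hk]
    have := congrArg (algebraMap (𝓞 K) K) hε
    rw [map_mul, map_pow, map_pow] at this
    exact this.symm
  field_simp
  rw [mul_comm, ← pow_mul, mul_comm k 2, ← pow_succ, h2]
  ring

theorem exists_unit_mul_sq (hcl : Odd (NumberField.classNumber K)) {x : K} (hx : x ≠ 0)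
    (hev : ∀ v : HeightOneSpectrum (𝓞 K), Even (WithZero.log (v.valuation K x))) :
    ∃ (ε : (𝓞 K)ˣ) (c : K), c ≠ 0 ∧ x = ((ε : 𝓞 K) : K) * c ^ 2 := by
  obtain ⟨a, b, hb, rfl⟩ := IsFractionRing.div_surjective (A := 𝓞 K) x
  have hb0 : b ≠ 0 := nonZeroDivisors.ne_zero hb
  have ha0 : a ≠ 0 := by
    rintro rfl
    apply hx
    simp
  have haK : (a : K) ≠ 0 := RingOfIntegers.coe_ne_zero_iff.mpr ha0
  have hbK : (b : K) ≠ 0 := RingOfIntegers.coe_ne_zero_iff.mpr hb0
  obtain ⟨ε, c, hc, h⟩ := exists_unit_mul_sq_int hcl (y := a * b) (mul_ne_zero ha0 hb0) (by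
    intro v
    have h1 := hev v
    have h2 : v.valuation K ((a * b : 𝓞 K) : K) =
        v.valuation K ((a : K) / (b : K)) * v.valuation K (b : K) ^ 2 := by
      rw [← map_pow, ← map_mul]
      congr 1
      push_cast
      field_simp
    have h3 := v.intValuation_eq_exp_neg_multiplicity (mul_ne_zero ha0 hb0)
    rw [← v.valuation_of_algebraMap (K := K)] at h3
    have h4 := congrArg WithZero.log h2
    change WithZero.log (v.valuation K (algebraMap (𝓞 K) K (a * b))) = _ at h4
    rw [h3, WithZero.log_exp, WithZero.log_mul, WithZero.log_pow] at h4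
    · rw [Int.even_iff] at h1
      have h5 : (multiplicity v.asIdeal (Ideal.span {a * b}) : ℤ) % 2 = 0 := by
        change WithZero.log (v.valuation K ((a : K) / (b : K))) % 2 = 0 at h1
        simp only [nsmul_eq_mul, Nat.cast_ofNat] at h4
        omega
      rw [Nat.even_iff]
      omega
    · rw [Valuation.ne_zero_iff]
      exact div_ne_zero haK hbK
    · exact pow_ne_zero _ ((Valuation.ne_zero_iff _).mpr hbK))
  refine ⟨ε, c / b, div_ne_zero hc hbK, ?_⟩
  change (a : K) / (b : K) = _
  push_cast at h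
  field_simp
  exact h

end

end Pool.Agent.H10
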