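import Pool.Agent.H10.GrowTower

/-!
Two facts on the fields of a real cyclotomic tower.
-/

set_option autoImplicit false

open IsDedekindDomain NumberField H5SW

namespace Pool.Agent.H10

theorem primes_bounded {p : ℕ} [Fact p.Prime] (hp2 : p ≠ 2) {z : ℤ} (hz : z ≠ 0) :
    ∃ C : ℕ, ∀ (L : Type) [Field L] [NumberField L], IsR p L →
      {w : HeightOneSpectrum (𝓞 L) | (z : 𝓞 L) ∈ w.asIdeal}.ncard ≤ C :=
  bad_count hp2 hz

theorem unram {p : ℕ} [Fact p.Prime] (hp2 : p ≠ 2) {L : Type} [Field L] [NumberField L]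
    (hL : IsR p L) (w : HeightOneSpectrum (𝓞 L)) (hw : (2 : 𝓞 L) ∈ w.asIdeal) :
    (2 : 𝓞 L) ∉ w.asIdeal ^ 2 := by
  obtain ⟨n, M, F, _, _, _, _, _, _, _, ⟨Tw⟩⟩ := exists_tower (p := p) (K := L) hp2 hL (i := 0)
    (by rw [Module.finrank_self, pow_zero])
  exact two_unramified hp2 Tw w hw

end Pool.Agent.H10
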