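import Pool.Agent.H10.LocalRing

/-!
Ring homomorphisms out of adic completions.
-/

set_option autoImplicit false

open IsDedekindDomain NumberField WithZero Topology

namespace Pool.Agent.H10

section

variable {R K : Type*} [CommRing R] [IsDedekindDomain R] [Field K] [Algebra R K]
  [IsFractionRing R K] (v : HeightOneSpectrum R)
variable {F : Type*} [Field F] [UniformSpace F] [IsUniformAddGroup F] [IsTopologicalRing F]

/-- The ring homomorphism from the type synonym. -/
noncomputable def fromVal (f : K →+* F) : WithVal (v.valuation K) →+* F :=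
  f.comp (WithVal.equiv (v.valuation K)).toRingHom

lemma continuous_fromVal (f : K →+* F)
    (h : ∀ U ∈ 𝓝 (0 : F), ∃ k : ℕ, ∀ x : K, v.valuation K x ≤ exp (-(k : ℤ)) → f x ∈ U) :
    Continuous (fromVal v f) := by
  apply continuous_of_continuousAt_zero
  unfold ContinuousAt
  rw [map_zero]
  intro U hU
  obtain ⟨k, hk⟩ := h U hU
  obtain ⟨t, ht⟩ := v.valuation_surjective K (exp (-(k : ℤ)))
  rw [Filter.mem_map, Valued.mem_nhds_zero]
  refine ⟨Units.mk0 (Valued.v.restrict (WithVal.toVal (v.valuation K) t)) ?_, ?_⟩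
  · rw [Ne, Valuation.restrict_eq_zero_iff, WithVal.valued_toVal, ht]
    exact exp_ne_zero
  · intro x hx
    change Valued.v.restrict x < Valued.v.restrict (WithVal.toVal (v.valuation K) t) at hx
    rw [Valuation.restrict_lt_iff, WithVal.valued_toVal (v.valuation K) t, ht] at hx
    apply hk
    exact le_of_lt hx

variable [CompleteSpace F] [T0Space F]

/-- The extension of a continuous homomorphism to the completion. -/
noncomputable def adicLift (f : K →+* F) (hf : Continuous (fromVal v f)) :
    v.adicCompletion K →+* F :=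
  (UniformSpace.Completion.extensionHom (fromVal v f) hf).comp
    (HeightOneSpectrum.adicCompletion.equiv K v).toRingHom

lemma adicLift_algebraMap (f : K →+* F) (hf : Continuous (fromVal v f)) (x : K) :
    adicLift v f hf (algebraMap K (v.adicCompletion K) x) = f x := by
  have := UniformSpace.Completion.extensionHom_coe (fromVal v f) hf
    (WithVal.toVal (v.valuation K) x)
  exact this

lemma continuous_adicLift (f : K →+* F) (hf : Continuous (fromVal v f)) :
    Continuous (adicLift v f hf) :=
  UniformSpace.Completion.continuous_extension.comp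
    (HeightOneSpectrum.adicCompletion.continuous_toCompletion K v)

end

section

variable {K L : Type*} [Field K] [NumberField K] [Field L] [NumberField L] [Algebra K L]
  {v : HeightOneSpectrum (𝓞 K)} {w : HeightOneSpectrum (𝓞 L)}

/-- `w` lies over `v`. -/
def Over (v : HeightOneSpectrum (𝓞 K)) (w : HeightOneSpectrum (𝓞 L)) : Prop :=
  ∀ x : 𝓞 K, x ∈ v.asIdeal → algebraMap (𝓞 K) (𝓞 L) x ∈ w.asIdeal

lemma Over.not_mem (h : Over v w) {x : 𝓞 K} (hx : x ∉ v.asIdeal) :
    algebraMap (𝓞 K) (𝓞 L) x ∉ w.asIdeal := by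
  have hmax : v.asIdeal.IsMaximal := v.isMaximal
  have hle : v.asIdeal ≤ w.asIdeal.comap (algebraMap (𝓞 K) (𝓞 L)) := fun y hy => h y hy
  have heq := hmax.eq_of_le (Ideal.comap_ne_top _ w.isPrime.ne_top) hle
  intro h1
  apply hx
  rw [heq]
  exact h1

lemma Over.valuation_le (h : Over v w) {x : K} {k : ℕ}
    (hx : v.valuation K x ≤ exp (-(k : ℤ))) :
    w.valuation L (algebraMap K L x) ≤ exp (-(k : ℤ)) := by
  have h1 : v.valuation K x ≤ 1 := by
    refine hx.trans ?_
    rw [← exp_zero, exp_le_exp]
    omega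
  obtain ⟨n, ⟨d, hd⟩, hnd⟩ := HeightOneSpectrum.exists_primeCompl_mul_eq_of_integer v x h1
  change d ∉ v.asIdeal at hd
  change x * algebraMap (𝓞 K) K d = algebraMap (𝓞 K) K n at hnd
  have hd1 : v.valuation K (algebraMap (𝓞 K) K d) = 1 :=
    (v.valuation_eq_one_iff_notMem (K := K)).mpr hd
  have hd2 : w.valuation L (algebraMap (𝓞 L) L (algebraMap (𝓞 K) (𝓞 L) d)) = 1 :=
    (w.valuation_eq_one_iff_notMem (K := L)).mpr (h.not_mem hd)
  have hn : n ∈ v.asIdeal ^ k := by
    rw [← v.intValuation_le_pow_iff_mem, ← v.valuation_of_algebraMap (K := K)]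
    change v.valuation K (algebraMap (𝓞 K) K n) ≤ _
    rw [← hnd, map_mul, hd1, mul_one]
    exact hx
  have hn' : algebraMap (𝓞 K) (𝓞 L) n ∈ w.asIdeal ^ k := by
    have h3 : (v.asIdeal).map (algebraMap (𝓞 K) (𝓞 L)) ≤ w.asIdeal := by
      rw [Ideal.map_le_iff_le_comap]
      exact fun y hy => h y hy
    have h4 := Ideal.mem_map_of_mem (algebraMap (𝓞 K) (𝓞 L)) hn
    rw [Ideal.map_pow] at h4
    exact Ideal.pow_right_mono h3 k h4
  rw [← w.intValuation_le_pow_iff_mem, ← w.valuation_of_algebraMap (K := L)] at hn'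
  have h5 : w.valuation L (algebraMap K L x) * 1 =
      w.valuation L (algebraMap (𝓞 L) L (algebraMap (𝓞 K) (𝓞 L) n)) := by
    rw [← hd2, ← map_mul]
    congr 1
    have := congrArg (algebraMap K L) hnd
    rw [map_mul] at this
    exact this
  rw [mul_one] at h5
  rw [h5]
  exact hn'

lemma Over.small (h : Over v w) : ∀ U ∈ 𝓝 (0 : w.adicCompletion L), ∃ k : ℕ, ∀ x : K,
    v.valuation K x ≤ exp (-(k : ℤ)) →
      ((algebraMap L (w.adicCompletion L)).comp (algebraMap K L)) x ∈ U := by
  intro U hU
  rw [Valued.mem_nhds_zero] at hU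
  obtain ⟨γ, hγ⟩ := hU
  obtain ⟨k, hk⟩ := exists_exp_neg_natCast_lt
    (x := MonoidWithZeroHom.ValueGroup₀.embedding γ.1) (by simp)
  refine ⟨k, fun x hx => hγ ?_⟩
  change Valued.v.restrict _ < γ.1
  rw [Valuation.restrict_lt_iff_lt_embedding]
  refine lt_of_le_of_lt ?_ hk
  have h1 := w.valuedAdicCompletion_eq_valuation' (K := L) (algebraMap K L x)
  change Valued.v (algebraMap L (w.adicCompletion L) (algebraMap K L x)) = _ at h1
  change Valued.v (algebraMap L (w.adicCompletion L) (algebraMap K L x)) ≤ _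
  rw [h1]
  exact h.valuation_le hx

/-- The map of completions for a place above. -/
noncomputable def Over.map (h : Over v w) : v.adicCompletion K →+* w.adicCompletion L :=
  adicLift v ((algebraMap L (w.adicCompletion L)).comp (algebraMap K L))
    (continuous_fromVal v _ h.small)

lemma Over.map_algebraMap (h : Over v w) (x : K) :
    h.map (algebraMap K (v.adicCompletion K) x) =
      algebraMap L (w.adicCompletion L) (algebraMap K L x) :=
  adicLift_algebraMap v _ _ x

lemma Over.continuous_map (h : Over v w) : Continuous h.map :=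
  continuous_adicLift v _ _

end

end Pool.Agent.H10
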