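import Pool.Agent.H10.Kummer

/-!
Cocycles of the frozen statement and local triples.
-/

set_option autoImplicit false
open scoped Classical

open WeierstrassCurve

namespace Pool.Agent.H10

section defs

variable (K : Type) [Field K] [NumberField K] (W : WeierstrassCurve K)

/-- `f` is a locally constant one-cocycle of the absolute Galois group of `K` with values in
`E(K^al)`. -/
def IsCocycle
    (f : (AlgebraicClosure K ≃ₐ[K] AlgebraicClosure K) →
      (W.baseChange (AlgebraicClosure K)).toAffine.Point) : Prop :=
  IsLocallyConstant f ∧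
  ∀ σ τ : AlgebraicClosure K ≃ₐ[K] AlgebraicClosure K,
    f (σ * τ) = f σ +
      (WeierstrassCurve.Affine.Point.map σ.toAlgHom :
        (W.baseChange (AlgebraicClosure K)).toAffine.Point →+
          (W.baseChange (AlgebraicClosure K)).toAffine.Point) (f τ)

/-- `f` becomes a coboundary in `E` over every completion of `K`. -/
def IsLocTriv
    (f : (AlgebraicClosure K ≃ₐ[K] AlgebraicClosure K) →
      (W.baseChange (AlgebraicClosure K)).toAffine.Point) : Prop :=
  (∀ v : IsDedekindDomain.HeightOneSpectrum (NumberField.RingOfIntegers K),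
    ∀ ι : AlgebraicClosure K →ₐ[K] AlgebraicClosure (v.adicCompletion K),
    ∃ P : (W.baseChange (AlgebraicClosure (v.adicCompletion K))).toAffine.Point,
    ∀ τ : AlgebraicClosure (v.adicCompletion K) ≃ₐ[v.adicCompletion K]
          AlgebraicClosure (v.adicCompletion K),
    ∀ σ : AlgebraicClosure K ≃ₐ[K] AlgebraicClosure K,
      (τ.toAlgHom.restrictScalars K).comp ι = ι.comp σ.toAlgHom →
      (WeierstrassCurve.Affine.Point.map ι :
        (W.baseChange (AlgebraicClosure K)).toAffine.Point →+
          (W.baseChange (AlgebraicClosure (v.adicCompletion K))).toAffine.Point) (f σ) =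
        (WeierstrassCurve.Affine.Point.map (τ.toAlgHom.restrictScalars K) :
          (W.baseChange (AlgebraicClosure (v.adicCompletion K))).toAffine.Point →+
            (W.baseChange (AlgebraicClosure (v.adicCompletion K))).toAffine.Point) P - P) ∧
  (∀ v : NumberField.InfinitePlace K,
    ∀ ι : AlgebraicClosure K →ₐ[K] AlgebraicClosure v.Completion,
    ∃ P : (W.baseChange (AlgebraicClosure v.Completion)).toAffine.Point,
    ∀ τ : AlgebraicClosure v.Completion ≃ₐ[v.Completion] AlgebraicClosure v.Completion,
    ∀ σ : AlgebraicClosure K ≃ₐ[K] AlgebraicClosure K,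
      (τ.toAlgHom.restrictScalars K).comp ι = ι.comp σ.toAlgHom →
      (WeierstrassCurve.Affine.Point.map ι :
        (W.baseChange (AlgebraicClosure K)).toAffine.Point →+
          (W.baseChange (AlgebraicClosure v.Completion)).toAffine.Point) (f σ) =
        (WeierstrassCurve.Affine.Point.map (τ.toAlgHom.restrictScalars K) :
          (W.baseChange (AlgebraicClosure v.Completion)).toAffine.Point →+
            (W.baseChange (AlgebraicClosure v.Completion)).toAffine.Point) P - P)

/-- `f` is a coboundary. -/
def IsCobound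
    (f : (AlgebraicClosure K ≃ₐ[K] AlgebraicClosure K) →
      (W.baseChange (AlgebraicClosure K)).toAffine.Point) : Prop :=
  ∃ Q : (W.baseChange (AlgebraicClosure K)).toAffine.Point,
    ∀ σ : AlgebraicClosure K ≃ₐ[K] AlgebraicClosure K,
      f σ = (WeierstrassCurve.Affine.Point.map σ.toAlgHom :
        (W.baseChange (AlgebraicClosure K)).toAffine.Point →+
          (W.baseChange (AlgebraicClosure K)).toAffine.Point) Q - Q

/-- The `2`-primary part of the Tate-Shafarevich group of `W` over `K` is trivial. -/
def Sha2Trivial : Prop :=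
  ∀ f : (AlgebraicClosure K ≃ₐ[K] AlgebraicClosure K) →
      (W.baseChange (AlgebraicClosure K)).toAffine.Point,
    IsCocycle K W f → IsLocTriv K W f → (∃ m : ℕ, IsCobound K W (fun σ => (2 ^ m) • f σ)) →
    IsCobound K W f

end defs

/-- Restriction of automorphisms along an embedding of algebraic closures. -/
lemma exists_restrict {K F Ω Ω' : Type*} [Field K] [Field F] [Field Ω] [Field Ω']
    [Algebra K F] [Algebra K Ω] [Algebra F Ω'] [Algebra K Ω'] [IsScalarTower K F Ω'] [Normal K Ω]
    (ι : Ω →ₐ[K] Ω') (τ : Ω' ≃ₐ[F] Ω') :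
    ∃ σ : Ω ≃ₐ[K] Ω, (τ.toAlgHom.restrictScalars K).comp ι = ι.comp σ.toAlgHom := by
  -- the image of `ι` is a normal subextension
  let E : IntermediateField K Ω' := ι.fieldRange
  let e : Ω ≃ₐ[K] E := AlgEquiv.ofInjectiveField ι
  have hE : Normal K E := Normal.of_algEquiv e
  let t : Ω' ≃ₐ[K] Ω' := τ.restrictScalars K
  let t' : E ≃ₐ[K] E := t.restrictNormal E
  refine ⟨(e.trans t').trans e.symm, ?_⟩
  ext x
  have h1 : (algebraMap E Ω') (t' (e x)) = t (algebraMap E Ω' (e x)) :=
    AlgEquiv.restrictNormal_commutes t E (e x)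
  have h2 : ∀ y : Ω, (algebraMap E Ω') (e y) = ι y := fun y => rfl
  change τ (ι x) = ι (e.symm (t' (e x)))
  rw [← h2 (e.symm (t' (e x))), AlgEquiv.apply_symm_apply, h1, h2]
  rfl

end Pool.Agent.H10
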