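import Pool.Agent.H10.Iso3
import Pool.Agent.H11.MW

/-!
The Mordell-Weil group over `K` has odd index exponent in that over `L`.
-/

set_option autoImplicit false
set_option linter.style.haveILetI false
open scoped Classical

open WeierstrassCurve IsDedekindDomain NumberField

namespace Pool.Agent.H10

theorem odd_exponent {A B : Type*} [AddCommGroup A] [AddCommGroup B] (i : A →+ B)
    (hfg : AddGroup.FG B) (h : ∀ b : B, ∃ (a : A) (c : B), b = i a + (c + c)) :
    ∃ m : ℕ, Odd m ∧ ∀ b : B, ∃ a : A, m • b = i a := by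
  have hfin : Module.Finite ℤ B := Module.Finite.iff_addGroup_fg.mpr hfg
  let N := i.range.toIntSubmodule
  obtain ⟨r, hr, hr0⟩ := Submodule.exists_sub_one_mem_and_smul_eq_zero_of_fg_of_le_smul
    (Ideal.span {(2 : ℤ)}) (⊤ : Submodule ℤ (B ⧸ N)) Module.Finite.fg_top (by
      rintro x -
      obtain ⟨b, rfl⟩ := Submodule.Quotient.mk_surjective N x
      obtain ⟨a, c, rfl⟩ := h b
      have h1 : Submodule.Quotient.mk (p := N) (i a + (c + c)) =
          (2 : ℤ) • Submodule.Quotient.mk (p := N) c := by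
        rw [← Submodule.Quotient.mk_smul, Submodule.Quotient.eq]
        refine ⟨a, ?_⟩
        rw [two_zsmul]
        abel
      rw [h1]
      exact Submodule.smul_mem_smul (Ideal.mem_span_singleton_self _) trivial)
  rw [Ideal.mem_span_singleton] at hr
  have hodd : Odd r := by
    obtain ⟨k, hk⟩ := hr
    exact ⟨k, by linarith⟩
  refine ⟨r.natAbs, Int.natAbs_odd.mpr hodd, fun b => ?_⟩
  have h1 := hr0 (Submodule.Quotient.mk b) trivial
  rw [← Submodule.Quotient.mk_smul, Submodule.Quotient.mk_eq_zero] at h1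
  obtain ⟨a, ha⟩ := h1
  rcases Int.natAbs_eq r with h2 | h2
  · refine ⟨a, ?_⟩
    rw [ha]
    conv_rhs => rw [h2]
    rw [natCast_zsmul]
  · refine ⟨-a, ?_⟩
    rw [map_neg, ha]
    conv_rhs => rw [h2]
    rw [neg_smul, neg_neg, natCast_zsmul]

section

variable {K L : Type} [Field K] [NumberField K] [Field L] [NumberField L] [Algebra K L]
variable {V : WeierstrassCurve K} {V' : WeierstrassCurve L}

lemma IsCub.isElliptic {k : Type*} [Field k] {W : WeierstrassCurve k} {e₁ e₂ e₃ : k}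
    (h : IsCub W e₁ e₂ e₃) : W.IsElliptic := by
  constructor
  rw [isUnit_iff_ne_zero]
  have h1 : W.Δ = 16 * ((e₁ - e₂) * (e₁ - e₃) * (e₂ - e₃)) ^ 2 := by
    unfold WeierstrassCurve.Δ WeierstrassCurve.b₂ WeierstrassCurve.b₄ WeierstrassCurve.b₆
      WeierstrassCurve.b₈
    rw [h.a₁, h.a₂, h.a₃, h.a₄, h.a₆]
    ring
  rw [h1]
  have h16 : (16 : k) ≠ 0 := by
    have : (16 : k) = 2 ^ 4 := by norm_num
    rw [this]
    exact pow_ne_zero 4 h.two
  exact mul_ne_zero h16 (pow_ne_zero 2 (mul_ne_zero (mul_ne_zero (sub_ne_zero.mpr h.h12)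
    (sub_ne_zero.mpr h.h13)) (sub_ne_zero.mpr h.h23)))

theorem mw_odd (hodd : Odd (Module.finrank K L))
    {e₁ e₂ e₃ : K} (h : IsCub V e₁ e₂ e₃) (hV : V.map (algebraMap K L) = V')
    (H : NewTrivial K L (algebraMap K L e₁) (algebraMap K L e₂) (algebraMap K L e₃)) :
    ∃ m : ℕ, Odd m ∧ ∀ P : V'.toAffine.Point, ∃ Q : V.toAffine.Point,
      m • P = pm (algebraMap K L) hV Q := by
  have h' := (h.up hV).isElliptic
  exact odd_exponent (pm (algebraMap K L) hV) (Pool.Agent.H11.mordell_weil V')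
    (mw_up hodd h hV H)

end

end Pool.Agent.H10
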