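import Pool.Agent.H10.Inert
import Pool.Agent.H10.ClassCrit
import Pool.Agent.H10.OddIndex

/-!
Assembly of the odd degree stability theorem.
-/

set_option autoImplicit false
set_option linter.style.haveILetI false
open scoped Classical

open WeierstrassCurve IsDedekindDomain NumberField

namespace Pool.Agent.H10

section

/-- The curve is semistable above two, in the shape `a = 16 α`, `b` prime to two and `-b` a square
modulo four, and the primes above two at which it is bad (those dividing `α`) have only one prime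
of `L` above them. -/
def SemistableAtTwo (K L : Type) [Field K] [NumberField K] [Field L] [NumberField L] [Algebra K L]
    (a b : 𝓞 K) : Prop :=
  ∃ α s : 𝓞 K, a = 16 * α ∧ IsCoprime b 2 ∧ (4 : 𝓞 K) ∣ b + s ^ 2 ∧
    ∀ v : HeightOneSpectrum (𝓞 K), (2 : 𝓞 K) ∈ v.asIdeal → α ∈ v.asIdeal →
      UniqueOver K L v.asIdeal

/-- Two is inert in `L`, which has odd degree over the rationals, and `a`, `b` are rational
integers which are not congruent modulo four; when the degree is divisible by three they are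
moreover not congruent to two and three in some order. -/
def InertAtTwo (K L : Type) [Field K] [NumberField K] [Field L] [NumberField L] [Algebra K L]
    (a b : 𝓞 K) : Prop :=
  Prime (2 : 𝓞 L) ∧ Odd (Module.finrank ℚ L) ∧ ∃ a₀ b₀ : ℤ, a = (a₀ : 𝓞 K) ∧ b = (b₀ : 𝓞 K) ∧
    ¬ (4 : ℤ) ∣ b₀ - a₀ ∧ (3 ∣ Module.finrank ℚ L →
      ¬ ((a₀ % 4 = 2 ∧ b₀ % 4 = 3) ∨ (a₀ % 4 = 3 ∧ b₀ % 4 = 2)))

variable {K L : Type} [Field K] [NumberField K] [Field L] [NumberField L] [Algebra K L]

lemma isCub_legendre {a b : 𝓞 K} (ha : a ≠ 0) (hb : b ≠ 0) (hab : a ≠ b) :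
    IsCub (⟨0, -((a : K) + b), 0, (a : K) * b, 0⟩ : WeierstrassCurve K) 0 (a : K) (b : K) where
  a₁ := rfl
  a₂ := by ring
  a₃ := rfl
  a₄ := by ring
  a₆ := by ring
  h12 := fun h => ha (RingOfIntegers.coe_eq_zero_iff.mp h.symm)
  h13 := fun h => hb (RingOfIntegers.coe_eq_zero_iff.mp h.symm)
  h23 := fun h => hab (RingOfIntegers.coe_injective h)
  two := two_ne_zero

lemma adm_cases {a b : ℤ} (h : ¬ (4 : ℤ) ∣ b - a) : Adm a b ∨ Adm' a b := by
  have ha : a % 4 = 0 ∨ a % 4 = 1 ∨ a % 4 = 2 ∨ a % 4 = 3 := by omega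
  have hb : b % 4 = 0 ∨ b % 4 = 1 ∨ b % 4 = 2 ∨ b % 4 = 3 := by omega
  rcases ha with ha | ha | ha | ha <;> rcases hb with hb | hb | hb | hb
  · exact absurd (by omega) h
  · exact Or.inl (Or.inl ⟨ha, by omega⟩)
  · exact Or.inl (Or.inr (Or.inr (Or.inr (Or.inr (Or.inr (Or.inr (Or.inr ⟨ha, hb⟩)))))))
  · exact Or.inl (Or.inl ⟨ha, by omega⟩)
  · exact Or.inl (Or.inr (Or.inr (Or.inl ⟨hb, by omega⟩)))
  · exact absurd (by omega) h
  · exact Or.inl (Or.inr (Or.inr (Or.inr (Or.inl ⟨hb, ha⟩))))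
  · exact Or.inl (Or.inr (Or.inr (Or.inr (Or.inr (Or.inl ⟨ha, hb⟩)))))
  · exact Or.inl (Or.inr (Or.inr (Or.inr (Or.inr (Or.inr (Or.inr (Or.inl ⟨ha, hb⟩)))))))
  · exact Or.inl (Or.inr (Or.inl ⟨ha, hb⟩))
  · exact absurd (by omega) h
  · exact Or.inr (Or.inl ⟨ha, hb⟩)
  · exact Or.inl (Or.inr (Or.inr (Or.inl ⟨hb, by omega⟩)))
  · exact Or.inl (Or.inr (Or.inr (Or.inr (Or.inr (Or.inr (Or.inl ⟨ha, hb⟩))))))
  · exact Or.inr (Or.inr ⟨ha, hb⟩)
  · exact absurd (by omega) h

theorem newTrivial (hodd : Odd (Module.finrank K L)) (R1 : NoNewPositive K L)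
    (R2 : NoNewUnramified K L) {a b : 𝓞 K}
    (hpos : ∀ φ : K →+* ℝ, 0 < φ a ∧ 0 < φ b)
    (hbad : ∀ v : HeightOneSpectrum (𝓞 K), (2 : 𝓞 K) ∉ v.asIdeal → a * b * (b - a) ∈ v.asIdeal →
      UniqueOver K L v.asIdeal)
    (htwo : SemistableAtTwo K L a b ∨ InertAtTwo K L a b) :
    NewTrivial K L (algebraMap K L 0) (algebraMap K L a) (algebraMap K L b) := by
  rcases htwo with ⟨α, s, rfl, hcop, hs, hb2⟩ | ⟨h2, hoddL, a₀, b₀, rfl, rfl, hab4, h3⟩
  · have e16 : ((16 * α : 𝓞 K) : K) = 16 * (α : K) := by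
      have := map_mul (algebraMap (𝓞 K) K) 16 α
      rw [map_ofNat] at this
      exact this
    rw [e16]
    apply newTrivial_semi hodd R1 R2 (α := α) (β := b) _ hcop ⟨s, hs⟩
    · intro v hv
      by_cases h2 : (2 : 𝓞 K) ∈ v.asIdeal
      · apply hb2 v h2
        have hbv : b ∉ v.asIdeal := by
          intro hb
          obtain ⟨p, q, hpq⟩ := hcop
          apply v.isPrime.ne_top
          rw [Ideal.eq_top_iff_one, ← hpq]
          exact Ideal.add_mem _ (Ideal.mul_mem_left _ _ hb) (Ideal.mul_mem_left _ _ h2)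
        rcases v.isPrime.mem_or_mem hv with h | h
        · rcases v.isPrime.mem_or_mem h with h | h
          · exact h
          · exact absurd h hbv
        · exfalso
          apply hbv
          have h5 : b = (b - 16 * α) + 2 * (8 * α) := by ring
          rw [h5]
          exact Ideal.add_mem _ h (Ideal.mul_mem_right _ _ h2)
      · apply hbad v h2
        have h5 : 16 * α * b * (b - 16 * α) = 16 * (α * b * (b - 16 * α)) := by ring
        rw [h5]
        exact Ideal.mul_mem_left _ _ hv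
    · intro φ
      obtain ⟨p1, p2⟩ := hpos φ
      rw [e16, map_mul, map_ofNat] at p1
      exact ⟨(mul_pos_iff_of_pos_left (by norm_num)).mp p1, p2⟩
  · have ea : ((a₀ : 𝓞 K) : K) = (a₀ : K) := map_intCast (algebraMap (𝓞 K) K) a₀
    have eb : ((b₀ : 𝓞 K) : K) = (b₀ : K) := map_intCast (algebraMap (𝓞 K) K) b₀
    rw [ea, eb] at hpos ⊢
    apply newTrivial_inert hoddL R1 R2 h2 hpos
    · rcases adm_cases hab4 with h | h
      · exact Or.inl h
      · exact Or.inr ⟨h, fun h3' => h3 h3' h⟩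
    · intro v hv2 hv
      apply hbad v hv2
      push_cast at hv
      exact hv

end

end Pool.Agent.H10
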