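import Pool.Agent.H10.RatSel3
import Pool.Agent.H10.Main

/-!
Congruent number curves over fields of odd degree.
-/

set_option autoImplicit false
set_option linter.style.haveILetI false
open scoped Classical

open WeierstrassCurve IsDedekindDomain NumberField

namespace Pool.Agent.H10

section shift

lemma CPt.shift {k : Type*} [Field k] {e₁ e₂ e₃ d₁ d₂ d₃ : k} (t : k)
    (H : CPt (e₁ + t) (e₂ + t) (e₃ + t) d₁ d₂ d₃) : CPt e₁ e₂ e₃ d₁ d₂ d₃ := by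
  obtain ⟨z₀, z₁, z₂, z₃, hz, E1, E2⟩ := H
  exact ⟨z₀, z₁, z₂, z₃, hz, by linear_combination E1, by linear_combination E2⟩

variable {K : Type} [Field K] [NumberField K] {e₁ e₂ e₃ : K}

lemma FinSol.shift {d₁ d₂ d₃ : K} (t : K) (H : FinSol K (e₁ + t) (e₂ + t) (e₃ + t) d₁ d₂ d₃) :
    FinSol K e₁ e₂ e₃ d₁ d₂ d₃ := by
  intro v
  have h := H v
  rw [map_add, map_add, map_add] at h
  exact h.shift

lemma InfSol.shift {d₁ d₂ d₃ : K} (t : K) (H : InfSol K (e₁ + t) (e₂ + t) (e₃ + t) d₁ d₂ d₃) :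
    InfSol K e₁ e₂ e₃ d₁ d₂ d₃ := by
  intro v
  have h := H v
  rw [map_add, map_add, map_add] at h
  exact h.shift

lemma SelTors.shift {f₁ f₂ f₃ : K} (t : K) (g1 : f₁ + t = e₁) (g2 : f₂ + t = e₂)
    (g3 : f₃ + t = e₃) (H : SelTors K e₁ e₂ e₃) : SelTors K f₁ f₂ f₃ := by
  intro d₁ d₂ d₃ c hd hc Hf Hi
  have h1 : FinSol K e₁ e₂ e₃ d₁ d₂ d₃ := by
    apply FinSol.shift (-t)
    rw [← g1, ← g2, ← g3, add_neg_cancel_right, add_neg_cancel_right, add_neg_cancel_right]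
    exact Hf
  have h2 : InfSol K e₁ e₂ e₃ d₁ d₂ d₃ := by
    apply InfSol.shift (-t)
    rw [← g1, ← g2, ← g3, add_neg_cancel_right, add_neg_cancel_right, add_neg_cancel_right]
    exact Hi
  obtain ⟨t₁, t₂, t₃, ht, h⟩ := H d₁ d₂ d₃ c hd hc h1 h2
  refine ⟨t₁, t₂, t₃, ?_, h⟩
  unfold TorsCls at ht ⊢
  rw [← g1, ← g2, ← g3] at ht
  simp only [add_sub_add_right_eq_sub] at ht
  exact ht

lemma NewTrivial.shift {L : Type} [Field L] [NumberField L] [Algebra K L] {e₁ e₂ e₃ f₁ f₂ f₃ : L}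
    (t : L) (g1 : f₁ + t = e₁) (g2 : f₂ + t = e₂) (g3 : f₃ + t = e₃)
    (H : NewTrivial K L e₁ e₂ e₃) : NewTrivial K L f₁ f₂ f₃ := by
  intro d₁ d₂ d₃ c hd hc Hf Hi
  apply H d₁ d₂ d₃ c hd hc
  · apply FinSol.shift (-t)
    rw [← g1, ← g2, ← g3, add_neg_cancel_right, add_neg_cancel_right, add_neg_cancel_right]
    exact Hf
  · apply InfSol.shift (-t)
    rw [← g1, ← g2, ← g3, add_neg_cancel_right, add_neg_cancel_right, add_neg_cancel_right]
    exact Hi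

end shift

section

variable {K L : Type} [Field K] [NumberField K] [Field L] [NumberField L] [Algebra K L]
variable {V : WeierstrassCurve K} {V' : WeierstrassCurve L} {e₁ e₂ e₃ : K}

lemma mk_mem_iff' {K : Type} [Field K] [NumberField K] {W : WeierstrassCurve K} (f : ShaZ K W) :
    (∃ m : ℕ, 2 ^ m • Sha.mk f = 0) ↔ ∃ m : ℕ, IsCobound K W (fun σ => (2 ^ m) • f.1 σ) := by
  refine exists_congr fun m => ?_
  rw [← Sha.mk_nsmul, Sha.mk_eq_zero]
  rfl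

theorem sha2Trivial_up (hodd : Odd (Module.finrank K L)) (h : IsCub V e₁ e₂ e₃)
    (hV : V.map (algebraMap K L) = V')
    (H : NewTrivial K L (algebraMap K L e₁) (algebraMap K L e₂) (algebraMap K L e₃))
    (H0 : Sha2Trivial K V) : Sha2Trivial L V' := by
  intro g hg hl hm
  let G : ShaZ L V' := ⟨g, hg, hl⟩
  obtain ⟨x, hx, hxg⟩ := (sha_bijOn hodd h hV H).2.2 ((mk_mem_iff' G).mpr hm)
  obtain ⟨f, rfl⟩ := Sha.mk_surjective x
  have h1 : IsCobound K V f.1 := H0 f.1 f.2.1 f.2.2 ((mk_mem_iff' f).mp hx)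
  have h2 : Sha.mk f = 0 := (Sha.mk_eq_zero f).mpr h1
  rw [h2, map_zero] at hxg
  exact (Sha.mk_eq_zero G).mp hxg.symm

theorem finite_up (hodd : Odd (Module.finrank K L)) (h : IsCub V e₁ e₂ e₃)
    (hV : V.map (algebraMap K L) = V')
    (H : NewTrivial K L (algebraMap K L e₁) (algebraMap K L e₂) (algebraMap K L e₃))
    (H0 : SelTors K e₁ e₂ e₃) : Finite V'.toAffine.Point := by
  obtain ⟨m, hm, hP⟩ := mw_odd hodd h hV H
  obtain ⟨n, hn, hQ⟩ := H0.torsion h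
  have := (h.up hV).isElliptic
  refine finite_of_torsion (m := n * m) (mul_ne_zero hn (by rintro rfl; simp at hm)) (fun P => ?_)
  obtain ⟨Q, hQ'⟩ := hP P
  rw [mul_nsmul', hQ', ← map_nsmul, hQ, map_zero]

end

/-- The vanishing of the two-primary part and the finiteness of the Mordell-Weil group. -/
theorem cong_main {L : Type} [Field L] [NumberField L] {N p : ℕ} (hN : GoodN N p)
    (hodd : Odd (Module.finrank ℚ L)) (hcl : Odd (NumberField.classNumber L))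
    (hU1 : ∀ u : (𝓞 L)ˣ, (∀ φ : L →+* ℝ, 0 < φ ((u : 𝓞 L) : L)) → IsSquare u)
    (hU2 : ∀ u : (𝓞 L)ˣ, (∃ s : 𝓞 L, (4 : 𝓞 L) ∣ (u : 𝓞 L) - s ^ 2) → IsSquare u)
    (h2 : Prime (2 : 𝓞 L)) (hu : UniqueAbove L p)
    (h3 : p % 8 = 3 → ¬ 3 ∣ Module.finrank ℚ L) :
    Sha2Trivial L (⟨0, 0, 0, -(N : L) ^ 2, 0⟩ : WeierstrassCurve L) ∧
      Finite (⟨0, 0, 0, -(N : L) ^ 2, 0⟩ : WeierstrassCurve L).toAffine.Point := by
  have hN0 : 0 < N := by
    rcases hN with ⟨rfl, -⟩ | ⟨-, hp, rfl⟩ | ⟨-, hp, rfl⟩ <;> omega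
  have hNQ : (0 : ℚ) < N := by exact_mod_cast hN0
  let V : WeierstrassCurve ℚ := ⟨0, 0, 0, -(N : ℚ) ^ 2, 0⟩
  have hc : IsCub V (-(N : ℚ)) 0 N :=
    { a₁ := rfl
      a₂ := by change (0 : ℚ) = _; ring
      a₃ := rfl
      a₄ := by change -(N : ℚ) ^ 2 = _; ring
      a₆ := by change (0 : ℚ) = _; ring
      h12 := by intro h; linarith
      h13 := by intro h; linarith
      h23 := hNQ.ne
      two := two_ne_zero }
  have hS : SelTors ℚ (-(N : ℚ)) 0 N := (selTors_rat hN).shift (N : ℚ) (by ring) (by ring) (by ring)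
  have H0 : Sha2Trivial ℚ V := sha2Trivial_of_hasse hc (hS.hasse hc)
  have hV : V.map (algebraMap ℚ L) = (⟨0, 0, 0, -(N : L) ^ 2, 0⟩ : WeierstrassCurve L) := by
    change (⟨algebraMap ℚ L 0, algebraMap ℚ L 0, algebraMap ℚ L 0, algebraMap ℚ L (-(N : ℚ) ^ 2),
      algebraMap ℚ L 0⟩ : WeierstrassCurve L) = _
    rw [map_zero, map_neg, map_pow, map_natCast]
  have hT : InertAtTwo ℚ L (N : 𝓞 ℚ) ((2 * N : ℕ) : 𝓞 ℚ) := by
    refine ⟨h2, hodd, N, (2 * N : ℕ), by simp, by simp, ?_, ?_⟩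
    · rcases hN with ⟨rfl, -⟩ | ⟨-, hp, rfl⟩ | ⟨-, hp, rfl⟩ <;> omega
    · intro h3'
      rcases hN with ⟨rfl, -⟩ | ⟨-, hp, rfl⟩ | ⟨-, hp, rfl⟩
      · omega
      · exact absurd h3' (h3 hp)
      · omega
  have H := newTrivial (K := ℚ) (L := L) hodd (noNewPositive_of hcl hU1) (noNewUnramified_of hcl hU2)
    (a := (N : 𝓞 ℚ)) (b := ((2 * N : ℕ) : 𝓞 ℚ)) (by
      intro φ
      have e1 : ((N : 𝓞 ℚ) : ℚ) = (N : ℚ) := map_natCast (algebraMap (𝓞 ℚ) ℚ) N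
      have e2 : (((2 * N : ℕ) : 𝓞 ℚ) : ℚ) = ((2 * N : ℕ) : ℚ) :=
        map_natCast (algebraMap (𝓞 ℚ) ℚ) (2 * N)
      rw [e1, e2, map_natCast, map_natCast]
      constructor
      · exact_mod_cast hN0
      · exact_mod_cast (by omega : 0 < 2 * N)) (by
      intro v hv2 hv
      have hpv : (p : 𝓞 ℚ) ∈ v.asIdeal := by
        by_contra hp
        have hNv := hN.notMem v.isPrime hv2 hp
        have e : (N : 𝓞 ℚ) * ((2 * N : ℕ) : 𝓞 ℚ) * (((2 * N : ℕ) : 𝓞 ℚ) - (N : 𝓞 ℚ)) =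
            2 * (N * (N * N)) := by push_cast; ring
        rw [e] at hv
        rcases v.isPrime.mem_or_mem hv with h | h
        · exact hv2 h
        · rcases v.isPrime.mem_or_mem h with h | h
          · exact hNv h
          · rcases v.isPrime.mem_or_mem h with h | h
            · exact hNv h
            · exact hNv h
      have hL : ∀ P : Ideal (𝓞 L), v.asIdeal.map (algebraMap (𝓞 ℚ) (𝓞 L)) ≤ P →
          (p : 𝓞 L) ∈ P := by
        intro P hP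
        have := hP (Ideal.mem_map_of_mem (algebraMap (𝓞 ℚ) (𝓞 L)) hpv)
        rwa [map_natCast] at this
      intro P Q hP hQ h5 h6
      exact hu P Q hP hQ (hL P h5) (hL Q h6)) (Or.inr hT)
  have e1 : ((N : 𝓞 ℚ) : ℚ) = (N : ℚ) := map_natCast (algebraMap (𝓞 ℚ) ℚ) N
  have e2 : (((2 * N : ℕ) : 𝓞 ℚ) : ℚ) = ((2 * N : ℕ) : ℚ) :=
    map_natCast (algebraMap (𝓞 ℚ) ℚ) (2 * N)
  rw [e1, e2] at H
  have H' := H.shift (f₁ := algebraMap ℚ L (-(N : ℚ))) (f₂ := algebraMap ℚ L 0)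
    (f₃ := algebraMap ℚ L (N : ℚ)) (algebraMap ℚ L (N : ℚ)) (by rw [← map_add]; congr 1; ring)
    (by rw [← map_add]; congr 1; ring) (by rw [← map_add]; congr 1; push_cast; ring)
  exact ⟨sha2Trivial_up hodd hc hV H' H0, finite_up hodd hc hV H' hS⟩

end Pool.Agent.H10
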