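import Mathlib

/-!
Two-descent algebra on curves `y^2 = (x - e1)(x - e2)(x - e3)`.
-/

set_option autoImplicit false

open WeierstrassCurve

namespace Pool.Agent.H10

variable {L : Type*} [Field L]

/-- `W` is the curve `y^2 = (x - e₁)(x - e₂)(x - e₃)` with distinct roots, characteristic not two. -/
structure IsCub (W : WeierstrassCurve L) (e₁ e₂ e₃ : L) : Prop where
  a₁ : W.a₁ = 0
  a₂ : W.a₂ = -(e₁ + e₂ + e₃)
  a₃ : W.a₃ = 0
  a₄ : W.a₄ = e₁ * e₂ + e₁ * e₃ + e₂ * e₃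
  a₆ : W.a₆ = -(e₁ * e₂ * e₃)
  h12 : e₁ ≠ e₂
  h13 : e₁ ≠ e₃
  h23 : e₂ ≠ e₃
  two : (2 : L) ≠ 0

namespace IsCub

variable {W : WeierstrassCurve L} {e₁ e₂ e₃ : L}

lemma swap12 (h : IsCub W e₁ e₂ e₃) : IsCub W e₂ e₁ e₃ where
  a₁ := h.a₁
  a₂ := by rw [h.a₂]; ring
  a₃ := h.a₃
  a₄ := by rw [h.a₄]; ring
  a₆ := by rw [h.a₆]; ring
  h12 := h.h12.symm
  h13 := h.h23
  h23 := h.h13
  two := h.two

lemma swap13 (h : IsCub W e₁ e₂ e₃) : IsCub W e₃ e₂ e₁ where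
  a₁ := h.a₁
  a₂ := by rw [h.a₂]; ring
  a₃ := h.a₃
  a₄ := by rw [h.a₄]; ring
  a₆ := by rw [h.a₆]; ring
  h12 := h.h23.symm
  h13 := h.h13.symm
  h23 := h.h12.symm
  two := h.two

lemma swap23 (h : IsCub W e₁ e₂ e₃) : IsCub W e₁ e₃ e₂ where
  a₁ := h.a₁
  a₂ := by rw [h.a₂]; ring
  a₃ := h.a₃
  a₄ := by rw [h.a₄]; ring
  a₆ := by rw [h.a₆]; ring
  h12 := h.h13
  h13 := h.h12
  h23 := h.h23.symm
  two := h.two

lemma equation_iff (h : IsCub W e₁ e₂ e₃) (x y : L) :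
    W.toAffine.Equation x y ↔ y ^ 2 = (x - e₁) * (x - e₂) * (x - e₃) := by
  rw [Affine.equation_iff, h.a₁, h.a₂, h.a₃, h.a₄, h.a₆]
  constructor <;> intro H <;> linear_combination H

lemma nonsingular (h : IsCub W e₁ e₂ e₃) {x y : L} (H : y ^ 2 = (x - e₁) * (x - e₂) * (x - e₃)) :
    W.toAffine.Nonsingular x y := by
  rw [Affine.nonsingular_iff]
  refine ⟨(h.equation_iff x y).2 H, ?_⟩
  by_cases hy : y = 0
  · left
    rw [h.a₁, h.a₂, h.a₄, hy]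
    rw [hy] at H
    have H' : (x - e₁) * (x - e₂) * (x - e₃) = 0 := by rw [← H]; ring
    rcases mul_eq_zero.1 H' with H' | H'
    · rcases mul_eq_zero.1 H' with H' | H'
      · have hx : x = e₁ := sub_eq_zero.1 H'
        subst hx
        intro H2
        have : (x - e₂) * (x - e₃) = 0 := by linear_combination -H2
        rcases mul_eq_zero.1 this with H3 | H3
        · exact h.h12 (sub_eq_zero.1 H3)
        · exact h.h13 (sub_eq_zero.1 H3)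
      · have hx : x = e₂ := sub_eq_zero.1 H'
        subst hx
        intro H2
        have : (x - e₁) * (x - e₃) = 0 := by linear_combination -H2
        rcases mul_eq_zero.1 this with H3 | H3
        · exact h.h12 (sub_eq_zero.1 H3).symm
        · exact h.h23 (sub_eq_zero.1 H3)
    · have hx : x = e₃ := sub_eq_zero.1 H'
      subst hx
      intro H2
      have : (x - e₁) * (x - e₂) = 0 := by linear_combination -H2
      rcases mul_eq_zero.1 this with H3 | H3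
      · exact h.h13 (sub_eq_zero.1 H3).symm
      · exact h.h23 (sub_eq_zero.1 H3).symm
  · right
    rw [h.a₁, h.a₃]
    intro H2
    have : (2 : L) * y = 0 := by linear_combination H2
    rcases mul_eq_zero.1 this with H3 | H3
    · exact h.two H3
    · exact hy H3

/-- The two-torsion point `(e₁, 0)`. -/
def T₁ (h : IsCub W e₁ e₂ e₃) : W.toAffine.Point :=
  Affine.Point.some e₁ 0 (h.nonsingular (by ring))

/-- The two-torsion point `(e₂, 0)`. -/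
def T₂ (h : IsCub W e₁ e₂ e₃) : W.toAffine.Point :=
  Affine.Point.some e₂ 0 (h.nonsingular (by ring))

/-- The two-torsion point `(e₃, 0)`. -/
def T₃ (h : IsCub W e₁ e₂ e₃) : W.toAffine.Point :=
  Affine.Point.some e₃ 0 (h.nonsingular (by ring))

lemma negY_eq (h : IsCub W e₁ e₂ e₃) (x y : L) : W.toAffine.negY x y = -y := by
  rw [Affine.negY, h.a₁, h.a₃]; ring

/-- The point attached to square roots `s i` of `x - e i`: it is a half of `(x, s₁ s₂ s₃)`. -/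
lemma half_eq {x s₁ s₂ s₃ : L}
    (h1 : s₁ ^ 2 = x - e₁) (h2 : s₂ ^ 2 = x - e₂) (h3 : s₃ ^ 2 = x - e₃) :
    ((s₁ + s₂) * (s₁ + s₃) * (s₂ + s₃)) ^ 2 =
      (x + s₁ * s₂ + s₁ * s₃ + s₂ * s₃ - e₁) * (x + s₁ * s₂ + s₁ * s₃ + s₂ * s₃ - e₂) *
      (x + s₁ * s₂ + s₁ * s₃ + s₂ * s₃ - e₃) := by
  have A : x + s₁ * s₂ + s₁ * s₃ + s₂ * s₃ - e₁ = (s₁ + s₂) * (s₁ + s₃) := by
    linear_combination -h1
  have B : x + s₁ * s₂ + s₁ * s₃ + s₂ * s₃ - e₂ = (s₁ + s₂) * (s₂ + s₃) := by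
    linear_combination -h2
  have C : x + s₁ * s₂ + s₁ * s₃ + s₂ * s₃ - e₃ = (s₁ + s₃) * (s₂ + s₃) := by
    linear_combination -h3
  rw [A, B, C]; ring

/-- The point attached to square roots `s i` of `x - e i`. -/
def half (h : IsCub W e₁ e₂ e₃) (x s₁ s₂ s₃ : L)
    (h1 : s₁ ^ 2 = x - e₁) (h2 : s₂ ^ 2 = x - e₂) (h3 : s₃ ^ 2 = x - e₃) : W.toAffine.Point :=
  Affine.Point.some (x + s₁ * s₂ + s₁ * s₃ + s₂ * s₃) ((s₁ + s₂) * (s₁ + s₃) * (s₂ + s₃))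
    (h.nonsingular (half_eq h1 h2 h3))

variable [DecidableEq L]

lemma half_add_half (h : IsCub W e₁ e₂ e₃) {x s₁ s₂ s₃ : L}
    (h1 : s₁ ^ 2 = x - e₁) (h2 : s₂ ^ 2 = x - e₂) (h3 : s₃ ^ 2 = x - e₃)
    (hns : W.toAffine.Nonsingular x (s₁ * s₂ * s₃)) :
    h.half x s₁ s₂ s₃ h1 h2 h3 + h.half x s₁ s₂ s₃ h1 h2 h3 =
      Affine.Point.some x (s₁ * s₂ * s₃) hns := by
  have n12 : s₁ + s₂ ≠ 0 := by
    intro H
    apply h.h12
    linear_combination (s₁ - s₂) * (-H) + h1 - h2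
  have n13 : s₁ + s₃ ≠ 0 := by
    intro H
    apply h.h13
    linear_combination (s₁ - s₃) * (-H) + h1 - h3
  have n23 : s₂ + s₃ ≠ 0 := by
    intro H
    apply h.h23
    linear_combination (s₂ - s₃) * (-H) + h2 - h3
  have hY : (s₁ + s₂) * (s₁ + s₃) * (s₂ + s₃) ≠ 0 := mul_ne_zero (mul_ne_zero n12 n13) n23
  have two := h.two
  have hne : (s₁ + s₂) * (s₁ + s₃) * (s₂ + s₃) ≠
      W.toAffine.negY (x + s₁ * s₂ + s₁ * s₃ + s₂ * s₃) ((s₁ + s₂) * (s₁ + s₃) * (s₂ + s₃)) := by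
    rw [h.negY_eq]
    intro H
    have : (2 : L) * ((s₁ + s₂) * (s₁ + s₃) * (s₂ + s₃)) = 0 := by linear_combination H
    rcases mul_eq_zero.1 this with H3 | H3
    · exact two H3
    · exact hY H3
  have hsl : W.toAffine.slope (x + s₁ * s₂ + s₁ * s₃ + s₂ * s₃) (x + s₁ * s₂ + s₁ * s₃ + s₂ * s₃)
      ((s₁ + s₂) * (s₁ + s₃) * (s₂ + s₃)) ((s₁ + s₂) * (s₁ + s₃) * (s₂ + s₃)) = s₁ + s₂ + s₃ := by
    rw [Affine.slope_of_Y_ne rfl hne, h.negY_eq, h.a₁, h.a₂, h.a₄, div_eq_iff (by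
      intro H
      have : (2 : L) * ((s₁ + s₂) * (s₁ + s₃) * (s₂ + s₃)) = 0 := by linear_combination H
      rcases mul_eq_zero.1 this with H3 | H3
      · exact two H3
      · exact hY H3)]
    have E1 : e₁ = x - s₁ ^ 2 := by linear_combination h1
    have E2 : e₂ = x - s₂ ^ 2 := by linear_combination h2
    have E3 : e₃ = x - s₃ ^ 2 := by linear_combination h3
    rw [E1, E2, E3]
    ring
  unfold half
  rw [Affine.Point.add_self_of_Y_ne hne]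
  have E1 : e₁ = x - s₁ ^ 2 := by linear_combination h1
  have E2 : e₂ = x - s₂ ^ 2 := by linear_combination h2
  have E3 : e₃ = x - s₃ ^ 2 := by linear_combination h3
  have hX : W.toAffine.addX (x + s₁ * s₂ + s₁ * s₃ + s₂ * s₃) (x + s₁ * s₂ + s₁ * s₃ + s₂ * s₃)
      (s₁ + s₂ + s₃) = x := by
    rw [Affine.addX, h.a₁, h.a₂, E1, E2, E3]
    ring
  rw [Affine.Point.some.injEq]
  refine ⟨?_, ?_⟩
  · rw [hsl, hX]
  · rw [hsl, Affine.addY, Affine.negAddY, hX, h.negY_eq]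
    ring

lemma half_add_T₁ (h : IsCub W e₁ e₂ e₃) {x s₁ s₂ s₃ : L}
    (h1 : s₁ ^ 2 = x - e₁) (h2 : s₂ ^ 2 = x - e₂) (h3 : s₃ ^ 2 = x - e₃) :
    h.half x s₁ s₂ s₃ h1 h2 h3 + h.T₁ =
      h.half x s₁ (-s₂) (-s₃) h1 (by rw [← h2]; ring) (by rw [← h3]; ring) := by
  have n12 : s₁ + s₂ ≠ 0 := by
    intro H
    apply h.h12
    linear_combination (s₁ - s₂) * (-H) + h1 - h2
  have n13 : s₁ + s₃ ≠ 0 := by
    intro H
    apply h.h13
    linear_combination (s₁ - s₃) * (-H) + h1 - h3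
  have hX0 : x + s₁ * s₂ + s₁ * s₃ + s₂ * s₃ - e₁ = (s₁ + s₂) * (s₁ + s₃) := by
    linear_combination -h1
  have hne : x + s₁ * s₂ + s₁ * s₃ + s₂ * s₃ ≠ e₁ := by
    intro H
    have : (s₁ + s₂) * (s₁ + s₃) = 0 := by rw [← hX0, H]; ring
    exact mul_ne_zero n12 n13 this
  unfold half T₁
  rw [Affine.Point.add_of_X_ne hne]
  have hsl : W.toAffine.slope (x + s₁ * s₂ + s₁ * s₃ + s₂ * s₃) e₁
      ((s₁ + s₂) * (s₁ + s₃) * (s₂ + s₃)) 0 = s₂ + s₃ := by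
    rw [Affine.slope_of_X_ne hne, hX0, div_eq_iff (mul_ne_zero n12 n13)]
    ring
  have E1 : e₁ = x - s₁ ^ 2 := by linear_combination h1
  have E2 : e₂ = x - s₂ ^ 2 := by linear_combination h2
  have E3 : e₃ = x - s₃ ^ 2 := by linear_combination h3
  have hX : W.toAffine.addX (x + s₁ * s₂ + s₁ * s₃ + s₂ * s₃) e₁ (s₂ + s₃) =
      x + s₁ * (-s₂) + s₁ * (-s₃) + (-s₂) * (-s₃) := by
    rw [Affine.addX, h.a₁, h.a₂, E1, E2, E3]
    ring
  rw [Affine.Point.some.injEq]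
  refine ⟨?_, ?_⟩
  · rw [hsl, hX]
  · rw [hsl, Affine.addY, Affine.negAddY, hX, h.negY_eq]
    ring

lemma half_add_T₂ (h : IsCub W e₁ e₂ e₃) {x s₁ s₂ s₃ : L}
    (h1 : s₁ ^ 2 = x - e₁) (h2 : s₂ ^ 2 = x - e₂) (h3 : s₃ ^ 2 = x - e₃) :
    h.half x s₁ s₂ s₃ h1 h2 h3 + h.T₂ =
      h.half x (-s₁) s₂ (-s₃) (by rw [← h1]; ring) h2 (by rw [← h3]; ring) := by
  have key := h.swap12.half_add_T₁ h2 h1 h3
  have e1 : h.swap12.half x s₂ s₁ s₃ h2 h1 h3 = h.half x s₁ s₂ s₃ h1 h2 h3 := by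
    unfold half
    rw [Affine.Point.some.injEq]
    constructor <;> ring
  have e2 : h.swap12.half x s₂ (-s₁) (-s₃) h2 (by rw [← h1]; ring) (by rw [← h3]; ring) =
      h.half x (-s₁) s₂ (-s₃) (by rw [← h1]; ring) h2 (by rw [← h3]; ring) := by
    unfold half
    rw [Affine.Point.some.injEq]
    constructor <;> ring
  rw [e1, e2] at key
  exact key

lemma half_add_T₃ (h : IsCub W e₁ e₂ e₃) {x s₁ s₂ s₃ : L}
    (h1 : s₁ ^ 2 = x - e₁) (h2 : s₂ ^ 2 = x - e₂) (h3 : s₃ ^ 2 = x - e₃) :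
    h.half x s₁ s₂ s₃ h1 h2 h3 + h.T₃ =
      h.half x (-s₁) (-s₂) s₃ (by rw [← h1]; ring) (by rw [← h2]; ring) h3 := by
  have key := h.swap13.half_add_T₁ h3 h2 h1
  have e1 : h.swap13.half x s₃ s₂ s₁ h3 h2 h1 = h.half x s₁ s₂ s₃ h1 h2 h3 := by
    unfold half
    rw [Affine.Point.some.injEq]
    constructor <;> ring
  have e2 : h.swap13.half x s₃ (-s₂) (-s₁) h3 (by rw [← h2]; ring) (by rw [← h1]; ring) =
      h.half x (-s₁) (-s₂) s₃ (by rw [← h1]; ring) (by rw [← h2]; ring) h3 := by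
    unfold half
    rw [Affine.Point.some.injEq]
    constructor <;> ring
  rw [e1, e2] at key
  exact key

end IsCub

end Pool.Agent.H10
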