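import Pool.Agent.H10.Sha

/-!
From two-torsion classes to triples and back.
-/

set_option autoImplicit false
open scoped Classical

open WeierstrassCurve

namespace Pool.Agent.H10

variable {K : Type} [Field K] [NumberField K] {W : WeierstrassCurve K} {e₁ e₂ e₃ : K}

/-- The data attached to a cocycle whose double is a coboundary. -/
structure Triple (h : IsCub W e₁ e₂ e₃)
    (f : (AlgebraicClosure K ≃ₐ[K] AlgebraicClosure K) →
      (W.baseChange (AlgebraicClosure K)).toAffine.Point)
    (a : (AlgebraicClosure K ≃ₐ[K] AlgebraicClosure K) → ℤˣ × ℤˣ)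
    (Q : (W.baseChange (AlgebraicClosure K)).toAffine.Point)
    (r₁ r₂ r₃ : AlgebraicClosure K) (d₁ d₂ d₃ c : K) : Prop where
  n1 : r₁ ≠ 0
  n2 : r₂ ≠ 0
  n3 : r₃ ≠ 0
  q1 : r₁ ^ 2 = algebraMap K (AlgebraicClosure K) d₁
  q2 : r₂ ^ 2 = algebraMap K (AlgebraicClosure K) d₂
  q3 : r₃ ^ 2 = algebraMap K (AlgebraicClosure K) d₃
  hc : c ≠ 0
  hd : d₁ * d₂ * d₃ = c ^ 2
  sg : ∀ σ, Sg (a σ) σ r₁ r₂ r₃
  hf : ∀ σ, f σ = (Affine.Point.map σ.toAlgHom :
        (W.baseChange (AlgebraicClosure K)).toAffine.Point →+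
          (W.baseChange (AlgebraicClosure K)).toAffine.Point) Q - Q +
      (h.bc (Ω := AlgebraicClosure K)).tau (a σ)

/-- The triple attached to a cocycle and a point `Q` such that `f` minus the coboundary of `Q` is
killed by two. -/
theorem exists_triple_half (h : IsCub W e₁ e₂ e₃)
    (f : (AlgebraicClosure K ≃ₐ[K] AlgebraicClosure K) →
      (W.baseChange (AlgebraicClosure K)).toAffine.Point)
    (hf : IsCocycle K W f) (Q : (W.baseChange (AlgebraicClosure K)).toAffine.Point)
    (hQ : ∀ σ, f σ + f σ = (Affine.Point.map σ.toAlgHom :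
        (W.baseChange (AlgebraicClosure K)).toAffine.Point →+
          (W.baseChange (AlgebraicClosure K)).toAffine.Point) (Q + Q) - (Q + Q)) :
    ∃ a r₁ r₂ r₃ d₁ d₂ d₃ c, Triple h f a Q r₁ r₂ r₃ d₁ d₂ d₃ c := by
  have hb := h.bc (Ω := AlgebraicClosure K)
  -- the two-torsion valued cocycle
  let g : (AlgebraicClosure K ≃ₐ[K] AlgebraicClosure K) →
      (W.baseChange (AlgebraicClosure K)).toAffine.Point := fun σ =>
    f σ - ((Affine.Point.map σ.toAlgHom :
        (W.baseChange (AlgebraicClosure K)).toAffine.Point →+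
          (W.baseChange (AlgebraicClosure K)).toAffine.Point) Q - Q)
  have hg2 : ∀ σ, g σ + g σ = 0 := by
    intro σ
    have h1 := hQ σ
    rw [map_add] at h1
    calc g σ + g σ = (f σ + f σ) - ((Affine.Point.map σ.toAlgHom :
        (W.baseChange (AlgebraicClosure K)).toAffine.Point →+
          (W.baseChange (AlgebraicClosure K)).toAffine.Point) Q +
        (Affine.Point.map σ.toAlgHom :
        (W.baseChange (AlgebraicClosure K)).toAffine.Point →+
          (W.baseChange (AlgebraicClosure K)).toAffine.Point) Q - (Q + Q)) := by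
          simp only [g]; abel
      _ = 0 := by rw [h1]; abel
  have hex : ∀ σ, ∃ a, g σ = hb.tau a := fun σ => hb.exists_tau _ (hg2 σ)
  choose a ha using hex
  have hmul : ∀ σ τ, a (σ * τ) = a σ * a τ := by
    intro σ τ
    apply hb.tau_injective
    rw [hb.tau_add, ← ha, ← ha, ← ha]
    have e1 : (Affine.Point.map σ.toAlgHom :
        (W.baseChange (AlgebraicClosure K)).toAffine.Point →+
          (W.baseChange (AlgebraicClosure K)).toAffine.Point) (g τ) = g τ := by
      rw [ha, h.map_tau]
    have e2 : (Affine.Point.map (σ * τ).toAlgHom :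
        (W.baseChange (AlgebraicClosure K)).toAffine.Point →+
          (W.baseChange (AlgebraicClosure K)).toAffine.Point) Q =
        (Affine.Point.map σ.toAlgHom :
        (W.baseChange (AlgebraicClosure K)).toAffine.Point →+
          (W.baseChange (AlgebraicClosure K)).toAffine.Point)
        ((Affine.Point.map τ.toAlgHom :
        (W.baseChange (AlgebraicClosure K)).toAffine.Point →+
          (W.baseChange (AlgebraicClosure K)).toAffine.Point) Q) := by
      rw [Affine.Point.map_map]
      rfl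
    have e3 := hf.2 σ τ
    calc g (σ * τ) = f (σ * τ) - ((Affine.Point.map (σ * τ).toAlgHom :
        (W.baseChange (AlgebraicClosure K)).toAffine.Point →+
          (W.baseChange (AlgebraicClosure K)).toAffine.Point) Q - Q) := rfl
      _ = g σ + (Affine.Point.map σ.toAlgHom :
        (W.baseChange (AlgebraicClosure K)).toAffine.Point →+
          (W.baseChange (AlgebraicClosure K)).toAffine.Point) (g τ) := by
          rw [e3, e2]
          simp only [g, map_sub]
          abel
      _ = g σ + g τ := by rw [e1]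
  have hgloc : IsLocallyConstant g := by
    have h1 := hf.1
    have h3 := isLocallyConstant_map W Q
    exact h1.sub (h3.sub (IsLocallyConstant.const Q))
  have haloc : IsLocallyConstant a := by
    have : a = (Function.invFun hb.tau) ∘ g := by
      funext σ
      simp only [Function.comp]
      rw [ha, Function.leftInverse_invFun hb.tau_injective]
    rw [this]
    exact hgloc.comp _
  have hmul2 : ∀ σ τ, (a (σ * τ)).1 = (a σ).1 * (a τ).1 := fun σ τ => by rw [hmul]; rfl
  have hmul3 : ∀ σ τ, (a (σ * τ)).2 = (a σ).2 * (a τ).2 := fun σ τ => by rw [hmul]; rfl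
  obtain ⟨r₂, n2, hr2⟩ := exists_kummer (fun σ => (a σ).1) (haloc.comp Prod.fst) hmul2
  obtain ⟨r₃, n3, hr3⟩ := exists_kummer (fun σ => (a σ).2) (haloc.comp Prod.snd) hmul3
  obtain ⟨r₁, n1, hr1⟩ := exists_kummer (fun σ => (a σ).1 * (a σ).2)
    (haloc.comp (fun p => p.1 * p.2)) (fun σ τ => by
      rw [hmul]
      simp only [Prod.fst_mul, Prod.snd_mul]
      exact mul_mul_mul_comm _ _ _ _)
  have sq : ∀ (r : AlgebraicClosure K) (χ : (AlgebraicClosure K ≃ₐ[K] AlgebraicClosure K) → ℤˣ),
      (∀ σ, σ r = ((χ σ : ℤ) : AlgebraicClosure K) * r) →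
      ∃ d : K, algebraMap K (AlgebraicClosure K) d = r ^ 2 := by
    intro r χ hr
    apply fixed_of_galois
    intro σ
    rw [map_pow, hr, mul_pow, units_cast_sq, one_mul]
  obtain ⟨d₁, q1⟩ := sq r₁ _ hr1
  obtain ⟨d₂, q2⟩ := sq r₂ _ hr2
  obtain ⟨d₃, q3⟩ := sq r₃ _ hr3
  obtain ⟨c, hc⟩ : ∃ c : K, algebraMap K (AlgebraicClosure K) c = r₁ * r₂ * r₃ := by
    apply fixed_of_galois
    intro σ
    rw [map_mul, map_mul, hr1, hr2, hr3, units_cast_mul]
    have u1 := units_cast_sq (Ω := AlgebraicClosure K) (a σ).1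
    have u2 := units_cast_sq (Ω := AlgebraicClosure K) (a σ).2
    linear_combination (r₁ * r₂ * r₃ * (((a σ).2 : ℤ) : AlgebraicClosure K) ^ 2) * u1 +
      (r₁ * r₂ * r₃) * u2
  refine ⟨a, r₁, r₂, r₃, d₁, d₂, d₃, c, n1, n2, n3, q1.symm, q2.symm, q3.symm, ?_, ?_,
    fun σ => ⟨hr1 σ, hr2 σ, hr3 σ⟩, ?_⟩
  · rintro rfl
    rw [map_zero] at hc
    exact mul_ne_zero (mul_ne_zero n1 n2) n3 hc.symm
  · apply (algebraMap K (AlgebraicClosure K)).injective
    rw [map_mul, map_mul, map_pow, q1, q2, q3, hc]
    ring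
  · intro σ
    rw [← ha]
    simp only [g]
    abel

theorem exists_triple (h : IsCub W e₁ e₂ e₃)
    (f : (AlgebraicClosure K ≃ₐ[K] AlgebraicClosure K) →
      (W.baseChange (AlgebraicClosure K)).toAffine.Point)
    (hf : IsCocycle K W f) (h2 : IsCobound K W (fun σ => f σ + f σ)) :
    ∃ a Q r₁ r₂ r₃ d₁ d₂ d₃ c, Triple h f a Q r₁ r₂ r₃ d₁ d₂ d₃ c := by
  have hb := h.bc (Ω := AlgebraicClosure K)
  obtain ⟨Q₀, hQ₀⟩ := h2
  obtain ⟨Q, hQ⟩ := hb.exists_two_nsmul Q₀
  obtain ⟨a, r₁, r₂, r₃, d₁, d₂, d₃, c, T⟩ := exists_triple_half h f hf Q (by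
    intro σ
    rw [hQ]
    exact hQ₀ σ)
  exact ⟨a, Q, r₁, r₂, r₃, d₁, d₂, d₃, c, T⟩

variable {h : IsCub W e₁ e₂ e₃}
    {f : (AlgebraicClosure K ≃ₐ[K] AlgebraicClosure K) →
      (W.baseChange (AlgebraicClosure K)).toAffine.Point}
    {a : (AlgebraicClosure K ≃ₐ[K] AlgebraicClosure K) → ℤˣ × ℤˣ}
    {Q : (W.baseChange (AlgebraicClosure K)).toAffine.Point}
    {r₁ r₂ r₃ : AlgebraicClosure K} {d₁ d₂ d₃ c : K}

omit [NumberField K] in
/-- A global point on the intersection of quadrics trivialises the class. -/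
theorem Triple.cobound (T : Triple h f a Q r₁ r₂ r₃ d₁ d₂ d₃ c)
    (H : CPt e₁ e₂ e₃ d₁ d₂ d₃) : IsCobound K W f := by
  obtain ⟨R, hR⟩ := bridge_mpr (K₀ := K) (k := K) h T.n1 T.n2 T.n3 T.q1 T.q2 T.q3 H
  refine ⟨Q + R, fun σ => ?_⟩
  have h1 := hR σ.toAlgHom (fun y => σ.commutes y) (a σ) (T.sg σ)
  rw [T.hf σ, map_add, h1]
  abel

/-- Conversely, if the class is trivial then there is a global point. -/
theorem Triple.cpt (T : Triple h f a Q r₁ r₂ r₃ d₁ d₂ d₃ c)
    (H : IsCobound K W f) : CPt e₁ e₂ e₃ d₁ d₂ d₃ := by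
  obtain ⟨P, hP⟩ := H
  refine bridge_mp (K₀ := K) (k := K) h (Set.range (fun σ : AlgebraicClosure K ≃ₐ[K]
    AlgebraicClosure K => σ.toAlgHom)) ?_ T.n1 T.n2 T.n3 T.q1 T.q2 T.q3 (P - Q) ?_
  · intro z hz
    exact fixed_of_galois z (fun σ => hz σ.toAlgHom ⟨σ, rfl⟩)
  · rintro _ ⟨σ, rfl⟩
    refine ⟨a σ, ?_, T.sg σ⟩
    have h1 := hP σ
    rw [T.hf σ] at h1
    have h2 : (h.bc (Ω := AlgebraicClosure K)).tau (a σ) =
      (Affine.Point.map σ.toAlgHom :
        (W.baseChange (AlgebraicClosure K)).toAffine.Point →+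
          (W.baseChange (AlgebraicClosure K)).toAffine.Point) P - P -
      ((Affine.Point.map σ.toAlgHom :
        (W.baseChange (AlgebraicClosure K)).toAffine.Point →+
          (W.baseChange (AlgebraicClosure K)).toAffine.Point) Q - Q) := by
      rw [← h1]; abel
    simp only [map_sub]
    rw [h2]
    abel

/-- Local triviality gives a local point. -/
theorem Triple.local_cpt {F : Type*} [Field F] [CharZero F] [Algebra K F]
    (T : Triple h f a Q r₁ r₂ r₃ d₁ d₂ d₃ c)
    (ι : AlgebraicClosure K →ₐ[K] AlgebraicClosure F)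
    (H : ∃ P : (W.baseChange (AlgebraicClosure F)).toAffine.Point,
      ∀ τ : AlgebraicClosure F ≃ₐ[F] AlgebraicClosure F,
      ∀ σ : AlgebraicClosure K ≃ₐ[K] AlgebraicClosure K,
      (τ.toAlgHom.restrictScalars K).comp ι = ι.comp σ.toAlgHom →
      (WeierstrassCurve.Affine.Point.map ι :
        (W.baseChange (AlgebraicClosure K)).toAffine.Point →+
          (W.baseChange (AlgebraicClosure F)).toAffine.Point) (f σ) =
        (WeierstrassCurve.Affine.Point.map (τ.toAlgHom.restrictScalars K) :
          (W.baseChange (AlgebraicClosure F)).toAffine.Point →+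
            (W.baseChange (AlgebraicClosure F)).toAffine.Point) P - P) :
    CPt (algebraMap K F e₁) (algebraMap K F e₂) (algebraMap K F e₃) (algebraMap K F d₁)
      (algebraMap K F d₂) (algebraMap K F d₃) := by
  obtain ⟨P, hP⟩ := H
  have hq : ∀ (r : AlgebraicClosure K) (d : K), r ^ 2 = algebraMap K (AlgebraicClosure K) d →
      (ι r) ^ 2 = algebraMap F (AlgebraicClosure F) (algebraMap K F d) := by
    intro r d hr
    rw [← map_pow, hr, ι.commutes, IsScalarTower.algebraMap_apply K F (AlgebraicClosure F)]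
  have hn : ∀ r : AlgebraicClosure K, r ≠ 0 → ι r ≠ 0 := fun r hr h0 =>
    hr (by
      have : ι r = ι 0 := by rw [h0, map_zero]
      exact ι.injective this)
  refine bridge_mp (K₀ := K) (k := F) h (Set.range (fun τ : AlgebraicClosure F ≃ₐ[F]
    AlgebraicClosure F => τ.toAlgHom.restrictScalars K)) ?_ (hn _ T.n1) (hn _ T.n2) (hn _ T.n3)
    (hq _ _ T.q1) (hq _ _ T.q2) (hq _ _ T.q3)
    (P - (Affine.Point.map ι : (W.baseChange (AlgebraicClosure K)).toAffine.Point →+
          (W.baseChange (AlgebraicClosure F)).toAffine.Point) Q) ?_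
  · intro z hz
    exact fixed_of_galois z (fun σ => hz (σ.toAlgHom.restrictScalars K) ⟨σ, rfl⟩)
  · rintro _ ⟨τ, rfl⟩
    obtain ⟨σ, hσ⟩ := exists_restrict ι τ
    have hσ' : ∀ x, τ (ι x) = ι (σ x) := fun x => by
      have := congrArg (fun φ => φ x) hσ
      exact this
    refine ⟨a σ, ?_, ?_⟩
    · have h1 := hP τ σ hσ
      rw [T.hf σ, map_add, map_sub] at h1
      have h2 : (Affine.Point.map ι : (W.baseChange (AlgebraicClosure K)).toAffine.Point →+
          (W.baseChange (AlgebraicClosure F)).toAffine.Point)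
          ((h.bc (Ω := AlgebraicClosure K)).tau (a σ)) =
          (h.bc (Ω := AlgebraicClosure F)).tau (a σ) := by
        unfold IsCub.tau
        split_ifs
        · exact map_zero _
        · unfold IsCub.T₂
          rw [Affine.Point.map_some, Affine.Point.some.injEq]
          exact ⟨ι.commutes _, map_zero _⟩
        · unfold IsCub.T₃
          rw [Affine.Point.map_some, Affine.Point.some.injEq]
          exact ⟨ι.commutes _, map_zero _⟩
        · unfold IsCub.T₁
          rw [Affine.Point.map_some, Affine.Point.some.injEq]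
          exact ⟨ι.commutes _, map_zero _⟩
      have h3 : (Affine.Point.map ι : (W.baseChange (AlgebraicClosure K)).toAffine.Point →+
          (W.baseChange (AlgebraicClosure F)).toAffine.Point)
          ((Affine.Point.map σ.toAlgHom :
        (W.baseChange (AlgebraicClosure K)).toAffine.Point →+
          (W.baseChange (AlgebraicClosure K)).toAffine.Point) Q) =
          (WeierstrassCurve.Affine.Point.map (τ.toAlgHom.restrictScalars K) :
          (W.baseChange (AlgebraicClosure F)).toAffine.Point →+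
            (W.baseChange (AlgebraicClosure F)).toAffine.Point)
          ((Affine.Point.map ι : (W.baseChange (AlgebraicClosure K)).toAffine.Point →+
          (W.baseChange (AlgebraicClosure F)).toAffine.Point) Q) := by
        rw [Affine.Point.map_map, Affine.Point.map_map, hσ]
      rw [h2, h3] at h1
      have h4 : (h.bc (Ω := AlgebraicClosure F)).tau (a σ) =
          ((WeierstrassCurve.Affine.Point.map (τ.toAlgHom.restrictScalars K) :
          (W.baseChange (AlgebraicClosure F)).toAffine.Point →+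
            (W.baseChange (AlgebraicClosure F)).toAffine.Point) P - P) -
          ((WeierstrassCurve.Affine.Point.map (τ.toAlgHom.restrictScalars K) :
          (W.baseChange (AlgebraicClosure F)).toAffine.Point →+
            (W.baseChange (AlgebraicClosure F)).toAffine.Point)
          ((Affine.Point.map ι : (W.baseChange (AlgebraicClosure K)).toAffine.Point →+
          (W.baseChange (AlgebraicClosure F)).toAffine.Point) Q) -
          (Affine.Point.map ι : (W.baseChange (AlgebraicClosure K)).toAffine.Point →+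
          (W.baseChange (AlgebraicClosure F)).toAffine.Point) Q) := by
        rw [← h1]; abel
      rw [h4, map_sub]
      abel
    · obtain ⟨s1, s2, s3⟩ := T.sg σ
      refine ⟨?_, ?_, ?_⟩
      · change τ (ι r₁) = _
        rw [hσ', s1, map_mul, map_intCast]
      · change τ (ι r₂) = _
        rw [hσ', s2, map_mul, map_intCast]
      · change τ (ι r₃) = _
        rw [hσ', s3, map_mul, map_intCast]

end Pool.Agent.H10
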