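import Pool.Agent.H10.Pm

/-!
Cocycles with values in points over an arbitrary algebraic closure; local triviality.
-/

set_option autoImplicit false
set_option linter.style.haveILetI false

open WeierstrassCurve

namespace Pool.Agent.H10

section defs

variable {Ω : Type*} [Field Ω]

/-- The curve `E` is fixed by all automorphisms over `K`. -/
def Inv (K : Type*) [Field K] [Algebra K Ω] (E : WeierstrassCurve Ω) : Prop :=
  ∀ σ : Ω ≃ₐ[K] Ω, E.map (σ : Ω →+* Ω) = E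

variable {K : Type*} [Field K] [Algebra K Ω] {E : WeierstrassCurve Ω}

lemma inv_of_map {V : WeierstrassCurve K} (h : V.map (algebraMap K Ω) = E) : Inv K E := by
  intro σ
  rw [← h, WeierstrassCurve.map_map]
  congr 1
  ext x
  exact σ.commutes x

variable [DecidableEq Ω]

/-- The action on points. -/
noncomputable def act (h : Inv K E) (σ : Ω ≃ₐ[K] Ω) : E.toAffine.Point →+ E.toAffine.Point :=
  pm (σ : Ω →+* Ω) (h σ)

lemma act_mul (h : Inv K E) (σ τ : Ω ≃ₐ[K] Ω) (P : E.toAffine.Point) :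
    act h (σ * τ) P = act h σ (act h τ P) := by
  unfold act
  rw [pm_pm]
  rfl

lemma act_one (h : Inv K E) (P : E.toAffine.Point) : act h 1 P = P :=
  pm_eq_self _ (fun _ => rfl) P

lemma act_inv_act (h : Inv K E) (σ : Ω ≃ₐ[K] Ω) (P : E.toAffine.Point) :
    act h σ⁻¹ (act h σ P) = P := by
  rw [← act_mul, inv_mul_cancel, act_one]

lemma act_act_inv (h : Inv K E) (σ : Ω ≃ₐ[K] Ω) (P : E.toAffine.Point) :
    act h σ (act h σ⁻¹ P) = P := by
  rw [← act_mul, mul_inv_cancel, act_one]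

/-- One-cocycle condition. -/
def IsCoc (h : Inv K E) (f : (Ω ≃ₐ[K] Ω) → E.toAffine.Point) : Prop :=
  IsLocallyConstant f ∧ ∀ σ τ, f (σ * τ) = f σ + act h σ (f τ)

lemma IsCoc.one {h : Inv K E} {f : (Ω ≃ₐ[K] Ω) → E.toAffine.Point} (hf : IsCoc h f) :
    f 1 = 0 := by
  have h1 := hf.2 1 1
  rw [mul_one, act_one] at h1
  exact left_eq_add.mp h1

lemma IsCoc.inv {h : Inv K E} {f : (Ω ≃ₐ[K] Ω) → E.toAffine.Point} (hf : IsCoc h f)
    (σ : Ω ≃ₐ[K] Ω) : act h σ (f σ⁻¹) = - f σ := by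
  have h1 := hf.2 σ σ⁻¹
  rw [mul_inv_cancel, hf.one] at h1
  exact (neg_eq_of_add_eq_zero_right h1.symm).symm

/-- Conjugation formula. -/
lemma IsCoc.conj {h : Inv K E} {f : (Ω ≃ₐ[K] Ω) → E.toAffine.Point} (hf : IsCoc h f)
    (g σ : Ω ≃ₐ[K] Ω) :
    act h g (f (g⁻¹ * σ * g)) = f σ + (act h σ (f g) - f g) := by
  rw [mul_assoc, hf.2, hf.2 σ g, map_add, hf.inv, act_act_inv]
  abel

variable {F ΩF : Type*} [Field F] [Field ΩF] [Algebra F ΩF] [DecidableEq ΩF]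
  {EF : WeierstrassCurve ΩF}

/-- The cocycle `f` becomes a coboundary after base change to `F` along `ι`. -/
def TrivAt (hF : Inv F EF) (ι : Ω →+* ΩF) (hι : E.map ι = EF)
    (f : (Ω ≃ₐ[K] Ω) → E.toAffine.Point) : Prop :=
  ∃ P : EF.toAffine.Point, ∀ (τ : ΩF ≃ₐ[F] ΩF) (σ : Ω ≃ₐ[K] Ω), (∀ x, τ (ι x) = ι (σ x)) →
    pm ι hι (f σ) = act hF τ P - P

omit [DecidableEq Ω] [DecidableEq ΩF] in
/-- Two embeddings of a normal extension differ by an automorphism. -/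
lemma exists_aut [Normal K Ω] {Ω' : Type*} [Field Ω'] (ι ι' : Ω →+* Ω')
    (h : ∀ x : K, ι (algebraMap K Ω x) = ι' (algebraMap K Ω x)) :
    ∃ g : Ω ≃ₐ[K] Ω, ∀ x, ι' x = ι (g x) := by
  letI : Algebra Ω Ω' := ι.toAlgebra
  letI : Algebra K Ω' := (ι.comp (algebraMap K Ω)).toAlgebra
  haveI : IsScalarTower K Ω Ω' := IsScalarTower.of_algebraMap_eq fun x => rfl
  let ϕ : Ω →ₐ[K] Ω' := { ι' with commutes' := fun x => (h x).symm }
  let ψ : Ω →ₐ[K] Ω := ϕ.restrictNormal Ω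
  have hψ : ∀ x, ι (ψ x) = ι' x := fun x => ϕ.restrictNormal_commutes Ω x
  have hbij : Function.Bijective ψ := AlgHom.normal_bijective K Ω Ω ψ
  exact ⟨AlgEquiv.ofBijective ψ hbij, fun x => (hψ x).symm⟩

/-- Local triviality is independent of choices and passes to larger fields. -/
theorem TrivAt.trans {h : Inv K E} {f : (Ω ≃ₐ[K] Ω) → E.toAffine.Point} (hf : IsCoc h f)
    [Normal K Ω] {V : WeierstrassCurve K} (hV : V.map (algebraMap K Ω) = E)
    [Normal F ΩF]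
    {hF : Inv F EF} {ι : Ω →+* ΩF} {hι : E.map ι = EF} (H : TrivAt hF ι hι f)
    {F' ΩF' : Type*} [Field F'] [Field ΩF'] [Algebra F' ΩF'] [IsAlgClosed ΩF'] [DecidableEq ΩF']
    {EF' : WeierstrassCurve ΩF'} (k : F →+* F') (j : K →+* F)
    (hj : ∀ a : K, ι (algebraMap K Ω a) = algebraMap F ΩF (j a))
    (hF' : Inv F' EF') (ι' : Ω →+* ΩF') (hι' : E.map ι' = EF')
    (hj' : ∀ a : K, ι' (algebraMap K Ω a) = algebraMap F' ΩF' (k (j a))) :
    TrivAt hF' ι' hι' f := by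
  obtain ⟨P, hP⟩ := H
  -- extend `k` to the algebraic closure
  letI a1 : Algebra F ΩF' := ((algebraMap F' ΩF').comp k).toAlgebra
  let κ : ΩF →ₐ[F] ΩF' := IsAlgClosed.lift
  have hκ : ∀ y : F, κ (algebraMap F ΩF y) = algebraMap F' ΩF' (k y) := fun y => κ.commutes y
  have hκι : ∀ a : K, (κ : ΩF →+* ΩF').comp ι (algebraMap K Ω a) = ι' (algebraMap K Ω a) := by
    intro a
    change κ (ι (algebraMap K Ω a)) = _
    rw [hj, hκ, hj']
  obtain ⟨g, hg⟩ := exists_aut ((κ : ΩF →+* ΩF').comp ι) ι' hκι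
  have hEκ : EF.map (κ : ΩF →+* ΩF') = EF' := by
    rw [← hι, ← hι', ← hV, WeierstrassCurve.map_map, WeierstrassCurve.map_map,
      WeierstrassCurve.map_map]
    congr 1
    ext a
    exact hκι a
  have hnorm : ∀ τ' : ΩF' ≃ₐ[F'] ΩF', ∃ τ : ΩF ≃ₐ[F] ΩF, ∀ y, τ' (κ y) = κ (τ y) := by
    intro τ'
    obtain ⟨τ, hτ⟩ := exists_aut (K := F) (κ : ΩF →+* ΩF')
      ((τ' : ΩF' →+* ΩF').comp (κ : ΩF →+* ΩF')) (fun y => by
        change κ (algebraMap F ΩF y) = τ' (κ (algebraMap F ΩF y))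
        rw [hκ, τ'.commutes])
    exact ⟨τ, fun y => hτ y⟩
  refine ⟨pm (κ : ΩF →+* ΩF') hEκ (P + pm ι hι (f g)), fun τ' σ' hτσ => ?_⟩
  obtain ⟨τ, hτ⟩ := hnorm τ'
  have hg' : ∀ x, ι' x = κ (ι (g x)) := hg
  have hσ : ∀ x, τ (ι x) = ι ((g * σ' * g⁻¹) x) := by
    intro x
    apply κ.injective
    change κ (τ (ι x)) = κ (ι ((g * σ' * g⁻¹) x))
    rw [← hτ]
    have h1 : κ (ι x) = ι' (g⁻¹ x) := by
      rw [hg']
      congr 2
      exact (g.apply_symm_apply x).symm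
    rw [h1, hτσ, hg']
    rfl
  have h2 := hP τ (g * σ' * g⁻¹) hσ
  have h3 := hf.conj g (g * σ' * g⁻¹)
  have h4 : g⁻¹ * (g * σ' * g⁻¹) * g = σ' := by group
  rw [h4] at h3
  have h5 : pm ι' hι' (f σ') = pm (κ : ΩF →+* ΩF') hEκ (pm ι hι (act h g (f σ'))) := by
    unfold act
    rw [pm_pm, pm_pm]
    exact pm_congr _ _ (fun x => hg' x) _
  have h6 : ∀ Q : E.toAffine.Point, pm ι hι (act h (g * σ' * g⁻¹) Q) = act hF τ (pm ι hι Q) := by
    intro Q
    unfold act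
    rw [pm_pm, pm_pm]
    exact pm_congr _ _ (fun x => (hσ x).symm) _
  have h7 : ∀ Q : EF.toAffine.Point, pm (κ : ΩF →+* ΩF') hEκ (act hF τ Q) =
      act hF' τ' (pm (κ : ΩF →+* ΩF') hEκ Q) := by
    intro Q
    unfold act
    rw [pm_pm, pm_pm]
    exact pm_congr _ _ (fun x => (hτ x).symm) _
  rw [h5, h3, map_add, map_sub, h6, h2, ← h7, ← map_sub]
  congr 1
  rw [map_add]
  abel

end defs

end Pool.Agent.H10
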