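import Pool.Agent.H10.Func1

/-!
Corestriction of cocycles.
-/

set_option autoImplicit false
set_option linter.style.haveILetI false

open WeierstrassCurve

namespace Pool.Agent.H10

/-- A cocycle on an action groupoid which is trivial on all stabilisers is trivial. -/
theorem groupoid_triv {D X M : Type*} [Group D] [AddCommGroup M] (a : D → X → X)
    (ha1 : ∀ x, a 1 x = x) (ha : ∀ σ τ x, a (σ * τ) x = a σ (a τ x)) (α : D → M →+ M)
    (hα : ∀ σ τ P, α (σ * τ) P = α σ (α τ P)) (t : D → X → M)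
    (ht : ∀ σ τ x, t (σ * τ) x = t σ (a τ x) + α σ (t τ x))
    (hloc : ∀ x, ∃ P, ∀ τ, a τ x = x → t τ x = α τ P - P) :
    ∃ P : X → M, ∀ τ x, t τ x = α τ (P x) - P (a τ x) := by
  classical
  letI : MulAction D X :=
    { smul := a
      one_smul := ha1
      mul_smul := ha }
  have hsm : ∀ (d : D) (x : X), d • x = a d x := fun _ _ => rfl
  -- orbit representatives
  let rep : X → X := fun x => (Quotient.mk (MulAction.orbitRel D X) x).out
  have hrep : ∀ x, ∃ κ : D, a κ (rep x) = x := by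
    intro x
    have h1 : (MulAction.orbitRel D X) (rep x) x := Quotient.mk_out (s := MulAction.orbitRel D X) x
    obtain ⟨d, hd⟩ := MulAction.orbitRel_apply.mp h1
    refine ⟨d⁻¹, ?_⟩
    change d⁻¹ • rep x = x
    rw [← hd]
    exact inv_smul_smul d x
  have hrep2 : ∀ (τ : D) x, rep (a τ x) = rep x := by
    intro τ x
    have h1 : Quotient.mk (MulAction.orbitRel D X) (a τ x) =
        Quotient.mk (MulAction.orbitRel D X) x :=
      Quotient.sound (MulAction.orbitRel_apply.mpr ⟨τ, rfl⟩)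
    change (Quotient.mk (MulAction.orbitRel D X) (a τ x)).out = _
    rw [h1]
  choose κ hκ using hrep
  choose P₀ hP₀ using hloc
  refine ⟨fun x => α (κ x) (P₀ (rep x)) - t (κ x) (rep x), fun τ x => ?_⟩
  -- independence of the chosen element
  have key : ∀ (x : X) (d d' : D), a d (rep x) = a d' (rep x) →
      α d (P₀ (rep x)) - t d (rep x) = α d' (P₀ (rep x)) - t d' (rep x) := by
    intro x d d' hdd
    have hst : a (d'⁻¹ * d) (rep x) = rep x := by
      rw [ha, hdd, ← ha, inv_mul_cancel, ha1]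
    have h1 := hP₀ (rep x) (d'⁻¹ * d) hst
    have h2 : d = d' * (d'⁻¹ * d) := by group
    have h3 : t d (rep x) = t d' (rep x) + α d' (t (d'⁻¹ * d) (rep x)) := by
      conv_lhs => rw [h2]
      rw [ht, hst]
    have h4 : α d (P₀ (rep x)) = α d' (α (d'⁻¹ * d) (P₀ (rep x))) := by
      conv_lhs => rw [h2]
      rw [hα]
    rw [h3, h4, h1, map_sub]
    abel
  have h5 : α (κ (a τ x)) (P₀ (rep (a τ x))) - t (κ (a τ x)) (rep (a τ x)) =
      α (τ * κ x) (P₀ (rep x)) - t (τ * κ x) (rep x) := by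
    rw [hrep2]
    apply key
    rw [ha, hκ x]
    have := hκ (a τ x)
    rwa [hrep2] at this
  beta_reduce
  rw [h5, ht, hκ, hα, map_sub]
  abel

section cor

variable {K L Ω : Type*} [Field K] [Field L] [Field Ω] [Algebra K L] [Algebra L Ω] [Algebra K Ω]
  [IsScalarTower K L Ω]

/-- Lifts of the embeddings of `L` to automorphisms of `Ω`. -/
lemma exists_lift [Normal K Ω] (φ : L →ₐ[K] Ω) :
    ∃ s : Ω ≃ₐ[K] Ω, ∀ x : L, s (algebraMap L Ω x) = φ x := by
  have hbij := Algebra.IsAlgebraic.algHom_bijective (φ.liftNormal Ω)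
  exact ⟨AlgEquiv.ofBijective (φ.liftNormal Ω) hbij, fun x => φ.liftNormal_commutes Ω x⟩

/-- The chosen lift. -/
noncomputable def lft [Normal K Ω] (φ : L →ₐ[K] Ω) : Ω ≃ₐ[K] Ω := (exists_lift φ).choose

lemma lft_apply [Normal K Ω] (φ : L →ₐ[K] Ω) (x : L) : lft φ (algebraMap L Ω x) = φ x :=
  (exists_lift φ).choose_spec x

/-- The action on embeddings. -/
def mv (σ : Ω ≃ₐ[K] Ω) (φ : L →ₐ[K] Ω) : L →ₐ[K] Ω := (σ : Ω →ₐ[K] Ω).comp φ

omit [Algebra L Ω] [IsScalarTower K L Ω] in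
lemma mv_apply (σ : Ω ≃ₐ[K] Ω) (φ : L →ₐ[K] Ω) (x : L) : mv σ φ x = σ (φ x) := rfl

omit [Algebra L Ω] [IsScalarTower K L Ω] in
lemma mv_mul (σ τ : Ω ≃ₐ[K] Ω) (φ : L →ₐ[K] Ω) : mv (σ * τ) φ = mv σ (mv τ φ) := rfl

omit [Algebra L Ω] [IsScalarTower K L Ω] in
lemma mv_one (φ : L →ₐ[K] Ω) : mv 1 φ = φ := rfl

variable [Normal K Ω]

/-- The element of the Galois group of `Ω` over `L` attached to `σ` and `φ`. -/
noncomputable def hh (σ : Ω ≃ₐ[K] Ω) (φ : L →ₐ[K] Ω) : Ω ≃ₐ[L] Ω :=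
  { ((lft (mv σ φ))⁻¹ * σ * lft φ : Ω ≃ₐ[K] Ω) with
    commutes' := fun x => by
      change (lft (mv σ φ))⁻¹ (σ (lft φ (algebraMap L Ω x))) = _
      rw [lft_apply, ← mv_apply, ← lft_apply]
      exact (lft (mv σ φ)).symm_apply_apply _ }

lemma hh_apply (σ : Ω ≃ₐ[K] Ω) (φ : L →ₐ[K] Ω) (y : Ω) :
    hh σ φ y = (lft (mv σ φ))⁻¹ (σ (lft φ y)) := rfl

lemma lft_hh (σ : Ω ≃ₐ[K] Ω) (φ : L →ₐ[K] Ω) (y : Ω) :
    lft (mv σ φ) (hh σ φ y) = σ (lft φ y) := by
  rw [hh_apply]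
  exact (lft (mv σ φ)).apply_symm_apply _

lemma hh_mul (σ τ : Ω ≃ₐ[K] Ω) (φ : L →ₐ[K] Ω) : hh (σ * τ) φ = hh σ (mv τ φ) * hh τ φ := by
  ext y
  apply (lft (mv (σ * τ) φ)).injective
  rw [lft_hh, AlgEquiv.mul_apply, AlgEquiv.mul_apply, mv_mul, lft_hh, lft_hh]

variable {E : WeierstrassCurve Ω}

omit [Normal K Ω] in
lemma Inv.up (h : Inv K E) : Inv L E := fun τ => h (τ.restrictScalars K)

variable [DecidableEq Ω]

/-- One summand of the corestriction. -/
noncomputable def term (h : Inv K E) (f : (Ω ≃ₐ[L] Ω) → E.toAffine.Point) (σ : Ω ≃ₐ[K] Ω)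
    (φ : L →ₐ[K] Ω) : E.toAffine.Point :=
  act h (lft (mv σ φ)) (f (hh σ φ))

lemma term_mul {h : Inv K E} {f : (Ω ≃ₐ[L] Ω) → E.toAffine.Point} (hf : IsCoc (K := L) h.up f)
    (σ τ : Ω ≃ₐ[K] Ω) (φ : L →ₐ[K] Ω) :
    term h f (σ * τ) φ = term h f σ (mv τ φ) + act h σ (term h f τ φ) := by
  unfold term
  rw [hh_mul, hf.2, map_add, mv_mul]
  congr 1
  unfold act
  rw [pm_pm, pm_pm]
  apply pm_congr
  intro y
  change lft (mv σ (mv τ φ)) (hh σ (mv τ φ) y) = σ (lft (mv τ φ) y)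
  exact lft_hh σ (mv τ φ) y

variable [FiniteDimensional K L]

/-- Corestriction. -/
noncomputable def cor (h : Inv K E) (f : (Ω ≃ₐ[L] Ω) → E.toAffine.Point) (σ : Ω ≃ₐ[K] Ω) :
    E.toAffine.Point := ∑ φ : L →ₐ[K] Ω, term h f σ φ

omit [IsScalarTower K L Ω] [Normal K Ω] [DecidableEq Ω] [Algebra L Ω] in
lemma sum_mv {M : Type*} [AddCommMonoid M] (σ : Ω ≃ₐ[K] Ω) (g : (L →ₐ[K] Ω) → M) :
    ∑ φ : L →ₐ[K] Ω, g (mv σ φ) = ∑ φ : L →ₐ[K] Ω, g φ := by
  apply Fintype.sum_bijective (mv σ)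
  · constructor
    · intro φ ψ hφψ
      ext x
      have := congrArg (fun θ : L →ₐ[K] Ω => θ x) hφψ
      exact σ.injective this
    · intro φ
      refine ⟨mv σ⁻¹ φ, ?_⟩
      rw [← mv_mul, mul_inv_cancel, mv_one]
  · intro _; rfl

theorem isCoc_cor {h : Inv K E} {f : (Ω ≃ₐ[L] Ω) → E.toAffine.Point}
    (hf : IsCoc (K := L) h.up f) : IsCoc h (cor h f) := by
  have : Algebra.IsIntegral L Ω := by
    have : Algebra.IsAlgebraic K Ω := inferInstance
    exact ⟨fun x => (Algebra.IsIntegral.isIntegral (R := K) x).tower_top⟩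
  constructor
  · rw [lc_iff]
    intro σ₀
    have h1 : ∀ φ : L →ₐ[K] Ω, ∃ A : Finset Ω, ∀ σ : Ω ≃ₐ[K] Ω, (∀ x ∈ A, σ x = σ₀ x) →
        term h f σ φ = term h f σ₀ φ := by
      classical
      intro φ
      obtain ⟨B, hB⟩ := (lc_iff f).mp hf.1 (hh σ₀ φ)
      let b := Module.finBasis K L
      refine ⟨Finset.univ.image (fun i => φ (b i)) ∪ B.image (fun x => lft φ x), fun σ hσ => ?_⟩
      have hmv : mv σ φ = mv σ₀ φ := by
        have : (mv σ φ).toLinearMap = (mv σ₀ φ).toLinearMap := by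
          apply b.ext
          intro i
          exact hσ _ (Finset.mem_union_left _ (Finset.mem_image_of_mem (fun i => φ (b i))
            (Finset.mem_univ i)))
        exact AlgHom.toLinearMap_injective this
      have hf' : f (hh σ φ) = f (hh σ₀ φ) := by
        apply hB
        intro x hx
        rw [hh_apply, hh_apply, hmv]
        congr 1
        exact hσ _ (Finset.mem_union_right _ (Finset.mem_image_of_mem (fun x => lft φ x) hx))
      unfold term
      rw [hf', hmv]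
    classical
    choose A hA using h1
    refine ⟨Finset.univ.biUnion A, fun σ hσ => ?_⟩
    unfold cor
    refine Finset.sum_congr rfl fun φ _ => ?_
    apply hA φ
    intro x hx
    exact hσ x (Finset.mem_biUnion.mpr ⟨φ, Finset.mem_univ _, hx⟩)
  · intro σ τ
    unfold cor
    rw [map_sum]
    simp_rw [term_mul hf]
    rw [Finset.sum_add_distrib, sum_mv τ (fun φ => term h f σ φ)]

lemma cor_add (h : Inv K E) (f g : (Ω ≃ₐ[L] Ω) → E.toAffine.Point) (σ : Ω ≃ₐ[K] Ω) :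
    cor h (fun τ => f τ + g τ) σ = cor h f σ + cor h g σ := by
  unfold cor term
  simp_rw [map_add]
  rw [Finset.sum_add_distrib]

lemma cor_nsmul (h : Inv K E) (m : ℕ) (f : (Ω ≃ₐ[L] Ω) → E.toAffine.Point) (σ : Ω ≃ₐ[K] Ω) :
    cor h (fun τ => m • f τ) σ = m • cor h f σ := by
  unfold cor term
  simp_rw [map_nsmul]
  rw [Finset.smul_sum]

/-- Corestriction of a coboundary. -/
lemma cor_cob (h : Inv K E) (f : (Ω ≃ₐ[L] Ω) → E.toAffine.Point) (Q : E.toAffine.Point)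
    (hf : ∀ τ, f τ = act (K := L) h.up τ Q - Q) :
    ∃ R, ∀ σ, cor h f σ = act h σ R - R := by
  refine ⟨∑ φ : L →ₐ[K] Ω, act h (lft φ) Q, fun σ => ?_⟩
  rw [map_sum, ← sum_mv σ (fun φ => act h (lft φ) Q), ← Finset.sum_sub_distrib]
  unfold cor
  refine Finset.sum_congr rfl fun φ _ => ?_
  unfold term
  rw [hf, map_sub]
  congr 1
  unfold act
  rw [pm_pm, pm_pm]
  apply pm_congr
  intro y
  change lft (mv σ φ) (hh σ φ y) = σ (lft φ y)
  exact lft_hh σ φ y

omit [Normal K Ω] [FiniteDimensional K L] in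
/-- Restriction is a cocycle. -/
theorem isCoc_res [Algebra.IsIntegral K Ω] {h : Inv K E} {g : (Ω ≃ₐ[K] Ω) → E.toAffine.Point}
    (hg : IsCoc h g) : IsCoc (K := L) h.up (fun τ : Ω ≃ₐ[L] Ω => g (τ.restrictScalars K)) := by
  have : Algebra.IsIntegral L Ω :=
    ⟨fun x => (Algebra.IsIntegral.isIntegral (R := K) x).tower_top⟩
  constructor
  · rw [lc_iff]
    intro τ₀
    obtain ⟨A, hA⟩ := (lc_iff g).mp hg.1 (τ₀.restrictScalars K)
    exact ⟨A, fun τ hτ => hA _ hτ⟩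
  · intro σ τ
    exact hg.2 (σ.restrictScalars K) (τ.restrictScalars K)

/-- Corestriction after restriction is multiplication by the degree. -/
theorem cor_res {h : Inv K E} {g : (Ω ≃ₐ[K] Ω) → E.toAffine.Point} (hg : IsCoc h g) :
    ∃ R, ∀ σ, cor h (fun τ : Ω ≃ₐ[L] Ω => g (τ.restrictScalars K)) σ =
      Fintype.card (L →ₐ[K] Ω) • g σ + (act h σ R - R) := by
  refine ⟨∑ φ : L →ₐ[K] Ω, g (lft φ), fun σ => ?_⟩
  have key : ∀ φ : L →ₐ[K] Ω, term h (fun τ : Ω ≃ₐ[L] Ω => g (τ.restrictScalars K)) σ φ =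
      g σ + (act h σ (g (lft φ)) - g (lft (mv σ φ))) := by
    intro φ
    unfold term
    beta_reduce
    have h1 : (hh σ φ).restrictScalars K = (lft (mv σ φ))⁻¹ * (σ * lft φ) := by
      ext y
      rfl
    rw [h1, hg.2, hg.2 σ (lft φ), map_add, hg.inv, act_act_inv]
    abel
  unfold cor
  simp_rw [key]
  rw [Finset.sum_add_distrib, Finset.sum_sub_distrib, sum_mv σ (fun φ => g (lft φ)), map_sum,
    Finset.sum_const, Finset.card_univ]

end cor

end Pool.Agent.H10
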