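import Pool.Agent.H10.Func2

/-!
Local triviality of the corestriction.
-/

set_option autoImplicit false
set_option linter.style.haveILetI false

open WeierstrassCurve

namespace Pool.Agent.H10

section

variable {K L Ω : Type*} [Field K] [Field L] [Field Ω] [Algebra K L] [Algebra L Ω] [Algebra K Ω]
  [IsScalarTower K L Ω] [Normal K Ω] [FiniteDimensional K L] [DecidableEq Ω]
  {E : WeierstrassCurve Ω}
variable {F ΩF : Type*} [Field F] [Field ΩF] [Algebra F ΩF] [DecidableEq ΩF]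
  {EF : WeierstrassCurve ΩF}

lemma map_lft (h : Inv K E) {ι : Ω →+* ΩF} (hι : E.map ι = EF) (φ : L →ₐ[K] Ω) :
    E.map (ι.comp (lft φ : Ω →+* Ω)) = EF := by
  rw [← WeierstrassCurve.map_map, h (lft φ), hι]

/-- The corestriction is trivial over `F` if the cocycle is trivial over all the composita. -/
theorem trivAt_cor {h : Inv K E} {f : (Ω ≃ₐ[L] Ω) → E.toAffine.Point}
    (hf : IsCoc (K := L) h.up f) (hF : Inv F EF) (ι : Ω →+* ΩF) (hι : E.map ι = EF) (j : K →+* F)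
    (hj : ∀ a : K, ι (algebraMap K Ω a) = algebraMap F ΩF (j a))
    (H : ∀ φ : L →ₐ[K] Ω, ∃ P : EF.toAffine.Point, ∀ τ : ΩF ≃ₐ[F] ΩF,
      (∀ x : L, τ (ι (φ x)) = ι (φ x)) → ∀ σ : Ω ≃ₐ[L] Ω,
      (∀ y, τ (ι (lft φ y)) = ι (lft φ (σ y))) →
      pm (ι.comp (lft φ : Ω →+* Ω)) (map_lft h hι φ) (f σ) = act hF τ P - P) :
    TrivAt hF ι hι (cor h f) := by
  -- restriction of automorphisms
  have hex : ∀ τ : ΩF ≃ₐ[F] ΩF, ∃ ρ : Ω ≃ₐ[K] Ω, ∀ y, τ (ι y) = ι (ρ y) := by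
    intro τ
    obtain ⟨ρ, hρ⟩ := exists_aut (K := K) ι ((τ : ΩF →+* ΩF).comp ι) (fun a => by
      change ι (algebraMap K Ω a) = τ (ι (algebraMap K Ω a))
      rw [hj, τ.commutes])
    exact ⟨ρ, fun y => hρ y⟩
  choose ρ hρ using hex
  have huniq : ∀ (τ : ΩF ≃ₐ[F] ΩF) (σ : Ω ≃ₐ[K] Ω), (∀ y, τ (ι y) = ι (σ y)) → σ = ρ τ := by
    intro τ σ hσ
    ext y
    apply ι.injective
    rw [← hσ, hρ]
  have hone : ρ 1 = 1 := (huniq 1 1 (fun y => rfl)).symm
  have hmul : ∀ σ τ, ρ (σ * τ) = ρ σ * ρ τ := by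
    intro σ τ
    symm
    apply huniq
    intro y
    rw [AlgEquiv.mul_apply, AlgEquiv.mul_apply, hρ, hρ]
  have hact : ∀ (τ : ΩF ≃ₐ[F] ΩF) (Q : E.toAffine.Point),
      pm ι hι (act h (ρ τ) Q) = act hF τ (pm ι hι Q) := by
    intro τ Q
    unfold act
    rw [pm_pm, pm_pm]
    exact pm_congr _ _ (fun x => (hρ τ x).symm) _
  obtain ⟨P, hP⟩ := groupoid_triv (D := ΩF ≃ₐ[F] ΩF) (X := L →ₐ[K] Ω)
    (M := EF.toAffine.Point) (fun τ φ => mv (ρ τ) φ)
    (fun φ => by rw [hone, mv_one]) (fun σ τ φ => by rw [hmul, mv_mul]) (fun τ => act hF τ)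
    (fun σ τ Q => act_mul hF σ τ Q) (fun τ φ => pm ι hι (term h f (ρ τ) φ))
    (fun σ τ φ => by
      beta_reduce
      rw [hmul, term_mul hf, map_add, hact])
    (fun φ => by
      obtain ⟨P, hP⟩ := H φ
      refine ⟨P, fun τ hτ => ?_⟩
      rw [← hP τ (fun x => ?_) (hh (ρ τ) φ) (fun y => ?_)]
      · beta_reduce
        unfold term act
        rw [pm_pm]
        apply pm_congr
        intro y
        change ι (lft (mv (ρ τ) φ) y) = ι (lft φ y)
        rw [hτ]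
      · rw [hρ, ← mv_apply, hτ]
      · rw [hρ]
        conv_rhs => rw [← hτ]
        congr 1
        have h1 := lft_hh (ρ τ) φ y
        rw [← h1, hτ])
  refine ⟨∑ φ : L →ₐ[K] Ω, P φ, fun τ σ hσ => ?_⟩
  rw [huniq τ σ hσ]
  unfold cor
  rw [map_sum]
  simp_rw [hP]
  rw [Finset.sum_sub_distrib, sum_mv (ρ τ) P, map_sum]

end

end Pool.Agent.H10
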