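import Pool.Agent.H10.Comp

/-!
A finite extension of a completion of `K` which contains `L` contains a completion of `L`.
-/

set_option autoImplicit false
set_option linter.style.haveILetI false

open IsDedekindDomain NumberField
open scoped Valued Topology

namespace Pool.Agent.H10

section

variable {L F : Type*} [Field L] [NumberField L] [NormedField F] [IsUltrametricDist F]
  [CompleteSpace F]

lemma norm_int_le_one (φ : L →+* F) (x : 𝓞 L) : ‖φ (algebraMap (𝓞 L) L x)‖ ≤ 1 := by
  have h1 : IsIntegral ℤ (φ (algebraMap (𝓞 L) L x)) :=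
    (x.isIntegral_coe).map (φ.toIntAlgHom)
  have h2 : IsIntegral (NormedField.valuation (K := F)).integer (φ (algebraMap (𝓞 L) L x)) :=
    h1.tower_top
  have h3 := Valuation.Integers.mem_of_integral
    (Valuation.integer.integers (NormedField.valuation (K := F))) h2
  exact h3

/-- An ultrametric norm on a number field, nontrivial on the integers, comes from a place. -/
theorem exists_place_of_norm (φ : L →+* F) {a : 𝓞 L} (ha : a ≠ 0)
    (ha1 : ‖φ (algebraMap (𝓞 L) L a)‖ < 1) :
    ∃ (w : HeightOneSpectrum (𝓞 L)) (ψ : w.adicCompletion L →+* F),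
      ∀ x : L, ψ (algebraMap L (w.adicCompletion L) x) = φ x := by
  -- the ideals of elements of bounded norm
  let I : ∀ c : ℝ, 0 ≤ c → Ideal (𝓞 L) := fun c hc =>
    { carrier := {x | ‖φ (algebraMap (𝓞 L) L x)‖ ≤ c}
      add_mem' := fun {x y} hx hy => by
        change ‖φ (algebraMap (𝓞 L) L (x + y))‖ ≤ c
        rw [map_add, map_add]
        exact (IsUltrametricDist.norm_add_le_max _ _).trans (max_le hx hy)
      zero_mem' := by
        change ‖φ (algebraMap (𝓞 L) L 0)‖ ≤ c
        rw [map_zero, map_zero, norm_zero]; exact hc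
      smul_mem' := fun r x hx => by
        change ‖φ (algebraMap (𝓞 L) L (r * x))‖ ≤ c
        rw [map_mul, map_mul, norm_mul]
        calc _ ≤ 1 * c := mul_le_mul (norm_int_le_one φ r) hx (norm_nonneg _) zero_le_one
          _ = c := one_mul c }
  have hI : ∀ c hc x, x ∈ I c hc ↔ ‖φ (algebraMap (𝓞 L) L x)‖ ≤ c := fun _ _ _ => Iff.rfl
  -- the prime ideal
  let P : Ideal (𝓞 L) :=
    { carrier := {x | ‖φ (algebraMap (𝓞 L) L x)‖ < 1}
      add_mem' := fun {x y} hx hy => by
        change ‖φ (algebraMap (𝓞 L) L (x + y))‖ < 1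
        rw [map_add, map_add]
        exact (IsUltrametricDist.norm_add_le_max _ _).trans_lt (max_lt hx hy)
      zero_mem' := by
        change ‖φ (algebraMap (𝓞 L) L 0)‖ < 1
        rw [map_zero, map_zero, norm_zero]; exact zero_lt_one
      smul_mem' := fun r x hx => by
        change ‖φ (algebraMap (𝓞 L) L (r * x))‖ < 1
        rw [map_mul, map_mul, norm_mul]
        calc _ ≤ 1 * ‖φ (algebraMap (𝓞 L) L x)‖ :=
              mul_le_mul_of_nonneg_right (norm_int_le_one φ r) (norm_nonneg _)
          _ < 1 := by rw [one_mul]; exact hx }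
  have hP : ∀ x, x ∈ P ↔ ‖φ (algebraMap (𝓞 L) L x)‖ < 1 := fun _ => Iff.rfl
  have hprime : P.IsPrime := by
    refine ⟨?_, ?_⟩
    · intro h
      have h1 := (Ideal.eq_top_iff_one _).mp h
      rw [hP, map_one, map_one, norm_one] at h1
      exact lt_irrefl _ h1
    · intro x y hxy
      rw [hP, map_mul, map_mul, norm_mul] at hxy
      by_contra hcon
      rw [not_or, hP, hP, not_lt, not_lt] at hcon
      have := one_le_mul_of_one_le_of_one_le hcon.1 hcon.2
      exact absurd hxy (not_lt.mpr this)
  have hbot : P ≠ ⊥ := by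
    intro h
    have h1 : a ∈ P := ha1
    rw [h, Ideal.mem_bot] at h1
    exact ha h1
  let w : HeightOneSpectrum (𝓞 L) := ⟨P, hprime, hbot⟩
  -- a uniform bound on `P`
  obtain ⟨c, hc0, hc1, hcP⟩ : ∃ c : ℝ, ∃ hc0 : 0 ≤ c, c < 1 ∧ P ≤ I c hc0 := by
    obtain ⟨S, hS⟩ := (isNoetherian_def.mp (inferInstance : IsNoetherian (𝓞 L) (𝓞 L)) P)
    by_cases hne : S.Nonempty
    · obtain ⟨g, hg, hmax⟩ := S.exists_max_image (fun x => ‖φ (algebraMap (𝓞 L) L x)‖) hne
      refine ⟨‖φ (algebraMap (𝓞 L) L g)‖, norm_nonneg _, ?_, ?_⟩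
      · have : g ∈ P := by rw [← hS]; exact Submodule.subset_span hg
        exact this
      · rw [← hS, Submodule.span_le]
        intro x hx
        exact hmax x hx
    · exfalso
      rw [Finset.not_nonempty_iff_eq_empty] at hne
      apply hbot
      rw [← hS, hne]
      simp
  have hpow : ∀ k : ℕ, P ^ k ≤ I (c ^ k) (pow_nonneg hc0 k) := by
    intro k
    induction k with
    | zero =>
      intro x _
      rw [hI _ (pow_nonneg hc0 0), pow_zero]
      exact norm_int_le_one φ x
    | succ k ih =>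
      rw [pow_succ, Ideal.mul_le]
      intro x hx y hy
      rw [hI _ (pow_nonneg hc0 (k + 1)), map_mul, map_mul, norm_mul, pow_succ]
      exact mul_le_mul (ih hx) (hcP hy) (norm_nonneg _) (pow_nonneg hc0 k)
  have hsmall : ∀ U ∈ 𝓝 (0 : F), ∃ k : ℕ, ∀ x : L,
      w.valuation L x ≤ WithZero.exp (-(k : ℤ)) → φ x ∈ U := by
    intro U hU
    obtain ⟨ε, hε, hball⟩ := Metric.mem_nhds_iff.mp hU
    obtain ⟨k, hk⟩ := exists_pow_lt_of_lt_one hε hc1
    refine ⟨k, fun x hx => hball ?_⟩
    rw [mem_ball_zero_iff]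
    refine lt_of_le_of_lt ?_ hk
    have h1 : w.valuation L x ≤ 1 := by
      refine hx.trans ?_
      rw [← WithZero.exp_zero, WithZero.exp_le_exp]
      omega
    obtain ⟨n, ⟨d, hd⟩, hnd⟩ := HeightOneSpectrum.exists_primeCompl_mul_eq_of_integer w x h1
    change d ∉ w.asIdeal at hd
    change x * algebraMap (𝓞 L) L d = algebraMap (𝓞 L) L n at hnd
    have hd1 : w.valuation L (algebraMap (𝓞 L) L d) = 1 :=
      (w.valuation_eq_one_iff_notMem (K := L)).mpr hd
    have hn : n ∈ w.asIdeal ^ k := by
      rw [← w.intValuation_le_pow_iff_mem, ← w.valuation_of_algebraMap (K := L)]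
      change w.valuation L (algebraMap (𝓞 L) L n) ≤ _
      rw [← hnd, map_mul, hd1, mul_one]
      exact hx
    have hn2 : ‖φ (algebraMap (𝓞 L) L n)‖ ≤ c ^ k := hpow k hn
    have hd2 : ‖φ (algebraMap (𝓞 L) L d)‖ = 1 := by
      apply le_antisymm (norm_int_le_one φ d)
      by_contra h
      rw [not_le] at h
      exact hd h
    have h3 := congrArg (fun y => ‖φ y‖) hnd
    simp only [map_mul, norm_mul, hd2, mul_one] at h3
    rw [h3]
    exact hn2
  exact ⟨w, adicLift w φ (continuous_fromVal w φ hsmall), adicLift_algebraMap w φ _⟩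

end

section

variable {K L : Type*} [Field K] [NumberField K] [Field L] [NumberField L] [Algebra K L]

theorem exists_place (v : HeightOneSpectrum (𝓞 K)) {F : Type*} [Field F]
    [Algebra (v.adicCompletion K) F] [FiniteDimensional (v.adicCompletion K) F] (φ : L →+* F)
    (hφ : ∀ a : K, φ (algebraMap K L a) =
      algebraMap (v.adicCompletion K) F (algebraMap K (v.adicCompletion K) a)) :
    ∃ (w : HeightOneSpectrum (𝓞 L)) (ψ : w.adicCompletion L →+* F),
      ∀ x : L, ψ (algebraMap L (w.adicCompletion L) x) = φ x := by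
  letI nF : NormedField F := spectralNorm.normedField (v.adicCompletion K) F
  haveI : IsUltrametricDist F :=
    IsUltrametricDist.isUltrametricDist_of_isNonarchimedean_norm isNonarchimedean_spectralNorm
  haveI : CompleteSpace F := spectralNorm.completeSpace (v.adicCompletion K) F
  have hext : ∀ a : v.adicCompletion K, ‖algebraMap (v.adicCompletion K) F a‖ = ‖a‖ :=
    fun a => spectralNorm_extends a
  obtain ⟨a, ha, ha0⟩ := Submodule.exists_mem_ne_zero_of_ne_bot v.ne_bot
  have ha1 : ‖(algebraMap K (v.adicCompletion K) (algebraMap (𝓞 K) K a))‖ < 1 :=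
    (FinitePlace.norm_lt_one_iff_mem K v a).mpr ha
  apply exists_place_of_norm φ (a := algebraMap (𝓞 K) (𝓞 L) a)
  · intro h
    apply ha0
    apply FaithfulSMul.algebraMap_injective (𝓞 K) (𝓞 L)
    rw [h, map_zero]
  · have h1 : algebraMap (𝓞 L) L (algebraMap (𝓞 K) (𝓞 L) a) =
        algebraMap K L (algebraMap (𝓞 K) K a) := rfl
    rw [h1, hφ, hext]
    exact ha1

end

end Pool.Agent.H10
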