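import Mathlib

/-!
The archimedean version of the place lemma.
-/

set_option autoImplicit false
set_option linter.style.haveILetI false

open NumberField InfinitePlace InfinitePlace.Completion

namespace Pool.Agent.H10

section

variable {K L : Type*} [Field K] [Field L]

lemma real_mem_range (v : InfinitePlace K) (r : ℝ) :
    ∃ x : v.Completion, extensionEmbedding v x = (r : ℂ) := by
  rcases v.isReal_or_isComplex with hv | hv
  · obtain ⟨x, hx⟩ := surjective_extensionEmbeddingOfIsReal hv r
    exact ⟨x, by rw [← extensionEmbeddingOfIsReal_apply hv, hx]⟩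
  · exact surjective_extensionEmbedding_of_isComplex hv _

theorem exists_inf_place (v : InfinitePlace K) {F : Type*} [Field F] [Algebra v.Completion F]
    [Algebra.IsAlgebraic v.Completion F] (φ : L →+* F) :
    ∃ (w : InfinitePlace L) (ψ : w.Completion →+* F),
      ∀ x : L, ψ (algebraMap L w.Completion x) = φ x := by
  letI : Algebra v.Completion ℂ := (extensionEmbedding v).toAlgebra
  let Θ₀ : F →ₐ[v.Completion] ℂ := IsAlgClosed.lift
  have hΘ₀ : ∀ y : v.Completion, Θ₀ (algebraMap v.Completion F y) = extensionEmbedding v y :=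
    fun y => Θ₀.commutes y
  let σ : L →+* ℂ := (Θ₀ : F →+* ℂ).comp φ
  obtain ⟨Θ, hΘ, hreal⟩ : ∃ Θ : F →+* ℂ, Θ.comp φ = (InfinitePlace.mk σ).embedding ∧
      ∀ r : ℝ, ∃ y : F, Θ y = (r : ℂ) := by
    rcases InfinitePlace.embedding_mk_eq σ with h | h
    · refine ⟨Θ₀, h.symm, fun r => ?_⟩
      obtain ⟨x, hx⟩ := real_mem_range v r
      exact ⟨algebraMap v.Completion F x, by
        change Θ₀ (algebraMap v.Completion F x) = _
        rw [hΘ₀, hx]⟩
    · refine ⟨(starRingEnd ℂ).comp (Θ₀ : F →+* ℂ), ?_, fun r => ?_⟩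
      · rw [h]; rfl
      · obtain ⟨x, hx⟩ := real_mem_range v r
        exact ⟨algebraMap v.Completion F x, by
          change (starRingEnd ℂ) (Θ₀ (algebraMap v.Completion F x)) = _
          rw [hΘ₀, hx, Complex.conj_ofReal]⟩
  set w := InfinitePlace.mk σ with hw
  have hrange : ∀ x : w.Completion, extensionEmbedding w x ∈ Θ.fieldRange := by
    intro x
    by_cases hall : ∀ y : F, (Θ y).im = 0
    · -- everything is real
      have hwr : w.IsReal := by
        rw [InfinitePlace.isReal_iff, ComplexEmbedding.isReal_iff]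
        ext y
        rw [← hΘ]
        change (starRingEnd ℂ) (Θ (φ y)) = Θ (φ y)
        rw [Complex.conj_eq_iff_im]
        exact hall _
      rw [← extensionEmbeddingOfIsReal_apply hwr]
      obtain ⟨y, hy⟩ := hreal (extensionEmbeddingOfIsReal hwr x)
      exact ⟨y, hy⟩
    · push Not at hall
      obtain ⟨y, hy⟩ := hall
      have hI : Complex.I ∈ Θ.fieldRange := by
        obtain ⟨a, ha⟩ := hreal (Θ y).re
        obtain ⟨b, hb⟩ := hreal (Θ y).im
        refine ⟨(y - a) / b, ?_⟩
        rw [map_div₀, map_sub, ha, hb]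
        have hb0 : (((Θ y).im : ℝ) : ℂ) ≠ 0 := by exact_mod_cast hy
        rw [div_eq_iff hb0, sub_eq_iff_eq_add]
        conv_lhs => rw [← Complex.re_add_im (Θ y)]
        ring
      have h1 : ∀ z : ℂ, z ∈ Θ.fieldRange := by
        intro z
        rw [← Complex.re_add_im z]
        refine add_mem ?_ (mul_mem ?_ hI)
        · obtain ⟨a, ha⟩ := hreal z.re; exact ⟨a, ha⟩
        · obtain ⟨a, ha⟩ := hreal z.im; exact ⟨a, ha⟩
      exact h1 _
  choose g hg using hrange
  have hinj := Θ.injective
  refine ⟨w, { toFun := g, map_one' := ?_, map_mul' := ?_, map_zero' := ?_, map_add' := ?_ },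
    fun x => ?_⟩
  · apply hinj; rw [hg, map_one, map_one]
  · intro x y; apply hinj; rw [hg, map_mul, map_mul, hg, hg]
  · apply hinj; rw [hg, map_zero, map_zero]
  · intro x y; apply hinj; rw [hg, map_add, map_add, hg, hg]
  · change g (algebraMap L w.Completion x) = φ x
    apply hinj
    rw [hg]
    have h1 := extensionEmbedding_coe w ((WithAbs.equiv w.1).symm x)
    have h2 : w.embedding x = Θ (φ x) := by rw [← hΘ]; rfl
    rw [← h2]
    exact h1

end

end Pool.Agent.H10
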