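import Pool.Agent.H10.Func3
import Pool.Agent.H10.Place
import Pool.Agent.H10.PlaceInf
import Pool.Agent.H10.Sha

/-!
Restriction and corestriction in the form of the frozen statement.
-/

set_option autoImplicit false
set_option linter.style.haveILetI false
open scoped Classical

open WeierstrassCurve IsDedekindDomain NumberField

namespace Pool.Agent.H10

section trans

variable {K Ω Ω' : Type*} [Field K] [Field Ω] [Field Ω'] [Algebra K Ω] [Algebra K Ω']
  {E : WeierstrassCurve Ω} {E' : WeierstrassCurve Ω'}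

/-- Transport of a cochain to another closure. -/
noncomputable def trans (j : Ω ≃ₐ[K] Ω') (hj : E.map (j : Ω →+* Ω') = E')
    (f : (Ω ≃ₐ[K] Ω) → E.toAffine.Point) (σ : Ω' ≃ₐ[K] Ω') : E'.toAffine.Point :=
  pm (j : Ω →+* Ω') hj (f ((j.trans σ).trans j.symm))

lemma conj_mul (j : Ω ≃ₐ[K] Ω') (σ τ : Ω' ≃ₐ[K] Ω') :
    (j.trans (σ * τ)).trans j.symm =
      ((j.trans σ).trans j.symm) * ((j.trans τ).trans j.symm) := by
  ext x
  simp [AlgEquiv.mul_apply]

lemma trans_act (j : Ω ≃ₐ[K] Ω') (hj : E.map (j : Ω →+* Ω') = E') (h : Inv K E) (h' : Inv K E')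
    (σ : Ω' ≃ₐ[K] Ω') (P : E.toAffine.Point) :
    pm (j : Ω →+* Ω') hj (act h ((j.trans σ).trans j.symm) P) =
      act h' σ (pm (j : Ω →+* Ω') hj P) := by
  unfold act
  rw [pm_pm, pm_pm]
  apply pm_congr
  intro x
  change j (j.symm (σ (j x))) = σ (j x)
  rw [AlgEquiv.apply_symm_apply]

theorem isCoc_trans [Algebra.IsIntegral K Ω] [Algebra.IsIntegral K Ω'] (j : Ω ≃ₐ[K] Ω')
    (hj : E.map (j : Ω →+* Ω') = E') {h : Inv K E} {h' : Inv K E'}
    {f : (Ω ≃ₐ[K] Ω) → E.toAffine.Point} (hf : IsCoc h f) : IsCoc h' (trans j hj f) := by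
  constructor
  · rw [lc_iff]
    intro σ₀
    obtain ⟨A, hA⟩ := (lc_iff f).mp hf.1 ((j.trans σ₀).trans j.symm)
    refine ⟨A.image j, fun σ hσ => ?_⟩
    unfold trans
    rw [hA]
    intro x hx
    change j.symm (σ (j x)) = j.symm (σ₀ (j x))
    rw [hσ _ (Finset.mem_image_of_mem j hx)]
  · intro σ τ
    unfold trans
    rw [conj_mul, hf.2, map_add, trans_act j hj h h']

theorem trans_cob (j : Ω ≃ₐ[K] Ω') (hj : E.map (j : Ω →+* Ω') = E') {h : Inv K E}
    {h' : Inv K E'} {f : (Ω ≃ₐ[K] Ω) → E.toAffine.Point}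
    (hf : ∃ Q, ∀ σ, f σ = act h σ Q - Q) : ∃ Q, ∀ σ, trans j hj f σ = act h' σ Q - Q := by
  obtain ⟨Q, hQ⟩ := hf
  refine ⟨pm (j : Ω →+* Ω') hj Q, fun σ => ?_⟩
  unfold trans
  rw [hQ, map_sub, trans_act j hj h h']

theorem trans_triv (j : Ω ≃ₐ[K] Ω') (hj : E.map (j : Ω →+* Ω') = E')
    {f : (Ω ≃ₐ[K] Ω) → E.toAffine.Point} {F ΩF : Type*} [Field F] [Field ΩF] [Algebra F ΩF]
    {EF : WeierstrassCurve ΩF} {hF : Inv F EF} {ι : Ω →+* ΩF} {hι : E.map ι = EF}
    {ι' : Ω' →+* ΩF} (hι' : E'.map ι' = EF) (hc : ∀ x, ι' (j x) = ι x)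
    (H : TrivAt hF ι hι f) : TrivAt hF ι' hι' (trans j hj f) := by
  obtain ⟨P, hP⟩ := H
  refine ⟨P, fun τ σ hσ => ?_⟩
  have h1 := hP τ ((j.trans σ).trans j.symm) (fun x => by
    rw [← hc, hσ, ← hc]
    congr 1
    change σ (j x) = j (j.symm (σ (j x)))
    rw [AlgEquiv.apply_symm_apply])
  rw [← h1]
  unfold trans
  rw [pm_pm]
  exact pm_congr _ _ hc _

end trans

section frozen

variable {K : Type} [Field K] [NumberField K] {V : WeierstrassCurve K}

lemma inv_bc (K : Type*) {Ω : Type*} [Field K] [Field Ω] [Algebra K Ω] (V : WeierstrassCurve K) :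
    Inv K (V.baseChange Ω) := inv_of_map (V := V) rfl

lemma map_bc {K Ω ΩF : Type*} [Field K] [Field Ω] [Field ΩF] [Algebra K Ω] [Algebra K ΩF]
    (V : WeierstrassCurve K) (ι : Ω →ₐ[K] ΩF) :
    (V.baseChange Ω).map (ι : Ω →+* ΩF) = V.baseChange ΩF := by
  rw [WeierstrassCurve.baseChange, WeierstrassCurve.baseChange, WeierstrassCurve.map_map]
  congr 1
  exact ι.comp_algebraMap

lemma inv_bc' {K F ΩF : Type*} [Field K] [Field F] [Field ΩF] [Algebra K F] [Algebra F ΩF]
    [Algebra K ΩF] [IsScalarTower K F ΩF] (V : WeierstrassCurve K) :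
    Inv F (V.baseChange ΩF) := by
  apply inv_of_map (V := V.map (algebraMap K F))
  rw [WeierstrassCurve.map_map]
  congr 1
  exact (IsScalarTower.algebraMap_eq K F ΩF).symm

lemma isCocycle_iff (f : (AlgebraicClosure K ≃ₐ[K] AlgebraicClosure K) →
      (V.baseChange (AlgebraicClosure K)).toAffine.Point) :
    IsCocycle K V f ↔ IsCoc (inv_bc K V) f := by
  unfold IsCocycle IsCoc
  refine and_congr Iff.rfl ?_
  refine forall_congr' fun σ => forall_congr' fun τ => ?_
  rw [map_eq_pm]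
  rfl

lemma isCobound_iff (f : (AlgebraicClosure K ≃ₐ[K] AlgebraicClosure K) →
      (V.baseChange (AlgebraicClosure K)).toAffine.Point) :
    IsCobound K V f ↔ ∃ Q, ∀ σ, f σ = act (inv_bc K V) σ Q - Q := by
  unfold IsCobound
  refine exists_congr fun Q => forall_congr' fun σ => ?_
  rw [map_eq_pm]
  rfl

lemma locTriv_aux {F : Type} [Field F] [Algebra K F]
    (f : (AlgebraicClosure K ≃ₐ[K] AlgebraicClosure K) →
      (V.baseChange (AlgebraicClosure K)).toAffine.Point)
    (ι : AlgebraicClosure K →ₐ[K] AlgebraicClosure F) :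
    (∃ P : (V.baseChange (AlgebraicClosure F)).toAffine.Point,
    ∀ τ : AlgebraicClosure F ≃ₐ[F] AlgebraicClosure F,
    ∀ σ : AlgebraicClosure K ≃ₐ[K] AlgebraicClosure K,
      (τ.toAlgHom.restrictScalars K).comp ι = ι.comp σ.toAlgHom →
      (WeierstrassCurve.Affine.Point.map ι :
        (V.baseChange (AlgebraicClosure K)).toAffine.Point →+
          (V.baseChange (AlgebraicClosure F)).toAffine.Point) (f σ) =
        (WeierstrassCurve.Affine.Point.map (τ.toAlgHom.restrictScalars K) :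
          (V.baseChange (AlgebraicClosure F)).toAffine.Point →+
            (V.baseChange (AlgebraicClosure F)).toAffine.Point) P - P) ↔
    TrivAt (F := F) (inv_bc' V) (ι : AlgebraicClosure K →+* AlgebraicClosure F) (map_bc V ι) f := by
  unfold TrivAt
  refine exists_congr fun P => forall_congr' fun τ => forall_congr' fun σ => ?_
  refine imp_congr ?_ ?_
  · constructor
    · intro h x
      exact congrArg (fun φ : AlgebraicClosure K →ₐ[K] AlgebraicClosure F => φ x) h
    · intro h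
      exact AlgHom.ext h
  · rw [map_eq_pm, map_eq_pm]
    rfl

lemma isLocTriv_iff (f : (AlgebraicClosure K ≃ₐ[K] AlgebraicClosure K) →
      (V.baseChange (AlgebraicClosure K)).toAffine.Point) :
    IsLocTriv K V f ↔
      (∀ v : HeightOneSpectrum (𝓞 K), ∀ ι : AlgebraicClosure K →ₐ[K]
        AlgebraicClosure (v.adicCompletion K),
        TrivAt (F := v.adicCompletion K) (inv_bc' V)
          (ι : AlgebraicClosure K →+* AlgebraicClosure (v.adicCompletion K)) (map_bc V ι) f) ∧
      (∀ v : InfinitePlace K, ∀ ι : AlgebraicClosure K →ₐ[K] AlgebraicClosure v.Completion,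
        TrivAt (F := v.Completion) (inv_bc' V)
          (ι : AlgebraicClosure K →+* AlgebraicClosure v.Completion) (map_bc V ι) f) := by
  unfold IsLocTriv
  refine and_congr ?_ ?_
  · exact forall_congr' fun v => forall_congr' fun ι => locTriv_aux f ι
  · exact forall_congr' fun v => forall_congr' fun ι => locTriv_aux f ι

end frozen

end Pool.Agent.H10
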