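import Pool.Agent.H10.Func4

/-!
Restriction and corestriction on the Tate-Shafarevich group in the form of the frozen statement.
-/

set_option autoImplicit false
set_option linter.style.haveILetI false
open scoped Classical

open WeierstrassCurve IsDedekindDomain NumberField

namespace Pool.Agent.H10

section

variable {K L : Type} [Field K] [NumberField K] [Field L] [NumberField L] [Algebra K L]

instance isAlg_closure : Algebra.IsAlgebraic K (AlgebraicClosure L) :=
  Algebra.IsAlgebraic.trans K L (AlgebraicClosure L)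

instance isAlgClosure_closure : IsAlgClosure K (AlgebraicClosure L) :=
  ⟨inferInstance, inferInstance⟩

variable (K L) in
/-- The chosen isomorphism of algebraic closures. -/
noncomputable def jj : AlgebraicClosure K ≃ₐ[K] AlgebraicClosure L :=
  IsAlgClosure.equiv K (AlgebraicClosure K) (AlgebraicClosure L)

variable {V : WeierstrassCurve K} {V' : WeierstrassCurve L}

lemma map_up (hV : V.map (algebraMap K L) = V') :
    V.map (algebraMap K (AlgebraicClosure L)) = V'.baseChange (AlgebraicClosure L) := by
  rw [← hV, WeierstrassCurve.baseChange, WeierstrassCurve.map_map,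
    IsScalarTower.algebraMap_eq K L (AlgebraicClosure L)]

lemma inv_up (hV : V.map (algebraMap K L) = V') :
    Inv K (V'.baseChange (AlgebraicClosure L)) := inv_of_map (map_up hV)

lemma map_jj (hV : V.map (algebraMap K L) = V') :
    (V.baseChange (AlgebraicClosure K)).map (jj K L : AlgebraicClosure K →+* AlgebraicClosure L) =
      V'.baseChange (AlgebraicClosure L) := by
  rw [← map_up hV, WeierstrassCurve.baseChange, WeierstrassCurve.map_map]
  congr 1
  ext x
  exact (jj K L).commutes x

lemma map_jj_symm (hV : V.map (algebraMap K L) = V') :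
    (V'.baseChange (AlgebraicClosure L)).map
      ((jj K L).symm : AlgebraicClosure L →+* AlgebraicClosure K) =
      V.baseChange (AlgebraicClosure K) := by
  rw [← map_jj hV, WeierstrassCurve.map_map]
  have : ((jj K L).symm : AlgebraicClosure L →+* AlgebraicClosure K).comp
      (jj K L : AlgebraicClosure K →+* AlgebraicClosure L) = RingHom.id _ := by
    ext x
    exact (jj K L).symm_apply_apply x
  rw [this, WeierstrassCurve.map_id]

/-- Restriction from `K` to `L`. -/
noncomputable def resF (hV : V.map (algebraMap K L) = V')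
    (f : (AlgebraicClosure K ≃ₐ[K] AlgebraicClosure K) →
      (V.baseChange (AlgebraicClosure K)).toAffine.Point)
    (τ : AlgebraicClosure L ≃ₐ[L] AlgebraicClosure L) :
    (V'.baseChange (AlgebraicClosure L)).toAffine.Point :=
  trans (jj K L) (map_jj hV) f (τ.restrictScalars K)

/-- Corestriction from `L` to `K`. -/
noncomputable def corF (hV : V.map (algebraMap K L) = V')
    (f : (AlgebraicClosure L ≃ₐ[L] AlgebraicClosure L) →
      (V'.baseChange (AlgebraicClosure L)).toAffine.Point)
    (σ : AlgebraicClosure K ≃ₐ[K] AlgebraicClosure K) :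
    (V.baseChange (AlgebraicClosure K)).toAffine.Point :=
  trans (jj K L).symm (map_jj_symm hV) (cor (inv_up hV) f) σ

variable (hV : V.map (algebraMap K L) = V')

theorem isCocycle_res {f : (AlgebraicClosure K ≃ₐ[K] AlgebraicClosure K) →
      (V.baseChange (AlgebraicClosure K)).toAffine.Point} (hf : IsCocycle K V f) :
    IsCocycle L V' (resF hV f) := by
  rw [isCocycle_iff] at hf ⊢
  have h1 := isCoc_trans (jj K L) (map_jj hV) (h' := inv_up hV) hf
  have h2 := isCoc_res (L := L) h1
  exact h2

theorem isCocycle_cor {f : (AlgebraicClosure L ≃ₐ[L] AlgebraicClosure L) →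
      (V'.baseChange (AlgebraicClosure L)).toAffine.Point} (hf : IsCocycle L V' f) :
    IsCocycle K V (corF hV f) := by
  rw [isCocycle_iff] at hf ⊢
  exact isCoc_trans (jj K L).symm (map_jj_symm hV) (h := inv_up hV) (isCoc_cor hf)

theorem isCobound_res {f : (AlgebraicClosure K ≃ₐ[K] AlgebraicClosure K) →
      (V.baseChange (AlgebraicClosure K)).toAffine.Point} (hf : IsCobound K V f) :
    IsCobound L V' (resF hV f) := by
  rw [isCobound_iff] at hf ⊢
  obtain ⟨Q, hQ⟩ := trans_cob (jj K L) (map_jj hV) (h' := inv_up hV) hf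
  exact ⟨Q, fun τ => hQ (τ.restrictScalars K)⟩

theorem isCobound_cor {f : (AlgebraicClosure L ≃ₐ[L] AlgebraicClosure L) →
      (V'.baseChange (AlgebraicClosure L)).toAffine.Point} (hf : IsCobound L V' f) :
    IsCobound K V (corF hV f) := by
  rw [isCobound_iff] at hf ⊢
  obtain ⟨Q, hQ⟩ := hf
  exact trans_cob (jj K L).symm (map_jj_symm hV) (h := inv_up hV)
    (cor_cob (inv_up hV) f Q hQ)

/-- Corestriction after restriction is multiplication by the degree, up to a coboundary. -/
theorem corF_resF {f : (AlgebraicClosure K ≃ₐ[K] AlgebraicClosure K) →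
      (V.baseChange (AlgebraicClosure K)).toAffine.Point} (hf : IsCocycle K V f) :
    IsCobound K V (fun σ => corF hV (resF hV f) σ - Module.finrank K L • f σ) := by
  rw [isCocycle_iff] at hf
  rw [isCobound_iff]
  have h1 := isCoc_trans (jj K L) (map_jj hV) (h' := inv_up hV) hf
  obtain ⟨R, hR⟩ := cor_res (L := L) h1
  obtain ⟨Q, hQ⟩ := trans_cob (jj K L).symm (map_jj_symm hV) (h := inv_up hV) (h' := inv_bc K V)
    (f := fun σ => act (inv_up hV) σ R - R) ⟨R, fun σ => rfl⟩
  refine ⟨Q, fun σ => ?_⟩
  rw [← hQ σ]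
  have hcard : Fintype.card (L →ₐ[K] AlgebraicClosure L) = Module.finrank K L :=
    AlgHom.card K L (AlgebraicClosure L)
  unfold corF trans
  have h2 : cor (inv_up hV) (resF hV f) = fun σ => _ := funext hR
  rw [h2]
  beta_reduce
  rw [map_add, map_nsmul, hcard]
  have h3 : pm ((jj K L).symm : AlgebraicClosure L →+* AlgebraicClosure K) (map_jj_symm hV)
      (trans (jj K L) (map_jj hV) f (((jj K L).symm.trans σ).trans (jj K L).symm.symm)) =
      f σ := by
    unfold trans
    rw [pm_pm]
    have h4 : ((jj K L).trans (((jj K L).symm.trans σ).trans (jj K L).symm.symm)).trans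
        (jj K L).symm = σ := by
      ext x
      simp
    rw [h4]
    apply pm_eq_self
    intro x
    exact (jj K L).symm_apply_apply x
  rw [h3]
  abel

omit [NumberField K] [NumberField L] in
lemma triv_restrict {F ΩF Ω : Type*} [Field F] [Field ΩF] [Algebra F ΩF] [Field Ω]
    [Algebra L Ω] [Algebra K Ω] [IsScalarTower K L Ω] {E : WeierstrassCurve Ω}
    {EF : WeierstrassCurve ΩF} {hF : Inv F EF} {ι : Ω →+* ΩF} {hι : E.map ι = EF}
    {g : (Ω ≃ₐ[K] Ω) → E.toAffine.Point} (H : TrivAt hF ι hι g) :
    TrivAt (K := L) hF ι hι (fun τ : Ω ≃ₐ[L] Ω => g (τ.restrictScalars K)) := by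
  obtain ⟨P, hP⟩ := H
  exact ⟨P, fun τ σ h => hP τ (σ.restrictScalars K) h⟩

/-- The local step for restriction. -/
lemma res_local {f : (AlgebraicClosure K ≃ₐ[K] AlgebraicClosure K) →
      (V.baseChange (AlgebraicClosure K)).toAffine.Point} (hf : IsCoc (inv_bc K V) f)
    {Kv Lw : Type} [Field Kv] [Field Lw] [Algebra K Kv] [Algebra L Lw]
    (ψ : Kv →+* Lw) (hψ : ∀ a : K, ψ (algebraMap K Kv a) = algebraMap L Lw (algebraMap K L a))
    [CharZero Kv]
    (hK : ∀ ι : AlgebraicClosure K →ₐ[K] AlgebraicClosure Kv,
      TrivAt (F := Kv) (inv_bc' V) (ι : AlgebraicClosure K →+* AlgebraicClosure Kv) (map_bc V ι) f)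
    (ι : AlgebraicClosure L →ₐ[L] AlgebraicClosure Lw) :
    TrivAt (F := Lw) (inv_bc' V') (ι : AlgebraicClosure L →+* AlgebraicClosure Lw)
      (map_bc V' ι) (resF hV f) := by
  obtain ⟨ι₀⟩ : Nonempty (AlgebraicClosure K →ₐ[K] AlgebraicClosure Kv) := ⟨IsAlgClosed.lift⟩
  have h1 := hK ι₀
  have hι' : (V.baseChange (AlgebraicClosure K)).map
      ((ι : AlgebraicClosure L →+* AlgebraicClosure Lw).comp
        (jj K L : AlgebraicClosure K →+* AlgebraicClosure L)) =
      V'.baseChange (AlgebraicClosure Lw) := by
    rw [← WeierstrassCurve.map_map, map_jj hV, map_bc]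
  have h2 := h1.trans hf (V := V) rfl (k := ψ) (j := algebraMap K Kv)
    (fun a => by
      change ι₀ (algebraMap K (AlgebraicClosure K) a) = _
      rw [ι₀.commutes, IsScalarTower.algebraMap_apply K Kv (AlgebraicClosure Kv)])
    (inv_bc' V' : Inv Lw (V'.baseChange (AlgebraicClosure Lw)))
    ((ι : AlgebraicClosure L →+* AlgebraicClosure Lw).comp
        (jj K L : AlgebraicClosure K →+* AlgebraicClosure L)) hι' (fun a => by
      change ι (jj K L (algebraMap K (AlgebraicClosure K) a)) = _
      rw [(jj K L).commutes, hψ, IsScalarTower.algebraMap_apply K L (AlgebraicClosure L),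
        ι.commutes, IsScalarTower.algebraMap_apply L Lw (AlgebraicClosure Lw)])
  have h3 := trans_triv (jj K L) (map_jj hV) (map_bc V' ι) (fun x => rfl) h2
  have h4 := triv_restrict (L := L) h3
  exact h4

/-- Restriction preserves local triviality. -/
theorem isLocTriv_res {f : (AlgebraicClosure K ≃ₐ[K] AlgebraicClosure K) →
      (V.baseChange (AlgebraicClosure K)).toAffine.Point} (hf : IsCocycle K V f)
    (hl : IsLocTriv K V f) : IsLocTriv L V' (resF hV f) := by
  rw [isCocycle_iff] at hf
  rw [isLocTriv_iff] at hl ⊢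
  constructor
  · intro w ι
    -- the place below
    obtain ⟨a, ha, ha0⟩ : ∃ a : 𝓞 K, algebraMap (𝓞 K) (𝓞 L) a ∈ w.asIdeal ∧ a ≠ 0 := by
      refine ⟨((Ideal.absNorm w.asIdeal : ℕ) : 𝓞 K), ?_, ?_⟩
      · rw [map_natCast]
        exact Ideal.absNorm_mem w.asIdeal
      · have : Ideal.absNorm w.asIdeal ≠ 0 := by
          rw [Ne, Ideal.absNorm_eq_zero_iff]; exact w.ne_bot
        exact_mod_cast this
    obtain ⟨v, ψ, hψ⟩ := exists_place_of_norm (L := K) (F := w.adicCompletion L)
      ((algebraMap L (w.adicCompletion L)).comp (algebraMap K L)) ha0 (by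
        exact (FinitePlace.norm_lt_one_iff_mem L w (algebraMap (𝓞 K) (𝓞 L) a)).mpr ha)
    have hcz : CharZero (v.adicCompletion K) :=
      charZero_of_injective_algebraMap (algebraMap K (v.adicCompletion K)).injective
    exact res_local hV hf ψ hψ (hl.1 v) ι
  · intro w ι
    obtain ⟨v, ψ, hψ⟩ := exists_inf_place (K := L) (L := K) (F := w.Completion) w
      ((algebraMap L w.Completion).comp (algebraMap K L))
    have hcz : CharZero v.Completion :=
      charZero_of_injective_algebraMap (algebraMap K v.Completion).injective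
    exact res_local hV hf ψ hψ (hl.2 v) ι

end

end Pool.Agent.H10
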