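import Pool.Agent.H10.Func5

/-!
Local triviality of the corestriction; additivity.
-/

set_option autoImplicit false
set_option linter.style.haveILetI false
open scoped Classical

open WeierstrassCurve IsDedekindDomain NumberField

namespace Pool.Agent.H10

section

variable {K L : Type} [Field K] [NumberField K] [Field L] [NumberField L] [Algebra K L]
variable {V : WeierstrassCurve K} {V' : WeierstrassCurve L}

/-- The property that a cocycle over `L` is trivial over all finite extensions of `Kv` which
contain `L` compatibly. -/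
def TrivOver (Kv : Type) [Field Kv] [Algebra K Kv]
    (f : (AlgebraicClosure L ≃ₐ[L] AlgebraicClosure L) →
      (V'.baseChange (AlgebraicClosure L)).toAffine.Point) : Prop :=
  ∀ (F ΩF : Type) [Field F] [Algebra Kv F] [FiniteDimensional Kv F] [Field ΩF] [Algebra F ΩF]
    [IsAlgClosed ΩF] (φ : L →+* F),
    (∀ a : K, φ (algebraMap K L a) = algebraMap Kv F (algebraMap K Kv a)) →
    ∀ (ι' : AlgebraicClosure L →+* ΩF),
    (∀ x : L, ι' (algebraMap L (AlgebraicClosure L) x) = algebraMap F ΩF (φ x)) →
    ∀ (EF : WeierstrassCurve ΩF) (hF : Inv F EF)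
      (hι' : (V'.baseChange (AlgebraicClosure L)).map ι' = EF),
      TrivAt hF ι' hι' f

variable (hV : V.map (algebraMap K L) = V')

/-- The local step for corestriction. -/
lemma cor_local {f : (AlgebraicClosure L ≃ₐ[L] AlgebraicClosure L) →
      (V'.baseChange (AlgebraicClosure L)).toAffine.Point} (hf : IsCoc (inv_bc L V') f)
    {Kv : Type} [Field Kv] [Algebra K Kv]
    (hT : TrivOver (K := K) Kv f)
    (ι : AlgebraicClosure K →ₐ[K] AlgebraicClosure Kv) :
    TrivAt (F := Kv) (inv_bc' V) (ι : AlgebraicClosure K →+* AlgebraicClosure Kv)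
      (map_bc V ι) (corF hV f) := by
  -- the other closure
  let ι2 : AlgebraicClosure L →+* AlgebraicClosure Kv :=
    (ι : AlgebraicClosure K →+* AlgebraicClosure Kv).comp
      ((jj K L).symm : AlgebraicClosure L →+* AlgebraicClosure K)
  have hι2 : (V'.baseChange (AlgebraicClosure L)).map ι2 = V.baseChange (AlgebraicClosure Kv) := by
    rw [← WeierstrassCurve.map_map, map_jj_symm hV, map_bc]
  have hι2K : ∀ a : K, ι2 (algebraMap K (AlgebraicClosure L) a) =
      algebraMap Kv (AlgebraicClosure Kv) (algebraMap K Kv a) := by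
    intro a
    change ι ((jj K L).symm (algebraMap K (AlgebraicClosure L) a)) = _
    rw [(jj K L).symm.commutes, ι.commutes, IsScalarTower.algebraMap_apply K Kv
      (AlgebraicClosure Kv)]
  have key : TrivAt (F := Kv) (inv_bc' V) ι2 hι2 (cor (inv_up hV) f) := by
    apply trivAt_cor (h := inv_up hV) hf (inv_bc' V) ι2 hι2 (algebraMap K Kv) hι2K
    intro φ
    let b := Module.finBasis K L
    let S : Set (AlgebraicClosure Kv) := Set.range (fun i => ι2 (φ (b i)))
    let F : IntermediateField Kv (AlgebraicClosure Kv) := IntermediateField.adjoin Kv S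
    have hfin : FiniteDimensional Kv F := by
      apply IntermediateField.finiteDimensional_adjoin
      intro x _
      exact Algebra.IsIntegral.isIntegral x
    have hmem : ∀ x : L, ι2 (φ x) ∈ F := by
      intro x
      rw [← b.sum_repr x, map_sum, map_sum]
      refine sum_mem fun i _ => ?_
      rw [Algebra.smul_def, map_mul, φ.commutes, map_mul, hι2K]
      refine mul_mem (F.algebraMap_mem _) ?_
      exact IntermediateField.subset_adjoin Kv S ⟨i, rfl⟩
    let φ' : L →+* F := RingHom.codRestrict (ι2.comp (φ : L →+* AlgebraicClosure L)) F hmem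
    have hφ' : ∀ x, algebraMap F (AlgebraicClosure Kv) (φ' x) = ι2 (φ x) := fun x => rfl
    obtain ⟨P, hP⟩ := hT F (AlgebraicClosure Kv) φ' (fun a => by
        apply (algebraMap F (AlgebraicClosure Kv)).injective
        rw [hφ', φ.commutes, hι2K]
        rfl)
      (ι2.comp (lft φ : AlgebraicClosure L →+* AlgebraicClosure L)) (fun x => by
        rw [hφ']
        change ι2 (lft φ (algebraMap L (AlgebraicClosure L) x)) = _
        rw [lft_apply])
      (V.baseChange (AlgebraicClosure Kv)) (by
        intro τ
        exact (inv_bc' V : Inv Kv (V.baseChange (AlgebraicClosure Kv))) (τ.restrictScalars Kv))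
      (map_lft (inv_up hV) hι2 φ)
    refine ⟨P, fun τ hτ σ hσ => ?_⟩
    have hfix : ∀ z : F, τ (algebraMap F (AlgebraicClosure Kv) z) =
        algebraMap F (AlgebraicClosure Kv) z := by
      intro z
      have h1 : F ≤ IntermediateField.fixedField (Subgroup.zpowers τ) := by
        rw [IntermediateField.adjoin_le_iff]
        rintro _ ⟨i, rfl⟩
        rw [SetLike.mem_coe, IntermediateField.mem_fixedField_iff]
        intro g hg
        obtain ⟨n, rfl⟩ := Subgroup.mem_zpowers_iff.mp hg
        have h2 : ∀ m : ℕ, (τ ^ m) (ι2 (φ (b i))) = ι2 (φ (b i)) := by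
          intro m
          induction m with
          | zero => rfl
          | succ m ih => rw [pow_succ, AlgEquiv.mul_apply, hτ, ih]
        cases n with
        | ofNat m =>
          rw [Int.ofNat_eq_natCast, zpow_natCast]
          exact h2 m
        | negSucc m =>
          rw [zpow_negSucc]
          have h3 := h2 (m + 1)
          change (τ ^ (m + 1)).symm _ = _
          rw [AlgEquiv.symm_apply_eq]
          exact h3.symm
      have h2 := h1 z.2
      rw [IntermediateField.mem_fixedField_iff] at h2
      exact h2 τ (Subgroup.mem_zpowers τ)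
    let τ' : AlgebraicClosure Kv ≃ₐ[F] AlgebraicClosure Kv :=
      { τ with commutes' := hfix }
    have h3 := hP τ' σ (fun y => hσ y)
    rw [h3]
    rfl
  exact trans_triv (jj K L).symm (map_jj_symm hV) (map_bc V ι) (fun x => rfl) key

omit [NumberField K] in
lemma charZero_of_alg {F : Type*} [Field F] [Algebra K F] [CharZero K] : CharZero F :=
  charZero_of_injective_algebraMap (algebraMap K F).injective

/-- Corestriction preserves local triviality. -/
theorem isLocTriv_cor {f : (AlgebraicClosure L ≃ₐ[L] AlgebraicClosure L) →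
      (V'.baseChange (AlgebraicClosure L)).toAffine.Point} (hf : IsCocycle L V' f)
    (hl : IsLocTriv L V' f) : IsLocTriv K V (corF hV f) := by
  rw [isCocycle_iff] at hf
  rw [isLocTriv_iff] at hl ⊢
  constructor
  · intro v ι
    refine cor_local hV hf ?_ ι
    intro F ΩF _ _ _ _ _ _ φ hφ ι' hι' EF hF hE
    obtain ⟨w, ψ, hψ⟩ := exists_place v φ hφ
    obtain ⟨ι₀⟩ : Nonempty (AlgebraicClosure L →ₐ[L] AlgebraicClosure (w.adicCompletion L)) := by
      have : CharZero (w.adicCompletion L) := charZero_of_alg (K := L)
      exact ⟨IsAlgClosed.lift⟩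
    have : CharZero (w.adicCompletion L) := charZero_of_alg (K := L)
    exact (hl.1 w ι₀).trans hf (V := V') rfl (k := ψ) (j := algebraMap L (w.adicCompletion L))
      (fun a => by
        change ι₀ (algebraMap L (AlgebraicClosure L) a) = _
        rw [ι₀.commutes, IsScalarTower.algebraMap_apply L (w.adicCompletion L)
          (AlgebraicClosure (w.adicCompletion L))])
      hF ι' hE (fun a => by rw [hι', hψ])
  · intro v ι
    refine cor_local hV hf ?_ ι
    intro F ΩF _ _ _ _ _ _ φ hφ ι' hι' EF hF hE
    obtain ⟨w, ψ, hψ⟩ := exists_inf_place v φ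
    obtain ⟨ι₀⟩ : Nonempty (AlgebraicClosure L →ₐ[L] AlgebraicClosure w.Completion) :=
      ⟨IsAlgClosed.lift⟩
    have : CharZero w.Completion := charZero_of_alg (K := L)
    exact (hl.2 w ι₀).trans hf (V := V') rfl (k := ψ) (j := algebraMap L w.Completion)
      (fun a => by
        change ι₀ (algebraMap L (AlgebraicClosure L) a) = _
        rw [ι₀.commutes, IsScalarTower.algebraMap_apply L w.Completion
          (AlgebraicClosure w.Completion)])
      hF ι' hE (fun a => by rw [hι', hψ])

end

end Pool.Agent.H10
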