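import Pool.Agent.H10.Func6

/-!
The Tate-Shafarevich group as a group; restriction and corestriction as homomorphisms.
-/

set_option autoImplicit false
set_option linter.style.haveILetI false
open scoped Classical

open WeierstrassCurve IsDedekindDomain NumberField

namespace Pool.Agent.H10

section coc

variable {K Ω : Type*} [Field K] [Field Ω] [Algebra K Ω] {E : WeierstrassCurve Ω} [DecidableEq Ω]
variable {F ΩF : Type*} [Field F] [Field ΩF] [Algebra F ΩF] [DecidableEq ΩF]
  {EF : WeierstrassCurve ΩF}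

lemma IsCoc.add {h : Inv K E} {f g : (Ω ≃ₐ[K] Ω) → E.toAffine.Point} (hf : IsCoc h f)
    (hg : IsCoc h g) : IsCoc h (fun σ => f σ + g σ) := by
  constructor
  · exact hf.1.comp₂ hg.1 (fun x y => x + y)
  · intro σ τ
    beta_reduce
    rw [hf.2, hg.2, map_add]
    abel

lemma IsCoc.neg {h : Inv K E} {f : (Ω ≃ₐ[K] Ω) → E.toAffine.Point} (hf : IsCoc h f) :
    IsCoc h (fun σ => - f σ) := by
  constructor
  · exact hf.1.comp (fun x => -x)
  · intro σ τ
    beta_reduce
    rw [hf.2, map_neg, neg_add]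

lemma isCoc_zero (h : Inv K E) : IsCoc h (fun _ => 0) := by
  constructor
  · exact IsLocallyConstant.const 0
  · intro σ τ
    rw [map_zero, add_zero]

lemma TrivAt.add {hF : Inv F EF} {ι : Ω →+* ΩF} {hι : E.map ι = EF}
    {f g : (Ω ≃ₐ[K] Ω) → E.toAffine.Point} (hf : TrivAt hF ι hι f) (hg : TrivAt hF ι hι g) :
    TrivAt hF ι hι (fun σ => f σ + g σ) := by
  obtain ⟨P, hP⟩ := hf
  obtain ⟨Q, hQ⟩ := hg
  refine ⟨P + Q, fun τ σ h => ?_⟩
  rw [map_add, map_add, hP τ σ h, hQ τ σ h]
  abel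

lemma TrivAt.neg {hF : Inv F EF} {ι : Ω →+* ΩF} {hι : E.map ι = EF}
    {f : (Ω ≃ₐ[K] Ω) → E.toAffine.Point} (hf : TrivAt hF ι hι f) :
    TrivAt hF ι hι (fun σ => - f σ) := by
  obtain ⟨P, hP⟩ := hf
  refine ⟨-P, fun τ σ h => ?_⟩
  rw [map_neg, map_neg, hP τ σ h]
  abel

lemma trivAt_zero (hF : Inv F EF) (ι : Ω →+* ΩF) (hι : E.map ι = EF) :
    TrivAt (K := K) hF ι hι (fun _ => 0) := by
  refine ⟨0, fun τ σ h => ?_⟩
  rw [map_zero, map_zero, sub_zero]

lemma trivAt_cob {h : Inv K E} (hF : Inv F EF) (ι : Ω →+* ΩF) (hι : E.map ι = EF)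
    (Q : E.toAffine.Point) : TrivAt (K := K) hF ι hι (fun σ => act h σ Q - Q) := by
  refine ⟨pm ι hι Q, fun τ σ hσ => ?_⟩
  rw [map_sub]
  congr 1
  unfold act
  rw [pm_pm, pm_pm]
  exact pm_congr _ _ (fun x => (hσ x).symm) _

/-- The stabiliser of a point is open. -/
lemma isLocallyConstant_act [Algebra.IsIntegral K Ω] (h : Inv K E) (Q : E.toAffine.Point) :
    IsLocallyConstant (fun σ : Ω ≃ₐ[K] Ω => act h σ Q - Q) := by
  rw [lc_iff]
  intro σ₀
  cases Q with
  | zero =>
    refine ⟨∅, fun σ _ => ?_⟩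
    change act h σ 0 - 0 = act h σ₀ 0 - 0
    rw [map_zero, map_zero]
  | some x y hxy =>
    refine ⟨{x, y}, fun σ hσ => ?_⟩
    have h1 := hσ x (by simp)
    have h2 := hσ y (by simp)
    congr 1
    unfold act
    simp only [pm_some]
    rw [WeierstrassCurve.Affine.Point.some.injEq]
    exact ⟨h1, h2⟩

lemma isCoc_cob [Algebra.IsIntegral K Ω] (h : Inv K E) (Q : E.toAffine.Point) :
    IsCoc h (fun σ => act h σ Q - Q) := by
  constructor
  · exact isLocallyConstant_act h Q
  · intro σ τ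
    beta_reduce
    rw [act_mul, map_sub]
    abel

end coc

section group

variable (K : Type) [Field K] [NumberField K] (V : WeierstrassCurve K)

/-- Cochains of the absolute Galois group with values in the points over the closure. -/
abbrev Coch : Type := (AlgebraicClosure K ≃ₐ[K] AlgebraicClosure K) →
      (V.baseChange (AlgebraicClosure K)).toAffine.Point

/-- The group of everywhere locally trivial continuous cocycles. -/
def ShaZ : AddSubgroup (Coch K V) where
  carrier := {f | IsCocycle K V f ∧ IsLocTriv K V f}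
  add_mem' := by
    rintro f g ⟨hf, hf'⟩ ⟨hg, hg'⟩
    rw [isLocTriv_iff] at hf' hg'
    rw [isCocycle_iff] at hf hg
    refine ⟨(isCocycle_iff _).mpr (hf.add hg), (isLocTriv_iff _).mpr ⟨fun v ι => ?_, fun v ι => ?_⟩⟩
    · exact (hf'.1 v ι).add (hg'.1 v ι)
    · exact (hf'.2 v ι).add (hg'.2 v ι)
  zero_mem' := by
    refine ⟨(isCocycle_iff _).mpr (isCoc_zero _), (isLocTriv_iff _).mpr
      ⟨fun v ι => ?_, fun v ι => ?_⟩⟩
    · exact trivAt_zero _ _ _
    · exact trivAt_zero _ _ _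
  neg_mem' := by
    rintro f ⟨hf, hf'⟩
    rw [isLocTriv_iff] at hf'
    rw [isCocycle_iff] at hf
    refine ⟨(isCocycle_iff _).mpr hf.neg, (isLocTriv_iff _).mpr ⟨fun v ι => ?_, fun v ι => ?_⟩⟩
    · exact (hf'.1 v ι).neg
    · exact (hf'.2 v ι).neg

/-- The group of coboundaries. -/
def ShaB : AddSubgroup (Coch K V) where
  carrier := {f | IsCobound K V f}
  add_mem' := by
    rintro f g hf hg
    rw [Set.mem_ofPred_eq, isCobound_iff] at hf hg ⊢
    obtain ⟨P, hP⟩ := hf
    obtain ⟨Q, hQ⟩ := hg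
    refine ⟨P + Q, fun σ => ?_⟩
    rw [Pi.add_apply, hP, hQ, map_add]
    abel
  zero_mem' := by
    rw [Set.mem_ofPred_eq, isCobound_iff]
    exact ⟨0, fun σ => by rw [map_zero, sub_zero]; rfl⟩
  neg_mem' := by
    rintro f hf
    rw [Set.mem_ofPred_eq, isCobound_iff] at hf ⊢
    obtain ⟨P, hP⟩ := hf
    refine ⟨-P, fun σ => ?_⟩
    rw [Pi.neg_apply, hP, map_neg]
    abel

/-- The Tate-Shafarevich group. -/
def Sha : Type := ShaZ K V ⧸ (ShaB K V).addSubgroupOf (ShaZ K V)

noncomputable instance : AddCommGroup (Sha K V) :=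
  inferInstanceAs (AddCommGroup (ShaZ K V ⧸ (ShaB K V).addSubgroupOf (ShaZ K V)))

lemma shaB_le : ShaB K V ≤ ShaZ K V := by
  intro f hf
  change IsCobound K V f at hf
  rw [isCobound_iff] at hf
  obtain ⟨Q, hQ⟩ := hf
  have h1 : f = fun σ => act (inv_bc K V) σ Q - Q := funext hQ
  refine ⟨(isCocycle_iff _).mpr ?_, (isLocTriv_iff _).mpr ⟨fun v ι => ?_, fun v ι => ?_⟩⟩
  · rw [h1]; exact isCoc_cob _ Q
  · rw [h1]; exact trivAt_cob _ _ _ Q
  · rw [h1]; exact trivAt_cob _ _ _ Q

variable {K V}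

/-- The class of a cocycle. -/
noncomputable def Sha.mk (f : ShaZ K V) : Sha K V :=
  QuotientAddGroup.mk' ((ShaB K V).addSubgroupOf (ShaZ K V)) f

lemma Sha.mk_surjective : Function.Surjective (Sha.mk : ShaZ K V → Sha K V) :=
  QuotientAddGroup.mk'_surjective _

lemma Sha.mk_eq_zero (f : ShaZ K V) : Sha.mk f = 0 ↔ IsCobound K V f := by
  change QuotientAddGroup.mk' ((ShaB K V).addSubgroupOf (ShaZ K V)) f = 0 ↔ _
  rw [← AddMonoidHom.mem_ker, QuotientAddGroup.ker_mk', AddSubgroup.mem_addSubgroupOf]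
  rfl

lemma Sha.mk_nsmul (n : ℕ) (f : ShaZ K V) : Sha.mk (n • f) = n • Sha.mk f :=
  map_nsmul (QuotientAddGroup.mk' ((ShaB K V).addSubgroupOf (ShaZ K V))) n f

end group

section maps

variable {K L : Type} [Field K] [NumberField K] [Field L] [NumberField L] [Algebra K L]
variable {V : WeierstrassCurve K} {V' : WeierstrassCurve L} (hV : V.map (algebraMap K L) = V')

/-- Restriction on cocycles. -/
noncomputable def resZ : ShaZ K V →+ ShaZ L V' where
  toFun f := ⟨resF hV f, isCocycle_res hV f.2.1, isLocTriv_res hV f.2.1 f.2.2⟩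
  map_zero' := by
    apply Subtype.ext
    funext τ
    change resF hV (0 : Coch K V) τ = 0
    unfold resF trans
    rw [Pi.zero_apply, map_zero]
  map_add' f g := by
    apply Subtype.ext
    funext τ
    change resF hV (f.1 + g.1) τ = resF hV f.1 τ + resF hV g.1 τ
    unfold resF trans
    rw [Pi.add_apply, map_add]

/-- Corestriction on cocycles. -/
noncomputable def corZ : ShaZ L V' →+ ShaZ K V where
  toFun f := ⟨corF hV f, isCocycle_cor hV f.2.1, isLocTriv_cor hV f.2.1 f.2.2⟩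
  map_zero' := by
    apply Subtype.ext
    funext σ
    change corF hV (0 : Coch L V') σ = 0
    unfold corF trans cor term
    simp only [Pi.zero_apply, map_zero, Finset.sum_const_zero]
  map_add' f g := by
    apply Subtype.ext
    funext σ
    change corF hV (f.1 + g.1) σ = corF hV f.1 σ + corF hV g.1 σ
    unfold corF trans
    rw [← map_add]
    congr 1
    exact cor_add _ _ _ _

/-- Restriction on the Tate-Shafarevich group. -/
noncomputable def Sha.res : Sha K V →+ Sha L V' :=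
  QuotientAddGroup.map _ _ (resZ hV) (by
    intro f hf
    rw [AddSubgroup.mem_comap, AddSubgroup.mem_addSubgroupOf]
    exact isCobound_res hV hf)

/-- Corestriction on the Tate-Shafarevich group. -/
noncomputable def Sha.cor : Sha L V' →+ Sha K V :=
  QuotientAddGroup.map _ _ (corZ hV) (by
    intro f hf
    rw [AddSubgroup.mem_comap, AddSubgroup.mem_addSubgroupOf]
    exact isCobound_cor hV hf)

lemma Sha.res_mk (f : ShaZ K V) : Sha.res hV (Sha.mk f) = Sha.mk (resZ hV f) := rfl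

lemma Sha.cor_mk (f : ShaZ L V') : Sha.cor hV (Sha.mk f) = Sha.mk (corZ hV f) := rfl

theorem Sha.cor_res (c : Sha K V) : Sha.cor hV (Sha.res hV c) = Module.finrank K L • c := by
  obtain ⟨f, rfl⟩ := Sha.mk_surjective c
  rw [Sha.res_mk, Sha.cor_mk, ← sub_eq_zero, ← Sha.mk_nsmul]
  have h1 : Sha.mk (corZ hV (resZ hV f)) - Sha.mk (Module.finrank K L • f) =
      Sha.mk (corZ hV (resZ hV f) - Module.finrank K L • f) := rfl
  rw [h1, Sha.mk_eq_zero]
  exact corF_resF hV f.2.1

end maps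

end Pool.Agent.H10
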