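import Pool.Agent.H10.Comp

/-!
Valuations and the relative norm at a prime with a unique prime above it.
-/

set_option autoImplicit false

open IsDedekindDomain NumberField

namespace Pool.Agent.H10

section

variable {K L : Type*} [Field K] [NumberField K] [Field L] [NumberField L] [Algebra K L]

/-- At most one prime of `L` contains the prime `p` of `K`. -/
def UniqueOver (K L : Type*) [Field K] [NumberField K] [Field L] [NumberField L] [Algebra K L]
    (p : Ideal (𝓞 K)) : Prop :=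
  ∀ P Q : Ideal (𝓞 L), P.IsPrime → Q.IsPrime → p.map (algebraMap (𝓞 K) (𝓞 L)) ≤ P →
    p.map (algebraMap (𝓞 K) (𝓞 L)) ≤ Q → P = Q

lemma dvd_of_dvd_relNorm {v : HeightOneSpectrum (𝓞 K)} {w : HeightOneSpectrum (𝓞 L)}
    (hu : UniqueOver K L v.asIdeal) (hw : v.asIdeal.map (algebraMap (𝓞 K) (𝓞 L)) ≤ w.asIdeal)
    (I : Ideal (𝓞 L)) (h : v.asIdeal ∣ Ideal.relNorm (𝓞 K) I) : w.asIdeal ∣ I := by
  induction I using UniqueFactorizationMonoid.induction_on_prime with
  | h₁ => exact dvd_zero _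
  | h₂ I hI =>
    exfalso
    rw [Ideal.isUnit_iff.mp hI, Ideal.relNorm_top, ← Ideal.one_eq_top] at h
    exact v.prime.not_isUnit (isUnit_of_dvd_one h)
  | h₃ J P hJ hP ih =>
    rw [map_mul] at h
    rcases v.prime.dvd_or_dvd h with h1 | h1
    · have hPp : P.IsPrime := Ideal.isPrime_of_prime hP
      have hlo : P.LiesOver (P.under (𝓞 K)) := ⟨rfl⟩
      obtain ⟨s, hs⟩ := Ideal.exists_relNorm_eq_pow_of_isPrime P (P.under (𝓞 K))
      rw [hs] at h1
      have h2 := v.prime.dvd_of_dvd_pow h1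
      have h3 : P.under (𝓞 K) ≤ v.asIdeal := Ideal.le_of_dvd h2
      have hne : P.under (𝓞 K) ≠ ⊥ := Ideal.IsIntegral.comap_ne_bot _ hP.ne_zero
      have hmax : (P.under (𝓞 K)).IsMaximal :=
        (inferInstance : (P.under (𝓞 K)).IsPrime).isMaximal hne
      have h4 : P.under (𝓞 K) = v.asIdeal := hmax.eq_of_le v.isPrime.ne_top h3
      have h5 : v.asIdeal.map (algebraMap (𝓞 K) (𝓞 L)) ≤ P := by
        rw [← h4]; exact Ideal.map_comap_le
      rw [hu w.asIdeal P w.isPrime hPp hw h5]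
      exact dvd_mul_right _ _
    · exact dvd_mul_of_dvd_right (ih h1) _

lemma norm_notMem {v : HeightOneSpectrum (𝓞 K)} {w : HeightOneSpectrum (𝓞 L)}
    (hu : UniqueOver K L v.asIdeal) (hw : v.asIdeal.map (algebraMap (𝓞 K) (𝓞 L)) ≤ w.asIdeal)
    {m : 𝓞 L} (hm : m ∉ w.asIdeal) :
    v.valuation K (Algebra.norm K (algebraMap (𝓞 L) L m)) = 1 := by
  rw [← Algebra.algebraMap_intNorm (A := 𝓞 K) (K := K) (L := L) (B := 𝓞 L)]
  rw [v.valuation_eq_one_iff_notMem]
  intro h
  apply hm
  rw [← Ideal.span_singleton_le_iff_mem]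
  apply Ideal.le_of_dvd
  apply dvd_of_dvd_relNorm hu hw
  rw [Ideal.relNorm_singleton, Ideal.dvd_span_singleton]
  exact h

lemma norm_val_one {v : HeightOneSpectrum (𝓞 K)} {w : HeightOneSpectrum (𝓞 L)}
    (hu : UniqueOver K L v.asIdeal) (hw : v.asIdeal.map (algebraMap (𝓞 K) (𝓞 L)) ≤ w.asIdeal)
    {u : L} (h : w.valuation L u = 1) : v.valuation K (Algebra.norm K u) = 1 := by
  obtain ⟨n, ⟨d, hd⟩, hnd⟩ := HeightOneSpectrum.exists_primeCompl_mul_eq_of_integer w u h.le
  change d ∉ w.asIdeal at hd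
  change u * algebraMap (𝓞 L) L d = algebraMap (𝓞 L) L n at hnd
  have hd1 : w.valuation L (algebraMap (𝓞 L) L d) = 1 :=
    (w.valuation_eq_one_iff_notMem (K := L)).mpr hd
  have hn1 : w.valuation L (algebraMap (𝓞 L) L n) = 1 := by
    rw [← hnd, map_mul, h, hd1, one_mul]
  have hn : n ∉ w.asIdeal := (w.valuation_eq_one_iff_notMem (K := L)).mp hn1
  have h1 := norm_notMem hu hw hd
  have h2 := norm_notMem hu hw hn
  rw [← hnd, map_mul, map_mul, h1, mul_one] at h2
  exact h2

omit [NumberField K] [NumberField L] in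
lemma norm_zpow {x : L} (hx : x ≠ 0) (e : ℤ) :
    Algebra.norm K (x ^ e) = (Algebra.norm K x) ^ e := by
  have hinv : Algebra.norm K x⁻¹ = (Algebra.norm K x)⁻¹ := by
    apply eq_inv_of_mul_eq_one_left
    rw [← map_mul, inv_mul_cancel₀ hx, map_one]
  cases e with
  | ofNat m => rw [Int.ofNat_eq_natCast, zpow_natCast, zpow_natCast, map_pow]
  | negSucc m => rw [zpow_negSucc, zpow_negSucc, ← inv_pow, map_pow, hinv, inv_pow]

/-- If the norm is a square, then the valuation at a prime which is alone above a prime of `K`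
is even. -/
theorem even_of_norm_sq (hodd : Odd (Module.finrank K L)) {v : HeightOneSpectrum (𝓞 K)}
    {w : HeightOneSpectrum (𝓞 L)} (hu : UniqueOver K L v.asIdeal)
    (hw : v.asIdeal.map (algebraMap (𝓞 K) (𝓞 L)) ≤ w.asIdeal) {x : L} (hx : x ≠ 0)
    (hN : IsSquare (Algebra.norm K x)) : Even (WithZero.log (w.valuation L x)) := by
  obtain ⟨t, ht⟩ := v.valuation_surjective K (WithZero.exp (-1 : ℤ))
  have ht0 : t ≠ 0 := by
    rintro rfl
    rw [map_zero] at ht
    exact WithZero.exp_ne_zero ht.symm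
  have htL : algebraMap K L t ≠ 0 := by rw [Ne, map_eq_zero]; exact ht0
  have wt := (Valuation.ne_zero_iff (w.valuation L)).mpr htL
  have wx := (Valuation.ne_zero_iff (w.valuation L)).mpr hx
  set k := WithZero.log (w.valuation L x) with hk
  set e := WithZero.log (w.valuation L (algebraMap K L t)) with he
  have h1 : w.valuation L (x ^ e * (algebraMap K L t) ^ (-k)) = 1 := by
    rw [map_mul, map_zpow₀, map_zpow₀, ← WithZero.exp_log wx, ← WithZero.exp_log wt, ← hk, ← he,
      ← WithZero.exp_zsmul, ← WithZero.exp_zsmul, ← WithZero.exp_add, ← WithZero.exp_zero]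
    congr 1
    simp only [smul_eq_mul]
    ring
  have h2 := norm_val_one hu hw h1
  obtain ⟨y, hy⟩ := hN
  have hy0 : y ≠ 0 := by
    rintro rfl
    rw [mul_zero, Algebra.norm_eq_zero_iff] at hy
    exact hx hy
  have vy := (Valuation.ne_zero_iff (v.valuation K)).mpr hy0
  rw [map_mul, norm_zpow hx, norm_zpow htL, Algebra.norm_algebraMap, hy, map_mul, map_zpow₀,
    map_mul, map_zpow₀, map_pow, ht] at h2
  have h3 := congrArg WithZero.log h2
  rw [WithZero.log_one, WithZero.log_mul (zpow_ne_zero _ (mul_ne_zero vy vy))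
    (zpow_ne_zero _ (pow_ne_zero _ WithZero.exp_ne_zero)), WithZero.log_zpow,
    WithZero.log_mul vy vy, WithZero.log_zpow, WithZero.log_pow, WithZero.log_exp] at h3
  simp only [smul_eq_mul, nsmul_eq_mul, mul_neg, mul_one, neg_mul, neg_neg] at h3
  obtain ⟨n', hn'⟩ := hodd
  rw [hn'] at h3
  push_cast at h3
  refine ⟨-(e * WithZero.log (v.valuation K y)) - n' * k, ?_⟩
  linarith

end

end Pool.Agent.H10
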