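import Pool.Agent.H10.ValPar

/-!
Local analysis above two when the curve is semistable there.
-/

set_option autoImplicit false

open WithZero

namespace Pool.Agent.H10

section

variable {F : Type*} [Field F] (V : Valuation F (WithZero (Multiplicative ℤ)))

/-- Up to a square, `x` is congruent to the square of a unit modulo four. -/
def SqModFour (x : F) : Prop := ∃ t m : F, t ≠ 0 ∧ V m = 1 ∧ V (x * t ^ 2 - m ^ 2) ≤ V 4

variable {V}

lemma val_eq_one_of_sq {s : F} (h : V (s ^ 2) = 1) : V s = 1 := by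
  have hs : V s ≠ 0 := by
    intro h0
    rw [map_pow, h0] at h
    simp at h
  have h1 := congrArg log h
  rw [map_pow, log_pow, log_one] at h1
  rw [← exp_log hs, ← exp_zero]
  congr 1
  simpa using h1

lemma SqModFour.even {x : F} (hx : x ≠ 0) (h4 : V 4 < 1) (h : SqModFour V x) :
    Even (log (V x)) := by
  obtain ⟨t, m, ht, hm, h⟩ := h
  have h1 : V (x * t ^ 2) = 1 := by
    have h2 : x * t ^ 2 = (x * t ^ 2 - m ^ 2) + m ^ 2 := by ring
    rw [h2, Valuation.map_add_eq_of_lt_right V, map_pow, hm, one_pow]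
    rw [map_pow, hm, one_pow]
    exact h.trans_lt h4
  have h3 := congrArg log h1
  rw [log_mul_sq V hx ht, log_one] at h3
  rw [Int.even_iff]
  omega

lemma SqModFour.of_mul_sq {x z : F} (hz : z ≠ 0) (h : SqModFour V (x * z ^ 2)) :
    SqModFour V x := by
  obtain ⟨t, m, ht, hm, h⟩ := h
  refine ⟨z * t, m, mul_ne_zero hz ht, hm, ?_⟩
  rw [mul_pow, ← mul_assoc]
  exact h

lemma SqModFour.of_sq {x s : F} (hs : s ≠ 0) (hx : x = s ^ 2) : SqModFour V x := by
  refine ⟨s⁻¹, 1, inv_ne_zero hs, map_one V, ?_⟩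
  rw [hx, ← mul_pow, mul_inv_cancel₀ hs, sub_self, map_zero]
  exact zero_le

variable {a b s d₁ d₂ d₃ c : F}

/-- The class of the isolated root. -/
theorem sqModFour_of_cpt (h4 : V 4 < 1) (ha : V a ≤ V 16) (hb : V b = 1)
    (hs : V (b + s ^ 2) ≤ V 4) (hd : d₁ * d₂ * d₃ = c ^ 2) (hc : c ≠ 0)
    (H : CPt 0 a b d₁ d₂ d₃) : SqModFour V d₃ := by
  have h16 : V 16 = V 4 * V 4 := by rw [← map_mul]; norm_num
  have h16' : V 16 ≤ V 4 := by rw [h16]; exact mul_le_of_le_one_left' h4.le
  have hdn : d₁ * d₂ * d₃ ≠ 0 := by rw [hd]; exact pow_ne_zero 2 hc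
  have hd1 : d₁ ≠ 0 := fun h => hdn (by rw [h]; ring)
  have hd2 : d₂ ≠ 0 := fun h => hdn (by rw [h]; ring)
  have hd3 : d₃ ≠ 0 := fun h => hdn (by rw [h]; ring)
  have hb0 : b ≠ 0 := by
    rintro rfl
    rw [map_zero] at hb
    exact zero_ne_one hb
  have hVs : V s = 1 := by
    have h1 : V (s ^ 2) = 1 := by
      have h2 : s ^ 2 = (b + s ^ 2) - b := by ring
      rw [h2, Valuation.map_sub_eq_of_lt_right V, hb]
      rw [hb]
      exact hs.trans_lt h4
    exact val_eq_one_of_sq h1
  obtain ⟨z₀, z₁, z₂, z₃, hz, E1, E2⟩ := H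
  by_cases hz0 : z₀ = 0
  · subst hz0
    have g1 : d₁ * z₁ ^ 2 = d₂ * z₂ ^ 2 := by linear_combination E1
    have g2 : d₁ * z₁ ^ 2 = d₃ * z₃ ^ 2 := by linear_combination E2
    have n3 : z₃ ≠ 0 := by
      rintro rfl
      have k1 : z₁ = 0 := by
        have : d₁ * z₁ ^ 2 = 0 := by rw [g2]; ring
        exact pow_eq_zero_iff two_ne_zero |>.mp ((mul_eq_zero.mp this).resolve_left hd1)
      have k2 : z₂ = 0 := by
        have : d₂ * z₂ ^ 2 = 0 := by rw [← g1, g2]; ring
        exact pow_eq_zero_iff two_ne_zero |>.mp ((mul_eq_zero.mp this).resolve_left hd2)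
      rcases hz with h | h | h | h
      · exact h rfl
      · exact h k1
      · exact h k2
      · exact h rfl
    have n1 : z₁ ≠ 0 := by
      rintro rfl
      have : d₃ * z₃ ^ 2 = 0 := by rw [← g2]; ring
      exact n3 (pow_eq_zero_iff two_ne_zero |>.mp ((mul_eq_zero.mp this).resolve_left hd3))
    have n2 : z₂ ≠ 0 := by
      rintro rfl
      have : d₃ * z₃ ^ 2 = 0 := by rw [← g2, g1]; ring
      exact n3 (pow_eq_zero_iff two_ne_zero |>.mp ((mul_eq_zero.mp this).resolve_left hd3))
    refine SqModFour.of_sq (s := c * z₁ * z₂ / (d₃ * z₃ ^ 2))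
      (div_ne_zero (mul_ne_zero (mul_ne_zero hc n1) n2) (mul_ne_zero hd3 (pow_ne_zero 2 n3))) ?_
    field_simp
    have e1 : c ^ 2 * z₁ ^ 2 * z₂ ^ 2 = d₃ * (d₁ * z₁ ^ 2) * (d₂ * z₂ ^ 2) := by
      rw [← hd]; ring
    rw [e1, ← g1, g2]
    ring
  · -- normalise
    have e1 : d₁ * (z₁ / z₀) ^ 2 = d₂ * (z₂ / z₀) ^ 2 + a := by
      field_simp
      linear_combination E1
    have e2 : d₁ * (z₁ / z₀) ^ 2 = d₃ * (z₃ / z₀) ^ 2 + b := by
      field_simp
      linear_combination E2
    set y₁ := z₁ / z₀ with hy1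
    set y₂ := z₂ / z₀ with hy2
    set y₃ := z₃ / z₀ with hy3
    set x := d₁ * y₁ ^ 2 with hx
    have e3 : x - a = d₂ * y₂ ^ 2 := by rw [e1]; ring
    have e4 : x - b = d₃ * y₃ ^ 2 := by rw [e2]; ring
    have hy : x * (x - a) * (x - b) = (c * y₁ * y₂ * y₃) ^ 2 := by
      rw [e3, e4, hx]
      linear_combination (y₁ ^ 2 * y₂ ^ 2 * y₃ ^ 2) * hd
    by_cases hxb : y₃ = 0
    · have hxb' : x = b := by rw [← sub_eq_zero, e4, hxb]; ring
      have n1 : y₁ ≠ 0 := by
        intro h
        apply hb0
        rw [← hxb', hx, h]; ring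
      have hba : b - a ≠ 0 := by
        rw [sub_ne_zero]
        rintro rfl
        rw [hb] at ha
        exact absurd (ha.trans h16') (not_le.mpr h4)
      have n2 : y₂ ≠ 0 := by
        intro h
        apply hba
        rw [← hxb', e3, h]; ring
      refine ⟨b * (b - a) / (c * y₁ * y₂), b, div_ne_zero (mul_ne_zero hb0 hba)
        (mul_ne_zero (mul_ne_zero hc n1) n2), hb, ?_⟩
      have e5 : d₃ * (b * (b - a) / (c * y₁ * y₂)) ^ 2 = b * (b - a) := by
        have e6 : d₁ * y₁ ^ 2 = b := hxb'
        have e7 : d₂ * y₂ ^ 2 = b - a := by rw [← e3, hxb']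
        have e8 : c ^ 2 * y₁ ^ 2 * y₂ ^ 2 = d₃ * (b * (b - a)) := by
          linear_combination (-(y₁ ^ 2 * y₂ ^ 2)) * hd + (d₂ * d₃ * y₂ ^ 2) * e6 + (b * d₃) * e7
        have n3 : c * y₁ * y₂ ≠ 0 := mul_ne_zero (mul_ne_zero hc n1) n2
        field_simp
        linear_combination -e8
      rw [e5]
      have e9 : b * (b - a) - b ^ 2 = -(a * b) := by ring
      rw [e9, Valuation.map_neg, map_mul, hb, mul_one]
      exact ha.trans h16'
    · apply SqModFour.of_mul_sq hxb
      rw [← e4]
      by_cases hV : V x ≤ V 4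
      · refine ⟨1, s, one_ne_zero, hVs, ?_⟩
        have e5 : (x - b) * 1 ^ 2 - s ^ 2 = x - (b + s ^ 2) := by ring
        rw [e5]
        exact (Valuation.map_sub V _ _).trans (max_le hV hs)
      · rw [not_le] at hV
        have hx0 : x ≠ 0 := by
          intro h
          rw [h, map_zero] at hV
          exact absurd hV not_lt_zero
        have hxa : x - a ≠ 0 := by
          rw [sub_ne_zero]
          intro h
          rw [h] at hV
          exact absurd (hV.trans_le (ha.trans h16')) (lt_irrefl _)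
        have hxb0 : x - b ≠ 0 := by
          rw [e4]; exact mul_ne_zero hd3 (pow_ne_zero 2 hxb)
        have hyn : c * y₁ * y₂ * y₃ ≠ 0 := by
          intro h
          rw [h] at hy
          have : x * (x - a) * (x - b) ≠ 0 := mul_ne_zero (mul_ne_zero hx0 hxa) hxb0
          exact this (by rw [hy]; ring)
        refine ⟨(x - a) / (c * y₁ * y₂ * y₃), 1, div_ne_zero hxa hyn, map_one V, ?_⟩
        have e5 : (x - b) * ((x - a) / (c * y₁ * y₂ * y₃)) ^ 2 - 1 ^ 2 = -(a / x) := by
          rw [div_pow, ← hy]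
          field_simp
          ring
        rw [e5, Valuation.map_neg, map_div₀]
        have hVx : V x ≠ 0 := (Valuation.ne_zero_iff V).mpr hx0
        rw [div_le_iff₀ (zero_lt_iff.mpr hVx)]
        refine ha.trans ?_
        rw [h16]
        exact mul_le_mul_right hV.le _

/-- Evenness of the valuations when the reduction is good. -/
theorem even_of_cpt_two (h40 : V 4 ≠ 0) (h4 : V 4 < 1) (h24 : V 4 = V 2 * V 2) (ha : V a = V 16)
    (hb : V b = 1) (hs : V (b + s ^ 2) ≤ V 4) (hd : d₁ * d₂ * d₃ = c ^ 2) (hc : c ≠ 0)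
    (H : CPt 0 a b d₁ d₂ d₃) : Even (log (V d₁)) := by
  have h16 : V 16 = V 4 * V 4 := by rw [← map_mul]; norm_num
  have hdn : d₁ * d₂ * d₃ ≠ 0 := by rw [hd]; exact pow_ne_zero 2 hc
  have hd1 : d₁ ≠ 0 := fun h => hdn (by rw [h]; ring)
  have hd2 : d₂ ≠ 0 := fun h => hdn (by rw [h]; ring)
  have hd3 : d₃ ≠ 0 := fun h => hdn (by rw [h]; ring)
  have hb0 : b ≠ 0 := by
    rintro rfl
    rw [map_zero] at hb
    exact zero_ne_one hb
  have h160 : V 16 ≠ 0 := by rw [h16]; exact mul_ne_zero h40 h40
  have ha0 : a ≠ 0 := by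
    rintro rfl
    rw [map_zero] at ha
    exact h160 ha.symm
  have hVs : V s = 1 := by
    have h1 : V (s ^ 2) = 1 := by
      have h2 : s ^ 2 = (b + s ^ 2) - b := by ring
      rw [h2, Valuation.map_sub_eq_of_lt_right V, hb]
      rw [hb]
      exact hs.trans_lt h4
    exact val_eq_one_of_sq h1
  have lsq : ∀ {y z : F}, y ≠ 0 → z ≠ 0 → Even (log (V (y * z ^ 2))) → Even (log (V y)) := by
    intro y z hy hz h
    rw [log_mul_sq V hy hz] at h
    rw [Int.even_iff] at h ⊢
    omega
  obtain ⟨z₀, z₁, z₂, z₃, hz, E1, E2⟩ := H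
  by_cases hz0 : z₀ = 0
  · subst hz0
    have g1 : d₁ * z₁ ^ 2 = d₂ * z₂ ^ 2 := by linear_combination E1
    have g2 : d₁ * z₁ ^ 2 = d₃ * z₃ ^ 2 := by linear_combination E2
    have n1 : z₁ ≠ 0 := by
      rintro rfl
      have k2 : z₂ = 0 := by
        have : d₂ * z₂ ^ 2 = 0 := by rw [← g1]; ring
        exact pow_eq_zero_iff two_ne_zero |>.mp ((mul_eq_zero.mp this).resolve_left hd2)
      have k3 : z₃ = 0 := by
        have : d₃ * z₃ ^ 2 = 0 := by rw [← g2]; ring
        exact pow_eq_zero_iff two_ne_zero |>.mp ((mul_eq_zero.mp this).resolve_left hd3)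
      rcases hz with h | h | h | h
      · exact h rfl
      · exact h rfl
      · exact h k2
      · exact h k3
    have n2 : z₂ ≠ 0 := by
      rintro rfl
      have : d₁ * z₁ ^ 2 = 0 := by rw [g1]; ring
      exact n1 (pow_eq_zero_iff two_ne_zero |>.mp ((mul_eq_zero.mp this).resolve_left hd1))
    have n3 : z₃ ≠ 0 := by
      rintro rfl
      have : d₁ * z₁ ^ 2 = 0 := by rw [g2]; ring
      exact n1 (pow_eq_zero_iff two_ne_zero |>.mp ((mul_eq_zero.mp this).resolve_left hd1))
    have e1 : d₁ * (d₁ * z₁ ^ 2) ^ 2 = (c * z₂ * z₃) ^ 2 := by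
      have : (c * z₂ * z₃) ^ 2 = d₁ * (d₂ * z₂ ^ 2) * (d₃ * z₃ ^ 2) := by
        linear_combination (-(z₂ ^ 2 * z₃ ^ 2)) * hd
      rw [this, ← g1, ← g2]; ring
    apply lsq hd1 (z := d₁ * z₁ ^ 2) (mul_ne_zero hd1 (pow_ne_zero 2 n1))
    rw [e1, map_pow, log_pow]
    simp
  · -- normalise
    have e1 : d₁ * (z₁ / z₀) ^ 2 = d₂ * (z₂ / z₀) ^ 2 + a := by
      field_simp
      linear_combination E1
    have e2 : d₁ * (z₁ / z₀) ^ 2 = d₃ * (z₃ / z₀) ^ 2 + b := by
      field_simp
      linear_combination E2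
    set y₁ := z₁ / z₀ with hy1
    set y₂ := z₂ / z₀ with hy2
    set y₃ := z₃ / z₀ with hy3
    by_cases hy0 : y₁ = 0
    · rw [hy0] at e1 e2
      have k2 : d₂ * y₂ ^ 2 = -a := by linear_combination -e1
      have k3 : d₃ * y₃ ^ 2 = -b := by linear_combination -e2
      have e3 : d₁ * (a * b) ^ 2 = (c * y₂ * y₃) ^ 2 * (a * b) := by
        have : (c * y₂ * y₃) ^ 2 = d₁ * (d₂ * y₂ ^ 2) * (d₃ * y₃ ^ 2) := by
          linear_combination (-(y₂ ^ 2 * y₃ ^ 2)) * hd
        rw [this, k2, k3]; ring
      have n2 : y₂ ≠ 0 := by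
        intro h
        rw [h] at k2
        apply ha0
        linear_combination k2
      have n3 : y₃ ≠ 0 := by
        intro h
        rw [h] at k3
        apply hb0
        linear_combination k3
      apply lsq hd1 (mul_ne_zero ha0 hb0)
      rw [e3, mul_comm, log_mul_sq V (mul_ne_zero ha0 hb0)
        (mul_ne_zero (mul_ne_zero hc n2) n3), map_mul, hb, mul_one, ha, h16, log_mul h40 h40,
        Int.even_iff]
      omega
    · set x := d₁ * y₁ ^ 2 with hx
      have hx0 : x ≠ 0 := mul_ne_zero hd1 (pow_ne_zero 2 hy0)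
      apply lsq hd1 hy0
      rw [← hx]
      have e3 : x - a = d₂ * y₂ ^ 2 := by rw [e1]; ring
      have e4 : x - b = d₃ * y₃ ^ 2 := by rw [e2]; ring
      have hy : (c * y₁ * y₂ * y₃) ^ 2 = x * (x - a) * (x - b) := by
        rw [e3, e4, hx]
        linear_combination (-(y₁ ^ 2 * y₂ ^ 2 * y₃ ^ 2)) * hd
      set y := c * y₁ * y₂ * y₃ with hydef
      have hVx : V x ≠ 0 := (Valuation.ne_zero_iff V).mpr hx0
      have hVx' : 0 < V x := zero_lt_iff.mpr hVx
      by_cases h4x : V x = V 4
      · rw [h4x, h24]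
        have h20 : V 2 ≠ 0 := by
          intro h
          rw [h24, h, mul_zero] at h40
          exact h40 rfl
        rw [log_mul h20 h20]
        exact ⟨_, rfl⟩
      set A := y - s * x with hA
      set B := y + s * x with hB
      have hAB : A * B = x * (x * x - (a + b + s ^ 2) * x + a * b) := by
        rw [hA, hB]
        linear_combination hy
      have hBA : V (B - A) = V 2 * V x := by
        have : B - A = 2 * s * x := by rw [hA, hB]; ring
        rw [this, map_mul, map_mul, hVs, mul_one]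
      have hmid : V ((a + b + s ^ 2) * x) ≤ V 4 * V x := by
        rw [map_mul]
        apply mul_le_mul_left
        have : a + b + s ^ 2 = a + (b + s ^ 2) := by ring
        rw [this]
        refine (Valuation.map_add V _ _).trans (max_le ?_ hs)
        rw [ha, h16]
        exact mul_le_of_le_one_left' h4.le
      have hab : V (a * b) = V 4 * V 4 := by rw [map_mul, ha, hb, mul_one, h16]
      -- the two valuations agree
      have hcontra : V A ≠ V B → V (A * B) < V 4 * (V x * V x) := by
        intro hne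
        have h1 : V 4 * (V x * V x) = (V 2 * V x) * (V 2 * V x) := by
          rw [h24]; exact mul_mul_mul_comm _ _ _ _
        rw [h1, map_mul]
        rcases lt_or_gt_of_ne hne with h | h
        · have h2 : V (B - A) = V B := Valuation.map_sub_eq_of_lt_left V h
          rw [← hBA, h2]
          have h0 : 0 < V B := lt_of_le_of_lt zero_le h
          exact mul_lt_mul_of_pos_right h h0
        · have h2 : V (B - A) = V A := Valuation.map_sub_eq_of_lt_right V h
          rw [← hBA, h2]
          have h0 : 0 < V A := lt_of_le_of_lt zero_le h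
          exact mul_lt_mul_of_pos_left h h0
      rcases lt_or_gt_of_ne h4x with hlt | hgt
      · -- small `x`
        have hG : V (x * x - (a + b + s ^ 2) * x + a * b) = V 4 * V 4 := by
          rw [Valuation.map_add_eq_of_lt_right V, hab]
          rw [hab]
          refine lt_of_le_of_lt (Valuation.map_sub V _ _) (max_lt ?_ ?_)
          · rw [map_mul]
            exact mul_lt_mul'' hlt hlt zero_le zero_le
          · refine hmid.trans_lt ?_
            exact mul_lt_mul_of_pos_left hlt (zero_lt_iff.mpr h40)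
        have hV : V (A * B) = V x * (V 4 * V 4) := by rw [hAB, map_mul, hG]
        have heq : V A = V B := by
          by_contra hne
          have h1 := hcontra hne
          rw [hV] at h1
          have h2 : V 4 * (V x * V x) ≤ V x * (V 4 * V 4) := by
            calc V 4 * (V x * V x) ≤ V 4 * (V x * V 4) :=
                  mul_le_mul_right (mul_le_mul_right hlt.le _) _
              _ = V x * (V 4 * V 4) := by
                  rw [mul_left_comm]
          exact absurd h1 (not_lt.mpr h2)
        have hB0 : V B ≠ 0 := by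
          intro h0
          rw [map_mul, h0, mul_zero] at hV
          exact mul_ne_zero hVx (mul_ne_zero h40 h40) hV.symm
        have h3 := congrArg log hV
        rw [map_mul, heq, log_mul hB0 hB0, log_mul hVx (mul_ne_zero h40 h40),
          log_mul h40 h40] at h3
        rw [Int.even_iff]
        omega
      · -- large `x`
        have hG : V (x * x - (a + b + s ^ 2) * x + a * b) = V x * V x := by
          have h1 : V (x * x - (a + b + s ^ 2) * x) = V x * V x := by
            rw [Valuation.map_sub_eq_of_lt_left V, map_mul]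
            rw [map_mul V x x]
            refine hmid.trans_lt ?_
            exact mul_lt_mul_of_pos_right hgt hVx'
          rw [Valuation.map_add_eq_of_lt_left V, h1]
          rw [h1, hab]
          exact mul_lt_mul'' hgt hgt zero_le zero_le
        have hV : V (A * B) = V x * (V x * V x) := by rw [hAB, map_mul, hG]
        have heq : V A = V B := by
          by_contra hne
          have h1 := hcontra hne
          rw [hV] at h1
          have h2 : V 4 * (V x * V x) ≤ V x * (V x * V x) := mul_le_mul_left hgt.le _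
          exact absurd h1 (not_lt.mpr h2)
        have hB0 : V B ≠ 0 := by
          intro h0
          rw [map_mul, h0, mul_zero] at hV
          exact mul_ne_zero hVx (mul_ne_zero hVx hVx) hV.symm
        have h3 := congrArg log hV
        rw [map_mul, heq, log_mul hB0 hB0, log_mul hVx (mul_ne_zero hVx hVx),
          log_mul hVx hVx] at h3
        rw [Int.even_iff]
        omega

end

end Pool.Agent.H10
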