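import Pool.Agent.H10.Iso3
import Pool.Agent.H10.RelVal
import Pool.Agent.H10.SemiTwo

/-!
Triviality of the new part of the two-Selmer group, semistable above two.
-/

set_option autoImplicit false
set_option linter.style.haveILetI false

open WeierstrassCurve IsDedekindDomain NumberField WithZero

namespace Pool.Agent.H10

section dense

variable {L : Type*} [Field L] [NumberField L] (w : HeightOneSpectrum (𝓞 L))

lemma exists_close (t : w.adicCompletion L) (n : ℤ) :
    ∃ k : L, Valued.v (algebraMap L (w.adicCompletion L) k - t) < exp n := by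
  have hd := HeightOneSpectrum.denseRange_algebraMap (K := L) w
  have hopen : IsOpen {y : w.adicCompletion L | Valued.v (y - t) < exp n} := by
    have h1 : IsOpen {y : w.adicCompletion L | Valued.v y < exp n} := by
      obtain ⟨u, hu⟩ := w.valuedAdicCompletion_surjective L (exp n)
      have := Valued.isOpen_ball (w.adicCompletion L) (Valued.v.restrict u)
      simp_rw [Valuation.restrict_lt_iff] at this
      rwa [hu] at this
    exact h1.preimage (continuous_sub_right t)
  obtain ⟨k, hk⟩ := hd.exists_mem_open hopen ⟨t, by simp⟩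
  exact ⟨k, hk⟩

lemma valued_ofNat (n : ℕ) [n.AtLeastTwo] :
    Valued.v (OfNat.ofNat n : w.adicCompletion L) = w.valuation L (OfNat.ofNat n) := by
  have : (OfNat.ofNat n : w.adicCompletion L) =
      algebraMap L (w.adicCompletion L) (OfNat.ofNat n) :=
    (map_ofNat (algebraMap L (w.adicCompletion L)) n).symm
  rw [this, valued_algebraMap]

lemma SqModFour.descend {x : L} (h40 : w.valuation L 4 ≠ 0)
    (h4 : w.valuation L 4 < 1)
    (h : SqModFour Valued.v (algebraMap L (w.adicCompletion L) x)) :
    SqModFour (w.valuation L) x := by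
  obtain ⟨t, m, ht, hm, h⟩ := h
  set X := algebraMap L (w.adicCompletion L) x with hX
  have e4 : Valued.v (4 : w.adicCompletion L) = w.valuation L 4 := valued_ofNat w 4
  rw [e4] at h
  have hXt : Valued.v (X * t ^ 2) = 1 := by
    have h2 : X * t ^ 2 = (X * t ^ 2 - m ^ 2) + m ^ 2 := by ring
    rw [h2, Valuation.map_add_eq_of_lt_right, map_pow, hm, one_pow]
    rw [map_pow, hm, one_pow]
    exact h.trans_lt h4
  have hvt : Valued.v t ≠ 0 := (Valuation.ne_zero_iff _).mpr ht
  obtain ⟨t', ht'⟩ := exists_close w t (log (w.valuation L 4 * Valued.v t))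
  rw [exp_log (mul_ne_zero h40 hvt)] at ht'
  obtain ⟨m', hm'⟩ := exists_close w m (log (w.valuation L 4))
  rw [exp_log h40] at hm'
  set T := algebraMap L (w.adicCompletion L) t' with hT
  set M := algebraMap L (w.adicCompletion L) m' with hM
  have hlt : Valued.v (T - t) < Valued.v t := by
    refine ht'.trans_le ?_
    exact mul_le_of_le_one_left' h4.le
  have hVT : Valued.v T = Valued.v t := by
    have : T = (T - t) + t := by ring
    rw [this, Valuation.map_add_eq_of_lt_right _ hlt]
  have hVM : Valued.v M = 1 := by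
    have : M = (M - m) + m := by ring
    rw [this, Valuation.map_add_eq_of_lt_right _ (by rw [hm]; exact hm'.trans h4), hm]
  refine ⟨t', m', ?_, ?_, ?_⟩
  · rintro rfl
    rw [hT, map_zero, map_zero] at hVT
    exact hvt hVT.symm
  · rw [← valued_algebraMap]; exact hVM
  · rw [← valued_algebraMap, map_sub, map_mul, map_pow, map_pow]
    have e1 : X * T ^ 2 - M ^ 2 = X * ((T - t) * (T + t)) + ((X * t ^ 2 - m ^ 2) -
        (M - m) * (M + m)) := by ring
    rw [← hX, ← hT, ← hM, e1]
    refine (Valuation.map_add _ _ _).trans (max_le ?_ ((Valuation.map_sub _ _ _).trans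
      (max_le h ?_)))
    · rw [map_mul, map_mul]
      have h1 : Valued.v (T + t) ≤ Valued.v t := by
        refine (Valuation.map_add _ _ _).trans (max_le hVT.le le_rfl)
      calc Valued.v X * (Valued.v (T - t) * Valued.v (T + t))
          ≤ Valued.v X * ((w.valuation L 4 * Valued.v t) * Valued.v t) :=
            mul_le_mul_right (mul_le_mul' ht'.le h1) _
        _ = w.valuation L 4 * (Valued.v X * Valued.v t ^ 2) := by
            rw [pow_two]; ac_rfl
        _ = w.valuation L 4 := by rw [← map_pow, ← map_mul, hXt, mul_one]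
    · rw [map_mul]
      have h1 : Valued.v (M + m) ≤ 1 := by
        refine (Valuation.map_add _ _ _).trans (max_le hVM.le hm.le)
      calc Valued.v (M - m) * Valued.v (M + m) ≤ w.valuation L 4 * 1 := mul_le_mul' hm'.le h1
        _ = _ := mul_one _

end dense

section

variable (K L : Type*) [Field K] [NumberField K] [Field L] [NumberField L] [Algebra K L]

/-- No new totally positive classes: a totally positive element of `L` which has even valuation
at all primes and whose norm to `K` is a square is a square. -/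
def NoNewPositive : Prop :=
  ∀ x : L, x ≠ 0 → (∀ w : HeightOneSpectrum (𝓞 L), Even (log (w.valuation L x))) →
    IsSquare (Algebra.norm K x) → (∀ φ : L →+* ℝ, 0 < φ x) → IsSquare x

/-- No new unramified classes: an element of `L` which has even valuation at all primes, is, up
to squares, a square of a unit modulo four at all primes above two, and whose norm to `K` is a
square, is a square. -/
def NoNewUnramified : Prop :=
  ∀ x : L, x ≠ 0 → (∀ w : HeightOneSpectrum (𝓞 L), Even (log (w.valuation L x))) →
    IsSquare (Algebra.norm K x) →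
    (∀ w : HeightOneSpectrum (𝓞 L), (2 : 𝓞 L) ∈ w.asIdeal →
      ∃ t m : L, t ≠ 0 ∧ w.valuation L m = 1 ∧
        w.valuation L (x * t ^ 2 - m ^ 2) ≤ w.valuation L 4) → IsSquare x

end

section

variable {K L : Type} [Field K] [NumberField K] [Field L] [NumberField L] [Algebra K L]

lemma val_eq_one_of_notMem {w : HeightOneSpectrum (𝓞 L)} {x : 𝓞 L} (h : x ∉ w.asIdeal) :
    w.valuation L (x : L) = 1 := (w.valuation_eq_one_iff_notMem (K := L)).mpr h

theorem newTrivial_semi (hodd : Odd (Module.finrank K L)) (R1 : NoNewPositive K L)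
    (R2 : NoNewUnramified K L) {α β : 𝓞 K}
    (hpos : ∀ φ : K →+* ℝ, 0 < φ α ∧ 0 < φ β) (h2 : IsCoprime β 2)
    (hsq : ∃ s : 𝓞 K, (4 : 𝓞 K) ∣ β + s ^ 2)
    (hbad : ∀ v : HeightOneSpectrum (𝓞 K), α * β * (β - 16 * α) ∈ v.asIdeal →
      UniqueOver K L v.asIdeal) :
    NewTrivial K L (algebraMap K L 0) (algebraMap K L (16 * α)) (algebraMap K L β) := by
  intro d₁ d₂ d₃ c hd hc Hf Hi N1 N2 N3
  have hdn : d₁ * d₂ * d₃ ≠ 0 := by rw [hd]; exact pow_ne_zero 2 hc
  have hd1 : d₁ ≠ 0 := fun h => hdn (by rw [h]; ring)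
  have hd2 : d₂ ≠ 0 := fun h => hdn (by rw [h]; ring)
  have hd3 : d₃ ≠ 0 := fun h => hdn (by rw [h]; ring)
  obtain ⟨s, hs⟩ := hsq
  set A : 𝓞 L := algebraMap (𝓞 K) (𝓞 L) α with hA
  set B : 𝓞 L := algebraMap (𝓞 K) (𝓞 L) β with hB
  set S : 𝓞 L := algebraMap (𝓞 K) (𝓞 L) s with hS
  have eA : algebraMap K L (16 * α) = 16 * (A : L) := by
    rw [map_mul, map_ofNat]; rfl
  have eB : algebraMap K L β = (B : L) := rfl
  have e2 : ((2 : 𝓞 L) : L) = 2 := map_ofNat (algebraMap (𝓞 L) L) 2
  rw [map_zero, eA, eB] at Hf Hi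
  -- facts at a place above two
  have two : ∀ w : HeightOneSpectrum (𝓞 L), (2 : 𝓞 L) ∈ w.asIdeal →
      w.valuation L 2 < 1 ∧ w.valuation L (B : L) = 1 ∧
      w.valuation L ((B : L) + S ^ 2) ≤ w.valuation L 4 := by
    intro w hw
    refine ⟨?_, ?_, ?_⟩
    · have : w.valuation L ((2 : 𝓞 L) : L) < 1 :=
        (w.valuation_lt_one_iff_mem (K := L) (2 : 𝓞 L)).mpr hw
      rwa [e2] at this
    · apply val_eq_one_of_notMem
      intro hmem
      obtain ⟨p, q, hpq⟩ := h2
      have h1 := congrArg (algebraMap (𝓞 K) (𝓞 L)) hpq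
      rw [map_add, map_mul, map_mul, map_one, map_ofNat, ← hB] at h1
      apply w.isPrime.ne_top
      rw [Ideal.eq_top_iff_one, ← h1]
      exact Ideal.add_mem _ (Ideal.mul_mem_left _ _ hmem) (Ideal.mul_mem_left _ _ hw)
    · obtain ⟨q, hq⟩ := hs
      have h1 := congrArg (algebraMap (𝓞 K) (𝓞 L)) hq
      rw [map_add, map_mul, map_pow, map_ofNat, ← hB, ← hS] at h1
      have h3 : (B : L) + (S : L) ^ 2 = 4 * ((algebraMap (𝓞 K) (𝓞 L) q : 𝓞 L) : L) := by
        have := congrArg (algebraMap (𝓞 L) L) h1
        rw [map_add, map_pow, map_mul, map_ofNat] at this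
        exact this
      rw [h3, map_mul]
      exact mul_le_of_le_one_right' (w.valuation_le_one (K := L) _)
  have v4 : ∀ w : HeightOneSpectrum (𝓞 L), w.valuation L 4 = w.valuation L 2 * w.valuation L 2 := by
    intro w
    rw [← map_mul]; norm_num
  have v20 : ∀ w : HeightOneSpectrum (𝓞 L), w.valuation L 2 ≠ 0 := by
    intro w
    rw [Valuation.ne_zero_iff]; exact two_ne_zero
  have hloc : ∀ w : HeightOneSpectrum (𝓞 L), (2 : 𝓞 L) ∈ w.asIdeal →
      SqModFour Valued.v (algebraMap L (w.adicCompletion L) d₃) := by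
    intro w hw
    obtain ⟨k1, k2, k3⟩ := two w hw
    have h4 : w.valuation L 4 < 1 := by
      rw [v4]; exact mul_lt_one_of_lt_of_le k1 k1.le
    have H := Hf w
    rw [map_zero] at H
    refine sqModFour_of_cpt (V := Valued.v) (s := algebraMap L (w.adicCompletion L) (S : L))
      (c := algebraMap L (w.adicCompletion L) c) ?_ ?_ ?_ ?_ ?_ ?_ H
    · rw [valued_ofNat]; exact h4
    · rw [valued_ofNat, valued_algebraMap, map_mul]
      exact mul_le_of_le_one_right' (w.valuation_le_one (K := L) _)
    · rw [valued_algebraMap]; exact k2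
    · rw [valued_ofNat, ← map_pow, ← map_add, valued_algebraMap]; exact k3
    · rw [← map_mul, ← map_mul, hd, map_pow]
    · rw [Ne, map_eq_zero]; exact hc
  -- evenness of all valuations
  have ev : ∀ w : HeightOneSpectrum (𝓞 L), Even (log (w.valuation L d₁)) ∧
      Even (log (w.valuation L d₂)) ∧ Even (log (w.valuation L d₃)) := by
    intro w
    let v : HeightOneSpectrum (𝓞 K) := ⟨w.asIdeal.under (𝓞 K), inferInstance,
      Ideal.IsIntegral.comap_ne_bot _ w.ne_bot⟩
    have hvw : v.asIdeal.map (algebraMap (𝓞 K) (𝓞 L)) ≤ w.asIdeal := Ideal.map_comap_le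
    by_cases hb : α * β * (β - 16 * α) ∈ v.asIdeal
    · have hu := hbad v hb
      exact ⟨even_of_norm_sq hodd hu hvw hd1 N1, even_of_norm_sq hodd hu hvw hd2 N2,
        even_of_norm_sq hodd hu hvw hd3 N3⟩
    · have hb' : A * B * (B - 16 * A) ∉ w.asIdeal := by
        intro h
        apply hb
        change algebraMap (𝓞 K) (𝓞 L) (α * β * (β - 16 * α)) ∈ w.asIdeal
        rw [map_mul, map_mul, map_sub, map_mul, map_ofNat]
        exact h
      have nA : A ∉ w.asIdeal := fun h =>
        hb' (Ideal.mul_mem_right _ _ (Ideal.mul_mem_right _ _ h))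
      have nB : B ∉ w.asIdeal := fun h =>
        hb' (Ideal.mul_mem_right _ _ (Ideal.mul_mem_left _ _ h))
      have nC : B - 16 * A ∉ w.asIdeal := fun h => hb' (Ideal.mul_mem_left _ _ h)
      have vA := val_eq_one_of_notMem nA
      have vB := val_eq_one_of_notMem nB
      have vC : w.valuation L ((B : L) - 16 * A) = 1 := by
        have := val_eq_one_of_notMem nC
        exact_mod_cast this
      have H := Hf w
      by_cases hw : (2 : 𝓞 L) ∈ w.asIdeal
      · obtain ⟨k1, k2, k3⟩ := two w hw
        have h4 : w.valuation L 4 < 1 := by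
          rw [v4]; exact mul_lt_one_of_lt_of_le k1 k1.le
        have h40 : w.valuation L 4 ≠ 0 := by rw [v4]; exact mul_ne_zero (v20 w) (v20 w)
        have E3 : Even (log (w.valuation L d₃)) := by
          rw [← valued_algebraMap]
          apply SqModFour.even (by rw [Ne, map_eq_zero]; exact hd3) _ (hloc w hw)
          rw [valued_ofNat]; exact h4
        have E1 : Even (log (w.valuation L d₁)) := by
          rw [← valued_algebraMap]
          rw [map_zero] at H
          refine even_of_cpt_two (V := Valued.v)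
            (s := algebraMap L (w.adicCompletion L) (S : L))
            (c := algebraMap L (w.adicCompletion L) c) ?_ ?_ ?_ ?_ ?_ ?_ ?_ ?_ H
          · rw [valued_ofNat]; exact h40
          · rw [valued_ofNat]; exact h4
          · rw [valued_ofNat, valued_ofNat]; exact v4 w
          · rw [valued_ofNat, valued_algebraMap, map_mul, vA, mul_one]
          · rw [valued_algebraMap]; exact k2
          · rw [valued_ofNat, ← map_pow, ← map_add, valued_algebraMap]; exact k3
          · rw [← map_mul, ← map_mul, hd, map_pow]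
          · rw [Ne, map_eq_zero]; exact hc
        refine ⟨E1, ?_, E3⟩
        have w1 := (Valuation.ne_zero_iff (w.valuation L)).mpr hd1
        have w2 := (Valuation.ne_zero_iff (w.valuation L)).mpr hd2
        have w3 := (Valuation.ne_zero_iff (w.valuation L)).mpr hd3
        have hsum := congrArg (fun x => log (w.valuation L x)) hd
        simp only [map_mul, map_pow] at hsum
        rw [log_mul (mul_ne_zero w1 w2) w3, log_mul w1 w2, log_pow] at hsum
        rw [Int.even_iff] at E1 E3 ⊢
        simp only [nsmul_eq_mul, Nat.cast_ofNat] at hsum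
        omega
      · have v2 : w.valuation L 2 = 1 := by
          have := val_eq_one_of_notMem hw
          rwa [e2] at this
        have v16 : w.valuation L 16 = 1 := by
          have : (16 : L) = 2 ^ 4 := by norm_num
          rw [this, map_pow, v2, one_pow]
        rw [← valued_algebraMap, ← valued_algebraMap, ← valued_algebraMap]
        refine even_of_cpt (F := w.adicCompletion L) Valued.v ?_ ?_ ?_
          (c := algebraMap L (w.adicCompletion L) c) ?_ ?_ H
        · rw [← map_sub, sub_zero, valued_algebraMap, map_mul, v16, one_mul, vA]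
        · rw [← map_sub, sub_zero, valued_algebraMap, vB]
        · rw [← map_sub, valued_algebraMap, vC]
        · rw [← map_mul, ← map_mul, hd, map_pow]
        · rw [Ne, map_eq_zero]; exact hc
  -- the first component
  have sq1 : IsSquare d₁ := by
    apply R1 d₁ hd1 (fun w => (ev w).1) N1
    intro φ
    obtain ⟨v, ψ, hψ⟩ := exists_completion φ
    have h1 := (Hi v).map ψ
    rw [hψ, hψ, hψ, hψ, hψ, hψ, map_zero] at h1
    obtain ⟨p1, p2⟩ := hpos (φ.comp (algebraMap K L))
    refine (real_mp (c := φ c) ?_ ?_ ?_ ?_ h1).1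
    · rw [map_mul, map_ofNat]
      have : (0 : ℝ) < φ (A : L) := p1
      positivity
    · exact p2
    · rw [← map_mul, ← map_mul, hd, map_pow]
    · rw [Ne, map_eq_zero]; exact hc
  have sq3 : IsSquare d₃ := by
    apply R2 d₃ hd3 (fun w => (ev w).2.2) N3
    intro w hw
    obtain ⟨k1, k2, k3⟩ := two w hw
    have h4 : w.valuation L 4 < 1 := by
      rw [v4]; exact mul_lt_one_of_lt_of_le k1 k1.le
    have h40 : w.valuation L 4 ≠ 0 := by rw [v4]; exact mul_ne_zero (v20 w) (v20 w)
    exact SqModFour.descend w h40 h4 (hloc w hw)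
  refine ⟨sq1, ?_, sq3⟩
  obtain ⟨x, hx⟩ := sq1
  obtain ⟨z, hz⟩ := sq3
  have hx0 : x ≠ 0 := by
    rintro rfl
    exact hd1 (by rw [hx, mul_zero])
  have hz0 : z ≠ 0 := by
    rintro rfl
    exact hd3 (by rw [hz, mul_zero])
  refine ⟨c / (x * z), ?_⟩
  rw [hx, hz] at hd
  field_simp
  linear_combination hd

end

end Pool.Agent.H10
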