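import Pool.Agent.H10.StarLoc
import Pool.Agent.H10.Semi

/-!
Galois conjugation and the local classes at places above two.
-/

set_option autoImplicit false
set_option linter.style.haveILetI false

open IsDedekindDomain NumberField WithZero

namespace Pool.Agent.H10

section conj

variable {K L : Type} [Field K] [NumberField K] [Field L] [NumberField L] [Algebra K L]

/-- Conjugation of valuations. -/
lemma exists_conj (σ : L ≃ₐ[K] L) (w : HeightOneSpectrum (𝓞 L)) :
    ∃ w' : HeightOneSpectrum (𝓞 L), (∀ x : L, w.valuation L (σ x) = w'.valuation L x) ∧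
      (∀ x : 𝓞 K, algebraMap (𝓞 K) (𝓞 L) x ∈ w'.asIdeal ↔
        algebraMap (𝓞 K) (𝓞 L) x ∈ w.asIdeal) := by
  let s := galRestrict (𝓞 K) K L (𝓞 L) σ
  have hs : ∀ x : 𝓞 L, algebraMap (𝓞 L) L (s x) = σ (algebraMap (𝓞 L) L x) :=
    fun x => algebraMap_galRestrict_apply (𝓞 K) σ x
  have hprime : (w.asIdeal.comap (s : 𝓞 L →+* 𝓞 L)).IsPrime := Ideal.IsPrime.comap _
  have hbot : w.asIdeal.comap (s : 𝓞 L →+* 𝓞 L) ≠ ⊥ := by
    intro h
    obtain ⟨x, hx, hx0⟩ := Submodule.exists_mem_ne_zero_of_ne_bot w.ne_bot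
    have h1 : s.symm x ∈ w.asIdeal.comap (s : 𝓞 L →+* 𝓞 L) := by
      rw [Ideal.mem_comap]
      change s (s.symm x) ∈ w.asIdeal
      rw [AlgEquiv.apply_symm_apply]
      exact hx
    rw [h] at h1
    have h3 : s.symm x = 0 := h1
    apply hx0
    rw [← s.apply_symm_apply x, h3, map_zero]
  let w' : HeightOneSpectrum (𝓞 L) := ⟨w.asIdeal.comap (s : 𝓞 L →+* 𝓞 L), hprime, hbot⟩
  have hpow : ∀ (x : 𝓞 L) (n : ℕ), x ∈ w'.asIdeal ^ n ↔ s x ∈ w.asIdeal ^ n := by
    intro x n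
    have e1 : w'.asIdeal = w.asIdeal.map (s.symm.toRingEquiv : 𝓞 L →+* 𝓞 L) := by
      change w.asIdeal.comap (s : 𝓞 L →+* 𝓞 L) = _
      exact (Ideal.map_symm (I := w.asIdeal) s.toRingEquiv).symm
    have e2 : w'.asIdeal ^ n = (w.asIdeal ^ n).comap (s : 𝓞 L →+* 𝓞 L) := by
      rw [e1, ← Ideal.map_pow]
      exact Ideal.map_symm (I := w.asIdeal ^ n) s.toRingEquiv
    rw [e2, Ideal.mem_comap]
    rfl
  have hint : ∀ x : 𝓞 L, w.intValuation (s x) = w'.intValuation x := by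
    intro x
    by_cases hx : x = 0
    · rw [hx, map_zero, map_zero, map_zero]
    · have hsx : s x ≠ 0 := by
        intro h
        apply hx
        rw [← s.symm_apply_apply x, h, map_zero]
      apply le_antisymm
      · rw [w'.intValuation_eq_exp_neg_multiplicity hx, HeightOneSpectrum.intValuation_le_pow_iff_mem, ← hpow,
          ← HeightOneSpectrum.intValuation_le_pow_iff_mem, w'.intValuation_eq_exp_neg_multiplicity hx]
      · rw [w.intValuation_eq_exp_neg_multiplicity hsx, HeightOneSpectrum.intValuation_le_pow_iff_mem, hpow,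
          ← HeightOneSpectrum.intValuation_le_pow_iff_mem, w.intValuation_eq_exp_neg_multiplicity hsx]
  refine ⟨w', ?_, ?_⟩
  · intro x
    obtain ⟨a, b, hb, rfl⟩ := IsFractionRing.div_surjective (A := 𝓞 L) x
    rw [map_div₀, ← hs, ← hs, map_div₀, map_div₀, w.valuation_of_algebraMap,
      w.valuation_of_algebraMap, w'.valuation_of_algebraMap, w'.valuation_of_algebraMap, hint,
      hint]
  · intro x
    change s (algebraMap (𝓞 K) (𝓞 L) x) ∈ w.asIdeal ↔ _
    rw [s.commutes]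

/-- Invariance of the valuation at a prime which is unique above the prime below. -/
lemma val_conj_of_unique (σ : L ≃ₐ[K] L) (w : HeightOneSpectrum (𝓞 L))
    (hu : UniqueOver K L (w.asIdeal.under (𝓞 K))) (x : L) :
    w.valuation L (σ x) = w.valuation L x := by
  obtain ⟨w', h1, h2⟩ := exists_conj σ w
  have h3 : w' = w := by
    apply HeightOneSpectrum.ext
    refine hu _ _ w'.isPrime w.isPrime ?_ Ideal.map_comap_le
    rw [Ideal.map_le_iff_le_comap]
    intro y hy
    exact (h2 y).mpr hy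
  rw [h1, h3]

lemma even_conj (σ : L ≃ₐ[K] L) {x : L}
    (h : ∀ w : HeightOneSpectrum (𝓞 L), Even (log (w.valuation L x)))
    (w : HeightOneSpectrum (𝓞 L)) : Even (log (w.valuation L (σ x))) := by
  obtain ⟨w', h1, -⟩ := exists_conj σ w
  rw [h1]
  exact h w'

end conj

lemma pow_close {F : Type*} [Field F] {V : Valuation F (WithZero (Multiplicative ℤ))} {a b : F}
    (ha : V a ≤ 1) (hb : V b ≤ 1) (h : V (a - b) < 1) (m : ℕ) :
    V (a ^ m - b ^ m) < 1 := by
  induction m with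
  | zero => rw [pow_zero, pow_zero, sub_self, map_zero]; exact one_pos
  | succ m ih =>
    have e1 : a ^ (m + 1) - b ^ (m + 1) = a * (a ^ m - b ^ m) + b ^ m * (a - b) := by ring
    rw [e1]
    refine V_add_lt (V_mul_lt ha ih) (V_mul_lt ?_ h)
    rw [map_pow]
    exact pow_le_one' hb m

section roots

variable {K L : Type} [Field K] [Field L] [Algebra K L]
variable {V : Valuation L (WithZero (Multiplicative ℤ))}

lemma near_pow {τ : L ≃ₐ[K] L} (hτ : ∀ x, V (τ x) = V x) {y : L} (h : V (τ y - y) < 1) (j : ℕ) :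
    V ((τ ^ j) y - y) < 1 := by
  induction j with
  | zero =>
    rw [pow_zero, AlgEquiv.one_apply, sub_self, map_zero]
    exact one_pos
  | succ j ih =>
    have e1 : (τ ^ (j + 1)) y - y = τ ((τ ^ j) y - y) + (τ y - y) := by
      rw [pow_succ', AlgEquiv.mul_apply, map_sub]; ring
    rw [e1]
    exact V_add_lt (by rw [hτ]; exact ih) h

lemma near_of_pow {σ : L ≃ₐ[K] L} (hσ : ∀ x, V (σ x) = V x) {y : L} {r : ℕ}
    (hr : r.Coprime (orderOf σ)) (h : V ((σ ^ r) y - y) < 1) : V (σ y - y) < 1 := by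
  obtain ⟨m, hm⟩ := exists_pow_eq_self_of_coprime hr
  have hσr : ∀ x, V ((σ ^ r) x) = V x := by
    intro x
    clear h hm hr
    induction r with
    | zero => rw [pow_zero, AlgEquiv.one_apply]
    | succ r ih => rw [pow_succ', AlgEquiv.mul_apply, hσ, ih]
  have h1 := near_pow hσr h m
  rwa [hm] at h1

lemma root_two {σ : L ≃ₐ[K] L} (hσ : ∀ x, V (σ x) = V x) (hodd : Odd (orderOf σ)) {y : L}
    (hy : V y ≤ 1) (h : V (y ^ 2 + y + 1) < 1) : V (σ y - y) < 1 := by
  have hσy : V (σ y) ≤ 1 := by rw [hσ]; exact hy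
  have h' : V ((σ y) ^ 2 + σ y + 1) < 1 := by
    have : (σ y) ^ 2 + σ y + 1 = σ (y ^ 2 + y + 1) := by
      rw [map_add, map_add, map_pow, map_one]
    rw [this, hσ]; exact h
  have h3 : V ((σ y - y) * (σ y + y + 1)) < 1 := by
    have : (σ y - y) * (σ y + y + 1) = ((σ y) ^ 2 + σ y + 1) - (y ^ 2 + y + 1) := by ring
    rw [this]
    exact V_sub_lt h' h
  by_contra hcon
  rw [not_lt] at hcon
  have h4 : V (σ y - y) = 1 := le_antisymm (V_sub_le hσy hy) hcon
  rw [map_mul, h4, one_mul] at h3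
  apply absurd _ (not_lt.mpr hcon)
  apply near_of_pow hσ (r := 2)
  · exact hodd.coprime_two_left
  · have e1 : (σ ^ 2) y - y = σ (σ y + y + 1) - (σ y + y + 1) := by
      rw [pow_two, AlgEquiv.mul_apply, map_add, map_add, map_one]; ring
    rw [e1]
    exact V_sub_lt (by rw [hσ]; exact h3) h3

variable (h2 : V 2 = exp (-1 : ℤ))
include h2

lemma cubic_close {y z : L} (hy : V y ≤ 1) (hz : V z ≤ 1) (h : V (y ^ 3 + y ^ 2 + 1) < 1)
    (h' : V (z ^ 3 + z ^ 2 + 1) < 1) :
    V (z - y) < 1 ∨ V (z - y ^ 2) < 1 ∨ V (z - y ^ 4) < 1 := by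
  have hp : ∀ k : ℕ, V (y ^ k) ≤ 1 := fun k => by rw [map_pow]; exact pow_le_one' hy k
  have hpz : ∀ k : ℕ, V (z ^ k) ≤ 1 := fun k => by rw [map_pow]; exact pow_le_one' hz k
  have h1 : V (1 : L) ≤ 1 := by rw [map_one]
  have hV2 : V (2 : L) ≤ 1 := by rw [h2]; exact exp_neg_lt_one.le
  have hV3 : V (3 : L) ≤ 1 := by exact_mod_cast V_int (V := V) 3
  have e1 : (z - y) * (z - y ^ 2) * (z - y ^ 4) = (z ^ 3 + z ^ 2 + 1) +
      2 * ((2 - z ^ 2) * y ^ 2 - y + 1 - z ^ 2) +
      (-y ^ 4 + (z + 1) * y ^ 3 - y ^ 2 + (2 - z ^ 2) * y + (z ^ 2 - 3)) *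
        (y ^ 3 + y ^ 2 + 1) := by ring
  have h3 : V ((z - y) * (z - y ^ 2) * (z - y ^ 4)) < 1 := by
    rw [e1]
    refine V_add_lt (V_add_lt h' (V_two_mul_lt h2 ?_)) (V_mul_lt ?_ h)
    · exact V_sub_le (V_add_le (V_sub_le (V_mul_le (V_sub_le hV2 (hpz 2)) (hp 2)) hy) h1) (hpz 2)
    · refine V_add_le (V_add_le (V_sub_le (V_add_le ?_ (V_mul_le (V_add_le hz h1) (hp 3))) (hp 2))
        (V_mul_le (V_sub_le hV2 (hpz 2)) hy)) (V_sub_le (hpz 2) hV3)
      rw [Valuation.map_neg]; exact hp 4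
  by_contra hcon
  push Not at hcon
  obtain ⟨c1, c2, c3⟩ := hcon
  have d1 : V (z - y) = 1 := le_antisymm (V_sub_le hz hy) c1
  have d2 : V (z - y ^ 2) = 1 := le_antisymm (V_sub_le hz (hp 2)) c2
  have d3 : V (z - y ^ 4) = 1 := le_antisymm (V_sub_le hz (hp 4)) c3
  rw [map_mul, map_mul, d1, d2, d3, one_mul, one_mul] at h3
  exact lt_irrefl _ h3

lemma pow_eight {y : L} (hy : V y ≤ 1) (h : V (y ^ 3 + y ^ 2 + 1) < 1) : V (y ^ 8 - y) < 1 := by
  have hp : ∀ k : ℕ, V (y ^ k) ≤ 1 := fun k => by rw [map_pow]; exact pow_le_one' hy k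
  have hV : ∀ n : ℤ, V (n : L) ≤ 1 := V_int
  have e1 : y ^ 8 - y = (y ^ 5 - y ^ 4 + y ^ 3 - ((2 : ℤ) : L) * y ^ 2 + ((3 : ℤ) : L) * y -
      ((4 : ℤ) : L)) * (y ^ 3 + y ^ 2 + 1) +
      2 * (((3 : ℤ) : L) * y ^ 2 - ((2 : ℤ) : L) * y + ((2 : ℤ) : L)) := by
    push_cast; ring
  rw [e1]
  refine V_add_lt (V_mul_lt ?_ h) (V_two_mul_lt h2 ?_)
  · exact V_sub_le (V_add_le (V_sub_le (V_add_le (V_sub_le (hp 5) (hp 4)) (hp 3))
      (V_mul_le (hV 2) (hp 2))) (V_mul_le (hV 3) hy)) (hV 4)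
  · exact V_add_le (V_sub_le (V_mul_le (hV 3) (hp 2)) (V_mul_le (hV 2) hy)) (hV 2)

lemma root_three {σ : L ≃ₐ[K] L} (hσ : ∀ x, V (σ x) = V x)
    (hthree : Nat.Coprime 3 (orderOf σ) ∨ ∃ c : L, σ c = c ∧ V c ≤ 1 ∧
      V (c ^ 3 + c ^ 2 + 1) < 1) {y : L}
    (hy : V y ≤ 1) (h : V (y ^ 3 + y ^ 2 + 1) < 1) : V (σ y - y) < 1 := by
  have hσy : V (σ y) ≤ 1 := by rw [hσ]; exact hy
  have hp : ∀ k : ℕ, V (y ^ k) ≤ 1 := fun k => by rw [map_pow]; exact pow_le_one' hy k
  rcases hthree with hco | ⟨c, hc, hc1, hc3⟩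
  · have h' : V ((σ y) ^ 3 + (σ y) ^ 2 + 1) < 1 := by
      have : (σ y) ^ 3 + (σ y) ^ 2 + 1 = σ (y ^ 3 + y ^ 2 + 1) := by
        rw [map_add, map_add, map_pow, map_pow, map_one]
      rw [this, hσ]; exact h
    have key : ∀ m : ℕ, V (σ y - y ^ m) < 1 → V (y ^ (m * m * m) - y) < 1 →
        V (σ y - y) < 1 := by
      intro m hm hm3
      apply near_of_pow hσ (r := 3) hco
      have k1 : V (σ (σ y) - y ^ (m * m)) < 1 := by
        have e1 : σ (σ y) - y ^ (m * m) = σ (σ y - y ^ m) + ((σ y) ^ m - (y ^ m) ^ m) := by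
          rw [map_sub, map_pow, pow_mul]; ring
        rw [e1]
        exact V_add_lt (by rw [hσ]; exact hm) (pow_close hσy (hp m) hm m)
      have k2 : V (σ (σ (σ y)) - y ^ (m * m * m)) < 1 := by
        have e1 : σ (σ (σ y)) - y ^ (m * m * m) = σ (σ (σ y) - y ^ (m * m)) +
            ((σ y) ^ (m * m) - (y ^ m) ^ (m * m)) := by
          rw [map_sub, map_pow]
          have : (y ^ m) ^ (m * m) = y ^ (m * m * m) := by rw [← pow_mul]; congr 1; ring
          rw [this]; ring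
        rw [e1]
        exact V_add_lt (by rw [hσ]; exact k1) (pow_close hσy (hp m) hm (m * m))
      have e2 : (σ ^ 3) y - y = (σ (σ (σ y)) - y ^ (m * m * m)) + (y ^ (m * m * m) - y) := by
        rw [pow_succ, pow_two, AlgEquiv.mul_apply, AlgEquiv.mul_apply]; ring
      rw [e2]
      exact V_add_lt k2 hm3
    have h8 := pow_eight h2 hy h
    rcases cubic_close h2 hy hσy h h' with h1 | h1 | h1
    · exact h1
    · exact key 2 h1 h8
    · refine key 4 h1 ?_
      have e1 : y ^ (4 * 4 * 4) - y = ((y ^ 8) ^ 8 - y ^ 8) + (y ^ 8 - y) := by ring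
      rw [e1]
      exact V_add_lt (pow_close (hp 8) hy h8 8) h8
  · have hpc : ∀ k : ℕ, V (c ^ k) ≤ 1 := fun k => by rw [map_pow]; exact pow_le_one' hc1 k
    have key : ∀ k : ℕ, V (y - c ^ k) < 1 → V (σ y - y) < 1 := by
      intro k hk
      have e1 : σ y - y = σ (y - c ^ k) - (y - c ^ k) := by
        rw [map_sub, map_pow, hc]; ring
      rw [e1]
      exact V_sub_lt (by rw [hσ]; exact hk) hk
    rcases cubic_close h2 hc1 hy hc3 h with h1 | h1 | h1
    · exact key 1 (by rw [pow_one]; exact h1)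
    · exact key 2 h1
    · exact key 4 h1

/-- The product of `d` and its conjugate is a square modulo four. -/
lemma kap_conj {σ : L ≃ₐ[K] L} (hσ : ∀ x, V (σ x) = V x) (hodd : Odd (orderOf σ))
    (hthree : Nat.Coprime 3 (orderOf σ) ∨ ∃ c : L, σ c = c ∧ V c ≤ 1 ∧
      V (c ^ 3 + c ^ 2 + 1) < 1) {d : L} (h : KapForm V d) : SqModFour V (d * σ d) := by
  obtain ⟨t, y, n, m, ht, hy, hd, hroot⟩ := h
  have hclose : V (σ y - y) < 1 := by
    rcases hroot with h1 | h1 | h1
    · have e1 : σ y - y = σ (y - 1) - (y - 1) := by rw [map_sub, map_one]; ring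
      rw [e1]
      exact V_sub_lt (by rw [hσ]; exact h1) h1
    · exact root_two hσ hodd hy h1
    · exact root_three h2 hσ hthree hy h1
  have hσy : V (σ y) ≤ 1 := by rw [hσ]; exact hy
  set e := (n : L) * y + m * y ^ 2 with he
  set e' := (n : L) * σ y + m * (σ y) ^ 2 with he'
  have hee : σ e = e' := by
    rw [he, he', map_add, map_mul, map_mul, map_pow, map_intCast, map_intCast]
  have h1 : V (1 : L) ≤ 1 := by rw [map_one]
  have hVe : V e ≤ 1 := V_add_le (V_mul_le (V_int n) hy)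
    (V_mul_le (V_int m) (by rw [map_pow]; exact pow_le_one' hy 2))
  have hVe' : V e' ≤ 1 := by rw [← hee, hσ]; exact hVe
  have hdiff : V (e' - e) < 1 := by
    have e1 : e' - e = n * (σ y - y) + m * ((σ y) ^ 2 - y ^ 2) := by rw [he, he']; ring
    rw [e1]
    exact V_add_lt (V_mul_lt (V_int n) hclose) (V_mul_lt (V_int m) (pow_close hσy hy hclose 2))
  have hσt : σ t ≠ 0 := by
    intro h0
    apply ht
    rw [← σ.symm_apply_apply t, h0, map_zero]
  set δ := d * t ^ 2 - (1 + 2 * e) with hδ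
  have hP : V (1 + 2 * e) ≤ 1 := V_add_le h1 ((V_two_mul_lt h2 hVe).le)
  have hδ1 : V δ ≤ 1 := hd.trans (exp_neg_two_lt.trans exp_neg_lt_one).le
  have hA : V (d * t ^ 2) ≤ 1 := by
    have : d * t ^ 2 = δ + (1 + 2 * e) := by rw [hδ]; ring
    rw [this]; exact V_add_le hδ1 hP
  refine ⟨t * σ t, 1, mul_ne_zero ht hσt, map_one V, ?_⟩
  rw [V_four h2]
  have e1 : d * σ d * (t * σ t) ^ 2 - 1 ^ 2 = (2 * (e' - e) + 4 * (e + e * e')) +
      (δ * σ (d * t ^ 2) + (1 + 2 * e) * σ δ) := by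
    have : σ δ = σ (d * t ^ 2) - (1 + 2 * e') := by
      rw [hδ, map_sub, map_add, map_mul, map_mul σ 2 e, hee, map_one, map_ofNat]
    rw [this, hδ, map_mul, map_pow]
    ring
  rw [e1]
  have h4 : V (4 * (e + e * e')) ≤ exp (-2 : ℤ) := by
    rw [map_mul, V_four h2]
    exact mul_le_of_le_one_right' (V_add_le hVe (V_mul_le hVe hVe'))
  refine V_add_le (V_add_le (V_two_mul h2 hdiff) h4) (V_add_le ?_ ?_)
  · rw [map_mul, hσ]
    exact (mul_le_mul' hd hA).trans (by rw [mul_one])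
  · rw [map_mul, hσ]
    exact (mul_le_mul' hP hd).trans (by rw [one_mul])

end roots

section dense

variable {L : Type*} [Field L] [NumberField L] (w : HeightOneSpectrum (𝓞 L))

lemma KapForm.descend {x : L} (h2 : w.valuation L 2 = exp (-1 : ℤ))
    (h : KapForm Valued.v (algebraMap L (w.adicCompletion L) x)) :
    KapForm (w.valuation L) x := by
  obtain ⟨t, y, n, m, ht, hy, hd, hroot⟩ := h
  have e2 : Valued.v (2 : w.adicCompletion L) = exp (-1 : ℤ) := by
    rw [valued_ofNat w 2]; exact h2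
  set X := algebraMap L (w.adicCompletion L) x with hX
  have h1 : Valued.v (1 : w.adicCompletion L) ≤ 1 := by rw [map_one]
  have hy2 : Valued.v (y ^ 2) ≤ 1 := by rw [map_pow]; exact pow_le_one' hy 2
  have hVe : Valued.v ((n : w.adicCompletion L) * y + m * y ^ 2) ≤ 1 :=
    V_add_le (V_mul_le (V_int n) hy) (V_mul_le (V_int m) hy2)
  have hXt : Valued.v (X * t ^ 2) ≤ 1 := by
    have h5 : X * t ^ 2 = (X * t ^ 2 - (1 + 2 * (n * y + m * y ^ 2))) +
      (1 + 2 * (n * y + m * y ^ 2)) := by ring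
    rw [h5]
    exact V_add_le (hd.trans (exp_neg_two_lt.trans exp_neg_lt_one).le)
      (V_add_le h1 (V_two_mul_lt e2 hVe).le)
  have hvt : Valued.v t ≠ 0 := (Valuation.ne_zero_iff _).mpr ht
  obtain ⟨t', ht'⟩ := exists_close w t (-2 + log (Valued.v t))
  rw [exp_add, exp_log hvt] at ht'
  obtain ⟨y', hy'⟩ := exists_close w y 0
  rw [exp_zero] at hy'
  set T := algebraMap L (w.adicCompletion L) t' with hT
  set Y := algebraMap L (w.adicCompletion L) y' with hY
  have hlt : Valued.v (T - t) < Valued.v t := by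
    refine ht'.trans_le ?_
    exact mul_le_of_le_one_left' (exp_neg_two_lt.trans exp_neg_lt_one).le
  have hVT : Valued.v T = Valued.v t := by
    have : T = (T - t) + t := by ring
    rw [this, Valuation.map_add_eq_of_lt_right _ hlt]
  have hVY : Valued.v Y ≤ 1 := by
    have : Y = (Y - y) + y := by ring
    rw [this]
    exact V_add_le hy'.le hy
  refine ⟨t', y', n, m, ?_, ?_, ?_, ?_⟩
  · rintro rfl
    rw [hT, map_zero, map_zero] at hVT
    exact hvt hVT.symm
  · rw [← valued_algebraMap]; exact hVY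
  · rw [← valued_algebraMap, map_sub, map_mul, map_pow, map_add, map_one, map_mul, map_ofNat,
      map_add, map_mul, map_mul, map_pow, map_intCast, map_intCast]
    rw [← hX, ← hT, ← hY]
    have e1 : X * T ^ 2 - (1 + 2 * (n * Y + m * Y ^ 2)) = X * ((T - t) * (T + t)) +
        ((X * t ^ 2 - (1 + 2 * (n * y + m * y ^ 2))) -
        2 * (n * (Y - y) + m * (Y ^ 2 - y ^ 2))) := by ring
    rw [e1]
    refine V_add_le ?_ (V_sub_le hd (V_two_mul e2 (V_add_lt (V_mul_lt (V_int n) hy')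
      (V_mul_lt (V_int m) (pow_close hVY hy hy' 2)))))
    rw [map_mul, map_mul]
    have h6 : Valued.v (T + t) ≤ Valued.v t :=
      (Valuation.map_add _ _ _).trans (max_le hVT.le le_rfl)
    calc Valued.v X * (Valued.v (T - t) * Valued.v (T + t))
        ≤ Valued.v X * ((exp (-2) * Valued.v t) * Valued.v t) :=
          mul_le_mul_right (mul_le_mul' ht'.le h6) _
      _ = exp (-2) * (Valued.v X * Valued.v t ^ 2) := by
          rw [pow_two]; ac_rfl
      _ ≤ exp (-2) * 1 := by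
          refine mul_le_mul_right ?_ _
          rw [← map_pow, ← map_mul]; exact hXt
      _ = exp (-2) := mul_one _
  · rcases hroot with h5 | h5 | h5
    · left
      rw [← valued_algebraMap, map_sub, map_one, ← hY]
      have : Y - 1 = (Y - y) + (y - 1) := by ring
      rw [this]
      exact V_add_lt hy' h5
    · right; left
      have e3 : algebraMap L (w.adicCompletion L) (y' ^ 2 + y' + 1) = Y ^ 2 + Y + 1 := by
        rw [map_add, map_add, map_pow, map_one]
      rw [← valued_algebraMap, e3]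
      have : Y ^ 2 + Y + 1 = (y ^ 2 + y + 1) + ((Y ^ 2 - y ^ 2) + (Y - y)) := by ring
      rw [this]
      exact V_add_lt h5 (V_add_lt (pow_close hVY hy hy' 2) hy')
    · right; right
      have e3 : algebraMap L (w.adicCompletion L) (y' ^ 3 + y' ^ 2 + 1) = Y ^ 3 + Y ^ 2 + 1 := by
        rw [map_add, map_add, map_pow, map_pow, map_one]
      rw [← valued_algebraMap, e3]
      have : Y ^ 3 + Y ^ 2 + 1 = (y ^ 3 + y ^ 2 + 1) + ((Y ^ 3 - y ^ 3) + (Y ^ 2 - y ^ 2)) := by
        ring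
      rw [this]
      exact V_add_lt h5 (V_add_lt (pow_close hVY hy hy' 3) (pow_close hVY hy hy' 2))

end dense

end Pool.Agent.H10
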