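import Pool.Agent.H10.Main
import Pool.Agent.H10.StarGal

/-!
The new part of the two-Selmer group at places above two which are unramified, Galois case.
-/

set_option autoImplicit false
set_option linter.style.haveILetI false
open scoped Classical

open WeierstrassCurve IsDedekindDomain NumberField WithZero

namespace Pool.Agent.H10

/-- The condition at two: the valuations of `a` and `b` differ, or they are equal and even and the
valuation of `b - a` is larger by one. -/
def StarTwo (a b : ℤ) : Prop :=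
  padicValInt 2 a ≠ padicValInt 2 b ∨
    (Even (padicValInt 2 a) ∧ padicValInt 2 (b - a) = padicValInt 2 a + 1)

lemma odd_part {a : ℤ} (ha : a ≠ 0) :
    ∃ A : ℤ, A % 2 = 1 ∧ a = 2 ^ padicValInt 2 a * A := by
  haveI : Fact (Nat.Prime 2) := ⟨Nat.prime_two⟩
  obtain ⟨A, hA⟩ := padicValInt_dvd (p := 2) a
  push_cast at hA
  refine ⟨A, ?_, hA⟩
  by_contra h
  obtain ⟨B, hB⟩ : ∃ B : ℤ, A = 2 * B := ⟨A / 2, by omega⟩
  have h1 : ((2 : ℕ) : ℤ) ^ (padicValInt 2 a + 1) ∣ a := by
    refine ⟨B, ?_⟩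
    push_cast
    calc a = 2 ^ padicValInt 2 a * A := hA
      _ = 2 ^ (padicValInt 2 a + 1) * B := by rw [hB]; ring
  rw [padicValInt_dvd_iff] at h1
  rcases h1 with h1 | h1
  · exact ha h1
  · omega

lemma pow_two_split (v i : ℕ) (h : 2 * i ≤ v) : (2 : ℤ) ^ v = 4 ^ i * 2 ^ (v - 2 * i) := by
  have : (4 : ℤ) ^ i = 2 ^ (2 * i) := by rw [pow_mul]; norm_num
  rw [this, ← pow_add]
  congr 1
  omega

lemma pow_four_dvd (e : ℕ) (he : 2 ≤ e) (A : ℤ) : (2 ^ e * A) % 4 = 0 := by
  obtain ⟨k, rfl⟩ : ∃ k, e = k + 2 := ⟨e - 2, by omega⟩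
  have : (2 : ℤ) ^ (k + 2) * A = 4 * (2 ^ k * A) := by ring
  rw [this]
  exact Int.mul_emod_right 4 _

lemma pow_even (e : ℕ) (he : 1 ≤ e) (A : ℤ) : (2 ^ e * A) % 2 = 0 := by
  obtain ⟨k, rfl⟩ : ∃ k, e = k + 1 := ⟨e - 1, by omega⟩
  have : (2 : ℤ) ^ (k + 1) * A = 2 * (2 ^ k * A) := by ring
  rw [this]
  exact Int.mul_emod_right 2 _

lemma star_aux {u v : ℕ} {A B : ℤ} (hA : A % 2 = 1) (huv : u < v) :
    ∃ (i : ℕ) (a' b' : ℤ), 2 ^ u * A = 4 ^ i * a' ∧ 2 ^ v * B = 4 ^ i * b' ∧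
      ((a' % 2 = 1 ∧ b' % 2 = 0) ∨ (a' % 4 = 2 ∧ b' % 4 = 0)) := by
  refine ⟨u / 2, 2 ^ (u - 2 * (u / 2)) * A, 2 ^ (v - 2 * (u / 2)) * B, ?_, ?_, ?_⟩
  · rw [← mul_assoc, ← pow_two_split u (u / 2) (by omega)]
  · rw [← mul_assoc, ← pow_two_split v (u / 2) (by omega)]
  · rcases Nat.even_or_odd u with h | h
    · left
      obtain ⟨k, hk⟩ := h
      have h1 : u - 2 * (u / 2) = 0 := by omega
      refine ⟨?_, pow_even _ (by omega) _⟩
      rw [h1, pow_zero, one_mul]
      exact hA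
    · right
      obtain ⟨k, hk⟩ := h
      have h1 : u - 2 * (u / 2) = 1 := by omega
      refine ⟨?_, pow_four_dvd _ (by omega) _⟩
      rw [h1, pow_one]
      omega

theorem StarTwo.nrm {a b : ℤ} (ha : a ≠ 0) (hb : b ≠ 0) (hab : a ≠ b) (h : StarTwo a b) :
    ∃ (i : ℕ) (a' b' : ℤ), a = 4 ^ i * a' ∧ b = 4 ^ i * b' ∧ Nrm a' b' := by
  obtain ⟨A, hA, eA⟩ := odd_part ha
  obtain ⟨B, hB, eB⟩ := odd_part hb
  rcases lt_trichotomy (padicValInt 2 a) (padicValInt 2 b) with hlt | heq | hlt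
  · obtain ⟨i, a', b', h1, h2, h3⟩ := star_aux (B := B) hA hlt
    refine ⟨i, a', b', eA.trans h1, eB.trans h2, ?_⟩
    rcases h3 with h3 | h3
    · exact Or.inl h3
    · exact Or.inr (Or.inr (Or.inl h3))
  · rcases h with h | ⟨he, h⟩
    · exact absurd heq h
    · obtain ⟨k, hk⟩ := he
      have hk2 : padicValInt 2 a = 2 * k := by omega
      obtain ⟨C, hC, eC⟩ := odd_part (sub_ne_zero.mpr hab.symm)
      have hp : (2 : ℤ) ^ (2 * k) = 4 ^ k := by rw [pow_mul]; norm_num
      refine ⟨k, A, B, ?_, ?_, Or.inr (Or.inr (Or.inr (Or.inr ⟨hA, ?_⟩)))⟩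
      · rw [← hp, ← hk2]; exact eA
      · rw [← hp, ← hk2, heq]; exact eB
      · have e1 : (4 : ℤ) ^ k * (B - A) = 4 ^ k * (2 * C) := by
          have e2 : b - a = 4 ^ k * (2 * C) := by
            calc b - a = 2 ^ padicValInt 2 (b - a) * C := eC
              _ = 2 ^ (2 * k + 1) * C := by rw [h, hk2]
              _ = 4 ^ k * (2 * C) := by rw [pow_succ, hp]; ring
          rw [← e2]
          have e3 : a = 4 ^ k * A := by rw [← hp, ← hk2]; exact eA
          have e4 : b = 4 ^ k * B := by rw [← hp, ← hk2, heq]; exact eB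
          calc (4 : ℤ) ^ k * (B - A) = 4 ^ k * B - 4 ^ k * A := by ring
            _ = b - a := by rw [← e3, ← e4]
        have e5 := mul_left_cancel₀ (pow_ne_zero k (by norm_num : (4 : ℤ) ≠ 0)) e1
        omega
  · obtain ⟨i, b', a', h1, h2, h3⟩ := star_aux (B := A) hB hlt
    refine ⟨i, a', b', eA.trans h2, eB.trans h1, ?_⟩
    rcases h3 with h3 | h3
    · exact Or.inr (Or.inl ⟨h3.2, h3.1⟩)
    · exact Or.inr (Or.inr (Or.inr (Or.inl ⟨h3.2, h3.1⟩)))

lemma CPt.scale {k : Type*} [Field k] {a b d : k} {r : k} (hr : r ≠ 0)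
    (H : CPt 0 (r ^ 2 * a) (r ^ 2 * b) 1 d d) : CPt 0 a b 1 d d := by
  obtain ⟨z₀, z₁, z₂, z₃, hz, E1, E2⟩ := H
  refine ⟨r * z₀, z₁, z₂, z₃, ?_, ?_, ?_⟩
  · rcases hz with h | h
    · exact Or.inl (mul_ne_zero hr h)
    · exact Or.inr h
  · linear_combination E1
  · linear_combination E2

section

variable {K L : Type} [Field K] [NumberField K] [Field L] [NumberField L] [Algebra K L]

/-- The valuation of two when two is not in the square of the prime. -/
lemma val_two_of_unram {w : HeightOneSpectrum (𝓞 L)} (h : (2 : 𝓞 L) ∈ w.asIdeal)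
    (h' : (2 : 𝓞 L) ∉ w.asIdeal ^ 2) : w.valuation L 2 = exp (-1 : ℤ) := by
  have e2 : algebraMap (𝓞 L) L 2 = 2 := map_ofNat (algebraMap (𝓞 L) L) 2
  rw [← e2, w.valuation_of_algebraMap]
  apply le_antisymm
  · have h1 := (w.intValuation_le_pow_iff_mem 2 1).mpr (by rw [pow_one]; exact h)
    exact_mod_cast h1
  · have h1 := mt (w.intValuation_le_pow_iff_mem 2 2).mp h'
    rw [not_le] at h1
    have h0 : w.intValuation (2 : 𝓞 L) ≠ 0 := fun h0 => by
      rw [h0] at h1
      exact absurd h1 not_lt_zero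
    rw [← exp_log h0, exp_lt_exp] at h1
    rw [← exp_log h0, exp_le_exp]
    push_cast at h1
    omega

theorem newTrivial_star [IsGalois K L] (hodd : Odd (Module.finrank K L)) (R1 : NoNewPositive K L)
    (R2 : NoNewUnramified K L) {a b : ℤ} (ha : 0 < a) (hb : 0 < b) (hab : a ≠ b)
    (hst : StarTwo a b)
    (hbad : ∀ v : HeightOneSpectrum (𝓞 K),
      ((2 * a * b * (b - a) : ℤ) : 𝓞 K) ∈ v.asIdeal → UniqueOver K L v.asIdeal)
    (hunr : ∀ w : HeightOneSpectrum (𝓞 L), (2 : 𝓞 L) ∈ w.asIdeal →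
      (2 : 𝓞 L) ∉ w.asIdeal ^ 2)
    (h3 : ¬ 3 ∣ Module.finrank K L ∨ ∀ v : HeightOneSpectrum (𝓞 K), (2 : 𝓞 K) ∈ v.asIdeal →
      ∃ c : 𝓞 K, c ^ 3 + c ^ 2 + 1 ∈ v.asIdeal) :
    NewTrivial K L (algebraMap K L 0) (algebraMap K L (a : K)) (algebraMap K L (b : K)) := by
  intro d₁ d₂ d₃ c hd hc Hf Hi N1 N2 N3
  have hdn : d₁ * d₂ * d₃ ≠ 0 := by rw [hd]; exact pow_ne_zero 2 hc
  have hd1 : d₁ ≠ 0 := fun h => hdn (by rw [h]; ring)
  have hd2 : d₂ ≠ 0 := fun h => hdn (by rw [h]; ring)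
  have hd3 : d₃ ≠ 0 := fun h => hdn (by rw [h]; ring)
  rw [map_zero, map_intCast, map_intCast] at Hf Hi
  -- primes of `K` below
  have below : ∀ w : HeightOneSpectrum (𝓞 L), w.asIdeal.under (𝓞 K) ≠ ⊥ := fun w =>
    Ideal.IsIntegral.comap_ne_bot _ w.ne_bot
  have mem_iff : ∀ (w : HeightOneSpectrum (𝓞 L)) (z : ℤ),
      (z : 𝓞 K) ∈ w.asIdeal.under (𝓞 K) ↔ (z : 𝓞 L) ∈ w.asIdeal := by
    intro w z
    change algebraMap (𝓞 K) (𝓞 L) (z : 𝓞 K) ∈ w.asIdeal ↔ _
    rw [map_intCast]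
  have huniq : ∀ w : HeightOneSpectrum (𝓞 L),
      ((2 * a * b * (b - a) : ℤ) : 𝓞 L) ∈ w.asIdeal →
      UniqueOver K L (w.asIdeal.under (𝓞 K)) := by
    intro w hw
    exact hbad ⟨w.asIdeal.under (𝓞 K), inferInstance, below w⟩ ((mem_iff w _).mpr hw)
  have two_mem : ∀ w : HeightOneSpectrum (𝓞 L), (2 : 𝓞 L) ∈ w.asIdeal →
      ((2 * a * b * (b - a) : ℤ) : 𝓞 L) ∈ w.asIdeal := by
    intro w hw
    push_cast
    exact Ideal.mul_mem_right _ _ (Ideal.mul_mem_right _ _ (Ideal.mul_mem_right _ _ hw))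
  -- evenness of all valuations
  have ev : ∀ w : HeightOneSpectrum (𝓞 L), Even (log (w.valuation L d₁)) ∧
      Even (log (w.valuation L d₂)) ∧ Even (log (w.valuation L d₃)) := by
    intro w
    by_cases hb' : ((2 * a * b * (b - a) : ℤ) : 𝓞 L) ∈ w.asIdeal
    · have hu := huniq w hb'
      let v : HeightOneSpectrum (𝓞 K) := ⟨w.asIdeal.under (𝓞 K), inferInstance, below w⟩
      have hvw : v.asIdeal.map (algebraMap (𝓞 K) (𝓞 L)) ≤ w.asIdeal := Ideal.map_comap_le
      exact ⟨even_of_norm_sq (v := v) hodd hu hvw hd1 N1, even_of_norm_sq (v := v) hodd hu hvw hd2 N2,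
        even_of_norm_sq (v := v) hodd hu hvw hd3 N3⟩
    · have nA : (a : 𝓞 L) ∉ w.asIdeal := fun h => hb' (by
        push_cast
        exact Ideal.mul_mem_right _ _ (Ideal.mul_mem_right _ _ (Ideal.mul_mem_left _ _ h)))
      have nB : (b : 𝓞 L) ∉ w.asIdeal := fun h => hb' (by
        push_cast
        exact Ideal.mul_mem_right _ _ (Ideal.mul_mem_left _ _ h))
      have nC : ((b - a : ℤ) : 𝓞 L) ∉ w.asIdeal := fun h => hb' (by
        push_cast at h ⊢
        exact Ideal.mul_mem_left _ _ h)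
      have vA := intCast_val w nA
      have vB := intCast_val w nB
      have vC := intCast_val w nC
      rw [← valued_algebraMap, ← valued_algebraMap, ← valued_algebraMap]
      refine even_of_cpt (F := w.adicCompletion L) Valued.v ?_ ?_ ?_
        (c := algebraMap L (w.adicCompletion L) c) ?_ ?_ (Hf w)
      · rw [← map_sub, sub_zero, valued_algebraMap, vA]
      · rw [← map_sub, sub_zero, valued_algebraMap, vB]
      · rw [← map_sub, valued_algebraMap, ← vC]; push_cast; rfl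
      · rw [← map_mul, ← map_mul, hd, map_pow]
      · rw [Ne, map_eq_zero]; exact hc
  -- the first component
  have sq1 : IsSquare d₁ := by
    apply R1 d₁ hd1 (fun w => (ev w).1) N1
    intro φ
    obtain ⟨v, ψ, hψ⟩ := exists_completion φ
    have h1 := (Hi v).map ψ
    rw [hψ, hψ, hψ, hψ, hψ, hψ, map_zero, map_intCast, map_intCast] at h1
    refine (real_mp (c := φ c) ?_ ?_ ?_ ?_ h1).1
    · exact_mod_cast ha
    · exact_mod_cast hb
    · rw [← map_mul, ← map_mul, hd, map_pow]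
    · rw [Ne, map_eq_zero]; exact hc
  obtain ⟨x, hx⟩ := sq1
  have hx0 : x ≠ 0 := by
    rintro rfl
    exact hd1 (by rw [hx, mul_zero])
  -- the local class of the third component
  obtain ⟨i, a', b', ea, eb, hnrm⟩ := hst.nrm ha.ne' hb.ne' hab
  have kap : ∀ w : HeightOneSpectrum (𝓞 L), (2 : 𝓞 L) ∈ w.asIdeal →
      KapForm (w.valuation L) d₃ := by
    intro w hw
    have hv2 := val_two_of_unram hw (hunr w hw)
    apply KapForm.descend w hv2
    have e2 : Valued.v (2 : w.adicCompletion L) = exp (-1 : ℤ) := by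
      rw [valued_ofNat w 2]; exact hv2
    have aM : ∀ x : L, x ≠ 0 → algebraMap L (w.adicCompletion L) x ≠ 0 := fun x hx => by
      rw [Ne, map_eq_zero]; exact hx
    refine star_loc e2 hnrm (aM _ hd3) (by rw [valued_algebraMap]; exact (ev w).2.2) ?_
    have L1 := Hf w
    rw [map_zero, map_intCast, map_intCast] at L1
    have L2 : CPt (0 : w.adicCompletion L) (a : w.adicCompletion L) (b : w.adicCompletion L) 1
        (algebraMap L (w.adicCompletion L) d₃) (algebraMap L (w.adicCompletion L) d₃) := by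
      refine L1.congr (s₁ := algebraMap L (w.adicCompletion L) (1 / x))
        (s₂ := algebraMap L (w.adicCompletion L) (x * d₃ / c))
        (s₃ := 1)
        (aM _ (one_div_ne_zero hx0)) (aM _ (div_ne_zero (mul_ne_zero hx0 hd3) hc))
        one_ne_zero ?_ ?_ ?_
      · rw [← map_pow, ← map_mul, ← map_one (algebraMap L (w.adicCompletion L))]
        congr 1
        rw [hx]
        field_simp
      · rw [← map_pow, ← map_mul]
        congr 1
        rw [hx] at hd
        field_simp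
        linear_combination -hd
      · ring
    have h40 : ((2 : w.adicCompletion L)) ^ i ≠ 0 := by
      apply pow_ne_zero
      intro h0
      rw [h0, map_zero] at e2
      exact exp_ne_zero e2.symm
    apply CPt.scale h40
    have p4 : ((2 : w.adicCompletion L) ^ i) ^ 2 = 4 ^ i := by
      rw [← pow_mul, mul_comm, pow_mul]; norm_num
    have e5 : ((2 : w.adicCompletion L) ^ i) ^ 2 * (a' : w.adicCompletion L) = (a : w.adicCompletion L) := by
      rw [p4, ea]; push_cast; ring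
    have e6 : ((2 : w.adicCompletion L) ^ i) ^ 2 * (b' : w.adicCompletion L) = (b : w.adicCompletion L) := by
      rw [p4, eb]; push_cast; ring
    rw [e5, e6]
    exact L2
  -- the product with a conjugate
  have hcardG : Nat.card (L ≃ₐ[K] L) = Module.finrank K L := IsGalois.card_aut_eq_finrank K L
  have prodsq : ∀ σ : L ≃ₐ[K] L, IsSquare (d₃ * σ d₃) := by
    intro σ
    have hσ0 : σ d₃ ≠ 0 := by
      intro h0
      apply hd3
      rw [← σ.symm_apply_apply d₃, h0, map_zero]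
    have hord : orderOf σ ∣ Module.finrank K L := by
      rw [← hcardG]
      exact orderOf_dvd_natCard σ
    apply R2 _ (mul_ne_zero hd3 hσ0)
    · intro w
      rw [map_mul, log_mul ((Valuation.ne_zero_iff _).mpr hd3) ((Valuation.ne_zero_iff _).mpr hσ0)]
      exact (ev w).2.2.add (even_conj σ (fun w => (ev w).2.2) w)
    · rw [map_mul, Algebra.norm_eq_of_algEquiv σ d₃]
      exact ⟨_, rfl⟩
    · intro w hw
      have hu := huniq w (two_mem w hw)
      have hv2 := val_two_of_unram hw (hunr w hw)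
      have hσ : ∀ x, w.valuation L (σ x) = w.valuation L x := val_conj_of_unique σ w hu
      refine kap_conj hv2 hσ (Odd.of_dvd_nat hodd hord) ?_ (kap w hw)
      rcases h3 with h3 | h3
      · left
        rw [Nat.coprime_comm, Nat.coprime_comm]
        exact (Nat.Prime.coprime_iff_not_dvd Nat.prime_three).mpr fun h => h3 (h.trans hord)
      · right
        obtain ⟨c', hc'⟩ := h3 ⟨w.asIdeal.under (𝓞 K), inferInstance, below w⟩
          (by have := (mem_iff w 2).mpr (by exact_mod_cast hw)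
              exact_mod_cast this)
        have e7 : algebraMap K L ((algebraMap (𝓞 K) K) c') =
            algebraMap (𝓞 L) L (algebraMap (𝓞 K) (𝓞 L) c') := by
          rw [← IsScalarTower.algebraMap_apply (𝓞 K) K L, ← IsScalarTower.algebraMap_apply (𝓞 K) (𝓞 L) L]
        refine ⟨algebraMap K L ((algebraMap (𝓞 K) K) c'), σ.commutes _, ?_, ?_⟩
        · rw [e7]
          exact w.valuation_le_one _
        · have h8 : algebraMap (𝓞 K) (𝓞 L) (c' ^ 3 + c' ^ 2 + 1) ∈ w.asIdeal := hc'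
          rw [e7]
          have e9 : (algebraMap (𝓞 L) L (algebraMap (𝓞 K) (𝓞 L) c')) ^ 3 +
              (algebraMap (𝓞 L) L (algebraMap (𝓞 K) (𝓞 L) c')) ^ 2 + 1 =
              algebraMap (𝓞 L) L (algebraMap (𝓞 K) (𝓞 L) (c' ^ 3 + c' ^ 2 + 1)) := by
            simp only [map_add, map_pow, map_one]
          rw [e9]
          exact (w.valuation_lt_one_iff_mem _).mpr h8
  have sq3 : IsSquare d₃ := by
    have h4 : IsSquare (∏ σ : L ≃ₐ[K] L, (d₃ * σ d₃)) :=
      Finset.isSquare_prod _ fun σ _ => prodsq σ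
    rw [Finset.prod_mul_distrib, Finset.prod_const, ← Algebra.norm_eq_prod_automorphisms,
      Finset.card_univ, ← Nat.card_eq_fintype_card, hcardG] at h4
    obtain ⟨q, hq⟩ := N3
    obtain ⟨r, hr⟩ := h4
    obtain ⟨k, hk⟩ := hodd
    have hq0 : algebraMap K L q ≠ 0 := by
      intro h0
      have : algebraMap K L (Algebra.norm K d₃) = 0 := by rw [hq, map_mul, h0, mul_zero]
      rw [map_eq_zero, Algebra.norm_eq_zero_iff] at this
      exact hd3 this
    rw [hq, map_mul, hk] at hr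
    refine ⟨r / (algebraMap K L q * d₃ ^ k), ?_⟩
    have hk0 : d₃ ^ k ≠ 0 := pow_ne_zero k hd3
    field_simp
    rw [pow_two r, ← hr]
    ring
  refine ⟨⟨x, hx⟩, ?_, sq3⟩
  obtain ⟨z, hz⟩ := sq3
  have hz0 : z ≠ 0 := by
    rintro rfl
    exact hd3 (by rw [hz, mul_zero])
  refine ⟨c / (x * z), ?_⟩
  rw [hx, hz] at hd
  field_simp
  linear_combination hd

end

end Pool.Agent.H10
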