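import Pool.Agent.H10.Iso3
import Pool.Agent.H10.Star

/-!
Counting classes of the two-Selmer group.
-/

set_option autoImplicit false
set_option linter.style.haveILetI false
open scoped Classical

open WeierstrassCurve IsDedekindDomain NumberField

namespace Pool.Agent.H10

section

variable {L : Type} [Field L] [NumberField L] {V : WeierstrassCurve L}

/-- If locally soluble classes `(1, d i, d i)` are different then their number is at most the
number of classes modulo two of points times the number of classes in the kernel of two of the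
Tate-Shafarevich group. -/
theorem count_classes {a b : L} (h : IsCub V 0 a b) {ι : Type} [Fintype ι] (d : ι → L)
    (hd0 : ∀ i, d i ≠ 0) (hfin : ∀ i, FinSol L 0 a b 1 (d i) (d i))
    (hinf : ∀ i, InfSol L 0 a b 1 (d i) (d i))
    (hdist : ∀ i j, IsSquare (d i * d j) → i = j)
    (P : Finset V.toAffine.Point) (hP : ∀ X : V.toAffine.Point, ∃ p ∈ P, ∃ S, X = p + (S + S))
    (T : Finset ((AlgebraicClosure L ≃ₐ[L] AlgebraicClosure L) →
      (V.baseChange (AlgebraicClosure L)).toAffine.Point))
    (hT : ∀ f, IsCocycle L V f → IsLocTriv L V f → IsCobound L V (fun σ => f σ + f σ) →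
      ∃ t ∈ T, IsCobound L V (fun σ => f σ - t σ)) :
    Fintype.card ι ≤ P.card * T.card := by
  have hb := h.bc (Ω := AlgebraicClosure L)
  set iL := inv_bc (Ω := AlgebraicClosure L) L V with hiL
  have hL : V.map (algebraMap L (AlgebraicClosure L)) = V.baseChange (AlgebraicClosure L) := rfl
  have key := fun i => exists_sha_of_triple h (d₁ := 1) (d₂ := d i) (d₃ := d i) (c := d i)
    (by ring) (hd0 i) (hfin i) (hinf i)
  choose f A r₁ r₂ r₃ hfc hfl hf2 hTr using key
  have hcb : ∀ i, ∃ t ∈ T, IsCobound L V (fun σ => f i σ - t σ) := by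
    intro i
    apply hT _ (hfc i) (hfl i)
    rw [isCobound_iff]
    exact ⟨0, fun σ => by rw [hf2, map_zero, sub_zero]⟩
  choose t ht hcob using hcb
  have hfib : ∀ t₀ ∈ Finset.univ.image t,
      (Finset.univ.filter fun i => t i = t₀).card ≤ P.card := by
    intro t₀ ht₀
    rw [Finset.mem_image] at ht₀
    obtain ⟨i₀, -, hi₀⟩ := ht₀
    have hR : ∀ i, t i = t₀ → ∃ R : (V.baseChange (AlgebraicClosure L)).toAffine.Point,
        ∀ σ, f i σ - f i₀ σ = act iL σ R - R := by
      intro i hi
      obtain ⟨Q, hQ⟩ := (isCobound_iff _).mp (hcob i)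
      obtain ⟨Q₀, hQ₀⟩ := (isCobound_iff _).mp (hcob i₀)
      refine ⟨Q - Q₀, fun σ => ?_⟩
      have e1 : f i σ - t i σ = act iL σ Q - Q := hQ σ
      have e2 : f i₀ σ - t i₀ σ = act iL σ Q₀ - Q₀ := hQ₀ σ
      rw [hi] at e1
      rw [hi₀] at e2
      rw [map_sub]
      calc f i σ - f i₀ σ = (f i σ - t₀ σ) - (f i₀ σ - t₀ σ) := by abel
        _ = _ := by rw [e1, e2]; abel
    choose! R hR using hR
    have hX : ∀ i, t i = t₀ → ∃ X : V.toAffine.Point,
        pm (algebraMap L (AlgebraicClosure L)) hL X = R i + R i := by
      intro i hi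
      refine pm_descent hL iL _ fun σ => ?_
      have e1 := hR i hi σ
      rw [map_add, ← sub_eq_zero]
      calc act iL σ (R i) + act iL σ (R i) - (R i + R i) =
          (act iL σ (R i) - R i) + (act iL σ (R i) - R i) := by abel
        _ = (f i σ - f i₀ σ) + (f i σ - f i₀ σ) := by rw [← e1]
        _ = (f i σ + f i σ) - (f i₀ σ + f i₀ σ) := by abel
        _ = 0 := by rw [hf2, hf2, sub_zero]
    choose! X hX using hX
    choose p hp S hS using hP
    refine Finset.card_le_card_of_injOn (fun i => p (X i)) (fun i _ => hp _) ?_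
    intro i hi j hj hij
    simp only [Finset.coe_filter, Finset.mem_univ, true_and, Set.mem_ofPred_eq] at hi hj
    simp only at hij
    -- the difference is two-torsion up to a rational point
    set j₀ := pm (algebraMap L (AlgebraicClosure L)) hL with hj₀
    set D := R i - R j - j₀ (S (X i) - S (X j)) with hD
    have hinv : ∀ (σ : AlgebraicClosure L ≃ₐ[L] AlgebraicClosure L) (Y : V.toAffine.Point),
        act iL σ (j₀ Y) = j₀ Y := by
      intro σ Y
      unfold act
      rw [hj₀, pm_pm]
      exact pm_congr _ _ (fun x => σ.commutes x) _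
    have hDD : D + D = 0 := by
      have e1 := hX i hi
      have e2 := hX j hj
      have e3 : X i - X j = (S (X i) - S (X j)) + (S (X i) - S (X j)) := by
        conv_lhs => rw [hS (X i), hS (X j), hij]
        abel
      have e4 := congrArg j₀ e3
      rw [map_sub, map_add, e1, e2] at e4
      calc D + D = (R i + R i - (R j + R j)) - (j₀ (S (X i) - S (X j)) +
          j₀ (S (X i) - S (X j))) := by rw [hD]; abel
        _ = 0 := by rw [e4, sub_self]
    obtain ⟨c, hc⟩ := hb.exists_tau D hDD
    have hDinv : ∀ σ, act iL σ D = D := by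
      intro σ
      have e1 := h.map_tau σ.toAlgHom c
      rw [hc]
      have e2 : act iL σ (hb.tau c) = (Affine.Point.map σ.toAlgHom :
          (V.baseChange (AlgebraicClosure L)).toAffine.Point →+
            (V.baseChange (AlgebraicClosure L)).toAffine.Point) (hb.tau c) := by
        rw [map_eq_pm]
        rfl
      rw [e2]
      exact e1
    have hff : ∀ σ, f i σ = f j σ := by
      intro σ
      have e1 := hR i hi σ
      have e2 := hR j hj σ
      have e3 := hDinv σ
      rw [hD, map_sub, map_sub, hinv] at e3
      have e4 : act iL σ (R i) - R i = act iL σ (R j) - R j := by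
        calc act iL σ (R i) - R i = (act iL σ (R i) - act iL σ (R j) - j₀ (S (X i) - S (X j))) +
            (act iL σ (R j) + j₀ (S (X i) - S (X j))) - R i := by abel
          _ = act iL σ (R j) - R j := by rw [e3]; abel
      rw [← e1, ← e2] at e4
      exact sub_left_injective e4
    have hAA : ∀ σ, A i σ = A j σ := by
      intro σ
      apply hb.tau_injective
      have e1 := (hTr i).hf σ
      have e2 := (hTr j).hf σ
      rw [map_zero, sub_zero, zero_add] at e1 e2
      rw [← e1, ← e2, hff]
    apply hdist
    obtain ⟨y, hy⟩ := fixed_of_galois (k := L) (r₂ i * r₂ j) (fun σ => by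
      rw [map_mul, ((hTr i).sg σ).2.1, ((hTr j).sg σ).2.1, hAA]
      have := units_cast_sq (Ω := AlgebraicClosure L) (A j σ).1
      linear_combination (r₂ i * r₂ j) * this)
    refine ⟨y, ?_⟩
    apply (algebraMap L (AlgebraicClosure L)).injective
    rw [map_mul, map_mul, hy, ← (hTr i).q2, ← (hTr j).q2]
    ring
  have h1 := Finset.card_le_mul_card_image (f := t) Finset.univ P.card hfib
  rw [Finset.card_univ] at h1
  refine h1.trans (Nat.mul_le_mul_left _ ?_)
  refine Finset.card_le_card ?_
  intro x hx
  rw [Finset.mem_image] at hx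
  obtain ⟨i, -, rfl⟩ := hx
  exact ht i

end

end Pool.Agent.H10
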