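import Pool.Agent.H10.Iso3

/-!
Counting classes of the two-Selmer group, general version.
-/

set_option autoImplicit false
set_option linter.style.haveILetI false
open scoped Classical

open WeierstrassCurve IsDedekindDomain NumberField

namespace Pool.Agent.H10

section

variable {L : Type} [Field L] [NumberField L] {V : WeierstrassCurve L}

/-- A finite family of locally trivial cocycles with values in the two-torsion, at most `m` of
which differ from a given one by the coboundary of a two-torsion point, has at most `m` times the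
number of classes modulo two of points times the number of classes in the kernel of two of the
Tate-Shafarevich group members. -/
theorem count_general {ι : Type} [Fintype ι]
    (f : ι → (AlgebraicClosure L ≃ₐ[L] AlgebraicClosure L) →
      (V.baseChange (AlgebraicClosure L)).toAffine.Point) (m : ℕ)
    (hfc : ∀ i, IsCocycle L V (f i)) (hfl : ∀ i, IsLocTriv L V (f i))
    (hf2 : ∀ i σ, f i σ + f i σ = 0)
    (hm : ∀ i, (Finset.univ.filter fun j => ∃ D : (V.baseChange (AlgebraicClosure L)).toAffine.Point,
      D + D = 0 ∧ ∀ σ, f j σ - f i σ = act (inv_bc (Ω := AlgebraicClosure L) L V) σ D - D).card ≤ m)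
    (P : Finset V.toAffine.Point) (hP : ∀ X : V.toAffine.Point, ∃ p ∈ P, ∃ S, X = p + (S + S))
    (T : Finset ((AlgebraicClosure L ≃ₐ[L] AlgebraicClosure L) →
      (V.baseChange (AlgebraicClosure L)).toAffine.Point))
    (hT : ∀ f, IsCocycle L V f → IsLocTriv L V f → IsCobound L V (fun σ => f σ + f σ) →
      ∃ t ∈ T, IsCobound L V (fun σ => f σ - t σ)) :
    Fintype.card ι ≤ m * (P.card * T.card) := by
  set iL := inv_bc (Ω := AlgebraicClosure L) L V with hiL
  have hL : V.map (algebraMap L (AlgebraicClosure L)) = V.baseChange (AlgebraicClosure L) := rfl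
  have hcb : ∀ i, ∃ t ∈ T, IsCobound L V (fun σ => f i σ - t σ) := by
    intro i
    apply hT _ (hfc i) (hfl i)
    rw [isCobound_iff]
    exact ⟨0, fun σ => by rw [hf2, map_zero, sub_zero]⟩
  choose t ht hcob using hcb
  choose p hp S hS using hP
  have hfib : ∀ t₀ ∈ Finset.univ.image t,
      (Finset.univ.filter fun i => t i = t₀).card ≤ m * P.card := by
    intro t₀ ht₀
    rw [Finset.mem_image] at ht₀
    obtain ⟨i₀, -, hi₀⟩ := ht₀
    have hR : ∀ i, t i = t₀ → ∃ R : (V.baseChange (AlgebraicClosure L)).toAffine.Point,
        ∀ σ, f i σ - f i₀ σ = act iL σ R - R := by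
      intro i hi
      obtain ⟨Q, hQ⟩ := (isCobound_iff _).mp (hcob i)
      obtain ⟨Q₀, hQ₀⟩ := (isCobound_iff _).mp (hcob i₀)
      refine ⟨Q - Q₀, fun σ => ?_⟩
      have e1 : f i σ - t i σ = act iL σ Q - Q := hQ σ
      have e2 : f i₀ σ - t i₀ σ = act iL σ Q₀ - Q₀ := hQ₀ σ
      rw [hi] at e1
      rw [hi₀] at e2
      rw [map_sub]
      calc f i σ - f i₀ σ = (f i σ - t₀ σ) - (f i₀ σ - t₀ σ) := by abel
        _ = _ := by rw [e1, e2]; abel
    choose! R hR using hR
    have hX : ∀ i, t i = t₀ → ∃ X : V.toAffine.Point,
        pm (algebraMap L (AlgebraicClosure L)) hL X = R i + R i := by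
      intro i hi
      refine pm_descent hL iL _ fun σ => ?_
      have e1 := hR i hi σ
      rw [map_add, ← sub_eq_zero]
      calc act iL σ (R i) + act iL σ (R i) - (R i + R i) =
          (act iL σ (R i) - R i) + (act iL σ (R i) - R i) := by abel
        _ = (f i σ - f i₀ σ) + (f i σ - f i₀ σ) := by rw [← e1]
        _ = (f i σ + f i σ) - (f i₀ σ + f i₀ σ) := by abel
        _ = 0 := by rw [hf2, hf2, sub_zero]
    choose! X hX using hX
    set j₀ := pm (algebraMap L (AlgebraicClosure L)) hL with hj₀
    have hinv : ∀ (σ : AlgebraicClosure L ≃ₐ[L] AlgebraicClosure L) (Y : V.toAffine.Point),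
        act iL σ (j₀ Y) = j₀ Y := by
      intro σ Y
      unfold act
      rw [hj₀, pm_pm]
      exact pm_congr _ _ (fun x => σ.commutes x) _
    have hfib2 : ∀ q ∈ (Finset.univ.filter fun i => t i = t₀).image (fun i => p (X i)),
        ((Finset.univ.filter fun i => t i = t₀).filter fun i => p (X i) = q).card ≤ m := by
      intro q hq
      rw [Finset.mem_image] at hq
      obtain ⟨j, hj, hjq⟩ := hq
      simp only [Finset.mem_filter, Finset.mem_univ, true_and] at hj
      refine (Finset.card_le_card ?_).trans (hm j)
      intro i hi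
      simp only [Finset.mem_filter, Finset.mem_univ, true_and] at hi ⊢
      obtain ⟨hi, hiq⟩ := hi
      refine ⟨R i - R j - j₀ (S (X i) - S (X j)), ?_, fun σ => ?_⟩
      · have e1 := hX i hi
        have e2 := hX j hj
        have e3 : X i - X j = (S (X i) - S (X j)) + (S (X i) - S (X j)) := by
          conv_lhs => rw [hS (X i), hS (X j), hiq, hjq]
          abel
        have e4 := congrArg j₀ e3
        rw [map_sub, map_add, e1, e2] at e4
        calc R i - R j - j₀ (S (X i) - S (X j)) + (R i - R j - j₀ (S (X i) - S (X j))) =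
            (R i + R i - (R j + R j)) - (j₀ (S (X i) - S (X j)) + j₀ (S (X i) - S (X j))) := by abel
          _ = 0 := by rw [e4, sub_self]
      · have e1 := hR i hi σ
        have e2 := hR j hj σ
        rw [map_sub, map_sub, hinv]
        calc f i σ - f j σ = (f i σ - f i₀ σ) - (f j σ - f i₀ σ) := by abel
          _ = _ := by rw [e1, e2]; abel
    refine (Finset.card_le_mul_card_image _ m hfib2).trans (Nat.mul_le_mul_left _ ?_)
    refine Finset.card_le_card ?_
    intro x hx
    rw [Finset.mem_image] at hx
    obtain ⟨i, -, rfl⟩ := hx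
    exact hp _
  have h1 := Finset.card_le_mul_card_image (f := t) Finset.univ (m * P.card) hfib
  rw [Finset.card_univ] at h1
  refine h1.trans ?_
  rw [mul_assoc]
  refine Nat.mul_le_mul_left _ (Nat.mul_le_mul_left _ ?_)
  refine Finset.card_le_card ?_
  intro x hx
  rw [Finset.mem_image] at hx
  obtain ⟨i, -, rfl⟩ := hx
  exact ht i

end

end Pool.Agent.H10
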