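import Pool.Agent.H10.Comp
import Pool.Agent.H10.Semi

/-!
Squares in complete discretely valued fields.
-/

set_option autoImplicit false
set_option linter.style.haveILetI false

open WithZero Topology Filter IsDedekindDomain NumberField

namespace Pool.Agent.H10

section

variable {F : Type*} [Field F] [Valued F (WithZero (Multiplicative ℤ))]

lemma lt_one_le_exp {x : WithZero (Multiplicative ℤ)} (h : x < 1) : x ≤ exp (-1 : ℤ) := by
  by_cases h0 : x = 0
  · rw [h0]; exact zero_le
  · rw [← exp_log h0, ← exp_zero, exp_lt_exp] at h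
    rw [← exp_log h0, exp_le_exp]
    omega

/-- The Newton iteration. -/
def hsq (c : F) : ℕ → F
  | 0 => 0
  | n + 1 => c - (hsq c n) ^ 2

lemma hsq_le {c : F} (hc : Valued.v c < 1) (n : ℕ) : Valued.v (hsq c n) ≤ Valued.v c := by
  induction n with
  | zero => change Valued.v (0 : F) ≤ _; rw [map_zero]; exact zero_le
  | succ n ih =>
    change Valued.v (c - (hsq c n) ^ 2) ≤ _
    refine (Valuation.map_sub _ _ _).trans (max_le le_rfl ?_)
    rw [map_pow, pow_two]
    calc Valued.v (hsq c n) * Valued.v (hsq c n) ≤ Valued.v c * 1 :=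
          mul_le_mul' ih (ih.trans hc.le)
      _ = _ := mul_one _

lemma hsq_succ {c : F} (hc : Valued.v c < 1) (n : ℕ) :
    Valued.v (hsq c (n + 1) - hsq c n) ≤ exp (-((n + 1 : ℕ) : ℤ)) := by
  have hc' := lt_one_le_exp hc
  induction n with
  | zero =>
    change Valued.v ((c - (0 : F) ^ 2) - 0) ≤ _
    have : (c - (0 : F) ^ 2) - 0 = c := by ring
    rw [this]
    exact_mod_cast hc'
  | succ n ih =>
    have e : hsq c (n + 1 + 1) - hsq c (n + 1) =
        -((hsq c (n + 1) - hsq c n) * (hsq c (n + 1) + hsq c n)) := by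
      change (c - (hsq c (n + 1)) ^ 2) - (c - (hsq c n) ^ 2) = _
      ring
    rw [e, Valuation.map_neg, map_mul]
    have h1 : Valued.v (hsq c (n + 1) + hsq c n) ≤ exp (-1 : ℤ) :=
      ((Valuation.map_add _ _ _).trans (max_le (hsq_le hc _) (hsq_le hc _))).trans hc'
    calc Valued.v (hsq c (n + 1) - hsq c n) * Valued.v (hsq c (n + 1) + hsq c n)
        ≤ exp (-((n + 1 : ℕ) : ℤ)) * exp (-1 : ℤ) := mul_le_mul' ih h1
      _ = exp (-((n + 1 + 1 : ℕ) : ℤ)) := by
          rw [← exp_add]; congr 1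

lemma hsq_sub {c : F} (hc : Valued.v c < 1) (n k : ℕ) :
    Valued.v (hsq c (n + k) - hsq c n) ≤ exp (-((n + 1 : ℕ) : ℤ)) := by
  induction k with
  | zero => rw [add_zero, sub_self, map_zero]; exact zero_le
  | succ k ih =>
    have e : hsq c (n + (k + 1)) - hsq c n =
        (hsq c (n + k + 1) - hsq c (n + k)) + (hsq c (n + k) - hsq c n) := by
      rw [← add_assoc]; ring
    rw [e]
    refine (Valuation.map_add _ _ _).trans (max_le ((hsq_succ hc _).trans ?_) ih)
    rw [exp_le_exp]
    push_cast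
    omega

theorem exists_sq_add_self [CompleteSpace F] {c : F} (hc : Valued.v c < 1) :
    ∃ t : F, t ^ 2 + t = c := by
  have hcau : CauchySeq (hsq c) := by
    rw [CauchySeq, Valued.cauchy_iff]
    refine ⟨inferInstance, fun γ => ?_⟩
    obtain ⟨N, hN⟩ := exists_exp_neg_natCast_lt
      (x := MonoidWithZeroHom.ValueGroup₀.embedding γ.1) (by simp)
    refine ⟨hsq c '' Set.Ici N, Filter.image_mem_map (Filter.Ici_mem_atTop N), ?_⟩
    rintro _ ⟨m, hm, rfl⟩ _ ⟨n, hn, rfl⟩
    rw [Valuation.restrict_lt_iff_lt_embedding]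
    refine lt_of_le_of_lt ?_ hN
    have h1 := hsq_sub hc N (m - N)
    have h2 := hsq_sub hc N (n - N)
    rw [Nat.add_sub_cancel' hm] at h1
    rw [Nat.add_sub_cancel' hn] at h2
    have e : hsq c n - hsq c m = (hsq c n - hsq c N) - (hsq c m - hsq c N) := by ring
    rw [e]
    refine (Valuation.map_sub _ _ _).trans (max_le (h2.trans ?_) (h1.trans ?_)) <;>
    · rw [exp_le_exp]; push_cast; omega
  obtain ⟨t, ht⟩ := cauchySeq_tendsto_of_complete hcau
  have h1 : Tendsto (fun n => hsq c (n + 1)) atTop (𝓝 t) := ht.comp (tendsto_add_atTop_nat 1)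
  have h2 : Tendsto (fun n => hsq c (n + 1)) atTop (𝓝 (c - t ^ 2)) := by
    have : (fun n => hsq c (n + 1)) = fun n => c - (hsq c n) ^ 2 := rfl
    rw [this]
    exact tendsto_const_nhds.sub (ht.pow 2)
  refine ⟨t, ?_⟩
  have := tendsto_nhds_unique h1 h2
  linear_combination this

theorem isSquare_one_add [CompleteSpace F] (h20 : (2 : F) ≠ 0) {x : F}
    (hx : Valued.v x < Valued.v (4 : F)) : IsSquare (1 + x) := by
  have h40 : (4 : F) ≠ 0 := by
    have : (4 : F) = 2 * 2 := by norm_num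
    rw [this]; exact mul_ne_zero h20 h20
  have hv : Valued.v (4 : F) ≠ 0 := (Valuation.ne_zero_iff _).mpr h40
  obtain ⟨t, ht⟩ := exists_sq_add_self (c := x / 4) (by
    rw [map_div₀, div_lt_one₀ (zero_lt_iff.mpr hv)]
    exact hx)
  refine ⟨1 + 2 * t, ?_⟩
  have : x = 4 * (t ^ 2 + t) := by rw [ht]; field_simp
  rw [this]; ring

end

end Pool.Agent.H10
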