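import Pool.Agent.H10.GrHen
import Pool.Agent.H93.MQ.FF

/-!
Local solubility at places of good reduction, and units at places of odd residue characteristic.
-/

set_option autoImplicit false
set_option linter.style.haveILetI false

open WithZero

namespace Pool.Agent.H10

section

variable {F : Type*} [Field F] {V : Valuation F (WithZero (Multiplicative ℤ))} {k : Type*} [Field k]
  {ρ : V.integer →+* k}

lemma val_one_of_res (hρ : ∀ x : V.integer, ρ x = 0 ↔ V x < 1) {x : V.integer} (h : ρ x ≠ 0) :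
    V x = 1 := by
  refine le_antisymm x.2 (not_lt.mp fun h1 => h ((hρ x).mpr h1))

lemma isSquare_of_res (hρs : Function.Surjective ρ) (hρ : ∀ x : V.integer, ρ x = 0 ↔ V x < 1)
    (hS : ∀ x : F, V x < 1 → IsSquare (1 + x)) {x : V.integer} (h0 : ρ x ≠ 0)
    (h : IsSquare (ρ x)) : IsSquare (x : F) := by
  obtain ⟨r, hr⟩ := h
  obtain ⟨s, rfl⟩ := hρs r
  have hs0 : ρ s ≠ 0 := by
    intro h1
    apply h0
    rw [hr, h1, mul_zero]
  have hs : V s = 1 := val_one_of_res hρ hs0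
  have hsF : (s : F) ≠ 0 := by
    intro h1
    rw [h1, map_zero] at hs
    exact zero_ne_one hs
  have h2 : V ((x - s * s : V.integer) : F) < 1 := by
    rw [← hρ, map_sub, map_mul, hr, sub_self]
  have h3 : V (((x : F) - s * s) / (s * s)) < 1 := by
    rw [map_div₀, map_mul, hs, mul_one, div_one]
    exact h2
  obtain ⟨t, ht⟩ := hS _ h3
  refine ⟨s * t, ?_⟩
  have h4 : (x : F) = (s * s) * (1 + ((x : F) - s * s) / (s * s)) := by
    field_simp
    ring
  rw [h4, ht]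
  ring

/-- Lifting a point of one of the conics. -/
lemma lift_coord (hρs : Function.Surjective ρ) (hρ : ∀ x : V.integer, ρ x = 0 ↔ V x < 1)
    (hS : ∀ x : F, V x < 1 → IsSquare (1 + x)) {d e X : V.integer} (hd : ρ d ≠ 0)
    (hX : X = e ∨ ρ X ≠ ρ e) (h : IsSquare (ρ d * (ρ X - ρ e))) :
    ∃ z : F, (d : F) * z ^ 2 + e = X := by
  rcases hX with rfl | hX
  · exact ⟨0, by ring⟩
  · have h1 : ρ (d * (X - e)) ≠ 0 := by
      rw [map_mul, map_sub]
      exact mul_ne_zero hd (sub_ne_zero.mpr hX)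
    obtain ⟨s, hs⟩ := isSquare_of_res hρs hρ hS h1 (by rw [map_mul, map_sub]; exact h)
    have hd0 : (d : F) ≠ 0 := by
      intro h2
      apply hd
      have : d = 0 := Subtype.ext h2
      rw [this, map_zero]
    refine ⟨s / d, ?_⟩
    have h3 : (d : F) * (X - e) = s * s := hs
    have h4 : (d : F) * (s / d) ^ 2 = X - e := by
      field_simp
      linear_combination -h3
    rw [h4]; ring

theorem cpt_good [Finite k] (hρs : Function.Surjective ρ)
    (hρ : ∀ x : V.integer, ρ x = 0 ↔ V x < 1)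
    (hS : ∀ x : F, V x < 1 → IsSquare (1 + x)) (h2 : (2 : k) ≠ 0)
    {e₁ e₂ e₃ d₁ d₂ d₃ c : V.integer} (h12 : ρ e₁ ≠ ρ e₂) (h13 : ρ e₁ ≠ ρ e₃) (h23 : ρ e₂ ≠ ρ e₃)
    (hd : d₁ * d₂ * d₃ = c ^ 2) (hc : ρ c ≠ 0) :
    CPt (e₁ : F) (e₂ : F) (e₃ : F) (d₁ : F) (d₂ : F) (d₃ : F) := by
  have hd' : ρ d₁ * ρ d₂ * ρ d₃ = (ρ c) ^ 2 := by rw [← map_mul, ← map_mul, hd, map_pow]
  have hprod : ρ d₁ * ρ d₂ * ρ d₃ ≠ 0 := by rw [hd']; exact pow_ne_zero 2 hc
  have n1 : ρ d₁ ≠ 0 := fun h => hprod (by rw [h]; ring)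
  have n2 : ρ d₂ ≠ 0 := fun h => hprod (by rw [h]; ring)
  have n3 : ρ d₃ ≠ 0 := fun h => hprod (by rw [h]; ring)
  have nz : ∀ d : V.integer, ρ d ≠ 0 → (d : F) ≠ 0 := by
    intro d hd h0
    apply hd
    have : d = 0 := Subtype.ext h0
    rw [this, map_zero]
  obtain ⟨z₀, z₁, z₂, z₃, hz, E1, E2⟩ := H93.MQ.ff_sol h2 h12 h13 h23 hd' hc
  by_cases h0 : z₀ = 0
  · subst h0
    have E1' : ρ d₁ * z₁ ^ 2 = ρ d₂ * z₂ ^ 2 := by linear_combination E1
    have E2' : ρ d₁ * z₁ ^ 2 = ρ d₃ * z₃ ^ 2 := by linear_combination E2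
    have hz1 : z₁ ≠ 0 := by
      rintro rfl
      have g2 : z₂ = 0 := by
        have : ρ d₂ * z₂ ^ 2 = 0 := by rw [← E1']; ring
        rcases mul_eq_zero.mp this with h | h
        · exact absurd h n2
        · exact pow_eq_zero_iff two_ne_zero |>.mp h
      have g3 : z₃ = 0 := by
        have : ρ d₃ * z₃ ^ 2 = 0 := by rw [← E2']; ring
        rcases mul_eq_zero.mp this with h | h
        · exact absurd h n3
        · exact pow_eq_zero_iff two_ne_zero |>.mp h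
      subst g2 g3
      simp at hz
    obtain ⟨s, hs⟩ := isSquare_of_res (x := d₁ * d₂) hρs hρ hS
      (by rw [map_mul]; exact mul_ne_zero n1 n2)
      (by
        rw [map_mul]
        refine ⟨ρ d₂ * z₂ / z₁, ?_⟩
        field_simp
        linear_combination E1')
    obtain ⟨t, ht⟩ := isSquare_of_res (x := d₁ * d₃) hρs hρ hS
      (by rw [map_mul]; exact mul_ne_zero n1 n3)
      (by
        rw [map_mul]
        refine ⟨ρ d₃ * z₃ / z₁, ?_⟩
        field_simp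
        linear_combination E2')
    have hs' : (d₁ : F) * d₂ = s * s := hs
    have ht' : (d₁ : F) * d₃ = t * t := ht
    have m2 := nz _ n2
    have m3 := nz _ n3
    refine ⟨0, 1, s / d₂, t / d₃, Or.inr (Or.inl one_ne_zero), ?_, ?_⟩
    · field_simp
      linear_combination hs'
    · field_simp
      linear_combination ht'
  · set x : k := (ρ d₁ * z₁ ^ 2 + ρ e₁ * z₀ ^ 2) / z₀ ^ 2 with hx
    have x1 : ρ d₁ * (x - ρ e₁) = (ρ d₁ * z₁ / z₀) * (ρ d₁ * z₁ / z₀) := by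
      rw [hx]; field_simp; ring
    have x2 : ρ d₂ * (x - ρ e₂) = (ρ d₂ * z₂ / z₀) * (ρ d₂ * z₂ / z₀) := by
      rw [hx, E1]; field_simp; ring
    have x3 : ρ d₃ * (x - ρ e₃) = (ρ d₃ * z₃ / z₀) * (ρ d₃ * z₃ / z₀) := by
      rw [hx, E2]; field_simp; ring
    obtain ⟨X, hX, g1, g2, g3⟩ : ∃ X : V.integer, ρ X = x ∧ (X = e₁ ∨ ρ X ≠ ρ e₁) ∧
        (X = e₂ ∨ ρ X ≠ ρ e₂) ∧ (X = e₃ ∨ ρ X ≠ ρ e₃) := by
      by_cases k1 : x = ρ e₁
      · exact ⟨e₁, k1.symm, Or.inl rfl, Or.inr h12, Or.inr h13⟩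
      by_cases k2 : x = ρ e₂
      · exact ⟨e₂, k2.symm, Or.inr h12.symm, Or.inl rfl, Or.inr h23⟩
      by_cases k3 : x = ρ e₃
      · exact ⟨e₃, k3.symm, Or.inr h13.symm, Or.inr h23.symm, Or.inl rfl⟩
      obtain ⟨X, hX⟩ := hρs x
      exact ⟨X, hX, Or.inr (by rw [hX]; exact k1), Or.inr (by rw [hX]; exact k2),
        Or.inr (by rw [hX]; exact k3)⟩
    obtain ⟨w₁, W1⟩ := lift_coord hρs hρ hS n1 g1 (by rw [hX]; exact ⟨_, x1⟩)
    obtain ⟨w₂, W2⟩ := lift_coord hρs hρ hS n2 g2 (by rw [hX]; exact ⟨_, x2⟩)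
    obtain ⟨w₃, W3⟩ := lift_coord hρs hρ hS n3 g3 (by rw [hX]; exact ⟨_, x3⟩)
    refine ⟨1, w₁, w₂, w₃, Or.inl one_ne_zero, ?_, ?_⟩
    · linear_combination W1 - W2
    · linear_combination W1 - W3

/-- Among three units two have a product which is a square. -/
theorem units_odd [Finite k] (hρs : Function.Surjective ρ)
    (hρ : ∀ x : V.integer, ρ x = 0 ↔ V x < 1)
    (hS : ∀ x : F, V x < 1 → IsSquare (1 + x)) (h2 : (2 : k) ≠ 0) {x y : V.integer}
    (hx : ρ x ≠ 0) (hy : ρ y ≠ 0) (nx : ¬ IsSquare (x : F)) (ny : ¬ IsSquare (y : F)) :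
    IsSquare ((x : F) * y) := by
  classical
  have := Fintype.ofFinite k
  have hF := H93.MQ.FF_ringChar h2
  have nx' : ¬ IsSquare (ρ x) := fun h => nx (isSquare_of_res hρs hρ hS hx h)
  have ny' : ¬ IsSquare (ρ y) := fun h => ny (isSquare_of_res hρs hρ hS hy h)
  have h1 : IsSquare (ρ x * ρ y) := by
    rw [← quadraticChar_one_iff_isSquare (mul_ne_zero hx hy), map_mul,
      quadraticChar_neg_one_iff_not_isSquare.mpr nx', quadraticChar_neg_one_iff_not_isSquare.mpr ny']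
    norm_num
  exact isSquare_of_res (x := x * y) hρs hρ hS (by rw [map_mul]; exact mul_ne_zero hx hy)
    (by rw [map_mul]; exact h1)

end

end Pool.Agent.H10
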