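import Pool.Agent.H10.GrTwoB
import Pool.Agent.H10.Star
import Pool.Agent.H11.LocFin

/-!
Local solubility of unit classes at the places of a number field.
-/

set_option autoImplicit false
set_option linter.style.haveILetI false
open scoped Classical

open WithZero NumberField IsDedekindDomain

namespace Pool.Agent.H10

section

variable {L : Type} [Field L] [NumberField L] (w : HeightOneSpectrum (𝓞 L))

theorem exists_resid : ∃ (k : Type) (_ : Field k) (_ : Finite k)
    (ρ : (Valued.v : Valuation (w.adicCompletion L) (WithZero (Multiplicative ℤ))).integer →+* k),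
    Function.Surjective ρ ∧
    ∀ x : (Valued.v : Valuation (w.adicCompletion L) (WithZero (Multiplicative ℤ))).integer,
      ρ x = 0 ↔ Valued.v (x : w.adicCompletion L) < 1 := by
  let O := w.adicCompletionIntegers L
  let e : (Valued.v : Valuation (w.adicCompletion L) (WithZero (Multiplicative ℤ))).integer →+* O :=
    { toFun := fun x => ⟨x.1, x.2⟩
      map_one' := rfl
      map_mul' := fun _ _ => rfl
      map_zero' := rfl
      map_add' := fun _ _ => rfl }
  have hfin : Finite (IsLocalRing.ResidueField O) := by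
    apply (H11.finQuot w).finiteQuotient
    exact IsDiscreteValuationRing.not_a_field O
  refine ⟨IsLocalRing.ResidueField O, inferInstance, hfin, (IsLocalRing.residue O).comp e, ?_, ?_⟩
  · intro y
    obtain ⟨x, rfl⟩ := IsLocalRing.residue_surjective y
    exact ⟨⟨x.1, x.2⟩, rfl⟩
  · intro x
    rw [RingHom.comp_apply, IsLocalRing.residue_eq_zero_iff]
    exact Valuation.mem_maximalIdeal_iff _ _


lemma unit_valued (u : (𝓞 L)ˣ) :
    Valued.v (algebraMap L (w.adicCompletion L) ((u : 𝓞 L) : L)) = 1 := by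
  rw [valued_algebraMap]
  exact unit_val u w

lemma val_two_one (h2 : (2 : 𝓞 L) ∉ w.asIdeal) : Valued.v (2 : w.adicCompletion L) = 1 := by
  rw [valued_ofNat w 2]
  have := val_eq_one_of_notMem h2
  have e2 : ((2 : 𝓞 L) : L) = 2 := map_ofNat (algebraMap (𝓞 L) L) 2
  rwa [e2] at this

lemma hS_odd (h2 : (2 : 𝓞 L) ∉ w.asIdeal) (x : w.adicCompletion L) (hx : Valued.v x < 1) :
    IsSquare (1 + x) := by
  apply isSquare_one_add two_ne_zero
  have e4 : (4 : w.adicCompletion L) = 2 * 2 := by norm_num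
  rw [e4, map_mul, val_two_one w h2, mul_one]
  exact hx

lemma res_two {k : Type} [Field k]
    {ρ : (Valued.v : Valuation (w.adicCompletion L) (WithZero (Multiplicative ℤ))).integer →+* k}
    (hρ : ∀ x : (Valued.v : Valuation (w.adicCompletion L) (WithZero (Multiplicative ℤ))).integer,
      ρ x = 0 ↔ Valued.v (x : w.adicCompletion L) < 1) (h2 : (2 : 𝓞 L) ∉ w.asIdeal) :
    (2 : k) ≠ 0 := by
  intro h
  have h1 : ρ 2 = 0 := by rw [map_ofNat]; exact h
  rw [hρ] at h1
  have e : (((2 : (Valued.v : Valuation (w.adicCompletion L)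
    (WithZero (Multiplicative ℤ))).integer) : w.adicCompletion L)) = 2 := rfl
  rw [e, val_two_one w h2] at h1
  exact lt_irrefl _ h1

/-- Unit classes are soluble at the places of good reduction. -/
theorem unit_good {a b : ℤ} (hw : ((2 * a * b * (b - a) : ℤ) : 𝓞 L) ∉ w.asIdeal) (u : (𝓞 L)ˣ) :
    CPt (0 : w.adicCompletion L) (a : w.adicCompletion L) (b : w.adicCompletion L) 1
      (algebraMap L (w.adicCompletion L) ((u : 𝓞 L) : L))
      (algebraMap L (w.adicCompletion L) ((u : 𝓞 L) : L)) := by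
  obtain ⟨k, _, _, ρ, hρs, hρ⟩ := exists_resid w
  have h2 : (2 : 𝓞 L) ∉ w.asIdeal := fun h => hw (by
    push_cast
    exact Ideal.mul_mem_right _ _ (Ideal.mul_mem_right _ _ (Ideal.mul_mem_right _ _ h)))
  have nA : (a : 𝓞 L) ∉ w.asIdeal := fun h => hw (by
    push_cast
    exact Ideal.mul_mem_right _ _ (Ideal.mul_mem_right _ _ (Ideal.mul_mem_left _ _ h)))
  have nB : (b : 𝓞 L) ∉ w.asIdeal := fun h => hw (by
    push_cast
    exact Ideal.mul_mem_right _ _ (Ideal.mul_mem_left _ _ h))
  have nC : ((b - a : ℤ) : 𝓞 L) ∉ w.asIdeal := fun h => hw (by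
    push_cast at h ⊢
    exact Ideal.mul_mem_left _ _ h)
  let V : Valuation (w.adicCompletion L) (WithZero (Multiplicative ℤ)) := Valued.v
  have vi : ∀ n : ℤ, V (n : w.adicCompletion L) = w.valuation L (n : L) := by
    intro n
    rw [← map_intCast (algebraMap L (w.adicCompletion L)) n]
    exact valued_algebraMap w _
  have hint : ∀ n : ℤ, (n : 𝓞 L) ∉ w.asIdeal → ρ (n : V.integer) ≠ 0 := by
    intro n hn h
    rw [hρ] at h
    have e : (((n : V.integer)) : w.adicCompletion L) = (n : w.adicCompletion L) := by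
      exact map_intCast (V.integer.subtype) n
    rw [e] at h
    have h3 := vi n
    rw [intCast_val w hn] at h3
    exact absurd h3 h.ne
  let U : V.integer := ⟨algebraMap L (w.adicCompletion L) ((u : 𝓞 L) : L), (unit_valued w u).le⟩
  have hU : ρ U ≠ 0 := by
    intro h
    rw [hρ] at h
    exact absurd (unit_valued w u) h.ne
  have key := cpt_good (V := V) (ρ := ρ) hρs hρ (hS_odd w h2) (res_two w hρ h2) (e₁ := 0)
    (e₂ := (a : V.integer)) (e₃ := (b : V.integer)) (d₁ := 1) (d₂ := U) (d₃ := U) (c := U)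
    (by rw [map_zero]; exact (hint a nA).symm) (by rw [map_zero]; exact (hint b nB).symm)
    (by
      intro h
      apply hint (b - a) nC
      rw [Int.cast_sub, map_sub, h, sub_self])
    (by ring) hU
  have e : ∀ n : ℤ, (((n : V.integer)) : w.adicCompletion L) = (n : w.adicCompletion L) :=
    fun n => map_intCast (V.integer.subtype) n
  rw [e, e] at key
  exact key

lemma CPt.of_isSquare {K : Type*} [Field K] {a b x : K} (h : IsSquare x) :
    CPt 0 a b 1 x x := by
  obtain ⟨s, hs⟩ := h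
  refine ⟨0, s, 1, 1, Or.inr (Or.inr (Or.inl one_ne_zero)), ?_, ?_⟩
  · rw [hs]; ring
  · rw [hs]; ring

/-- Unit classes at odd places. -/
theorem unit_odd (h2 : (2 : 𝓞 L) ∉ w.asIdeal) (a b : w.adicCompletion L) (u : Fin 9 → (𝓞 L)ˣ) :
    ∃ i j, i ≠ j ∧ CPt 0 a b 1
      (algebraMap L (w.adicCompletion L) ((u i : 𝓞 L) : L) *
        algebraMap L (w.adicCompletion L) ((u j : 𝓞 L) : L))
      (algebraMap L (w.adicCompletion L) ((u i : 𝓞 L) : L) *
        algebraMap L (w.adicCompletion L) ((u j : 𝓞 L) : L)) := by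
  obtain ⟨k, _, _, ρ, hρs, hρ⟩ := exists_resid w
  let V : Valuation (w.adicCompletion L) (WithZero (Multiplicative ℤ)) := Valued.v
  let U : Fin 9 → V.integer := fun i =>
    ⟨algebraMap L (w.adicCompletion L) ((u i : 𝓞 L) : L), (unit_valued w (u i)).le⟩
  have hU : ∀ i, ρ (U i) ≠ 0 := by
    intro i h
    rw [hρ] at h
    exact absurd (unit_valued w (u i)) h.ne
  have hp : ∀ i j, ¬ IsSquare (U i : w.adicCompletion L) → ¬ IsSquare (U j : w.adicCompletion L) →
      IsSquare ((U i : w.adicCompletion L) * U j) := fun i j hi hj =>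
    units_odd (V := V) (ρ := ρ) hρs hρ (hS_odd w h2) (res_two w hρ h2) (hU i) (hU j) hi hj
  have key : ∃ i j : Fin 9, i ≠ j ∧ IsSquare ((U i : w.adicCompletion L) * U j) := by
    by_cases h0 : IsSquare (U 0 : w.adicCompletion L)
    · by_cases h1 : IsSquare (U 1 : w.adicCompletion L)
      · exact ⟨0, 1, by decide, h0.mul h1⟩
      · by_cases h3 : IsSquare (U 2 : w.adicCompletion L)
        · exact ⟨0, 2, by decide, h0.mul h3⟩
        · exact ⟨1, 2, by decide, hp 1 2 h1 h3⟩
    · by_cases h1 : IsSquare (U 1 : w.adicCompletion L)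
      · by_cases h3 : IsSquare (U 2 : w.adicCompletion L)
        · exact ⟨1, 2, by decide, h1.mul h3⟩
        · exact ⟨0, 2, by decide, hp 0 2 h0 h3⟩
      · exact ⟨0, 1, by decide, hp 0 1 h0 h1⟩
  obtain ⟨i, j, hij, h⟩ := key
  exact ⟨i, j, hij, CPt.of_isSquare h⟩

lemma CPt.unscale {k : Type*} [Field k] {a b d : k} {r : k} (hr : r ≠ 0)
    (H : CPt 0 a b 1 d d) : CPt 0 (r ^ 2 * a) (r ^ 2 * b) 1 d d := by
  obtain ⟨z₀, z₁, z₂, z₃, hz, E1, E2⟩ := H
  refine ⟨z₀ / r, z₁, z₂, z₃, ?_, ?_, ?_⟩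
  · rcases hz with h | h
    · exact Or.inl (div_ne_zero h hr)
    · exact Or.inr h
  · have : r ^ 2 * a * (z₀ / r) ^ 2 = a * z₀ ^ 2 := by field_simp
    rw [this]
    linear_combination E1
  · have : r ^ 2 * b * (z₀ / r) ^ 2 = b * z₀ ^ 2 := by field_simp
    rw [this]
    linear_combination E2

/-- When the condition at two fails. -/
theorem not_star_nrm {a b : ℤ} (ha : a ≠ 0) (hb : b ≠ 0) (hab : a ≠ b) (h : ¬ StarTwo a b) :
    ∃ (i : ℕ) (a' b' : ℤ), a = 4 ^ i * a' ∧ b = 4 ^ i * b' ∧ NrmC a' b' := by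
  unfold StarTwo at h
  rw [not_or, not_not, not_and] at h
  obtain ⟨hv, h⟩ := h
  obtain ⟨A, hA, eA⟩ := odd_part ha
  obtain ⟨B, hB, eB⟩ := odd_part hb
  rw [← hv] at eB
  rcases Nat.even_or_odd' (padicValInt 2 a) with ⟨i, hi | hi⟩
  · have h' := h (by rw [hi]; exact even_two_mul i)
    have h4 : (2 : ℤ) ^ (2 * i) = 4 ^ i := by rw [pow_mul]; norm_num
    rw [hi] at eA eB h'
    rw [h4] at eA eB
    refine ⟨i, A, B, eA, eB, ?_⟩
    have key : (B - A) % 4 = 0 := by
      by_contra hne
      have h2 : (B - A) % 4 = 2 := by omega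
      apply h'
      have h20 : (2 : ℤ) ≠ 0 := by norm_num
      obtain ⟨C, hC⟩ : ∃ C : ℤ, B - A = 2 * C := ⟨(B - A) / 2, by omega⟩
      have hCo : C % 2 = 1 := by omega
      have e : b - a = 2 ^ (2 * i + 1) * C := by
        rw [eA, eB, pow_succ, h4]
        linear_combination (4 ^ i : ℤ) * hC
      have hC0 : C ≠ 0 := by omega
      haveI : Fact (Nat.Prime 2) := ⟨Nat.prime_two⟩
      rw [e, padicValInt.mul (pow_ne_zero _ h20) hC0]
      have e1 : padicValInt 2 ((2 : ℤ) ^ (2 * i + 1)) = 2 * i + 1 := by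
        unfold padicValInt
        rw [Int.natAbs_pow]
        exact padicValNat.prime_pow _
      have e2 : padicValInt 2 C = 0 := by
        apply padicValInt.eq_zero_of_not_dvd
        intro hd
        have : (2 : ℤ) ∣ C := by exact_mod_cast hd
        omega
      rw [e1, e2]
    unfold NrmC
    omega
  · have h4 : (2 : ℤ) ^ (2 * i) = 4 ^ i := by rw [pow_mul]; norm_num
    rw [hi, pow_succ, h4] at eA eB
    refine ⟨i, 2 * A, 2 * B, by rw [eA]; ring, by rw [eB]; ring, Or.inl ⟨by omega, by omega⟩⟩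

/-- Unit classes at the places above two. -/
theorem unit_two {a b : ℤ} (ha : a ≠ 0) (hb : b ≠ 0) (hab : a ≠ b) (h : ¬ StarTwo a b)
    (h2 : (2 : 𝓞 L) ∈ w.asIdeal) (h2' : (2 : 𝓞 L) ∉ w.asIdeal ^ 2) (u : Fin 9 → (𝓞 L)ˣ) :
    ∃ i j, i ≠ j ∧ CPt (0 : w.adicCompletion L) (a : w.adicCompletion L) (b : w.adicCompletion L) 1
      (algebraMap L (w.adicCompletion L) ((u i : 𝓞 L) : L) *
        algebraMap L (w.adicCompletion L) ((u j : 𝓞 L) : L))
      (algebraMap L (w.adicCompletion L) ((u i : 𝓞 L) : L) *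
        algebraMap L (w.adicCompletion L) ((u j : 𝓞 L) : L)) := by
  obtain ⟨i, a', b', ea, eb, hn⟩ := not_star_nrm ha hb hab h
  obtain ⟨k, _, _, ρ, hρs, hρ⟩ := exists_resid w
  let V : Valuation (w.adicCompletion L) (WithZero (Multiplicative ℤ)) := Valued.v
  have v2 : V (2 : w.adicCompletion L) = exp (-1 : ℤ) := by
    change Valued.v (2 : w.adicCompletion L) = _
    rw [valued_ofNat w 2]
    exact val_two_of_unram h2 h2'
  have hH : ∀ x : w.adicCompletion L, V x ≤ exp (-3 : ℤ) → IsSquare (1 + x) := by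
    intro x hx
    apply isSquare_one_add two_ne_zero
    refine lt_of_le_of_lt hx ?_
    have := V_four v2
    change _ < V 4
    rw [this, exp_lt_exp]
    norm_num
  have hch := charP_two v2 hρ
  have hroot : ∀ Z : w.adicCompletion L, V Z ≤ 1 → ∃ v : w.adicCompletion L, V v ≤ 1 ∧
      V (v ^ 2 - Z) < 1 := by
    intro Z hZ
    obtain ⟨r, hr⟩ := FiniteField.isSquare_of_char_two (ringChar.eq k 2) (ρ ⟨Z, hZ⟩)
    obtain ⟨s, rfl⟩ := hρs r
    refine ⟨s, s.2, ?_⟩
    have : V ((s ^ 2 - ⟨Z, hZ⟩ : V.integer) : w.adicCompletion L) < 1 := by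
      rw [← hρ, map_sub, map_pow, hr, pow_two, sub_self]
    exact this
  have hsol : ∀ Z : w.adicCompletion L, V Z ≤ 1 →
      TwoSol V (a' : w.adicCompletion L) (b' : w.adicCompletion L) (Z ^ 4 + Z) :=
    fun Z hZ => two_delta v2 hH hroot hn hZ
  have ha' : a' ≠ 0 := by
    rintro rfl
    exact ha (by rw [ea, mul_zero])
  have hb' : b' ≠ 0 := by
    rintro rfl
    exact hb (by rw [eb, mul_zero])
  have hab' : a' ≠ b' := by
    rintro rfl
    exact hab (by rw [ea, eb])
  obtain ⟨p, q, hpq, hC⟩ := two_pigeon (V := V) v2 hρs hρ hH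
    (a := (a' : w.adicCompletion L)) (b := (b' : w.adicCompletion L))
    (by exact_mod_cast ha') (by exact_mod_cast hb') (by exact_mod_cast hab') hsol
    (fun i => algebraMap L (w.adicCompletion L) ((u i : 𝓞 L) : L)) (fun i => unit_valued w (u i))
  refine ⟨p, q, hpq, ?_⟩
  have h20 : ((2 : w.adicCompletion L)) ^ i ≠ 0 := pow_ne_zero _ two_ne_zero
  have p4 : ((2 : w.adicCompletion L) ^ i) ^ 2 = 4 ^ i := by
    rw [← pow_mul, mul_comm, pow_mul]; norm_num
  have e5 : ((2 : w.adicCompletion L) ^ i) ^ 2 * (a' : w.adicCompletion L) =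
      (a : w.adicCompletion L) := by
    rw [p4, ea]; push_cast; ring
  have e6 : ((2 : w.adicCompletion L) ^ i) ^ 2 * (b' : w.adicCompletion L) =
      (b : w.adicCompletion L) := by
    rw [p4, eb]; push_cast; ring
  rw [← e5, ← e6]
  exact hC.unscale h20

/-- Unit classes at the real places. -/
theorem unit_real [IsTotallyReal L] {a b : ℤ} (ha : 0 < a) (hb : 0 < b) (v : InfinitePlace L)
    {x : L} (hx : x ≠ 0) :
    CPt (0 : v.Completion) (a : v.Completion) (b : v.Completion) 1
      (algebraMap L v.Completion x) (algebraMap L v.Completion x) := by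
  have hv : v.IsReal := IsTotallyReal.isReal v
  let e := InfinitePlace.Completion.ringEquivRealOfIsReal hv
  set y : v.Completion := algebraMap L v.Completion x with hy
  have hy0 : e y ≠ 0 := by
    rw [Ne, EmbeddingLike.map_eq_zero_iff, hy, map_eq_zero]
    exact hx
  have ha' : (0 : ℝ) < a := by exact_mod_cast ha
  have hb' : (0 : ℝ) < b := by exact_mod_cast hb
  have key : CPt (0 : ℝ) (a : ℝ) (b : ℝ) 1 (e y) (e y) := by
    rcases lt_or_gt_of_ne hy0 with h | h
    · refine ⟨1, 0, Real.sqrt (a / (-(e y))), Real.sqrt (b / (-(e y))), Or.inl one_ne_zero, ?_, ?_⟩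
      · rw [Real.sq_sqrt (div_nonneg ha'.le (by linarith))]
        field_simp
        ring
      · rw [Real.sq_sqrt (div_nonneg hb'.le (by linarith))]
        field_simp
        ring
    · exact CPt.of_isSquare ⟨Real.sqrt (e y), (Real.mul_self_sqrt h.le).symm⟩
  have key2 := key.map e.symm.toRingHom
  have e1 : ∀ n : ℤ, e.symm.toRingHom (n : ℝ) = (n : v.Completion) := fun n => map_intCast _ n
  have e2 : e.symm.toRingHom (e y) = y := e.symm_apply_apply y
  rw [e1, e1, e2, map_zero, map_one] at key2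
  exact key2

end

end Pool.Agent.H10
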