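import Pool.Agent.H10.RealPl

/-!
Everywhere locally soluble triples.
-/

set_option autoImplicit false

open IsDedekindDomain NumberField

namespace Pool.Agent.H10

/-- The triple `(d₁, d₂, d₃)` is soluble at all finite places. -/
def FinSol (K : Type*) [Field K] [NumberField K] (e₁ e₂ e₃ d₁ d₂ d₃ : K) : Prop :=
  ∀ v : HeightOneSpectrum (𝓞 K),
    CPt (algebraMap K (v.adicCompletion K) e₁) (algebraMap K (v.adicCompletion K) e₂)
      (algebraMap K (v.adicCompletion K) e₃) (algebraMap K (v.adicCompletion K) d₁)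
      (algebraMap K (v.adicCompletion K) d₂) (algebraMap K (v.adicCompletion K) d₃)

/-- The triple `(d₁, d₂, d₃)` is soluble at all infinite places. -/
def InfSol (K : Type*) [Field K] [NumberField K] (e₁ e₂ e₃ d₁ d₂ d₃ : K) : Prop :=
  ∀ v : InfinitePlace K,
    CPt (algebraMap K v.Completion e₁) (algebraMap K v.Completion e₂)
      (algebraMap K v.Completion e₃) (algebraMap K v.Completion d₁)
      (algebraMap K v.Completion d₂) (algebraMap K v.Completion d₃)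

lemma CPt.congr {k : Type*} [Field k] {e₁ e₂ e₃ d₁ d₂ d₃ d₁' d₂' d₃' s₁ s₂ s₃ : k} (h1 : s₁ ≠ 0)
    (h2 : s₂ ≠ 0) (h3 : s₃ ≠ 0) (H : CPt e₁ e₂ e₃ d₁ d₂ d₃) (g1 : d₁' = d₁ * s₁ ^ 2)
    (g2 : d₂' = d₂ * s₂ ^ 2) (g3 : d₃' = d₃ * s₃ ^ 2) : CPt e₁ e₂ e₃ d₁' d₂' d₃' := by
  rw [g1, g2, g3]
  exact H.sq_mul h1 h2 h3

end Pool.Agent.H10
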