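import Pool.Agent.H10.StarLoc
import Pool.Agent.H10.SelDef

/-!
Many soluble classes at a place above two.
-/

set_option autoImplicit false
set_option linter.style.haveILetI false

open WithZero

namespace Pool.Agent.H10

section

variable {F : Type*} [Field F] {V : Valuation F (WithZero (Multiplicative ℤ))}

lemma V_four_mul (h2 : V 2 = exp (-1 : ℤ)) {x : F} (h : V x < 1) :
    V (4 * x) ≤ exp (-3 : ℤ) := by
  rw [map_mul, V_four h2]
  calc exp (-2 : ℤ) * V x ≤ exp (-2 : ℤ) * exp (-1 : ℤ) := mul_le_mul' le_rfl (le_exp_neg_one h)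
    _ = exp (-3 : ℤ) := by rw [← exp_add]; norm_num

lemma V_four_mul_le (h2 : V 2 = exp (-1 : ℤ)) {x : F} (h : V x ≤ 1) :
    V (4 * x) ≤ exp (-2 : ℤ) := by
  rw [map_mul, V_four h2]
  exact mul_le_of_le_one_right' h

lemma ne_zero_of_V {x : F} (h : V x = 1) : x ≠ 0 := by
  rintro rfl
  rw [map_zero] at h
  exact zero_ne_one h

lemma V_pow_le {x : F} (h : V x ≤ 1) (n : ℕ) : V (x ^ n) ≤ 1 := by
  rw [map_pow]; exact pow_le_one₀ zero_le h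

lemma V_pow_lt {x : F} (h : V x < 1) {n : ℕ} (hn : n ≠ 0) : V (x ^ n) < 1 := by
  rw [map_pow]; exact pow_lt_one₀ zero_le h hn

lemma sq_four (h2 : V 2 = exp (-1 : ℤ)) (hH : ∀ x : F, V x ≤ exp (-3 : ℤ) → IsSquare (1 + x))
    {m w : F} (hw : V w ≤ 1) (h : V (m - (w ^ 2 + w)) < 1) : IsSquare (1 + 4 * m) := by
  have hu : V (1 + 2 * w) = 1 := Valuation.map_one_add_of_lt V (V_two_mul_lt h2 hw)
  have hu0 := ne_zero_of_V hu
  obtain ⟨s, hs⟩ := hH (4 * (m - (w ^ 2 + w)) / (1 + 2 * w) ^ 2) (by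
    rw [map_div₀, map_pow, hu, one_pow, div_one]
    exact V_four_mul h2 h)
  refine ⟨(1 + 2 * w) * s, ?_⟩
  have e : (1 + 2 * w) * s * ((1 + 2 * w) * s) = (1 + 2 * w) ^ 2 * (s * s) := by ring
  rw [e, ← hs]
  field_simp
  ring

lemma two_core (h2 : V 2 = exp (-1 : ℤ))
    (hH : ∀ x : F, V x ≤ exp (-3 : ℤ) → IsSquare (1 + x)) {a b z s : F} {c : ℤ} (hz : V z ≤ 1)
    (hab : a - b = 4 * c) (hδ : V ((s ^ 2 - a) * (z ^ 2 + z) ^ 2 - 1) < 1)
    (hy : V (z ^ 2 + z) = 1) :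
    s ^ 2 - a ≠ 0 ∧ CPt 0 a b 1 (s ^ 2 - a) (s ^ 2 - a) := by
  set y := z ^ 2 + z with hyd
  set δ := s ^ 2 - a with hδd
  have h1 : V (δ * y ^ 2) = 1 := by
    have e : δ * y ^ 2 = 1 + (δ * y ^ 2 - 1) := by ring
    rw [e]
    exact Valuation.map_one_add_of_lt V hδ
  have h3 : V δ = 1 := by
    rw [map_mul, map_pow, hy, one_pow, mul_one] at h1
    exact h1
  have hδ0 : δ ≠ 0 := ne_zero_of_V h3
  have hsq : IsSquare (1 + 4 * ((c : F) / δ)) := by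
    rcases Int.even_or_odd' c with ⟨j, hj | hj⟩
    · refine sq_four h2 hH (w := 0) (by rw [map_zero]; exact zero_le) ?_
      have e : (c : F) / δ - (0 ^ 2 + 0) = 2 * ((j : F) / δ) := by
        rw [hj]; push_cast; ring
      rw [e]
      apply V_two_mul_lt h2
      rw [map_div₀, h3, div_one]
      exact V_int j
    · refine sq_four h2 hH (w := z ^ 2) (V_pow_le hz 2) ?_
      have e : (c : F) / δ - ((z ^ 2) ^ 2 + z ^ 2) =
          2 * ((j : F) / δ) - (δ * y ^ 2 - 1) / δ + 2 * z ^ 3 := by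
        rw [hj, hyd]; push_cast; field_simp; ring
      rw [e]
      refine V_add_lt (V_sub_lt (V_two_mul_lt h2 ?_) ?_) (V_two_mul_lt h2 (V_pow_le hz 3))
      · rw [map_div₀, h3, div_one]
        exact V_int j
      · rw [map_div₀, h3, div_one]
        exact hδ
  obtain ⟨r, hr⟩ := hsq
  refine ⟨hδ0, 1, s, 1, r, Or.inl one_ne_zero, ?_, ?_⟩
  · rw [hδd]; ring
  · have e : δ * r ^ 2 = δ + 4 * c := by
      rw [pow_two, ← hr]; field_simp
    rw [e, hδd]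
    linear_combination hab

/-- The form of the local solutions. -/
def TwoSol (V : Valuation F (WithZero (Multiplicative ℤ))) (a b κ : F) : Prop :=
  ∃ δ t : F, δ ≠ 0 ∧ t ≠ 0 ∧ CPt 0 a b 1 δ δ ∧ V (δ * t ^ 2 - (1 + 2 * κ)) ≤ exp (-2 : ℤ)

lemma TwoSol.congr (h2 : V 2 = exp (-1 : ℤ)) {a b κ κ' : F} (h : V (κ - κ') < 1)
    (H : TwoSol V a b κ) : TwoSol V a b κ' := by
  obtain ⟨δ, t, hδ, ht, hC, hv⟩ := H
  refine ⟨δ, t, hδ, ht, hC, ?_⟩
  have e : δ * t ^ 2 - (1 + 2 * κ') = (δ * t ^ 2 - (1 + 2 * κ)) + 2 * (κ - κ') := by ring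
  rw [e]
  exact V_add_le hv (V_two_mul h2 h)

lemma TwoSol.zero {a b : F} : TwoSol V a b 0 := by
  refine ⟨1, 1, one_ne_zero, one_ne_zero, ⟨0, 1, 1, 1, Or.inr (Or.inl one_ne_zero), ?_, ?_⟩, ?_⟩
  · ring
  · ring
  · have e : (1 : F) * 1 ^ 2 - (1 + 2 * 0) = 0 := by ring
    rw [e, map_zero]
    exact zero_le

/-- Both `a` and `b` are two modulo four. -/
lemma two_a (h2 : V 2 = exp (-1 : ℤ)) (hH : ∀ x : F, V x ≤ exp (-3 : ℤ) → IsSquare (1 + x))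
    {A B : ℤ} (hA : A % 4 = 2) (hB : B % 4 = 2) {z : F} (hz : V z ≤ 1) :
    TwoSol V (A : F) (B : F) ((z ^ 2 + z) ^ 2) := by
  have hy1 : V (z ^ 2 + z) ≤ 1 := V_add_le (V_pow_le hz 2) hz
  rcases hy1.lt_or_eq with hy | hy
  · refine TwoSol.zero.congr h2 ?_
    rw [zero_sub, Valuation.map_neg]
    exact V_pow_lt hy two_ne_zero
  · obtain ⟨j, hj⟩ : ∃ j : ℤ, A = 2 + 4 * j := ⟨A / 4, by omega⟩
    obtain ⟨c, hc⟩ : ∃ c : ℤ, A - B = 4 * c := ⟨(A - B) / 4, by omega⟩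
    set y := z ^ 2 + z with hyd
    have hy0 : y ≠ 0 := ne_zero_of_V hy
    have eA : (A : F) = 2 + 4 * j := by rw [hj]; push_cast; ring
    have e1 : ((1 / y) ^ 2 - (A : F)) * y ^ 2 = 1 - A * y ^ 2 := by field_simp
    have hjy : V ((j : F) * y ^ 2) ≤ 1 := V_mul_le (V_int j) (V_pow_le hy1 2)
    obtain ⟨n0, hC⟩ := two_core h2 hH (a := (A : F)) (b := (B : F)) (z := z) (s := 1 / y) (c := c) hz
      (by have := congrArg (Int.cast : ℤ → F) hc; push_cast at this; exact this)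
      (by
        rw [← hyd, e1]
        have e : (1 : F) - A * y ^ 2 - 1 = -(2 * ((1 + 2 * j) * y ^ 2)) := by rw [eA]; ring
        rw [e, Valuation.map_neg]
        refine V_two_mul_lt h2 (V_mul_le ?_ (V_pow_le hy1 2))
        exact V_add_le (by rw [map_one]) ((V_two_mul_lt h2 (V_int j)).le))
      hy
    refine ⟨_, y, n0, hy0, hC, ?_⟩
    have e : ((1 / y) ^ 2 - (A : F)) * y ^ 2 - (1 + 2 * y ^ 2) = -(4 * (y ^ 2 + j * y ^ 2)) := by
      rw [e1, eA]; ring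
    rw [e, Valuation.map_neg]
    exact V_four_mul_le h2 (V_add_le (V_pow_le hy1 2) hjy)

/-- Both `a` and `b` are one modulo four. -/
lemma two_b (h2 : V 2 = exp (-1 : ℤ)) (hH : ∀ x : F, V x ≤ exp (-3 : ℤ) → IsSquare (1 + x))
    {A B : ℤ} (hA : A % 4 = 1) (hB : B % 4 = 1) {z : F} (hz : V z ≤ 1) :
    TwoSol V (A : F) (B : F) (z ^ 2 + z) := by
  have hy1 : V (z ^ 2 + z) ≤ 1 := V_add_le (V_pow_le hz 2) hz
  rcases hy1.lt_or_eq with hy | hy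
  · refine TwoSol.zero.congr h2 ?_
    rw [zero_sub, Valuation.map_neg]
    exact hy
  · obtain ⟨j, hj⟩ : ∃ j : ℤ, A = 1 + 4 * j := ⟨A / 4, by omega⟩
    obtain ⟨c, hc⟩ : ∃ c : ℤ, A - B = 4 * c := ⟨(A - B) / 4, by omega⟩
    set y := z ^ 2 + z with hyd
    have hy0 : y ≠ 0 := ne_zero_of_V hy
    have eA : (A : F) = 1 + 4 * j := by rw [hj]; push_cast; ring
    have e1 : (((1 + y) / y) ^ 2 - (A : F)) * y ^ 2 = (1 + y) ^ 2 - A * y ^ 2 := by field_simp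
    have hjy : V ((j : F) * y ^ 2) ≤ 1 := V_mul_le (V_int j) (V_pow_le hy1 2)
    obtain ⟨n0, hC⟩ := two_core h2 hH (a := (A : F)) (b := (B : F)) (z := z) (s := (1 + y) / y)
      (c := c) hz
      (by have := congrArg (Int.cast : ℤ → F) hc; push_cast at this; exact this)
      (by
        rw [← hyd, e1]
        have e : (1 + y) ^ 2 - A * y ^ 2 - 1 = 2 * (y - 2 * (j * y ^ 2)) := by rw [eA]; ring
        rw [e]
        exact V_two_mul_lt h2 (V_sub_le hy1 ((V_two_mul_lt h2 hjy).le)))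
      hy
    refine ⟨_, y, n0, hy0, hC, ?_⟩
    have e : (((1 + y) / y) ^ 2 - (A : F)) * y ^ 2 - (1 + 2 * y) = -(4 * (j * y ^ 2)) := by
      rw [e1, eA]; ring
    rw [e, Valuation.map_neg]
    exact V_four_mul_le h2 hjy

/-- Both `a` and `b` are three modulo four. -/
lemma two_c (h2 : V 2 = exp (-1 : ℤ)) (hH : ∀ x : F, V x ≤ exp (-3 : ℤ) → IsSquare (1 + x))
    {A B : ℤ} (hA : A % 4 = 3) (hB : B % 4 = 3) {z : F} (hz : V z ≤ 1) :
    TwoSol V (A : F) (B : F) ((z ^ 2 + z) + (z ^ 2 + z) ^ 2) := by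
  have hy1 : V (z ^ 2 + z) ≤ 1 := V_add_le (V_pow_le hz 2) hz
  rcases hy1.lt_or_eq with hy | hy
  · refine TwoSol.zero.congr h2 ?_
    rw [zero_sub, Valuation.map_neg]
    exact V_add_lt hy (V_pow_lt hy two_ne_zero)
  · obtain ⟨j, hj⟩ : ∃ j : ℤ, A = 3 + 4 * j := ⟨A / 4, by omega⟩
    obtain ⟨c, hc⟩ : ∃ c : ℤ, A - B = 4 * c := ⟨(A - B) / 4, by omega⟩
    set y := z ^ 2 + z with hyd
    have hy0 : y ≠ 0 := ne_zero_of_V hy
    have eA : (A : F) = 3 + 4 * j := by rw [hj]; push_cast; ring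
    have e1 : (((1 + y) / y) ^ 2 - (A : F)) * y ^ 2 = (1 + y) ^ 2 - A * y ^ 2 := by field_simp
    have hy2 := V_pow_le hy1 2
    have hjy : V ((j : F) * y ^ 2) ≤ 1 := V_mul_le (V_int j) hy2
    obtain ⟨n0, hC⟩ := two_core h2 hH (a := (A : F)) (b := (B : F)) (z := z) (s := (1 + y) / y)
      (c := c) hz
      (by have := congrArg (Int.cast : ℤ → F) hc; push_cast at this; exact this)
      (by
        rw [← hyd, e1]
        have e : (1 + y) ^ 2 - A * y ^ 2 - 1 = 2 * ((y - y ^ 2) - 2 * (j * y ^ 2)) := by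
          rw [eA]; ring
        rw [e]
        exact V_two_mul_lt h2 (V_sub_le (V_sub_le hy1 hy2) ((V_two_mul_lt h2 hjy).le)))
      hy
    refine ⟨_, y, n0, hy0, hC, ?_⟩
    have e : (((1 + y) / y) ^ 2 - (A : F)) * y ^ 2 - (1 + 2 * (y + y ^ 2)) =
        -(4 * (y ^ 2 + j * y ^ 2)) := by
      rw [e1, eA]; ring
    rw [e, Valuation.map_neg]
    exact V_four_mul_le h2 (V_add_le hy2 hjy)

/-- The condition opposite to the one in the stability theorem, after scaling. -/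
def NrmC (A B : ℤ) : Prop :=
  (A % 4 = 2 ∧ B % 4 = 2) ∨ (A % 4 = 1 ∧ B % 4 = 1) ∨ (A % 4 = 3 ∧ B % 4 = 3)

theorem two_delta (h2 : V 2 = exp (-1 : ℤ))
    (hH : ∀ x : F, V x ≤ exp (-3 : ℤ) → IsSquare (1 + x))
    (hroot : ∀ Z : F, V Z ≤ 1 → ∃ v : F, V v ≤ 1 ∧ V (v ^ 2 - Z) < 1)
    {A B : ℤ} (h : NrmC A B) {Z : F} (hZ : V Z ≤ 1) : TwoSol V (A : F) (B : F) (Z ^ 4 + Z) := by
  rcases h with ⟨hA, hB⟩ | ⟨hA, hB⟩ | ⟨hA, hB⟩
  · obtain ⟨v, hv, hvZ⟩ := hroot Z hZ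
    have hv2 := V_pow_le hv 2
    refine (two_a h2 hH hA hB (z := v ^ 2 + v) (V_add_le hv2 hv)).congr h2 ?_
    have e : ((v ^ 2 + v) ^ 2 + (v ^ 2 + v)) ^ 2 - (Z ^ 4 + Z) =
        2 * (v ^ 3 * (2 * v ^ 4 + 4 * v ^ 3 + 5 * v ^ 2 + 4 * v + 2)) +
          (v ^ 2 - Z) * ((v ^ 2 + Z) * (v ^ 4 + Z ^ 2) + 1) := by ring
    rw [e]
    have n : ∀ n : ℤ, V (n : F) ≤ 1 := V_int
    have q2 : V (2 : F) ≤ 1 := by exact_mod_cast n 2
    have q4 : V (4 : F) ≤ 1 := by exact_mod_cast n 4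
    have q5 : V (5 : F) ≤ 1 := by exact_mod_cast n 5
    refine V_add_lt (V_two_mul_lt h2 (V_mul_le (V_pow_le hv 3) ?_)) ?_
    · exact V_add_le (V_add_le (V_add_le (V_add_le (V_mul_le q2 (V_pow_le hv 4))
        (V_mul_le q4 (V_pow_le hv 3))) (V_mul_le q5 hv2)) (V_mul_le q4 hv)) q2
    · rw [mul_comm]
      exact V_mul_lt (V_add_le (V_mul_le (V_add_le hv2 hZ) (V_add_le (V_pow_le hv 4)
        (V_pow_le hZ 2))) (by rw [map_one])) hvZ
  · refine (two_b h2 hH hA hB (z := Z ^ 2 + Z) (V_add_le (V_pow_le hZ 2) hZ)).congr h2 ?_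
    have e : (Z ^ 2 + Z) ^ 2 + (Z ^ 2 + Z) - (Z ^ 4 + Z) = 2 * (Z ^ 3 + Z ^ 2) := by ring
    rw [e]
    exact V_two_mul_lt h2 (V_add_le (V_pow_le hZ 3) (V_pow_le hZ 2))
  · refine (two_c h2 hH hA hB (z := Z) hZ).congr h2 ?_
    have e : (Z ^ 2 + Z) + (Z ^ 2 + Z) ^ 2 - (Z ^ 4 + Z) = 2 * (Z ^ 3 + Z ^ 2) := by ring
    rw [e]
    exact V_two_mul_lt h2 (V_add_le (V_pow_le hZ 3) (V_pow_le hZ 2))

end

end Pool.Agent.H10
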