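import Pool.Agent.H10.GrTwo
import Pool.Agent.H10.GrOdd

/-!
The subgroup of soluble units at a place above two has index at most eight.
-/

set_option autoImplicit false
set_option linter.style.haveILetI false

open WithZero Polynomial

namespace Pool.Agent.H10

section add

variable {k : Type*} [Field k] [Finite k] [CharP k 2]

omit [CharP k 2] in
lemma index_range_le {φ : k →+ k} {n : ℕ} (h : Nat.card φ.ker ≤ n) :
    Nat.card (k ⧸ φ.range) ≤ n := by
  have h1 : Nat.card φ.ker * φ.ker.index = Nat.card k := AddSubgroup.card_mul_index _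
  have h2 : φ.ker.index = Nat.card φ.range := AddSubgroup.index_ker φ
  have h3 : Nat.card φ.range * φ.range.index = Nat.card k := AddSubgroup.card_mul_index _
  have h4 : φ.range.index = Nat.card (k ⧸ φ.range) := rfl
  rw [h2, ← h3, mul_comm] at h1
  have h5 : 0 < Nat.card φ.range := Nat.card_pos
  have h6 := Nat.eq_of_mul_eq_mul_left h5 h1
  omega

omit [Finite k] [CharP k 2] in
lemma card_ker_le {φ : k →+ k} {p : k[X]} (hp : p ≠ 0) {n : ℕ} (hn : p.natDegree ≤ n)
    (h : ∀ x, φ x = 0 → p.IsRoot x) : Nat.card φ.ker ≤ n := by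
  classical
  have h1 : (φ.ker : Set k) ⊆ (p.roots.toFinset : Set k) := by
    intro x hx
    rw [Finset.mem_coe, Multiset.mem_toFinset, mem_roots hp]
    exact h x hx
  have h2 : Nat.card φ.ker ≤ p.roots.toFinset.card := by
    have := Nat.card_mono (Finset.finite_toSet _) h1
    rwa [Nat.card_coe_set_eq, Nat.card_coe_set_eq, Set.ncard_coe_finset] at this
  exact h2.trans ((Multiset.toFinset_card_le _).trans ((card_roots' p).trans hn))

/-- The map `x ↦ x ^ (2 ^ n) + x`. -/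
def frobAdd (k : Type*) [Field k] [CharP k 2] (n : ℕ) : k →+ k :=
  (iterateFrobenius k 2 n).toAddMonoidHom + AddMonoidHom.id k

omit [Finite k] in
lemma frobAdd_apply (n : ℕ) (x : k) : frobAdd k n x = x ^ (2 ^ n) + x := rfl

lemma card_frob_two : Nat.card (k ⧸ (frobAdd k 2).range) ≤ 4 := by
  apply index_range_le
  have hdeg : (X ^ 4 + X : k[X]).natDegree = 4 := by compute_degree!
  refine card_ker_le (p := X ^ 4 + X) ?_ hdeg.le ?_
  · intro h
    rw [h, natDegree_zero] at hdeg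
    omega
  · intro x hx
    rw [frobAdd_apply] at hx
    simp only [IsRoot, eval_add, eval_pow, eval_X]
    exact hx

lemma card_frob_one : Nat.card (k ⧸ (frobAdd k 1).range) ≤ 2 := by
  apply index_range_le
  have hdeg : (X ^ 2 + X : k[X]).natDegree = 2 := by compute_degree!
  refine card_ker_le (p := X ^ 2 + X) ?_ hdeg.le ?_
  · intro h
    rw [h, natDegree_zero] at hdeg
    omega
  · intro x hx
    rw [frobAdd_apply] at hx
    simp only [IsRoot, eval_add, eval_pow, eval_X]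
    exact hx

/-- The Artin-Schreier map has image of index at most two. -/
lemma as_add {x y : k} (hx : ¬ ∃ z, z ^ 2 + z = x) (hy : ¬ ∃ z, z ^ 2 + z = y) :
    ∃ z, z ^ 2 + z = x + y := by
  have m : ∀ x : k, x ∈ (frobAdd k 1).range ↔ ∃ z, z ^ 2 + z = x := by
    intro x
    rw [AddMonoidHom.mem_range]
    simp only [frobAdd_apply, pow_one]
  by_contra h
  have h3 : Nat.card (k ⧸ (frobAdd k 1).range) ≤ 2 := card_frob_one
  classical
  have := Fintype.ofFinite (k ⧸ (frobAdd k 1).range)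
  rw [Nat.card_eq_fintype_card] at h3
  have hinj : Function.Injective (![0, (x : k ⧸ (frobAdd k 1).range),
      (y : k ⧸ (frobAdd k 1).range)] : Fin 3 → _) := by
    have e1 : (0 : k ⧸ (frobAdd k 1).range) ≠ x := by
      intro h
      apply hx
      rw [← m]
      exact (QuotientAddGroup.eq_zero_iff x).mp h.symm
    have e2 : (0 : k ⧸ (frobAdd k 1).range) ≠ y := by
      intro h
      apply hy
      rw [← m]
      exact (QuotientAddGroup.eq_zero_iff y).mp h.symm
    have e3 : (x : k ⧸ (frobAdd k 1).range) ≠ y := by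
      intro h'
      apply h
      rw [← m]
      have h4 := (QuotientAddGroup.eq).mp h'
      have h5 : x + y = -x + y := by rw [CharTwo.neg_eq]
      rw [h5]
      exact h4
    intro i j hij
    fin_cases i <;> fin_cases j <;> first | rfl | (exfalso; first | exact e1 hij | exact e1 hij.symm | exact e2 hij | exact e2 hij.symm | exact e3 hij | exact e3 hij.symm)
  have := Fintype.card_le_of_injective _ hinj
  rw [Fintype.card_fin] at this
  omega

end add

section

variable {F : Type*} [Field F] {V : Valuation F (WithZero (Multiplicative ℤ))} {k : Type*} [Field k]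
  [Finite k] {ρ : V.integer →+* k}

omit [Finite k] in
lemma charP_two (h2 : V 2 = exp (-1 : ℤ)) (hρ : ∀ x : V.integer, ρ x = 0 ↔ V x < 1) :
    CharP k 2 := by
  have h : ρ 2 = 0 := by
    rw [hρ]
    have : (((2 : V.integer) : F)) = 2 := rfl
    rw [this, h2]
    exact exp_neg_lt_one
  rw [map_ofNat] at h
  exact CharTwo.of_one_ne_zero_of_two_eq_zero one_ne_zero h

/-- Every unit is, up to squares, congruent to one modulo two. -/
lemma exists_kappa (h2 : V 2 = exp (-1 : ℤ)) (hρs : Function.Surjective ρ)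
    (hρ : ∀ x : V.integer, ρ x = 0 ↔ V x < 1) {u : F} (hu : V u = 1) :
    ∃ (t : F) (κ : V.integer), t ≠ 0 ∧ u * t ^ 2 = 1 + 2 * (κ : F) := by
  have := charP_two h2 hρ
  let U : V.integer := ⟨u, hu.le⟩
  obtain ⟨r, hr⟩ := FiniteField.isSquare_of_char_two (ringChar.eq k 2) (ρ U)
  obtain ⟨s, rfl⟩ := hρs r
  have hU0 : ρ U ≠ 0 := by
    intro h
    have := (hρ U).mp h
    exact absurd hu this.ne
  have hs0 : ρ s ≠ 0 := by
    intro h1
    apply hU0
    rw [hr, h1, mul_zero]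
  have hs : V s = 1 := val_one_of_res hρ hs0
  have hsF : (s : F) ≠ 0 := ne_zero_of_V hs
  have h3 : V ((U - s * s : V.integer) : F) < 1 := by
    rw [← hρ, map_sub, map_mul, hr, sub_self]
  have h3' : V (u - s * s) < 1 := h3
  have h20 : (2 : F) ≠ 0 := by
    intro h
    rw [h, map_zero] at h2
    exact exp_ne_zero h2.symm
  have h4 : V ((u - s * s) / (s * s) / 2) ≤ 1 := by
    rw [map_div₀, map_div₀, map_mul, hs, mul_one, div_one, h2]
    rw [div_le_one₀ (zero_lt_iff.mpr exp_ne_zero)]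
    exact le_exp_neg_one h3'
  refine ⟨1 / s, ⟨_, h4⟩, one_div_ne_zero hsF, ?_⟩
  change u * (1 / (s : F)) ^ 2 = 1 + 2 * ((u - s * s) / (s * s) / 2)
  field_simp
  ring

/-- Among two units congruent to one modulo four which are not squares the product is a square. -/
lemma four_pair (h2 : V 2 = exp (-1 : ℤ)) (hρs : Function.Surjective ρ)
    (hρ : ∀ x : V.integer, ρ x = 0 ↔ V x < 1)
    (hH : ∀ x : F, V x ≤ exp (-3 : ℤ) → IsSquare (1 + x)) {X Y : F}
    (hX : V (X - 1) ≤ exp (-2 : ℤ)) (hY : V (Y - 1) ≤ exp (-2 : ℤ)) :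
    IsSquare X ∨ IsSquare Y ∨ IsSquare (X * Y) := by
  have := charP_two h2 hρ
  have h20 : (2 : F) ≠ 0 := by
    intro h
    rw [h, map_zero] at h2
    exact exp_ne_zero h2.symm
  have h40 : (4 : F) ≠ 0 := by
    have : (4 : F) = 2 * 2 := by norm_num
    rw [this]; exact mul_ne_zero h20 h20
  have q : ∀ X : F, V (X - 1) ≤ exp (-2 : ℤ) → ∃ m : V.integer, X = 1 + 4 * (m : F) := by
    intro X hX
    have h4 : V ((X - 1) / 4) ≤ 1 := by
      rw [map_div₀, V_four h2, div_le_one₀ (zero_lt_iff.mpr exp_ne_zero)]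
      exact hX
    refine ⟨⟨_, h4⟩, ?_⟩
    change X = 1 + 4 * ((X - 1) / 4)
    field_simp
    ring
  have sq : ∀ m : V.integer, (∃ z, z ^ 2 + z = ρ m) → IsSquare (1 + 4 * (m : F)) := by
    rintro m ⟨z, hz⟩
    obtain ⟨w, rfl⟩ := hρs z
    refine sq_four h2 hH (w := (w : F)) w.2 ?_
    have : V ((m - (w ^ 2 + w) : V.integer) : F) < 1 := by
      rw [← hρ, map_sub, map_add, map_pow, hz, sub_self]
    exact this
  obtain ⟨m, rfl⟩ := q X hX
  obtain ⟨n, rfl⟩ := q Y hY
  by_cases hm : ∃ z, z ^ 2 + z = ρ m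
  · exact Or.inl (sq m hm)
  by_cases hn : ∃ z, z ^ 2 + z = ρ n
  · exact Or.inr (Or.inl (sq n hn))
  right; right
  obtain ⟨z, hz⟩ := as_add hm hn
  have h4 : ρ (m + n + 4 * (m * n)) = ρ m + ρ n := by
    rw [map_add, map_add, map_mul, map_ofNat]
    have : (4 : k) = 0 := by
      have h : (4 : k) = 2 * 2 := by norm_num
      rw [h, CharTwo.two_eq_zero, mul_zero]
    rw [this, zero_mul, add_zero]
  have h5 := sq (m + n + 4 * (m * n)) ⟨z, by rw [hz, h4]⟩
  have h6 : (1 + 4 * (m : F)) * (1 + 4 * (n : F)) =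
      1 + 4 * ((m + n + 4 * (m * n) : V.integer) : F) := by
    change _ = 1 + 4 * ((m : F) + n + 4 * (m * n))
    ring
  rw [h6]
  exact h5

lemma CPt.of_mul_square {K : Type*} [Field K] {a b δ x : K} (hδ : δ ≠ 0) (hx : x ≠ 0)
    (H : CPt 0 a b 1 δ δ) (h : IsSquare (x * δ)) : CPt 0 a b 1 x x := by
  obtain ⟨s, hs⟩ := h
  have hs0 : s ≠ 0 := by
    rintro rfl
    rw [mul_zero] at hs
    exact mul_ne_zero hx hδ hs
  have e : x = δ * (s / δ) ^ 2 := by
    field_simp
    linear_combination hs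
  exact H.congr (s₁ := 1) (s₂ := s / δ) (s₃ := s / δ) one_ne_zero (div_ne_zero hs0 hδ)
    (div_ne_zero hs0 hδ) (by ring) e e

/-- Soluble classes form a group. -/
lemma CPt.mul_one {K : Type*} [Field K] [PerfectField K] {a b x y : K} (ha : a ≠ 0) (hb : b ≠ 0)
    (hab : a ≠ b) (two : (2 : K) ≠ 0) (hx : x ≠ 0) (hy : y ≠ 0)
    (H : CPt 0 a b 1 x x) (H' : CPt 0 a b 1 y y) : CPt 0 a b 1 (x * y) (x * y) := by
  have := CPt.mul ha.symm hb.symm hab two (c := x) (by ring) hx (c' := y) (by ring) hy H H'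
  rwa [_root_.mul_one] at this

theorem two_pigeon [CharZero F] (h2 : V 2 = exp (-1 : ℤ)) (hρs : Function.Surjective ρ)
    (hρ : ∀ x : V.integer, ρ x = 0 ↔ V x < 1)
    (hH : ∀ x : F, V x ≤ exp (-3 : ℤ) → IsSquare (1 + x)) {a b : F} (ha : a ≠ 0) (hb : b ≠ 0)
    (hab : a ≠ b) (hsol : ∀ Z : F, V Z ≤ 1 → TwoSol V a b (Z ^ 4 + Z)) (u : Fin 9 → F)
    (hu : ∀ i, V (u i) = 1) : ∃ i j, i ≠ j ∧ CPt 0 a b 1 (u i * u j) (u i * u j) := by
  classical
  have hch := charP_two h2 hρ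
  have h20 : (2 : F) ≠ 0 := two_ne_zero
  choose t κ ht hκ using fun i => exists_kappa h2 hρs hρ (hu i)
  have u0 : ∀ i, u i ≠ 0 := fun i => ne_zero_of_V (hu i)
  let Q := k ⧸ (frobAdd k 2).range
  have := Fintype.ofFinite Q
  have hQ : Fintype.card Q ≤ 4 := by
    rw [← Nat.card_eq_fintype_card]
    exact card_frob_two
  obtain ⟨q, hq⟩ := Fintype.exists_lt_card_fiber_of_mul_lt_card
    (f := fun i : Fin 9 => (ρ (κ i) : Q)) (n := 2) (by
      rw [Fintype.card_fin]; change Fintype.card Q * 2 < 9; omega)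
  rw [Finset.two_lt_card] at hq
  obtain ⟨i, hi, j, hj, l, hl, hij, hil, hjl⟩ := hq
  simp only [Finset.mem_filter, Finset.mem_univ, true_and] at hi hj hl
  -- pairs in the same class
  have pair : ∀ i j : Fin 9, (ρ (κ i) : Q) = ρ (κ j) → ∃ δ T : F, δ ≠ 0 ∧ T ≠ 0 ∧
      CPt 0 a b 1 δ δ ∧ V (u i * u j * δ * T ^ 2 - 1) ≤ exp (-2 : ℤ) := by
    intro i j h
    have h1 := QuotientAddGroup.eq.mp h
    rw [AddMonoidHom.mem_range] at h1
    obtain ⟨x, hx⟩ := h1
    obtain ⟨Z, rfl⟩ := hρs x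
    rw [frobAdd_apply, CharTwo.neg_eq] at hx
    obtain ⟨δ, r, hδ, hr, hC, hv⟩ := hsol Z Z.2
    refine ⟨δ, t i * t j * r, hδ, mul_ne_zero (mul_ne_zero (ht i) (ht j)) hr, hC, ?_⟩
    set e : F := δ * r ^ 2 - (1 + 2 * ((Z : F) ^ 4 + Z)) with he
    have e1 : δ * r ^ 2 = 1 + 2 * ((Z : F) ^ 4 + Z) + e := by rw [he]; ring
    have e2 : u i * u j * δ * (t i * t j * r) ^ 2 =
        (1 + 2 * (κ i : F)) * (1 + 2 * (κ j : F)) * (1 + 2 * ((Z : F) ^ 4 + Z) + e) := by
      rw [← hκ, ← hκ, ← e1]; ring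
    have v1 : V ((κ i + κ j + (Z ^ 4 + Z) : V.integer) : F) < 1 := by
      rw [← hρ]
      simp only [map_add, map_pow]
      have h4 : ρ Z ^ 4 + ρ Z = ρ (κ i) + ρ (κ j) := by
        rw [← hx]; norm_num
      rw [h4]
      exact CharTwo.add_self_eq_zero _
    have v1' : V ((κ i : F) + κ j + (Z ^ 4 + Z)) < 1 := v1
    have vi : V (κ i : F) ≤ 1 := (κ i).2
    have vj : V (κ j : F) ≤ 1 := (κ j).2
    have vZ : V ((Z : F) ^ 4 + Z) ≤ 1 := V_add_le (V_pow_le Z.2 4) Z.2
    have u1 : V ((1 + 2 * (κ i : F)) * (1 + 2 * (κ j : F))) ≤ 1 := by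
      have q : ∀ x : F, V x ≤ 1 → V (1 + 2 * x) ≤ 1 := fun x hx =>
        V_add_le (by rw [map_one]) (V_two_mul_lt h2 hx).le
      exact V_mul_le (q _ vi) (q _ vj)
    have e3 : (1 + 2 * (κ i : F)) * (1 + 2 * (κ j : F)) * (1 + 2 * ((Z : F) ^ 4 + Z) + e) - 1 =
        2 * ((κ i : F) + κ j + (Z ^ 4 + Z)) +
        4 * ((κ i : F) * κ j + (κ i + κ j) * (Z ^ 4 + Z) + 2 * ((κ i : F) * κ j * (Z ^ 4 + Z))) +
        (1 + 2 * (κ i : F)) * (1 + 2 * (κ j : F)) * e := by ring
    rw [e2, e3]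
    refine V_add_le (V_add_le (V_two_mul h2 v1') (V_four_mul_le h2 ?_)) ?_
    · refine V_add_le (V_add_le (V_mul_le vi vj) (V_mul_le (V_add_le vi vj) vZ)) ?_
      exact (V_two_mul_lt h2 (V_mul_le (V_mul_le vi vj) vZ)).le
    · rw [map_mul]
      calc V ((1 + 2 * (κ i : F)) * (1 + 2 * (κ j : F))) * V e ≤ 1 * exp (-2 : ℤ) :=
            mul_le_mul' u1 hv
        _ = _ := _root_.one_mul _
  obtain ⟨δ, T, hδ, hT, hC, hv⟩ := pair i j (hi.trans hj.symm)
  obtain ⟨δ', T', hδ', hT', hC', hv'⟩ := pair i l (hi.trans hl.symm)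
  have rm : ∀ x T : F, T ≠ 0 → IsSquare (x * T ^ 2) → IsSquare x := by
    rintro x T hT ⟨s, hs⟩
    refine ⟨s / T, ?_⟩
    field_simp
    linear_combination hs
  rcases four_pair h2 hρs hρ hH hv hv' with h | h | h
  · exact ⟨i, j, hij, hC.of_mul_square hδ (mul_ne_zero (u0 i) (u0 j)) (rm _ _ hT h)⟩
  · exact ⟨i, l, hil, hC'.of_mul_square hδ' (mul_ne_zero (u0 i) (u0 l)) (rm _ _ hT' h)⟩
  · refine ⟨j, l, hjl, ?_⟩
    refine (CPt.mul_one ha hb hab h20 hδ hδ' hC hC').of_mul_square (mul_ne_zero hδ hδ')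
      (mul_ne_zero (u0 j) (u0 l)) ?_
    refine rm _ (u i * T * T') (mul_ne_zero (mul_ne_zero (u0 i) hT) hT') ?_
    have e : u j * u l * (δ * δ') * (u i * T * T') ^ 2 =
        u i * u j * δ * T ^ 2 * (u i * u l * δ' * T' ^ 2) := by ring
    rw [e]
    exact h

end

end Pool.Agent.H10
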