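import Mathlib

/-!
The units of a totally real number field modulo squares.
-/

set_option autoImplicit false
set_option linter.style.haveILetI false
open scoped Classical

open NumberField NumberField.Units

namespace Pool.Agent.H10

section

variable (L : Type) [Field L] [NumberField L]

/-- Products of different units of a fundamental system, up to sign. -/
noncomputable def uu (p : Bool × (Fin (rank L) → Bool)) : (𝓞 L)ˣ :=
  (if p.1 then -1 else 1) * ∏ i, (fundSystem L i) ^ (if p.2 i then (1 : ℤ) else 0)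

omit [NumberField L] in
lemma neg_one_torsion : (-1 : (𝓞 L)ˣ) ∈ torsion L := by
  rw [torsion, CommGroup.mem_torsion, isOfFinOrder_iff_pow_eq_one]
  exact ⟨2, by norm_num, by norm_num⟩

lemma sign_torsion (b : Bool) : (if b then -1 else 1 : (𝓞 L)ˣ) ∈ torsion L := by
  cases b
  · exact one_mem _
  · exact neg_one_torsion L

theorem uu_inj [IsTotallyReal L] {p q : Bool × (Fin (rank L) → Bool)}
    (h : IsSquare (uu L p * uu L q)) : p = q := by
  obtain ⟨x, hx⟩ := h
  obtain ⟨⟨ζ, m⟩, hm, -⟩ := exist_unique_eq_mul_prod L x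
  obtain ⟨ζe, -, huniq⟩ := exist_unique_eq_mul_prod L (uu L p * uu L q)
  let s : Bool → torsion L := fun b => ⟨_, sign_torsion L b⟩
  have h1 := huniq (s p.1 * s q.1, fun i => (if p.2 i then (1 : ℤ) else 0) +
    (if q.2 i then (1 : ℤ) else 0)) (by
      simp only [uu, zpow_add, Finset.prod_mul_distrib, s, Subgroup.coe_mul]
      ac_rfl)
  have h2 := huniq (ζ * ζ, fun i => m i + m i) (by
      rw [hx]
      simp only [zpow_add, Finset.prod_mul_distrib, Subgroup.coe_mul]
      simp only at hm
      rw [hm]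
      ac_rfl)
  have h3 := h1.trans h2.symm
  rw [Prod.mk.injEq] at h3
  obtain ⟨h4, h5⟩ := h3
  apply Prod.ext
  · -- signs
    have h6 := congrArg (fun z : torsion L => ((z : (𝓞 L)ˣ) : 𝓞 L)) h4
    simp only [Subgroup.coe_mul, Units.val_mul, s] at h6
    obtain ⟨v⟩ : Nonempty (InfinitePlace L) := inferInstance
    have hv : v.IsReal := IsTotallyReal.isReal v
    let φ : L →+* ℝ := InfinitePlace.embedding_of_isReal hv
    have h7 := congrArg (fun z : 𝓞 L => φ (z : L)) h6
    have h8 : (0 : ℝ) < φ ((((ζ : (𝓞 L)ˣ) : 𝓞 L)) : L) * φ ((((ζ : (𝓞 L)ˣ) : 𝓞 L)) : L) := by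
      apply mul_self_pos.mpr
      rw [Ne, map_eq_zero]
      intro h0
      have : ((ζ : (𝓞 L)ˣ) : 𝓞 L) = 0 := by exact_mod_cast h0
      exact (ζ : (𝓞 L)ˣ).ne_zero this
    simp only [map_mul] at h7
    rw [← h7] at h8
    rcases hp : p.1 with _ | _ <;> rcases hq : q.1 with _ | _
    · rfl
    · rw [hp, hq] at h8
      norm_num at h8
    · rw [hp, hq] at h8
      norm_num at h8
    · rfl
  · funext i
    have h6 : (if p.2 i then (1 : ℤ) else 0) + (if q.2 i then (1 : ℤ) else 0) = m i + m i :=
      congrFun h5 i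
    rcases hp : p.2 i with _ | _ <;> rcases hq : q.2 i with _ | _
    · rfl
    · rw [hp, hq] at h6
      simp only [Bool.false_eq_true, if_false, if_true] at h6
      omega
    · rw [hp, hq] at h6
      simp only [Bool.false_eq_true, if_false, if_true] at h6
      omega
    · rfl

theorem card_uu [IsTotallyReal L] :
    Fintype.card (Bool × (Fin (rank L) → Bool)) = 2 ^ Module.finrank ℚ L := by
  have h1 : Module.finrank ℚ L = rank L + 1 := by
    rw [rank, IsTotallyReal.finrank, InfinitePlace.card_eq_nrRealPlaces_add_nrComplexPlaces,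
      IsTotallyReal.nrComplexPlaces_eq_zero, add_zero]
    have : 0 < InfinitePlace.nrRealPlaces L := by
      have := Module.finrank_pos (R := ℚ) (M := L)
      rwa [IsTotallyReal.finrank] at this
    omega
  rw [Fintype.card_prod, Fintype.card_bool, Fintype.card_fun, Fintype.card_bool, Fintype.card_fin,
    h1, pow_succ, mul_comm]

variable {L}

omit [NumberField L] in
lemma isSquare_unit {u : (𝓞 L)ˣ} (h : IsSquare ((u : 𝓞 L) : L)) : IsSquare u := by
  obtain ⟨s, hs⟩ := h
  have hint : IsIntegral ℤ s := by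
    apply IsIntegral.of_pow (n := 2) (by norm_num)
    rw [pow_two, ← hs]
    exact (u : 𝓞 L).isIntegral_coe
  let t : 𝓞 L := ⟨s, hint⟩
  have ht : (u : 𝓞 L) = t * t := by
    apply RingOfIntegers.ext
    exact hs
  have hu : IsUnit t := isUnit_of_mul_isUnit_left (by rw [← ht]; exact u.isUnit)
  obtain ⟨x, hx⟩ := hu
  refine ⟨x, Units.ext ?_⟩
  rw [Units.val_mul, hx]
  exact ht

end

end Pool.Agent.H10
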