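import Pool.Agent.H10.GrPlace
import Pool.Agent.H10.GrUnit
import Pool.Agent.H10.GrCoh

/-!
Growth of the two-Selmer group in totally real fields when the condition at two fails.
-/

set_option autoImplicit false
set_option linter.style.haveILetI false
open scoped Classical

open WeierstrassCurve IsDedekindDomain NumberField NumberField.Units

namespace Pool.Agent.H10

/-- A pigeonhole criterion for the index of a subgroup. -/
lemma index_of_pigeon {G : Type*} [CommGroup G] (H : Subgroup G) (hsq : ∀ x : G, x * x ∈ H) (n : ℕ)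
    (h : ∀ u : Fin (n + 1) → G, ∃ i j, i ≠ j ∧ u i * u j ∈ H) :
    Finite (G ⧸ H) ∧ Nat.card (G ⧸ H) ≤ n := by
  have key : ¬ Nonempty (Fin (n + 1) ↪ G ⧸ H) := by
    rintro ⟨f⟩
    obtain ⟨i, j, hij, hm⟩ := h fun i => (f i).out
    apply hij
    apply f.injective
    rw [← QuotientGroup.out_eq' (f i), ← QuotientGroup.out_eq' (f j), QuotientGroup.eq]
    have e : (f i).out⁻¹ * (f j).out = ((f i).out * (f j).out) * ((f i).out⁻¹ * (f i).out⁻¹) := by
      rw [mul_mul_mul_comm, mul_inv_cancel, one_mul, mul_comm]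
    rw [e]
    exact H.mul_mem hm (hsq _)
  have hfin : Finite (G ⧸ H) := by
    by_contra hinf
    rw [not_finite_iff_infinite] at hinf
    exact key ⟨Fin.valEmbedding.trans (Infinite.natEmbedding _)⟩
  refine ⟨hfin, ?_⟩
  by_contra hcard
  have := Fintype.ofFinite (G ⧸ H)
  apply key
  apply Function.Embedding.nonempty_of_card_le
  rw [Fintype.card_fin, ← Nat.card_eq_fintype_card]
  omega

section

variable {L : Type} [Field L] [NumberField L]

omit [NumberField L] in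
lemma coe_unit_mul (u v : (𝓞 L)ˣ) :
    (((u * v : (𝓞 L)ˣ) : 𝓞 L) : L) = ((u : 𝓞 L) : L) * ((v : 𝓞 L) : L) := rfl

/-- The units whose class is soluble at `w`. -/
def Gw {a b : ℤ} (ha : a ≠ 0) (hb : b ≠ 0) (hab : a ≠ b) (w : HeightOneSpectrum (𝓞 L)) :
    Subgroup (𝓞 L)ˣ where
  carrier := {u | CPt (0 : w.adicCompletion L) (a : w.adicCompletion L) (b : w.adicCompletion L) 1
    (algebraMap L (w.adicCompletion L) ((u : 𝓞 L) : L))
    (algebraMap L (w.adicCompletion L) ((u : 𝓞 L) : L))}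
  one_mem' := by
    apply CPt.of_isSquare
    refine ⟨1, ?_⟩
    simp
  mul_mem' := by
    intro x y hx hy
    have n : ∀ u : (𝓞 L)ˣ, algebraMap L (w.adicCompletion L) ((u : 𝓞 L) : L) ≠ 0 := fun u =>
      ne_zero_of_V (unit_valued w u)
    have := CPt.mul_one (a := (a : w.adicCompletion L)) (b := (b : w.adicCompletion L))
      (by exact_mod_cast ha) (by exact_mod_cast hb) (by exact_mod_cast hab) two_ne_zero (n x) (n y)
      hx hy
    change CPt _ _ _ _ _ _
    rw [coe_unit_mul, map_mul]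
    exact this
  inv_mem' := by
    intro x hx
    have n : ∀ u : (𝓞 L)ˣ, algebraMap L (w.adicCompletion L) ((u : 𝓞 L) : L) ≠ 0 := fun u =>
      ne_zero_of_V (unit_valued w u)
    refine CPt.of_mul_square (n x) (n x⁻¹) hx ?_
    refine ⟨1, ?_⟩
    rw [← map_mul, ← coe_unit_mul, inv_mul_cancel, mul_one]
    exact map_one _

lemma mem_Gw {a b : ℤ} (ha : a ≠ 0) (hb : b ≠ 0) (hab : a ≠ b) (w : HeightOneSpectrum (𝓞 L))
    (u : (𝓞 L)ˣ) : u ∈ Gw ha hb hab w ↔
      CPt (0 : w.adicCompletion L) (a : w.adicCompletion L) (b : w.adicCompletion L) 1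
        (algebraMap L (w.adicCompletion L) ((u : 𝓞 L) : L))
        (algebraMap L (w.adicCompletion L) ((u : 𝓞 L) : L)) := Iff.rfl

lemma sq_mem_Gw {a b : ℤ} (ha : a ≠ 0) (hb : b ≠ 0) (hab : a ≠ b) (w : HeightOneSpectrum (𝓞 L))
    (x : (𝓞 L)ˣ) : x * x ∈ Gw ha hb hab w := by
  rw [mem_Gw]
  apply CPt.of_isSquare
  rw [coe_unit_mul, map_mul]
  exact ⟨_, rfl⟩

lemma index_Gw {a b : ℤ} (ha : a ≠ 0) (hb : b ≠ 0) (hab : a ≠ b) (hst : ¬ StarTwo a b)
    (hunr : ∀ w : HeightOneSpectrum (𝓞 L), (2 : 𝓞 L) ∈ w.asIdeal →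
      (2 : 𝓞 L) ∉ w.asIdeal ^ 2) (w : HeightOneSpectrum (𝓞 L)) :
    Finite ((𝓞 L)ˣ ⧸ Gw ha hb hab w) ∧ Nat.card ((𝓞 L)ˣ ⧸ Gw ha hb hab w) ≤ 8 := by
  apply index_of_pigeon _ (sq_mem_Gw ha hb hab w)
  intro u
  have key : ∃ i j, i ≠ j ∧ CPt (0 : w.adicCompletion L) (a : w.adicCompletion L)
      (b : w.adicCompletion L) 1
      (algebraMap L (w.adicCompletion L) ((u i : 𝓞 L) : L) *
        algebraMap L (w.adicCompletion L) ((u j : 𝓞 L) : L))
      (algebraMap L (w.adicCompletion L) ((u i : 𝓞 L) : L) *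
        algebraMap L (w.adicCompletion L) ((u j : 𝓞 L) : L)) := by
    by_cases h2 : (2 : 𝓞 L) ∈ w.asIdeal
    · exact unit_two w ha hb hab hst h2 (hunr w h2) u
    · exact unit_odd w h2 _ _ u
  obtain ⟨i, j, hij, hC⟩ := key
  refine ⟨i, j, hij, ?_⟩
  rw [mem_Gw, coe_unit_mul, map_mul]
  exact hC

lemma bad_fin {z : ℤ} (hz : z ≠ 0) :
    {w : HeightOneSpectrum (𝓞 L) | (z : 𝓞 L) ∈ w.asIdeal}.Finite := by
  have h0 : Ideal.span {(z : 𝓞 L)} ≠ 0 := by
    rw [Ne, Ideal.zero_eq_bot, Ideal.span_singleton_eq_bot]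
    exact_mod_cast hz
  refine (Ideal.finite_factors h0).subset ?_
  intro w hw
  exact Ideal.dvd_span_singleton.mpr hw

/-- Growth of the two-Selmer group. -/
theorem growth [IsTotallyReal L] {a b : ℤ} (ha : 0 < a) (hb : 0 < b) (hab : a ≠ b)
    (hst : ¬ StarTwo a b)
    (hunr : ∀ w : HeightOneSpectrum (𝓞 L), (2 : 𝓞 L) ∈ w.asIdeal →
      (2 : 𝓞 L) ∉ w.asIdeal ^ 2)
    {V : WeierstrassCurve L} (h : IsCub V 0 (a : L) (b : L))
    (P : Finset V.toAffine.Point) (hP : ∀ X : V.toAffine.Point, ∃ p ∈ P, ∃ S, X = p + (S + S))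
    (T : Finset ((AlgebraicClosure L ≃ₐ[L] AlgebraicClosure L) →
      (V.baseChange (AlgebraicClosure L)).toAffine.Point))
    (hT : ∀ f, IsCocycle L V f → IsLocTriv L V f → IsCobound L V (fun σ => f σ + f σ) →
      ∃ t ∈ T, IsCobound L V (fun σ => f σ - t σ)) :
    2 ^ Module.finrank ℚ L ≤ 8 ^ {w : HeightOneSpectrum (𝓞 L) |
      ((2 * a * b * (b - a) : ℤ) : 𝓞 L) ∈ w.asIdeal}.ncard * (P.card * T.card) := by
  set z : ℤ := 2 * a * b * (b - a) with hzd
  have hz0 : z ≠ 0 := by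
    rw [hzd]
    exact mul_ne_zero (mul_ne_zero (mul_ne_zero (by norm_num) ha.ne') hb.ne')
      (sub_ne_zero.mpr hab.symm)
  have hfin := bad_fin (L := L) hz0
  set B := hfin.toFinset with hB
  have hmemB : ∀ w : HeightOneSpectrum (𝓞 L), w ∈ B ↔ (z : 𝓞 L) ∈ w.asIdeal := fun w => by
    rw [hB, Set.Finite.mem_toFinset]; rfl
  have hcardB : {w : HeightOneSpectrum (𝓞 L) | (z : 𝓞 L) ∈ w.asIdeal}.ncard = B.card :=
    Set.ncard_eq_toFinset_card _ hfin
  rw [hcardB]
  let G : HeightOneSpectrum (𝓞 L) → Subgroup (𝓞 L)ˣ := fun w => Gw ha.ne' hb.ne' hab w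
  have hG : ∀ w, Finite ((𝓞 L)ˣ ⧸ G w) ∧ Nat.card ((𝓞 L)ˣ ⧸ G w) ≤ 8 := fun w =>
    index_Gw ha.ne' hb.ne' hab hst hunr w
  haveI : ∀ w : B, Finite ((𝓞 L)ˣ ⧸ G w.1) := fun w => (hG w.1).1
  haveI : Fintype ((w : B) → ((𝓞 L)ˣ ⧸ G w.1)) := Fintype.ofFinite _
  let φ : (𝓞 L)ˣ → ((w : B) → ((𝓞 L)ˣ ⧸ G w.1)) := fun u w => (u : (𝓞 L)ˣ ⧸ G w.1)
  have hfib : ∀ q ∈ Finset.univ.image (fun i => φ (uu L i)),
      (Finset.univ.filter fun i => φ (uu L i) = q).card ≤ P.card * T.card := by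
    intro q hq
    rw [Finset.mem_image] at hq
    obtain ⟨i₀, -, hi₀⟩ := hq
    have hsame : ∀ i, φ (uu L i) = q → ∀ w ∈ B, uu L i₀ * uu L i ∈ G w := by
      intro i hi w hw
      have e1 : (uu L i₀ : (𝓞 L)ˣ ⧸ G w) = uu L i := by
        have e2 := congrFun (hi₀.trans hi.symm) ⟨w, hw⟩
        exact e2
      rw [QuotientGroup.eq] at e1
      have e3 : uu L i₀ * uu L i = ((uu L i₀)⁻¹ * uu L i) * (uu L i₀ * uu L i₀) := by
        rw [mul_mul_mul_comm, inv_mul_cancel, one_mul, mul_comm]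
      rw [e3]
      exact (G w).mul_mem e1 (sq_mem_Gw ha.ne' hb.ne' hab w _)
    have hne : ∀ u : (𝓞 L)ˣ, ((u : 𝓞 L) : L) ≠ 0 := by
      intro u h0
      have : (u : 𝓞 L) = 0 := by exact_mod_cast h0
      exact u.ne_zero this
    have hc := count_classes h (ι := {i // φ (uu L i) = q})
      (fun i => (((uu L i₀ * uu L i.1 : (𝓞 L)ˣ) : 𝓞 L) : L)) (fun i => hne _)
      (by
        intro i w
        rw [map_zero, map_one, map_intCast, map_intCast]
        by_cases hw : w ∈ B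
        · exact (mem_Gw ha.ne' hb.ne' hab w _).mp (hsame i.1 i.2 w hw)
        · rw [hmemB] at hw
          exact unit_good w hw _)
      (by
        intro i v
        rw [map_zero, map_one, map_intCast, map_intCast]
        exact unit_real ha hb v (hne _))
      (by
        intro i j hij
        have e1 : IsSquare ((((uu L i₀ * uu L i.1) * (uu L i₀ * uu L j.1) : (𝓞 L)ˣ) : 𝓞 L) : L) := by
          rw [coe_unit_mul]
          exact hij
        have e2 := isSquare_unit e1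
        apply Subtype.ext
        apply uu_inj L
        obtain ⟨x, hx⟩ := e2
        refine ⟨x * (uu L i₀)⁻¹, ?_⟩
        have e3 : x * (uu L i₀)⁻¹ * (x * (uu L i₀)⁻¹) =
            (x * x) * ((uu L i₀)⁻¹ * (uu L i₀)⁻¹) := by ac_rfl
        rw [e3, ← hx]
        have e4 : uu L i₀ * uu L i.1 * (uu L i₀ * uu L j.1) * ((uu L i₀)⁻¹ * (uu L i₀)⁻¹) =
            (uu L i₀ * (uu L i₀)⁻¹) * (uu L i₀ * (uu L i₀)⁻¹) * (uu L i.1 * uu L j.1) := by ac_rfl
        rw [e4, mul_inv_cancel, one_mul, one_mul])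
      P hP T hT
    rw [← Fintype.card_subtype]
    exact hc
  have h1 := Finset.card_le_mul_card_image (f := fun i => φ (uu L i)) Finset.univ
    (P.card * T.card) hfib
  rw [Finset.card_univ, card_uu L] at h1
  refine h1.trans ?_
  rw [mul_comm]
  refine Nat.mul_le_mul_right _ ?_
  refine (Finset.card_le_univ _).trans ?_
  rw [← Nat.card_eq_fintype_card, Nat.card_pi]
  refine (Finset.prod_le_pow_card _ _ 8 fun w _ => (hG w.1).2).trans ?_
  rw [Finset.card_univ, Fintype.card_coe]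

end

end Pool.Agent.H10
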