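import Pool.Agent.H10.Sha

/-!
The two-primary part of the Tate-Shafarevich group and restriction, in terms of cocycles.
-/

set_option autoImplicit false
open scoped Classical

open WeierstrassCurve

namespace Pool.Agent.H10

section

variable (K : Type) [Field K] [NumberField K] (W : WeierstrassCurve K)

/-- `f` represents an element of the two-primary part of the Tate-Shafarevich group of `W`. -/
def IsShaTwo (f : (AlgebraicClosure K ≃ₐ[K] AlgebraicClosure K) →
      (W.baseChange (AlgebraicClosure K)).toAffine.Point) : Prop :=
  IsCocycle K W f ∧ IsLocTriv K W f ∧ ∃ m : ℕ, IsCobound K W (fun σ => (2 ^ m) • f σ)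

variable (L : Type) [Field L] [NumberField L] [Algebra K L]

/-- `g` is the restriction of `f` to the absolute Galois group of `L`, where the embedding `j` of
algebraic closures is used: if `σ` and `τ` are compatible, then `g τ` is the image of `f σ`. -/
def IsRestriction (j : AlgebraicClosure K →ₐ[K] AlgebraicClosure L)
    (f : (AlgebraicClosure K ≃ₐ[K] AlgebraicClosure K) →
      (W.baseChange (AlgebraicClosure K)).toAffine.Point)
    (g : (AlgebraicClosure L ≃ₐ[L] AlgebraicClosure L) →
      ((W.baseChange L).baseChange (AlgebraicClosure L)).toAffine.Point) : Prop :=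
  ∀ (τ : AlgebraicClosure L ≃ₐ[L] AlgebraicClosure L)
    (σ : AlgebraicClosure K ≃ₐ[K] AlgebraicClosure K), (∀ x, j (σ x) = τ (j x)) →
    (f σ = 0 → g τ = 0) ∧
    ∀ x y h, f σ = .some x y h → ∃ h', g τ = .some (j x) (j y) h'

/-- Restriction from `K` to `L` is a well defined bijection between the two-primary parts of the
Tate-Shafarevich groups of `W` over `K` and over `L`. -/
def ShaTwoBijective : Prop :=
  ∀ j : AlgebraicClosure K →ₐ[K] AlgebraicClosure L,
    (∀ f, IsShaTwo K W f → ∃ g, IsRestriction K W L j f g ∧ IsShaTwo L (W.baseChange L) g ∧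
      (IsCobound L (W.baseChange L) g → IsCobound K W f)) ∧
    (∀ g, IsShaTwo L (W.baseChange L) g → ∃ f g', IsShaTwo K W f ∧ IsRestriction K W L j f g' ∧
      IsCobound L (W.baseChange L) (fun τ => g τ - g' τ))

end

end Pool.Agent.H10
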