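import Pool.Agent.H10.Iso2
import Pool.Agent.H10.ShaTwo

/-!
The isomorphism on two-primary parts in terms of cocycles.
-/

set_option autoImplicit false
set_option linter.style.haveILetI false
open scoped Classical

open WeierstrassCurve IsDedekindDomain NumberField

namespace Pool.Agent.H10

section

variable {K L : Type} [Field K] [NumberField K] [Field L] [NumberField L] [Algebra K L]
variable {V : WeierstrassCurve K} {V' : WeierstrassCurve L} (hV : V.map (algebraMap K L) = V')

/-- Restriction for an arbitrary isomorphism of algebraic closures. -/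
noncomputable def resJ (j : AlgebraicClosure K ≃ₐ[K] AlgebraicClosure L)
    (hj : (V.baseChange (AlgebraicClosure K)).map
      (j : AlgebraicClosure K →+* AlgebraicClosure L) = V'.baseChange (AlgebraicClosure L))
    (f : Coch K V) : Coch L V' := fun τ => trans j hj f (τ.restrictScalars K)

include hV in
lemma map_jg (j : AlgebraicClosure K ≃ₐ[K] AlgebraicClosure L) :
    (V.baseChange (AlgebraicClosure K)).map (j : AlgebraicClosure K →+* AlgebraicClosure L) =
      V'.baseChange (AlgebraicClosure L) := by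
  rw [← map_up hV, WeierstrassCurve.baseChange, WeierstrassCurve.map_map]
  congr 1
  ext x
  exact j.commutes x

lemma resJ_sub {j : AlgebraicClosure K ≃ₐ[K] AlgebraicClosure L} {f : Coch K V}
    (hf : IsCocycle K V f) : resJ j (map_jg hV j) f - resF hV f ∈ ShaB L V' := by
  let g : AlgebraicClosure K ≃ₐ[K] AlgebraicClosure K := j.trans (jj K L).symm
  have hg : ∀ x, j x = jj K L (g x) := fun x => ((jj K L).apply_symm_apply (j x)).symm
  rw [isCocycle_iff] at hf
  change IsCobound L V' _
  rw [isCobound_iff]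
  refine ⟨pm (jj K L : AlgebraicClosure K →+* AlgebraicClosure L) (map_jj hV) (f g),
    fun τ => ?_⟩
  let σ : AlgebraicClosure K ≃ₐ[K] AlgebraicClosure K :=
    ((jj K L).trans (τ.restrictScalars K)).trans (jj K L).symm
  have hσ : ∀ x, jj K L (σ x) = τ (jj K L x) := fun x => (jj K L).apply_symm_apply _
  have h1 : (j.trans (τ.restrictScalars K)).trans j.symm = g⁻¹ * σ * g := by
    ext x
    apply j.injective
    rw [hg (((g⁻¹ * σ * g) : AlgebraicClosure K ≃ₐ[K] AlgebraicClosure K) x)]
    have h2 : g ((g⁻¹ * σ * g) x) = σ (g x) := g.apply_symm_apply _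
    rw [h2, hσ, ← hg]
    exact j.apply_symm_apply _
  have h3 : resJ j (map_jg hV j) f τ =
      pm (jj K L : AlgebraicClosure K →+* AlgebraicClosure L) (map_jj hV)
        (act (inv_bc K V) g (f (g⁻¹ * σ * g))) := by
    unfold resJ trans act
    rw [h1, pm_pm]
    exact pm_congr _ _ (fun x => hg x) _
  rw [Pi.sub_apply, h3, hf.conj, map_add, map_sub]
  have h4 : resF hV f τ =
      pm (jj K L : AlgebraicClosure K →+* AlgebraicClosure L) (map_jj hV) (f σ) := rfl
  have h5 : pm (jj K L : AlgebraicClosure K →+* AlgebraicClosure L) (map_jj hV)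
      (act (inv_bc K V) σ (f g)) = act (inv_bc L V') τ
        (pm (jj K L : AlgebraicClosure K →+* AlgebraicClosure L) (map_jj hV) (f g)) := by
    unfold act
    rw [pm_pm, pm_pm]
    exact pm_congr _ _ (fun x => hσ x) _
  rw [h4, h5]
  abel

end

section

variable {K L : Type} [Field K] [NumberField K] [Field L] [NumberField L] [Algebra K L]
variable {V : WeierstrassCurve K}

lemma mk_mem_iff {K : Type} [Field K] [NumberField K] {W : WeierstrassCurve K} (f : ShaZ K W) :
    (∃ m : ℕ, 2 ^ m • Sha.mk f = 0) ↔ ∃ m : ℕ, IsCobound K W (fun σ => (2 ^ m) • f.1 σ) := by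
  refine exists_congr fun m => ?_
  rw [← Sha.mk_nsmul, Sha.mk_eq_zero]
  rfl

lemma isRestriction_resJ (j : AlgebraicClosure K ≃ₐ[K] AlgebraicClosure L) (f : Coch K V) :
    IsRestriction K V L (j : AlgebraicClosure K →ₐ[K] AlgebraicClosure L) f
      (resJ j (map_jg (V' := V.baseChange L) rfl j) f) := by
  intro τ σ hσ
  have h1 : (j.trans (τ.restrictScalars K)).trans j.symm = σ := by
    ext x
    apply j.injective
    have h2 : j (((j.trans (τ.restrictScalars K)).trans j.symm) x) = τ (j x) :=
      j.apply_symm_apply _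
    rw [h2]
    exact (hσ x).symm
  have h2 : resJ j (map_jg (V' := V.baseChange L) rfl j) f τ =
      pm (j : AlgebraicClosure K →+* AlgebraicClosure L) (map_jg (V' := V.baseChange L) rfl j) (f σ) := by
    unfold resJ trans
    rw [h1]
  rw [h2]
  constructor
  · intro h0
    rw [h0, map_zero]
  · intro x y h hf
    rw [hf, pm_some]
    exact ⟨_, rfl⟩

/-- A homomorphism between the algebraic closures is an isomorphism. -/
lemma exists_equiv (j : AlgebraicClosure K →ₐ[K] AlgebraicClosure L) :
    ∃ j' : AlgebraicClosure K ≃ₐ[K] AlgebraicClosure L,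
      (j' : AlgebraicClosure K →ₐ[K] AlgebraicClosure L) = j := by
  obtain ⟨g, hg⟩ := exists_aut (K := K) (jj K L : AlgebraicClosure K →+* AlgebraicClosure L)
    (j : AlgebraicClosure K →+* AlgebraicClosure L) (fun x => by
      change jj K L (algebraMap K (AlgebraicClosure K) x) = j (algebraMap K _ x)
      rw [(jj K L).commutes, j.commutes])
  refine ⟨g.trans (jj K L), ?_⟩
  ext x
  exact (hg x).symm

theorem shaTwoBijective (hV : V.map (algebraMap K L) = V.baseChange L)
    (H : Set.BijOn (Sha.res hV) {x | ∃ m : ℕ, 2 ^ m • x = 0} {x | ∃ m : ℕ, 2 ^ m • x = 0}) :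
    ShaTwoBijective K V L := by
  intro j₀
  obtain ⟨j, rfl⟩ := exists_equiv j₀
  have hB := shaB_le L (V.baseChange L)
  have key : ∀ {f : Coch K V}, IsShaTwo K V f →
      IsShaTwo L (V.baseChange L) (resJ j (map_jg hV j) f) ∧
      (IsCobound L (V.baseChange L) (resJ j (map_jg hV j) f) →
        IsCobound L (V.baseChange L) (resF hV f)) := by
    intro f hf
    obtain ⟨h1, h2, m, h3⟩ := hf
    have k1 := resJ_sub hV (j := j) h1
    have k2 : resF hV f ∈ ShaZ L (V.baseChange L) :=
      ⟨isCocycle_res hV h1, isLocTriv_res hV h1 h2⟩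
    have k3 : resJ j (map_jg hV j) f ∈ ShaZ L (V.baseChange L) := by
      have := add_mem (hB k1) k2
      rwa [sub_add_cancel] at this
    have k4 : 2 ^ m • resF hV f ∈ ShaB L (V.baseChange L) := by
      have := isCobound_res hV h3
      have e : resF hV (fun σ => (2 ^ m) • f σ) = 2 ^ m • resF hV f := by
        funext τ
        rw [Pi.smul_apply]
        exact map_nsmul _ _ _
      rw [e] at this
      exact this
    refine ⟨⟨k3.1, k3.2, m, ?_⟩, fun h => ?_⟩
    · have k5 : 2 ^ m • resJ j (map_jg hV j) f ∈ ShaB L (V.baseChange L) := by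
        have := add_mem (nsmul_mem k1 (2 ^ m)) k4
        rwa [← nsmul_add, sub_add_cancel] at this
      exact k5
    · have k6 : resJ j (map_jg hV j) f ∈ ShaB L (V.baseChange L) := h
      have k7 := sub_mem k6 k1
      have k8 : resJ j (map_jg hV j) f - (resJ j (map_jg hV j) f - resF hV f) = resF hV f :=
        sub_sub_cancel (resJ j (map_jg hV j) f) (resF hV f)
      have k9 : resF hV f ∈ ShaB L (V.baseChange L) := by
        rw [← k8]; exact k7
      exact k9
  constructor
  · intro f hf
    obtain ⟨p1, p2⟩ := key hf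
    refine ⟨_, isRestriction_resJ j f, p1, fun h => ?_⟩
    have h1 := p2 h
    let F : ShaZ K V := ⟨f, hf.1, hf.2.1⟩
    have h2 : Sha.res hV (Sha.mk F) = Sha.res hV 0 := by
      rw [Sha.res_mk, map_zero, Sha.mk_eq_zero]
      exact h1
    have h3 := H.2.1 ((mk_mem_iff F).mpr hf.2.2) ⟨0, by simp⟩ h2
    exact (Sha.mk_eq_zero F).mp h3
  · intro g hg
    let G : ShaZ L (V.baseChange L) := ⟨g, hg.1, hg.2.1⟩
    obtain ⟨x, hx, hxg⟩ := H.2.2 ((mk_mem_iff G).mpr hg.2.2)
    obtain ⟨f, rfl⟩ := Sha.mk_surjective x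
    have hf : IsShaTwo K V f.1 := ⟨f.2.1, f.2.2, (mk_mem_iff f).mp hx⟩
    refine ⟨f.1, _, hf, isRestriction_resJ j f.1, ?_⟩
    rw [Sha.res_mk, eq_comm, ← sub_eq_zero] at hxg
    have h3 : Sha.mk G - Sha.mk (resZ hV f) = Sha.mk (G - resZ hV f) := rfl
    rw [h3, Sha.mk_eq_zero] at hxg
    have h4 : g - resF hV f.1 ∈ ShaB L (V.baseChange L) := hxg
    have h5 := sub_mem h4 (resJ_sub hV (j := j) hf.1)
    rw [sub_sub_sub_cancel_right] at h5
    exact h5

end

end Pool.Agent.H10
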