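import Pool.Agent.H10.Grow
import Pool.Agent.H5.SW.Fin

/-!
The number of primes above a given integer is bounded in a real cyclotomic tower.
-/

set_option autoImplicit false
set_option linter.style.haveILetI false
open scoped Classical

open WeierstrassCurve IsDedekindDomain NumberField H5SW

namespace Pool.Agent.H10

lemma rc_card {f : ℕ} {M : Type} [Field M] [NumberField M] (r : RC f M) :
    2 * Module.finrank ℚ M = f.totient := by
  have := r.neZero
  have := r.gal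
  have : Fact (2 < f) := ⟨r.two_lt⟩
  have h1 : Nat.card (M ≃ₐ[ℚ] M) = Module.finrank ℚ M := IsGalois.card_aut_eq_finrank ℚ M
  have h2 := Subgroup.card_mul_index r.σ.ker
  have h3 : r.σ.ker.index = Nat.card (M ≃ₐ[ℚ] M) := by
    rw [Subgroup.index_ker, MonoidHom.range_eq_top.2 r.surj, Subgroup.card_top]
  have hne : (1 : (ZMod f)ˣ) ≠ -1 := by
    intro h
    have h4 := congrArg (fun u : (ZMod f)ˣ => (u : ZMod f)) h
    simp only [Units.val_one, Units.val_neg] at h4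
    exact ZMod.neg_one_ne_one h4.symm
  have h4 : Nat.card r.σ.ker = 2 := by
    have h5 : (r.σ.ker : Set (ZMod f)ˣ) = {1, -1} := by
      ext u
      simp only [SetLike.mem_coe, MonoidHom.mem_ker, Set.mem_insert_iff, Set.mem_singleton_iff]
      exact r.ker u
    have h6 : Nat.card r.σ.ker = Set.ncard (r.σ.ker : Set (ZMod f)ˣ) := rfl
    rw [h6, h5, Set.ncard_pair hne]
  rw [h4, h3, h1, Nat.card_eq_fintype_card, ZMod.card_units_eq_totient] at h2
  exact h2

/-- The number of primes above `q` in the maximal real subfields. -/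
lemma card_q {p n t q : ℕ} [Fact p.Prime] (hp2 : p ≠ 2) {F : Type} [Field F] [NumberField F]
    (r : RC (p ^ (n + 1)) F) (hq : q.Prime) (ht : q ≠ p → ¬ p ^ (t + 1) ∣ q ^ (p - 1) - 1) :
    Finite {P : Ideal (𝓞 F) // P.IsPrime ∧ (q : 𝓞 F) ∈ P} ∧
    Nat.card {P : Ideal (𝓞 F) // P.IsPrime ∧ (q : 𝓞 F) ∈ P} ≤ p ^ t := by
  have hp : p.Prime := Fact.out
  by_cases hqp : q = p
  · subst hqp
    obtain ⟨P0, -, -, -, -, -, hu⟩ := above_p hp2 r
    have hs : Subsingleton {P : Ideal (𝓞 F) // P.IsPrime ∧ (q : 𝓞 F) ∈ P} :=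
      ⟨fun A B => Subtype.ext ((hu A.1 A.2.1 A.2.2).trans (hu B.1 B.2.1 B.2.2).symm)⟩
    exact ⟨inferInstance, (Finite.card_le_one_iff_subsingleton.mpr hs).trans
      (Nat.one_le_pow _ _ hp.pos)⟩
  · have ht' := ht hqp
    have hcop : q.Coprime (p ^ (n + 1)) := Nat.Coprime.pow_right _ ((Nat.coprime_primes hq hp).mpr hqp)
    have hz : NeZero (p ^ (n + 1)) := ⟨(pow_pos hp.pos _).ne'⟩
    have hca := card_above hp2 r hq hcop
    set u := ZMod.unitOfCoprime q hcop with hu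
    set o := orderOf (r.σ u) with ho
    have hF : Module.finrank ℚ F ≠ 0 := Module.finrank_pos.ne'
    have ho0 : o ≠ 0 := by
      intro h0
      rw [h0, mul_zero] at hca
      exact hF hca.symm
    have hc0 : Nat.card {P : Ideal (𝓞 F) // P.IsPrime ∧ (q : 𝓞 F) ∈ P} ≠ 0 := by
      intro h0
      rw [h0, zero_mul] at hca
      exact hF hca.symm
    have hord : u ^ (2 * o) = 1 := by
      have h1 : r.σ (u ^ o) = 1 := by rw [map_pow, ho, pow_orderOf_eq_one]
      rcases (r.ker _).mp h1 with h | h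
      · rw [mul_comm, pow_mul, h, one_pow]
      · rw [mul_comm, pow_mul, h]; norm_num
    have hdvd : p ^ (n + 1) ∣ q ^ (2 * o) - 1 := by
      have h1 : ((q ^ (2 * o) : ℕ) : ZMod (p ^ (n + 1))) = ((1 : ℕ) : ZMod (p ^ (n + 1))) := by
        have h2 := congrArg (fun x : (ZMod (p ^ (n + 1)))ˣ => (x : ZMod (p ^ (n + 1)))) hord
        simp only [Units.val_pow_eq_pow_val, Units.val_one, hu, ZMod.coe_unitOfCoprime] at h2
        push_cast
        exact h2
      rw [ZMod.natCast_eq_natCast_iff] at h1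
      exact (Nat.modEq_iff_dvd' (Nat.one_le_pow _ _ hq.pos)).mp h1.symm
    have h2 := L4_dvd hp2 hq hqp ht' (by omega) hdvd
    have h3 : p ^ (n + 1 - t) ∣ o := by
      refine Nat.Coprime.dvd_of_dvd_mul_left ?_ h2
      exact Nat.Coprime.pow_left _ ((Nat.coprime_primes hp Nat.prime_two).mpr hp2)
    have h4 : p ^ (n + 1 - t) ≤ o := Nat.le_of_dvd (Nat.pos_of_ne_zero ho0) h3
    refine ⟨Nat.finite_of_card_ne_zero hc0, ?_⟩
    set N := Nat.card {P : Ideal (𝓞 F) // P.IsPrime ∧ (q : 𝓞 F) ∈ P} with hN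
    have h5 : N * p ^ (n + 1 - t) ≤ p ^ (n + 1) := by
      calc N * p ^ (n + 1 - t) ≤ N * o := Nat.mul_le_mul_left _ h4
        _ = Module.finrank ℚ F := hca
        _ ≤ 2 * Module.finrank ℚ F := by omega
        _ = (p ^ (n + 1)).totient := rc_card r
        _ ≤ p ^ (n + 1) := Nat.totient_le _
    have h6 : p ^ (n + 1) ≤ p ^ t * p ^ (n + 1 - t) := by
      rw [← pow_add]
      exact Nat.pow_le_pow_right hp.pos (by omega)
    exact Nat.le_of_mul_le_mul_right (h5.trans h6) (pow_pos hp.pos _)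

/-- The number of primes above `q` in a subfield. -/
lemma card_sub {L F : Type} [Field L] [NumberField L] [Field F] [NumberField F] [Algebra L F]
    {q : ℕ} (hfin : Finite {P : Ideal (𝓞 F) // P.IsPrime ∧ (q : 𝓞 F) ∈ P}) :
    {w : HeightOneSpectrum (𝓞 L) | (q : 𝓞 L) ∈ w.asIdeal}.ncard ≤
      Nat.card {P : Ideal (𝓞 F) // P.IsPrime ∧ (q : 𝓞 F) ∈ P} := by
  rw [← Nat.card_coe_set_eq]
  have hex : ∀ w : {w : HeightOneSpectrum (𝓞 L) | (q : 𝓞 L) ∈ w.asIdeal},
      ∃ P : {P : Ideal (𝓞 F) // P.IsPrime ∧ (q : 𝓞 F) ∈ P},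
        P.1.comap (algebraMap (𝓞 L) (𝓞 F)) = w.1.asIdeal := by
    intro w
    obtain ⟨⟨P, hP, hPo⟩⟩ := Ideal.nonempty_primesOver (S := 𝓞 F) w.1.asIdeal
    have h1 : P.comap (algebraMap (𝓞 L) (𝓞 F)) = w.1.asIdeal := hPo.over.symm
    refine ⟨⟨P, hP, ?_⟩, h1⟩
    have h2 : (q : 𝓞 L) ∈ P.comap (algebraMap (𝓞 L) (𝓞 F)) := by rw [h1]; exact w.2
    rw [Ideal.mem_comap, map_natCast] at h2
    exact h2
  choose P hP using hex
  refine Nat.card_le_card_of_injective P ?_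
  intro w w' h
  apply Subtype.ext
  apply HeightOneSpectrum.ext
  rw [← hP w, ← hP w', h]

theorem bad_count {p : ℕ} [Fact p.Prime] (hp2 : p ≠ 2) {D : ℤ} (hD : D ≠ 0) :
    ∃ s : ℕ, ∀ (L : Type) [Field L] [NumberField L], IsR p L →
      {w : HeightOneSpectrum (𝓞 L) | (D : 𝓞 L) ∈ w.asIdeal}.ncard ≤ s := by
  have hp : p.Prime := Fact.out
  have hD0 : D.natAbs ≠ 0 := Int.natAbs_ne_zero.mpr hD
  obtain ⟨t, ht⟩ := exists_val_bound (p := p) hD0
  refine ⟨D.natAbs.primeFactors.card * p ^ t, ?_⟩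
  intro L _ _ hL
  obtain ⟨n, M, F, _, _, _, _, _, _, _, ⟨Tw⟩⟩ := exists_tower (p := p) (K := L) hp2 hL (i := 0)
    (by rw [Module.finrank_self, pow_zero])
  have hsub : {w : HeightOneSpectrum (𝓞 L) | (D : 𝓞 L) ∈ w.asIdeal} ⊆
      ⋃ q ∈ D.natAbs.primeFactors, {w : HeightOneSpectrum (𝓞 L) | (q : 𝓞 L) ∈ w.asIdeal} := by
    intro w hw
    obtain ⟨q, hq, hqD, hqw⟩ := exists_prime_mem hD w hw
    exact Set.mem_biUnion (Nat.mem_primeFactors.mpr ⟨hq, hqD, hD0⟩) hqw
  have hfin : (⋃ q ∈ D.natAbs.primeFactors,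
      {w : HeightOneSpectrum (𝓞 L) | (q : 𝓞 L) ∈ w.asIdeal}).Finite := by
    refine Set.Finite.biUnion (Finset.finite_toSet _) fun q hq => ?_
    have hq0 : ((q : ℕ) : ℤ) ≠ 0 := by
      exact_mod_cast (Nat.prime_of_mem_primeFactors (Finset.mem_coe.mp hq)).ne_zero
    have := bad_fin (L := L) hq0
    simpa using this
  refine (Set.ncard_le_ncard hsub hfin).trans ((Finset.set_ncard_biUnion_le _ _).trans ?_)
  rw [← smul_eq_mul]
  refine Finset.sum_le_card_nsmul _ _ _ fun q hq => ?_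
  have hqp := Nat.prime_of_mem_primeFactors hq
  obtain ⟨hf, hc⟩ := card_q (t := t) hp2 Tw.rp.rL hqp (fun h => ht q hqp (Nat.dvd_of_mem_primeFactors hq) h)
  exact (card_sub hf).trans hc

/-- Growth of the two-Selmer group in the real cyclotomic towers. -/
theorem growth_tower (p : ℕ) [Fact p.Prime] (hp2 : p ≠ 2) (a b : ℤ) (ha : 0 < a) (hb : 0 < b)
    (hab : a ≠ b) (hst : ¬ StarTwo a b) :
    ∃ C : ℕ, ∀ (L : Type) [Field L] [NumberField L], IsR p L →
      ∀ (E : WeierstrassCurve L), E = ⟨0, -((a : L) + b), 0, (a : L) * b, 0⟩ →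
      ∀ (P : Finset E.toAffine.Point) (T : Finset ((AlgebraicClosure L ≃ₐ[L] AlgebraicClosure L) →
        (E.baseChange (AlgebraicClosure L)).toAffine.Point)),
      (∀ X : E.toAffine.Point, ∃ p ∈ P, ∃ S, X = p + (S + S)) →
      (∀ f, IsCocycle L E f → IsLocTriv L E f → IsCobound L E (fun σ => f σ + f σ) →
        ∃ t ∈ T, IsCobound L E (fun σ => f σ - t σ)) →
      2 ^ Module.finrank ℚ L ≤ C * (P.card * T.card) := by
  have hD : (2 * a * b * (b - a)) ≠ 0 :=
    mul_ne_zero (mul_ne_zero (mul_ne_zero two_ne_zero ha.ne') hb.ne') (sub_ne_zero.mpr hab.symm)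
  obtain ⟨s, hs⟩ := bad_count (p := p) hp2 hD
  refine ⟨8 ^ s, ?_⟩
  intro L _ _ hL E hE P T hP hT
  obtain ⟨n, M, F, _, _, _, _, _, _, _, ⟨Tw⟩⟩ := exists_tower (p := p) (K := L) hp2 hL (i := 0)
    (by rw [Module.finrank_self, pow_zero])
  have := hL.1
  have ea : ((a : 𝓞 L) : L) = (a : L) := map_intCast (algebraMap (𝓞 L) L) a
  have eb : ((b : 𝓞 L) : L) = (b : L) := map_intCast (algebraMap (𝓞 L) L) b
  have h : IsCub E 0 (a : L) (b : L) := by
    rw [hE]
    have h1 := isCub_legendre (K := L) (a := (a : 𝓞 L)) (b := (b : 𝓞 L)) (by exact_mod_cast ha.ne')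
      (by exact_mod_cast hb.ne') (by exact_mod_cast hab)
    rwa [ea, eb] at h1
  refine (growth ha hb hab hst (two_unramified hp2 Tw) h P hP T hT).trans ?_
  exact Nat.mul_le_mul_right _ (Nat.pow_le_pow_right (by norm_num) (hs L hL))

end Pool.Agent.H10
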