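import Pool.Agent.H10.Descent

/-!
Triviality of the two-primary part of the Tate-Shafarevich group is equivalent to the Hasse
principle for the intersections of two quadrics.
-/

set_option autoImplicit false
open scoped Classical

open WeierstrassCurve

namespace Pool.Agent.H10

variable {K : Type} [Field K] [NumberField K] {W : WeierstrassCurve K} {e₁ e₂ e₃ : K}

/-- The Hasse principle for the two-coverings of `y^2=(x-e₁)(x-e₂)(x-e₃)`. -/
def HasseTwo (K : Type) [Field K] [NumberField K] (e₁ e₂ e₃ : K) : Prop :=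
  ∀ d₁ d₂ d₃ c : K, d₁ * d₂ * d₃ = c ^ 2 → c ≠ 0 →
    (∀ v : IsDedekindDomain.HeightOneSpectrum (NumberField.RingOfIntegers K),
      CPt (algebraMap K (v.adicCompletion K) e₁) (algebraMap K (v.adicCompletion K) e₂)
        (algebraMap K (v.adicCompletion K) e₃) (algebraMap K (v.adicCompletion K) d₁)
        (algebraMap K (v.adicCompletion K) d₂) (algebraMap K (v.adicCompletion K) d₃)) →
    (∀ v : NumberField.InfinitePlace K,
      CPt (algebraMap K v.Completion e₁) (algebraMap K v.Completion e₂)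
        (algebraMap K v.Completion e₃) (algebraMap K v.Completion d₁)
        (algebraMap K v.Completion d₂) (algebraMap K v.Completion d₃)) →
    CPt e₁ e₂ e₃ d₁ d₂ d₃

instance charZero_adic (v : IsDedekindDomain.HeightOneSpectrum (NumberField.RingOfIntegers K)) :
    CharZero (v.adicCompletion K) :=
  charZero_of_injective_algebraMap (algebraMap K (v.adicCompletion K)).injective

instance charZero_inf (v : NumberField.InfinitePlace K) : CharZero v.Completion :=
  charZero_of_injective_algebraMap (algebraMap K v.Completion).injective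

lemma exists_embedding (K F : Type*) [Field K] [Field F] [Algebra K F] :
    Nonempty (AlgebraicClosure K →ₐ[K] AlgebraicClosure F) :=
  ⟨IsAlgClosed.lift⟩

omit [NumberField K] in
/-- A local point on the intersection of quadrics gives local triviality. -/
theorem local_of_cpt {F : Type*} [Field F] [CharZero F] [Algebra K F] {h : IsCub W e₁ e₂ e₃}
    {f : (AlgebraicClosure K ≃ₐ[K] AlgebraicClosure K) →
      (W.baseChange (AlgebraicClosure K)).toAffine.Point}
    {a : (AlgebraicClosure K ≃ₐ[K] AlgebraicClosure K) → ℤˣ × ℤˣ}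
    {r₁ r₂ r₃ : AlgebraicClosure K} {d₁ d₂ d₃ c : K}
    (T : Triple h f a 0 r₁ r₂ r₃ d₁ d₂ d₃ c)
    (ι : AlgebraicClosure K →ₐ[K] AlgebraicClosure F)
    (H : CPt (algebraMap K F e₁) (algebraMap K F e₂) (algebraMap K F e₃) (algebraMap K F d₁)
      (algebraMap K F d₂) (algebraMap K F d₃)) :
    ∃ P : (W.baseChange (AlgebraicClosure F)).toAffine.Point,
      ∀ τ : AlgebraicClosure F ≃ₐ[F] AlgebraicClosure F,
      ∀ σ : AlgebraicClosure K ≃ₐ[K] AlgebraicClosure K,
      (τ.toAlgHom.restrictScalars K).comp ι = ι.comp σ.toAlgHom →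
      (WeierstrassCurve.Affine.Point.map ι :
        (W.baseChange (AlgebraicClosure K)).toAffine.Point →+
          (W.baseChange (AlgebraicClosure F)).toAffine.Point) (f σ) =
        (WeierstrassCurve.Affine.Point.map (τ.toAlgHom.restrictScalars K) :
          (W.baseChange (AlgebraicClosure F)).toAffine.Point →+
            (W.baseChange (AlgebraicClosure F)).toAffine.Point) P - P := by
  have hq : ∀ (r : AlgebraicClosure K) (d : K), r ^ 2 = algebraMap K (AlgebraicClosure K) d →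
      (ι r) ^ 2 = algebraMap F (AlgebraicClosure F) (algebraMap K F d) := by
    intro r d hr
    rw [← map_pow, hr, ι.commutes, IsScalarTower.algebraMap_apply K F (AlgebraicClosure F)]
  have hn : ∀ r : AlgebraicClosure K, r ≠ 0 → ι r ≠ 0 := fun r hr h0 =>
    hr (by
      have : ι r = ι 0 := by rw [h0, map_zero]
      exact ι.injective this)
  obtain ⟨R, hR⟩ := bridge_mpr (K₀ := K) (k := F) (Ω := AlgebraicClosure F) h (hn _ T.n1)
    (hn _ T.n2) (hn _ T.n3) (hq _ _ T.q1) (hq _ _ T.q2) (hq _ _ T.q3) H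
  refine ⟨R, fun τ σ hσ => ?_⟩
  have hσ' : ∀ x, τ (ι x) = ι (σ x) := fun x => by
    have := congrArg (fun φ => φ x) hσ
    exact this
  have hsg : Sg (a σ) (τ.toAlgHom.restrictScalars K) (ι r₁) (ι r₂) (ι r₃) := by
    obtain ⟨s1, s2, s3⟩ := T.sg σ
    refine ⟨?_, ?_, ?_⟩
    · change τ (ι r₁) = _
      rw [hσ', s1, map_mul, map_intCast]
    · change τ (ι r₂) = _
      rw [hσ', s2, map_mul, map_intCast]
    · change τ (ι r₃) = _
      rw [hσ', s3, map_mul, map_intCast]
  have h2 : (Affine.Point.map ι : (W.baseChange (AlgebraicClosure K)).toAffine.Point →+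
      (W.baseChange (AlgebraicClosure F)).toAffine.Point)
      ((h.bc (Ω := AlgebraicClosure K)).tau (a σ)) =
      (h.bc (Ω := AlgebraicClosure F)).tau (a σ) := by
    unfold IsCub.tau
    split_ifs
    · exact map_zero _
    · unfold IsCub.T₂
      rw [Affine.Point.map_some, Affine.Point.some.injEq]
      exact ⟨ι.commutes _, map_zero _⟩
    · unfold IsCub.T₃
      rw [Affine.Point.map_some, Affine.Point.some.injEq]
      exact ⟨ι.commutes _, map_zero _⟩
    · unfold IsCub.T₁
      rw [Affine.Point.map_some, Affine.Point.some.injEq]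
      exact ⟨ι.commutes _, map_zero _⟩
  rw [T.hf σ, map_zero, sub_zero, zero_add, h2,
    hR (τ.toAlgHom.restrictScalars K) (fun y => τ.commutes y) (a σ) hsg]
  abel

theorem sha2Trivial_of_hasse (h : IsCub W e₁ e₂ e₃) (H : HasseTwo K e₁ e₂ e₃) :
    Sha2Trivial K W := by
  have key : ∀ f, IsCocycle K W f → IsLocTriv K W f → IsCobound K W (fun σ => f σ + f σ) →
      IsCobound K W f := by
    intro f hf hl h2
    obtain ⟨a, Q, r₁, r₂, r₃, d₁, d₂, d₃, c, T⟩ := exists_triple h f hf h2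
    apply T.cobound
    refine H d₁ d₂ d₃ c T.hd T.hc ?_ ?_
    · intro v
      obtain ⟨ι⟩ := exists_embedding K (v.adicCompletion K)
      exact T.local_cpt ι (hl.1 v ι)
    · intro v
      obtain ⟨ι⟩ := exists_embedding K v.Completion
      exact T.local_cpt ι (hl.2 v ι)
  -- multiples of locally trivial cocycles
  have hmul : ∀ (m : ℕ) (f : (AlgebraicClosure K ≃ₐ[K] AlgebraicClosure K) →
      (W.baseChange (AlgebraicClosure K)).toAffine.Point), IsCocycle K W f → IsLocTriv K W f →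
      IsCocycle K W (fun σ => m • f σ) ∧ IsLocTriv K W (fun σ => m • f σ) := by
    intro m f hf hl
    refine ⟨⟨hf.1.comp (fun P => m • P), ?_⟩, ?_, ?_⟩
    · intro σ τ
      change m • f (σ * τ) = m • f σ + _
      rw [hf.2 σ τ, nsmul_add]
      exact congrArg _ (map_nsmul _ _ _).symm
    · intro v ι
      obtain ⟨P, hP⟩ := hl.1 v ι
      refine ⟨m • P, fun τ σ hσ => ?_⟩
      rw [map_nsmul, map_nsmul, hP τ σ hσ, nsmul_sub]
    · intro v ι
      obtain ⟨P, hP⟩ := hl.2 v ι
      refine ⟨m • P, fun τ σ hσ => ?_⟩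
      rw [map_nsmul, map_nsmul, hP τ σ hσ, nsmul_sub]
  rintro f hf hl ⟨m, hm⟩
  induction m with
  | zero => simpa using hm
  | succ m ih =>
    apply ih
    obtain ⟨h1, h2⟩ := hmul (2 ^ m) f hf hl
    apply key _ h1 h2
    have : (fun σ => (2 ^ m) • f σ + (2 ^ m) • f σ) = (fun σ => (2 ^ (m + 1)) • f σ) := by
      funext σ
      rw [← two_nsmul, ← mul_nsmul, pow_succ]
    rw [this]
    exact hm

lemma Sg.unique {Ω : Type*} [Field Ω] (two : (2 : Ω) ≠ 0) {a b : ℤˣ × ℤˣ} {σ : Ω → Ω}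
    {r₁ r₂ r₃ : Ω} (n2 : r₂ ≠ 0) (n3 : r₃ ≠ 0) (h : Sg a σ r₁ r₂ r₃) (h' : Sg b σ r₁ r₂ r₃) :
    a = b := by
  have inj : ∀ u v : ℤˣ, ((u : ℤ) : Ω) = ((v : ℤ) : Ω) → u = v := by
    intro u v huv
    rcases Int.units_eq_one_or u with rfl | rfl <;> rcases Int.units_eq_one_or v with rfl | rfl
    · rfl
    · exfalso; apply two; simp at huv; linear_combination huv
    · exfalso; apply two; simp at huv; linear_combination -huv
    · rfl
  have e1 := h.2.1.symm.trans h'.2.1
  have e2 := h.2.2.symm.trans h'.2.2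
  exact Prod.ext (inj _ _ (mul_right_cancel₀ n2 e1)) (inj _ _ (mul_right_cancel₀ n3 e2))

/-- From an everywhere locally soluble triple to a locally trivial cocycle. -/
theorem exists_sha_of_triple (h : IsCub W e₁ e₂ e₃) {d₁ d₂ d₃ c : K} (hd : d₁ * d₂ * d₃ = c ^ 2)
    (hc : c ≠ 0)
    (hfin : ∀ v : IsDedekindDomain.HeightOneSpectrum (NumberField.RingOfIntegers K),
      CPt (algebraMap K (v.adicCompletion K) e₁) (algebraMap K (v.adicCompletion K) e₂)
        (algebraMap K (v.adicCompletion K) e₃) (algebraMap K (v.adicCompletion K) d₁)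
        (algebraMap K (v.adicCompletion K) d₂) (algebraMap K (v.adicCompletion K) d₃))
    (hinf : ∀ v : NumberField.InfinitePlace K,
      CPt (algebraMap K v.Completion e₁) (algebraMap K v.Completion e₂)
        (algebraMap K v.Completion e₃) (algebraMap K v.Completion d₁)
        (algebraMap K v.Completion d₂) (algebraMap K v.Completion d₃)) :
    ∃ f a r₁ r₂ r₃, IsCocycle K W f ∧ IsLocTriv K W f ∧ (∀ σ, f σ + f σ = 0) ∧
      Triple h f a 0 r₁ r₂ r₃ d₁ d₂ d₃ c := by
  have hdn : d₁ * d₂ * d₃ ≠ 0 := by rw [hd]; exact pow_ne_zero 2 hc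
  have hd1 : d₁ ≠ 0 := fun h => hdn (by rw [h]; ring)
  have hd2 : d₂ ≠ 0 := fun h => hdn (by rw [h]; ring)
  have hd3 : d₃ ≠ 0 := fun h => hdn (by rw [h]; ring)
  have hb := h.bc (Ω := AlgebraicClosure K)
  obtain ⟨r₁, n1, q1⟩ := exists_sqrt (AlgebraicClosure K) hd1
  obtain ⟨r₂, n2, q2⟩ := exists_sqrt (AlgebraicClosure K) hd2
  obtain ⟨r₃, n3, q3⟩ := exists_sqrt (AlgebraicClosure K) hd3
  have hex : ∀ σ : AlgebraicClosure K ≃ₐ[K] AlgebraicClosure K, ∃ a, Sg a σ r₁ r₂ r₃ :=
    fun σ => exists_sg σ (fun y => σ.commutes y) n1 n2 n3 q1 q2 q3 hd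
  choose a ha using hex
  have hmul : ∀ σ τ, a (σ * τ) = a σ * a τ := by
    intro σ τ
    refine Sg.unique hb.two n2 n3 (ha (σ * τ)) ?_
    obtain ⟨s1, s2, s3⟩ := ha σ
    obtain ⟨t1, t2, t3⟩ := ha τ
    refine ⟨?_, ?_, ?_⟩
    · rw [AlgEquiv.mul_apply, t1, map_mul, map_intCast, s1]
      simp only [Prod.fst_mul, Prod.snd_mul, units_cast_mul]
      ring
    · rw [AlgEquiv.mul_apply, t2, map_mul, map_intCast, s2]
      simp only [Prod.fst_mul, units_cast_mul]
      ring
    · rw [AlgEquiv.mul_apply, t3, map_mul, map_intCast, s3]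
      simp only [Prod.snd_mul, units_cast_mul]
      ring
  have haloc : IsLocallyConstant a := by
    rw [IsLocallyConstant.iff_exists_open]
    intro σ
    have h1 := stabilizer_isOpen_of_isIntegral (K := K) (L := AlgebraicClosure K) r₁
    have h2 := stabilizer_isOpen_of_isIntegral (K := K) (L := AlgebraicClosure K) r₂
    have h3 := stabilizer_isOpen_of_isIntegral (K := K) (L := AlgebraicClosure K) r₃
    refine ⟨(fun τ => σ⁻¹ * τ) ⁻¹'
      ((MulAction.stabilizer (AlgebraicClosure K ≃ₐ[K] AlgebraicClosure K) r₁ :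
          Set (AlgebraicClosure K ≃ₐ[K] AlgebraicClosure K)) ∩
       (MulAction.stabilizer (AlgebraicClosure K ≃ₐ[K] AlgebraicClosure K) r₂ :
          Set (AlgebraicClosure K ≃ₐ[K] AlgebraicClosure K)) ∩
       (MulAction.stabilizer (AlgebraicClosure K ≃ₐ[K] AlgebraicClosure K) r₃ :
          Set (AlgebraicClosure K ≃ₐ[K] AlgebraicClosure K))),
      ((h1.inter h2).inter h3).preimage (continuous_const_mul σ⁻¹), ?_, ?_⟩
    · simp
    · rintro τ ⟨⟨k1, k2⟩, k3⟩
      have mv : ∀ r : AlgebraicClosure K, (σ⁻¹ * τ) r = r → τ r = σ r := by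
        intro r hr
        have : σ ((σ⁻¹ * τ) r) = σ r := by rw [hr]
        rw [← AlgEquiv.mul_apply, mul_inv_cancel_left] at this
        exact this
      refine Sg.unique hb.two n2 n3 (ha τ) ?_
      obtain ⟨s1, s2, s3⟩ := ha σ
      exact ⟨by rw [mv r₁ k1, s1], by rw [mv r₂ k2, s2], by rw [mv r₃ k3, s3]⟩
  have T : Triple h (fun σ => hb.tau (a σ)) a 0 r₁ r₂ r₃ d₁ d₂ d₃ c :=
    ⟨n1, n2, n3, q1, q2, q3, hc, hd, ha, fun σ => by rw [map_zero, sub_zero, zero_add]⟩
  refine ⟨fun σ => hb.tau (a σ), a, r₁, r₂, r₃, ⟨haloc.comp hb.tau, ?_⟩, ⟨?_, ?_⟩,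
    fun σ => hb.tau_add_self _, T⟩
  · intro σ τ
    change hb.tau (a (σ * τ)) = hb.tau (a σ) + _
    rw [h.map_tau, hmul, hb.tau_add]
  · intro v ι
    exact local_of_cpt T ι (hfin v)
  · intro v ι
    exact local_of_cpt T ι (hinf v)

theorem cpt_of_sha2Trivial (h : IsCub W e₁ e₂ e₃) (hS : Sha2Trivial K W) :
    HasseTwo K e₁ e₂ e₃ := by
  intro d₁ d₂ d₃ c hd hc hfin hinf
  obtain ⟨f, a, r₁, r₂, r₃, hf, hl, h2, T⟩ := exists_sha_of_triple h hd hc hfin hinf
  apply T.cpt
  apply hS f hf hl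
  refine ⟨1, 0, fun σ => ?_⟩
  change 2 ^ 1 • f σ = _
  rw [pow_one, two_nsmul, h2, map_zero, sub_zero]

end Pool.Agent.H10
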