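import Mathlib

/-!
Local algebra at the prime two for `y^2 = x (x - a) (x - b)`.
-/

set_option autoImplicit false

namespace Pool.Agent.H10

/-- The admissible residues modulo four of the pair `(a, b)`. -/
def Adm (a b : ℤ) : Prop :=
  (a % 4 = 0 ∧ b % 2 = 1) ∨ (a % 4 = 2 ∧ b % 4 = 1) ∨
  (b % 4 = 0 ∧ a % 2 = 1) ∨ (b % 4 = 2 ∧ a % 4 = 1) ∨
  (a % 4 = 1 ∧ b % 4 = 3) ∨ (a % 4 = 3 ∧ b % 4 = 1) ∨
  (a % 4 = 2 ∧ b % 4 = 0) ∨ (a % 4 = 0 ∧ b % 4 = 2)

/-- The extra residues allowed when the degree is prime to three. -/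
def Adm' (a b : ℤ) : Prop := (a % 4 = 2 ∧ b % 4 = 3) ∨ (a % 4 = 3 ∧ b % 4 = 2)

section

variable {R : Type*} [CommRing R]

lemma fin_sq (hu : ∀ x : R, ¬ (2 : R) ∣ x → IsUnit x) {ε u t : R} (h2u : ¬ (2 : R) ∣ u)
    (h : (4 : R) ∣ ε * u ^ 2 - t ^ 2 ∨ (4 : R) ∣ ε * u ^ 2 + t ^ 2) :
    ∃ s : R, (4 : R) ∣ ε - s ^ 2 ∨ (4 : R) ∣ ε + s ^ 2 := by
  obtain ⟨w, hw⟩ := (hu u h2u).exists_right_inv
  refine ⟨t * w, ?_⟩
  rcases h with ⟨q, hq⟩ | ⟨q, hq⟩
  · left
    exact ⟨q * w ^ 2, by linear_combination w ^ 2 * hq + (ε * (-(u * w) - 1)) * hw⟩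
  · right
    exact ⟨q * w ^ 2, by linear_combination w ^ 2 * hq + (ε * (-(u * w) - 1)) * hw⟩

lemma two_dvd_of_sq (h2 : Prime (2 : R)) {x : R} (h : (2 : R) ∣ x ^ 2) : (2 : R) ∣ x :=
  h2.dvd_of_dvd_pow h

lemma two_dvd_sub_of_sq (h2 : Prime (2 : R)) {x y : R} (h : (2 : R) ∣ x ^ 2 - y ^ 2) :
    (2 : R) ∣ x - y := by
  apply two_dvd_of_sq h2
  obtain ⟨q, hq⟩ := h
  exact ⟨q + y ^ 2 - x * y, by linear_combination hq⟩

variable [IsDomain R]

lemma not_four_dvd_two (h2 : Prime (2 : R)) : ¬ (4 : R) ∣ 2 := by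
  rintro ⟨q, hq⟩
  have h0 : (2 : R) ≠ 0 := h2.ne_zero
  have : (2 : R) * (2 * q) = 2 * 1 := by linear_combination -hq
  have h1 := mul_left_cancel₀ h0 this
  exact h2.not_isUnit (IsUnit.of_mul_eq_one _ h1)

/-- The main local computation. -/
lemma local_two_aux (h2 : Prime (2 : R)) (hu : ∀ x : R, ¬ (2 : R) ∣ x → IsUnit x)
    (P3 : ∀ x : R, ¬ (2 : R) ∣ x ^ 2 + x + 1)
    {a b : ℤ} {ε : R} (hε : ¬ (2 : R) ∣ ε)
    (hab : (a % 4 = 0 ∧ b % 2 = 1) ∨ (a % 4 = 2 ∧ b % 4 = 1) ∨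
      (a % 4 = 1 ∧ b % 4 = 3) ∨ (a % 4 = 2 ∧ b % 4 = 0) ∨
      ((a % 4 = 2 ∧ b % 4 = 3) ∧ ∀ x : R, ¬ (2 : R) ∣ x ^ 3 + x ^ 2 + 1))
    {c u v : R} (E1 : c ^ 2 = ε * u ^ 2 + a) (E2 : c ^ 2 = ε * v ^ 2 + b) :
    ∃ s : R, (4 : R) ∣ ε - s ^ 2 ∨ (4 : R) ∣ ε + s ^ 2 := by
  -- decompositions of `a`, `b`
  have ha : (a : R) = 4 * ((a / 4 : ℤ) : R) + ((a % 4 : ℤ) : R) := by
    rw [← Int.cast_ofNat, ← Int.cast_mul, ← Int.cast_add, Int.mul_ediv_add_emod]
  have hb : (b : R) = 4 * ((b / 4 : ℤ) : R) + ((b % 4 : ℤ) : R) := by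
    rw [← Int.cast_ofNat, ← Int.cast_mul, ← Int.cast_add, Int.mul_ediv_add_emod]
  generalize ((a / 4 : ℤ) : R) = a' at ha
  generalize ((b / 4 : ℤ) : R) = b' at hb
  have h20 : (2 : R) ≠ 0 := h2.ne_zero
  have div_eps : ∀ x : R, (2 : R) ∣ ε * x ^ 2 → (2 : R) ∣ x := by
    intro x hx
    rcases h2.dvd_or_dvd hx with h | h
    · exact absurd h hε
    · exact two_dvd_of_sq h2 h
  have hK : (c ^ 2 - a) * v ^ 2 = (c ^ 2 - b) * u ^ 2 := by
    linear_combination v ^ 2 * E1 - u ^ 2 * E2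
  rcases hab with ⟨ha4, hb2⟩ | ⟨ha4, hb4⟩ | ⟨ha4, hb4⟩ | ⟨ha4, hb4⟩ | ⟨⟨ha4, hb4⟩, P7⟩
  · -- a = 0 mod 4, b odd
    rw [ha4, Int.cast_zero, add_zero] at ha
    by_cases hc : (2 : R) ∣ c
    · -- v is a unit
      have hb4 : b % 4 = 1 ∨ b % 4 = 3 := by omega
      obtain ⟨c', rfl⟩ := hc
      have hv : ¬ (2 : R) ∣ v := by
        rintro ⟨v', rfl⟩
        rcases hb4 with hb4 | hb4
        · rw [hb4] at hb
          push_cast at hb
          apply h2.not_dvd_one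
          exact ⟨2 * c' ^ 2 - 2 * ε * v' ^ 2 - 2 * b', by linear_combination -E2 - hb⟩
        · rw [hb4] at hb
          push_cast at hb
          apply h2.not_dvd_one
          exact ⟨2 * c' ^ 2 - 2 * ε * v' ^ 2 - 2 * b' - 1, by linear_combination -E2 - hb⟩
      rcases hb4 with hb4 | hb4
      · rw [hb4] at hb
        push_cast at hb
        refine fin_sq hu hv (t := 1) (Or.inr ⟨c' ^ 2 - b', ?_⟩)
        linear_combination -E2 - hb
      · rw [hb4] at hb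
        push_cast at hb
        refine fin_sq hu hv (t := 1) (Or.inl ⟨c' ^ 2 - b' - 1, ?_⟩)
        linear_combination -E2 - hb
    · have hun : ¬ (2 : R) ∣ u := by
        rintro ⟨u', rfl⟩
        apply hc
        apply two_dvd_of_sq h2
        exact ⟨2 * ε * u' ^ 2 + 2 * a', by linear_combination E1 + ha⟩
      refine fin_sq hu hun (t := c) (Or.inl ⟨-a', ?_⟩)
      linear_combination -E1 - ha
  · -- a = 2, b = 1 mod 4
    rw [ha4] at ha
    rw [hb4] at hb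
    push_cast at ha hb
    by_cases hc : (2 : R) ∣ c
    · obtain ⟨c', rfl⟩ := hc
      have hv : ¬ (2 : R) ∣ v := by
        rintro ⟨v', rfl⟩
        apply h2.not_dvd_one
        exact ⟨2 * c' ^ 2 - 2 * ε * v' ^ 2 - 2 * b', by linear_combination -E2 - hb⟩
      refine fin_sq hu hv (t := 1) (Or.inr ⟨c' ^ 2 - b', ?_⟩)
      linear_combination -E2 - hb
    · have hun : ¬ (2 : R) ∣ u := by
        rintro ⟨u', rfl⟩
        apply hc
        apply two_dvd_of_sq h2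
        exact ⟨2 * ε * u' ^ 2 + 2 * a' + 1, by linear_combination E1 + ha⟩
      by_cases hc1 : (2 : R) ∣ c - 1
      · obtain ⟨g, hg⟩ := hc1
        have hcg : c = 1 + 2 * g := by linear_combination hg
        refine fin_sq hu hun (t := 1) (Or.inr ⟨g + g ^ 2 - a', ?_⟩)
        rw [hcg] at E1
        linear_combination -E1 - ha
      · exfalso
        have hk : (2 : R) ∣ (c * v) ^ 2 - ((c - 1) * u) ^ 2 := by
          refine ⟨(2 * a' + 1) * v ^ 2 + (c - 1 - 2 * b') * u ^ 2, ?_⟩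
          linear_combination hK + v ^ 2 * ha - u ^ 2 * hb
        obtain ⟨κ, hκ⟩ := two_dvd_sub_of_sq h2 hk
        have hcv : c * v = (c - 1) * u + 2 * κ := by linear_combination hκ
        have hfin : (2 : R) ∣ u ^ 2 * ((c - 1) * (c ^ 2 + c - 1)) := by
          refine ⟨(c ^ 2 - a) * (κ * (c - 1) * u + κ ^ 2) -
            u ^ 2 * (a' * (c - 1) ^ 2 - b' * c ^ 2), ?_⟩
          apply mul_left_cancel₀ h20
          have h1 : (c ^ 2 - a) * (c * v) ^ 2 = c ^ 2 * (c ^ 2 - b) * u ^ 2 := by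
            linear_combination c ^ 2 * hK
          rw [hcv] at h1
          rw [ha, hb] at h1
          rw [ha]
          linear_combination -h1
        rcases h2.dvd_or_dvd hfin with h | h
        · exact hun (two_dvd_of_sq h2 h)
        · rcases h2.dvd_or_dvd h with h | h
          · exact hc1 h
          · obtain ⟨q, hq⟩ := h
            exact P3 c ⟨q + 1, by linear_combination hq⟩
  · -- a = 1, b = 3 mod 4
    rw [ha4] at ha
    rw [hb4] at hb
    push_cast at ha hb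
    by_cases hc : (2 : R) ∣ c
    · obtain ⟨c', rfl⟩ := hc
      have hun : ¬ (2 : R) ∣ u := by
        rintro ⟨u', rfl⟩
        apply h2.not_dvd_one
        exact ⟨2 * c' ^ 2 - 2 * ε * u' ^ 2 - 2 * a', by linear_combination -E1 - ha⟩
      refine fin_sq hu hun (t := 1) (Or.inr ⟨c' ^ 2 - a', ?_⟩)
      linear_combination -E1 - ha
    · exfalso
      by_cases hc1 : (2 : R) ∣ c - 1
      · obtain ⟨g, hg⟩ := hc1
        have hcg : c = 1 + 2 * g := by linear_combination hg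
        rw [hcg] at E2
        have hv : (2 : R) ∣ v := by
          apply div_eps
          exact ⟨2 * g + 2 * g ^ 2 - 2 * b' - 1, by linear_combination -E2 - hb⟩
        obtain ⟨v', rfl⟩ := hv
        apply not_four_dvd_two h2
        exact ⟨g + g ^ 2 - b' - ε * v' ^ 2, by linear_combination -E2 - hb⟩
      · have hk : (2 : R) ∣ ((c + 1) * v) ^ 2 - ((c + 1) * u) ^ 2 := by
          refine ⟨(c + 1 + 2 * a') * v ^ 2 - (c + 2 + 2 * b') * u ^ 2, ?_⟩
          linear_combination hK + v ^ 2 * ha - u ^ 2 * hb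
        have hk2 := two_dvd_sub_of_sq h2 hk
        rw [← mul_sub] at hk2
        rcases h2.dvd_or_dvd hk2 with h | ⟨κ, hκ⟩
        · obtain ⟨q, hq⟩ := h
          exact hc1 ⟨q - 1, by linear_combination hq⟩
        · have hvu : v = u + 2 * κ := by linear_combination hκ
          rw [hvu] at E2
          apply not_four_dvd_two h2
          exact ⟨a' - b' - ε * (κ * u + κ ^ 2), by linear_combination E1 - E2 + ha - hb⟩
  · -- a = 2, b = 0 mod 4
    rw [ha4] at ha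
    rw [hb4] at hb
    push_cast at ha hb
    by_cases hc : (2 : R) ∣ c
    · exfalso
      obtain ⟨c', rfl⟩ := hc
      have hun : (2 : R) ∣ u := by
        apply div_eps
        exact ⟨2 * c' ^ 2 - 2 * a' - 1, by linear_combination -E1 - ha⟩
      obtain ⟨u', rfl⟩ := hun
      apply not_four_dvd_two h2
      exact ⟨c' ^ 2 - a' - ε * u' ^ 2, by linear_combination -E1 - ha⟩
    · have hv : ¬ (2 : R) ∣ v := by
        rintro ⟨v', rfl⟩
        apply hc
        apply two_dvd_of_sq h2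
        exact ⟨2 * ε * v' ^ 2 + 2 * b', by linear_combination E2 + hb⟩
      refine fin_sq hu hv (t := c) (Or.inl ⟨-b', ?_⟩)
      linear_combination -E2 - hb
  · -- a = 2, b = 3 mod 4
    rw [ha4] at ha
    rw [hb4] at hb
    push_cast at ha hb
    by_cases hc : (2 : R) ∣ c
    · obtain ⟨c', rfl⟩ := hc
      have hv : ¬ (2 : R) ∣ v := by
        rintro ⟨v', rfl⟩
        apply h2.not_dvd_one
        exact ⟨2 * c' ^ 2 - 2 * ε * v' ^ 2 - 2 * b' - 1, by linear_combination -E2 - hb⟩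
      refine fin_sq hu hv (t := 1) (Or.inl ⟨c' ^ 2 - b' - 1, ?_⟩)
      linear_combination -E2 - hb
    · have hun : ¬ (2 : R) ∣ u := by
        rintro ⟨u', rfl⟩
        apply hc
        apply two_dvd_of_sq h2
        exact ⟨2 * ε * u' ^ 2 + 2 * a' + 1, by linear_combination E1 + ha⟩
      by_cases hc1 : (2 : R) ∣ c - 1
      · obtain ⟨g, hg⟩ := hc1
        have hcg : c = 1 + 2 * g := by linear_combination hg
        refine fin_sq hu hun (t := 1) (Or.inr ⟨g + g ^ 2 - a', ?_⟩)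
        rw [hcg] at E1
        linear_combination -E1 - ha
      · exfalso
        have hk : (2 : R) ∣ (c * v) ^ 2 - ((c + 1) * u) ^ 2 := by
          refine ⟨(2 * a' + 1) * v ^ 2 - (c + 2 + 2 * b') * u ^ 2, ?_⟩
          linear_combination hK + v ^ 2 * ha - u ^ 2 * hb
        obtain ⟨κ, hκ⟩ := two_dvd_sub_of_sq h2 hk
        have hcv : c * v = (c + 1) * u + 2 * κ := by linear_combination hκ
        have hfin : (2 : R) ∣ u ^ 2 * (c ^ 3 + c ^ 2 - 2 * c - 1) := by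
          refine ⟨-(c ^ 2 - a) * (κ * (c + 1) * u + κ ^ 2) +
            u ^ 2 * (a' * (c + 1) ^ 2 - b' * c ^ 2), ?_⟩
          apply mul_left_cancel₀ h20
          have h1 : (c ^ 2 - a) * (c * v) ^ 2 = c ^ 2 * (c ^ 2 - b) * u ^ 2 := by
            linear_combination c ^ 2 * hK
          rw [hcv] at h1
          rw [ha, hb] at h1
          rw [ha]
          linear_combination h1
        rcases h2.dvd_or_dvd hfin with h | h
        · exact hun (two_dvd_of_sq h2 h)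
        · obtain ⟨q, hq⟩ := h
          exact P7 c ⟨q + c + 1, by linear_combination hq⟩

/-- The local computation with homogeneous coordinates and all admissible residues. -/
lemma local_two (h2 : Prime (2 : R)) (hu : ∀ x : R, ¬ (2 : R) ∣ x → IsUnit x)
    (P3 : ∀ x : R, ¬ (2 : R) ∣ x ^ 2 + x + 1)
    {a b : ℤ} {ε : R} (hε : ¬ (2 : R) ∣ ε)
    (hab : Adm a b ∨ (Adm' a b ∧ ∀ x : R, ¬ (2 : R) ∣ x ^ 3 + x ^ 2 + 1))
    {z₀ z₁ z₂ z₃ : R} (hz : ¬ ((2 : R) ∣ z₀ ∧ (2 : R) ∣ z₁ ∧ (2 : R) ∣ z₂ ∧ (2 : R) ∣ z₃))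
    (E1 : z₁ ^ 2 = ε * z₂ ^ 2 + a * z₀ ^ 2) (E2 : z₁ ^ 2 = ε * z₃ ^ 2 + b * z₀ ^ 2) :
    ∃ s : R, (4 : R) ∣ ε - s ^ 2 ∨ (4 : R) ∣ ε + s ^ 2 := by
  by_cases h0 : (2 : R) ∣ z₀
  · obtain ⟨w, rfl⟩ := h0
    have div_eps : ∀ x : R, (2 : R) ∣ ε * x ^ 2 → (2 : R) ∣ x := by
      intro x hx
      rcases h2.dvd_or_dvd hx with h | h
      · exact absurd h hε
      · exact two_dvd_of_sq h2 h
    have h1 : ¬ (2 : R) ∣ z₁ := by
      rintro ⟨w1, rfl⟩
      apply hz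
      refine ⟨⟨w, rfl⟩, ⟨w1, rfl⟩, ?_, ?_⟩
      · apply div_eps
        exact ⟨2 * w1 ^ 2 - 2 * a * w ^ 2, by linear_combination -E1⟩
      · apply div_eps
        exact ⟨2 * w1 ^ 2 - 2 * b * w ^ 2, by linear_combination -E2⟩
    have h3 : ¬ (2 : R) ∣ z₂ := by
      rintro ⟨w1, rfl⟩
      apply h1
      apply two_dvd_of_sq h2
      exact ⟨2 * ε * w1 ^ 2 + 2 * a * w ^ 2, by linear_combination E1⟩
    refine fin_sq hu h3 (t := z₁) (Or.inl ⟨-a * w ^ 2, ?_⟩)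
    linear_combination -E1
  · obtain ⟨w, hw⟩ := (hu z₀ h0).exists_right_inv
    have F1 : (z₁ * w) ^ 2 = ε * (z₂ * w) ^ 2 + a := by
      linear_combination w ^ 2 * E1 + (a * (z₀ * w + 1)) * hw
    have F2 : (z₁ * w) ^ 2 = ε * (z₃ * w) ^ 2 + b := by
      linear_combination w ^ 2 * E2 + (b * (z₀ * w + 1)) * hw
    rcases hab with h | ⟨h, P7⟩
    · rcases h with h | h | h | h | h | h | h | h
      · exact local_two_aux h2 hu P3 hε (Or.inl h) F1 F2
      · exact local_two_aux h2 hu P3 hε (Or.inr (Or.inl h)) F1 F2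
      · exact local_two_aux h2 hu P3 hε (Or.inl h) F2 F1
      · exact local_two_aux h2 hu P3 hε (Or.inr (Or.inl h)) F2 F1
      · exact local_two_aux h2 hu P3 hε (Or.inr (Or.inr (Or.inl h))) F1 F2
      · exact local_two_aux h2 hu P3 hε (Or.inr (Or.inr (Or.inl ⟨h.2, h.1⟩))) F2 F1
      · exact local_two_aux h2 hu P3 hε (Or.inr (Or.inr (Or.inr (Or.inl h)))) F1 F2
      · exact local_two_aux h2 hu P3 hε (Or.inr (Or.inr (Or.inr (Or.inl ⟨h.2, h.1⟩)))) F2 F1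
    · rcases h with h | h
      · exact local_two_aux h2 hu P3 hε (Or.inr (Or.inr (Or.inr (Or.inr ⟨h, P7⟩)))) F1 F2
      · exact local_two_aux h2 hu P3 hε
          (Or.inr (Or.inr (Or.inr (Or.inr ⟨⟨h.2, h.1⟩, P7⟩)))) F2 F1

end

end Pool.Agent.H10
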