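import Pool.Agent.H10.Bridge3

/-!
Real places.
-/

set_option autoImplicit false

open NumberField

namespace Pool.Agent.H10

lemma CPt.map {k k' : Type*} [Field k] [Field k'] (f : k →+* k') {e₁ e₂ e₃ d₁ d₂ d₃ : k}
    (H : CPt e₁ e₂ e₃ d₁ d₂ d₃) : CPt (f e₁) (f e₂) (f e₃) (f d₁) (f d₂) (f d₃) := by
  obtain ⟨z₀, z₁, z₂, z₃, hz, E1, E2⟩ := H
  refine ⟨f z₀, f z₁, f z₂, f z₃, ?_, ?_, ?_⟩
  · simpa only [Ne, map_eq_zero] using hz
  · have := congrArg f E1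
    simpa only [map_add, map_mul, map_pow] using this
  · have := congrArg f E2
    simpa only [map_add, map_mul, map_pow] using this

/-- Multiplying the `d`'s by nonzero squares. -/
lemma CPt.sq_mul {k : Type*} [Field k] {e₁ e₂ e₃ d₁ d₂ d₃ s₁ s₂ s₃ : k} (h1 : s₁ ≠ 0)
    (h2 : s₂ ≠ 0) (h3 : s₃ ≠ 0) (H : CPt e₁ e₂ e₃ d₁ d₂ d₃) :
    CPt e₁ e₂ e₃ (d₁ * s₁ ^ 2) (d₂ * s₂ ^ 2) (d₃ * s₃ ^ 2) := by
  obtain ⟨z₀, z₁, z₂, z₃, hz, E1, E2⟩ := H
  refine ⟨z₀, z₁ / s₁, z₂ / s₂, z₃ / s₃, ?_, ?_, ?_⟩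
  · rcases hz with h | h | h | h
    · exact Or.inl h
    · exact Or.inr (Or.inl (div_ne_zero h h1))
    · exact Or.inr (Or.inr (Or.inl (div_ne_zero h h2)))
    · exact Or.inr (Or.inr (Or.inr (div_ne_zero h h3)))
  · field_simp
    linear_combination E1
  · field_simp
    linear_combination E2

lemma real_mp {e₁ e₂ e₃ d₁ d₂ d₃ c : ℝ} (h12 : e₁ < e₂) (h13 : e₁ < e₃)
    (hd : d₁ * d₂ * d₃ = c ^ 2) (hc : c ≠ 0) (H : CPt e₁ e₂ e₃ d₁ d₂ d₃) :
    0 < d₁ ∧ 0 < d₂ * d₃ := by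
  have hpos : 0 < d₁ * (d₂ * d₃) := by
    rw [← mul_assoc, hd]; positivity
  obtain ⟨z₀, z₁, z₂, z₃, hz, E1, E2⟩ := H
  have h1 : 0 < d₁ := by
    by_contra hneg
    rw [not_lt] at hneg
    have hd1 : d₁ < 0 := by
      rcases hneg.lt_or_eq with h | h
      · exact h
      · rw [h, zero_mul] at hpos; exact absurd hpos (lt_irrefl _)
    have h23 : d₂ * d₃ < 0 := by
      by_contra h
      rw [not_lt] at h
      nlinarith
    have hs0 := sq_nonneg z₀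
    have hs1 := sq_nonneg z₁
    have hs2 := sq_nonneg z₂
    have hs3 := sq_nonneg z₃
    have key : z₀ ^ 2 = 0 ∧ z₁ ^ 2 = 0 ∧ z₂ ^ 2 = 0 ∧ z₃ ^ 2 = 0 := by
      have a1 : d₁ * z₁ ^ 2 ≤ 0 := mul_nonpos_of_nonpos_of_nonneg hd1.le hs1
      rcases lt_or_gt_of_ne (show d₂ ≠ 0 by rintro rfl; rw [zero_mul] at h23; exact lt_irrefl _ h23)
        with h2 | h2
      · have h3 : 0 < d₃ := by
          by_contra h; rw [not_lt] at h; nlinarith [mul_nonneg_of_nonpos_of_nonpos h2.le h]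
        have b1 : 0 ≤ d₃ * z₃ ^ 2 := mul_nonneg h3.le hs3
        have b2 : 0 ≤ (e₃ - e₁) * z₀ ^ 2 := mul_nonneg (by linarith) hs0
        have c0 : (e₃ - e₁) * z₀ ^ 2 = 0 := by nlinarith
        have c3 : d₃ * z₃ ^ 2 = 0 := by nlinarith
        have c1 : d₁ * z₁ ^ 2 = 0 := by nlinarith
        have k0 : z₀ ^ 2 = 0 := (mul_eq_zero.mp c0).resolve_left (by linarith)
        have k3 : z₃ ^ 2 = 0 := (mul_eq_zero.mp c3).resolve_left h3.ne'
        have k1 : z₁ ^ 2 = 0 := (mul_eq_zero.mp c1).resolve_left hd1.ne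
        refine ⟨k0, k1, ?_, k3⟩
        rw [k0, k1] at E1
        have : d₂ * z₂ ^ 2 = 0 := by linarith
        exact (mul_eq_zero.mp this).resolve_left h2.ne
      · have b1 : 0 ≤ d₂ * z₂ ^ 2 := mul_nonneg h2.le hs2
        have b2 : 0 ≤ (e₂ - e₁) * z₀ ^ 2 := mul_nonneg (by linarith) hs0
        have c0 : (e₂ - e₁) * z₀ ^ 2 = 0 := by nlinarith
        have c2 : d₂ * z₂ ^ 2 = 0 := by nlinarith
        have c1 : d₁ * z₁ ^ 2 = 0 := by nlinarith
        have k0 : z₀ ^ 2 = 0 := (mul_eq_zero.mp c0).resolve_left (by linarith)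
        have k2 : z₂ ^ 2 = 0 := (mul_eq_zero.mp c2).resolve_left h2.ne'
        have k1 : z₁ ^ 2 = 0 := (mul_eq_zero.mp c1).resolve_left hd1.ne
        refine ⟨k0, k1, k2, ?_⟩
        rw [k0, k1] at E2
        have h3 : d₃ ≠ 0 := by rintro rfl; rw [mul_zero] at h23; exact lt_irrefl _ h23
        have : d₃ * z₃ ^ 2 = 0 := by linarith
        exact (mul_eq_zero.mp this).resolve_left h3
    obtain ⟨k0, k1, k2, k3⟩ := key
    rw [pow_eq_zero_iff two_ne_zero] at k0 k1 k2 k3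
    rcases hz with h | h | h | h
    · exact h k0
    · exact h k1
    · exact h k2
    · exact h k3
  exact ⟨h1, (mul_pos_iff_of_pos_left h1).mp hpos⟩

lemma real_mpr {e₁ e₂ e₃ d₁ d₂ d₃ : ℝ} (h12 : e₁ < e₂) (h23 : e₂ < e₃)
    (h1 : 0 < d₁) (h2 : 0 < d₂ * d₃) : CPt e₁ e₂ e₃ d₁ d₂ d₃ := by
  rcases lt_or_gt_of_ne (show d₂ ≠ 0 by rintro rfl; rw [zero_mul] at h2; exact lt_irrefl _ h2)
    with hd | hd
  · have h3 : d₃ < 0 := by
      by_contra h; rw [not_lt] at h; nlinarith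
    have n2 := hd.ne
    have n3 := h3.ne
    have q1 : 0 ≤ ((e₂ - e₁) / 2) / d₁ := div_nonneg (by linarith) h1.le
    have q2 : 0 ≤ ((e₁ - e₂) / 2) / d₂ := div_nonneg_of_nonpos (by linarith) hd.le
    have q3 : 0 ≤ ((e₁ + e₂) / 2 - e₃) / d₃ := div_nonneg_of_nonpos (by linarith) h3.le
    refine ⟨1, Real.sqrt (((e₂ - e₁) / 2) / d₁), Real.sqrt (((e₁ - e₂) / 2) / d₂),
      Real.sqrt (((e₁ + e₂) / 2 - e₃) / d₃), Or.inl one_ne_zero, ?_, ?_⟩
    · rw [Real.sq_sqrt q1, Real.sq_sqrt q2]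
      field_simp
      ring
    · rw [Real.sq_sqrt q1, Real.sq_sqrt q3]
      field_simp
      ring
  · have h3 : 0 < d₃ := (mul_pos_iff_of_pos_left hd).mp h2
    have q1 : 0 ≤ (e₃ - e₁) / d₁ := div_nonneg (by linarith) h1.le
    have q2 : 0 ≤ (e₃ - e₂) / d₂ := div_nonneg (by linarith) hd.le
    refine ⟨1, Real.sqrt ((e₃ - e₁) / d₁), Real.sqrt ((e₃ - e₂) / d₂), 0,
      Or.inl one_ne_zero, ?_, ?_⟩
    · rw [Real.sq_sqrt q1, Real.sq_sqrt q2]
      field_simp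
      ring
    · rw [Real.sq_sqrt q1]
      field_simp
      ring

section

variable {K : Type*} [Field K] [NumberField K]

/-- A real embedding factors through a completion. -/
lemma exists_completion (φ : K →+* ℝ) : ∃ (v : InfinitePlace K) (ψ : v.Completion →+* ℝ),
    ∀ x : K, ψ (algebraMap K v.Completion x) = φ x := by
  set σ : K →+* ℂ := Complex.ofRealHom.comp φ with hσ
  have hreal : ComplexEmbedding.IsReal σ := by
    rw [ComplexEmbedding.isReal_iff]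
    ext x
    simp [σ]
  have hv : (InfinitePlace.mk σ).IsReal := ⟨σ, hreal, rfl⟩
  refine ⟨InfinitePlace.mk σ, InfinitePlace.Completion.extensionEmbeddingOfIsReal hv,
    fun x => ?_⟩
  have h1 := InfinitePlace.Completion.extensionEmbeddingOfIsReal_coe hv
    ((WithAbs.equiv (InfinitePlace.mk σ).1).symm x)
  have h2 := InfinitePlace.embedding_of_isReal_apply hv x
  rw [InfinitePlace.embedding_mk_eq_of_isReal hreal] at h2
  have h3 : InfinitePlace.embedding_of_isReal hv x = φ x := by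
    have : ((InfinitePlace.embedding_of_isReal hv x : ℝ) : ℂ) = ((φ x : ℝ) : ℂ) := h2
    exact_mod_cast this
  rw [← h3]
  exact h1

lemma norm_pos [IsTotallyReal K] {x : K} (h : ∀ φ : K →+* ℝ, 0 < φ x) :
    0 < Algebra.norm ℚ x := by
  have h1 := Algebra.norm_eq_prod_embeddings ℚ ℂ x
  have h2 : ∀ σ : K →ₐ[ℚ] ℂ, ∃ r : ℝ, 0 < r ∧ (r : ℂ) = σ x := by
    intro σ
    have hr : (InfinitePlace.mk (σ : K →+* ℂ)).IsReal := IsTotallyReal.isReal _
    rw [InfinitePlace.isReal_mk_iff] at hr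
    exact ⟨hr.embedding x, h _, hr.coe_embedding_apply x⟩
  choose r hr0 hr using h2
  have h3 : (((Algebra.norm ℚ x : ℚ) : ℝ) : ℂ) = ((∏ σ, r σ : ℝ) : ℂ) := by
    push_cast
    rw [Finset.prod_congr rfl (fun σ _ => hr σ), ← h1]
    simp
  have h4 : ((Algebra.norm ℚ x : ℚ) : ℝ) = ∏ σ, r σ := by exact_mod_cast h3
  have h5 : (0 : ℝ) < ((Algebra.norm ℚ x : ℚ) : ℝ) := by
    rw [h4]
    exact Finset.prod_pos fun σ _ => hr0 σ
  exact_mod_cast h5

lemma exists_real_to_completion (v : InfinitePlace ℚ) : Nonempty (ℝ →+* v.Completion) := by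
  have hv : v.IsReal := IsTotallyReal.isReal v
  exact ⟨(InfinitePlace.Completion.ringEquivRealOfIsReal hv).symm.toRingHom⟩

end

end Pool.Agent.H10
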