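import Pool.Agent.H10.Resid
import Pool.Agent.H10.LocalTwo
import Pool.Agent.H10.RealPl

/-!
The analysis at an inert prime two.
-/

set_option autoImplicit false

open IsDedekindDomain NumberField

namespace Pool.Agent.H10

lemma exists_max_four {F Γ : Type*} [Field F] [LinearOrderedCommGroupWithZero Γ]
    (w : Valuation F Γ) {z₀ z₁ z₂ z₃ : F} (h : z₀ ≠ 0 ∨ z₁ ≠ 0 ∨ z₂ ≠ 0 ∨ z₃ ≠ 0) :
    ∃ t : F, t ≠ 0 ∧ (t = z₀ ∨ t = z₁ ∨ t = z₂ ∨ t = z₃) ∧ w (z₀ / t) ≤ 1 ∧ w (z₁ / t) ≤ 1 ∧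
      w (z₂ / t) ≤ 1 ∧ w (z₃ / t) ≤ 1 := by
  obtain ⟨i, -, hi⟩ := Finset.exists_max_image (Finset.univ : Finset (Fin 4))
    (fun i => w (![z₀, z₁, z₂, z₃] i)) ⟨0, Finset.mem_univ _⟩
  have hmax : ∀ j, w (![z₀, z₁, z₂, z₃] j) ≤ w (![z₀, z₁, z₂, z₃] i) :=
    fun j => hi j (Finset.mem_univ _)
  have ht : ![z₀, z₁, z₂, z₃] i ≠ 0 := by
    intro h0
    rw [h0, map_zero] at hmax
    have h1 : ∀ j, ![z₀, z₁, z₂, z₃] j = 0 := fun j =>
      (Valuation.zero_iff _).mp (le_antisymm (hmax j) zero_le)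
    rcases h with h | h | h | h
    · exact h (h1 0)
    · exact h (h1 1)
    · exact h (h1 2)
    · exact h (h1 3)
  have hdiv : ∀ j, w (![z₀, z₁, z₂, z₃] j / ![z₀, z₁, z₂, z₃] i) ≤ 1 := by
    intro j
    rw [map_div₀]
    exact div_le_one_of_le₀ (hmax j) zero_le
  refine ⟨![z₀, z₁, z₂, z₃] i, ht, ?_, hdiv 0, hdiv 1, hdiv 2, hdiv 3⟩
  fin_cases i
  · left; rfl
  · right; left; rfl
  · right; right; left; rfl
  · right; right; right; rfl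

section

variable {K : Type*} [Field K] [NumberField K]

theorem exists_sq_mod_four (h2 : Prime (2 : 𝓞 K)) (hodd : Odd (Module.finrank ℚ K)) {a b : ℤ}
    (hab : Adm a b ∨ (Adm' a b ∧ ¬ 3 ∣ Module.finrank ℚ K)) {ε : 𝓞 K} (hε2 : ¬ (2 : 𝓞 K) ∣ ε)
    (hN : Algebra.norm ℤ ε % 4 = 1) {v : HeightOneSpectrum (𝓞 K)}
    (hv : v.asIdeal = Ideal.span {(2 : 𝓞 K)})
    (H : CPt (0 : v.adicCompletion K) (a : v.adicCompletion K) (b : v.adicCompletion K) 1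
      (algebraMap K (v.adicCompletion K) (ε : K))
      (algebraMap K (v.adicCompletion K) (ε : K))) :
    ∃ s : 𝓞 K, (4 : 𝓞 K) ∣ ε - s ^ 2 := by
  let R := v.adicCompletionIntegers K
  have h0 : (2 : 𝓞 K) ≠ 0 := h2.ne_zero
  have e2 : algebraMap (𝓞 K) R 2 = 2 := map_ofNat _ 2
  have hp : Prime (2 : R) := by
    rw [← e2]; exact prime_unif v h0 hv
  have hu : ∀ x : R, ¬ (2 : R) ∣ x → IsUnit x := by
    intro x hx
    rw [← e2] at hx
    exact isUnit_of_not_dvd v h0 hv x hx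
  have dvd2 : ∀ x : 𝓞 K, (2 : R) ∣ algebraMap (𝓞 K) R x → (2 : 𝓞 K) ∣ x := by
    intro x hx
    have := (dvd_alg_iff (K := K) v h0 hv x 1).mp (by rw [pow_one, e2]; exact hx)
    rwa [pow_one] at this
  have apx : ∀ x : R, ∃ y : 𝓞 K, (2 : R) ∣ x - algebraMap (𝓞 K) R y := by
    intro x
    obtain ⟨y, hy⟩ := exists_approx (K := K) v h0 hv x 1
    rw [pow_one, e2] at hy
    exact ⟨y, hy⟩
  have P3 : ∀ x : R, ¬ (2 : R) ∣ x ^ 2 + x + 1 := by
    intro x hx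
    obtain ⟨y, q, hq⟩ := apx x
    apply no_root_three h2 hodd y
    apply dvd2
    obtain ⟨r, hr⟩ := hx
    refine ⟨r - q * (x + algebraMap (𝓞 K) R y + 1), ?_⟩
    rw [map_add, map_add, map_pow, map_one]
    linear_combination hr - (x + algebraMap (𝓞 K) R y + 1) * hq
  have hε : ¬ (2 : R) ∣ algebraMap (𝓞 K) R ε := fun h => hε2 (dvd2 _ h)
  have hab' : Adm a b ∨ (Adm' a b ∧ ∀ x : R, ¬ (2 : R) ∣ x ^ 3 + x ^ 2 + 1) := by
    rcases hab with h | ⟨h, h3⟩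
    · exact Or.inl h
    · refine Or.inr ⟨h, fun x hx => ?_⟩
      obtain ⟨y, q, hq⟩ := apx x
      apply no_root_seven h2 h3 y
      apply dvd2
      obtain ⟨r, hr⟩ := hx
      set Y := algebraMap (𝓞 K) R y with hY
      refine ⟨r - q * (x ^ 2 + x * Y + Y ^ 2 + x + Y), ?_⟩
      rw [map_add, map_add, map_pow, map_pow, map_one, ← hY]
      linear_combination hr - (x ^ 2 + x * Y + Y ^ 2 + x + Y) * hq
  obtain ⟨z₀, z₁, z₂, z₃, hz, E1, E2⟩ := H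
  obtain ⟨t, ht, htz, l0, l1, l2, l3⟩ :=
    exists_max_four (Valued.v (R := v.adicCompletion K)) hz
  let w₀ : R := ⟨z₀ / t, l0⟩
  let w₁ : R := ⟨z₁ / t, l1⟩
  let w₂ : R := ⟨z₂ / t, l2⟩
  let w₃ : R := ⟨z₃ / t, l3⟩
  have hεR : ((algebraMap (𝓞 K) R ε : R) : v.adicCompletion K) =
      algebraMap K (v.adicCompletion K) (ε : K) := rfl
  have F1 : w₁ ^ 2 = algebraMap (𝓞 K) R ε * w₂ ^ 2 + a * w₀ ^ 2 := by
    apply Subtype.ext
    push_cast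
    rw [hεR]
    change (z₁ / t) ^ 2 = _ * (z₂ / t) ^ 2 + a * (z₀ / t) ^ 2
    field_simp
    linear_combination E1
  have F2 : w₁ ^ 2 = algebraMap (𝓞 K) R ε * w₃ ^ 2 + b * w₀ ^ 2 := by
    apply Subtype.ext
    push_cast
    rw [hεR]
    change (z₁ / t) ^ 2 = _ * (z₃ / t) ^ 2 + b * (z₀ / t) ^ 2
    field_simp
    linear_combination E2
  have hw : ¬ ((2 : R) ∣ w₀ ∧ (2 : R) ∣ w₁ ∧ (2 : R) ∣ w₂ ∧ (2 : R) ∣ w₃) := by
    rintro ⟨k0, k1, k2, k3⟩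
    apply hp.not_dvd_one
    rcases htz with h | h | h | h
    · have : w₀ = 1 := Subtype.ext (by change z₀ / t = 1; rw [← h, div_self ht])
      rwa [this] at k0
    · have : w₁ = 1 := Subtype.ext (by change z₁ / t = 1; rw [← h, div_self ht])
      rwa [this] at k1
    · have : w₂ = 1 := Subtype.ext (by change z₂ / t = 1; rw [← h, div_self ht])
      rwa [this] at k2
    · have : w₃ = 1 := Subtype.ext (by change z₃ / t = 1; rw [← h, div_self ht])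
      rwa [this] at k3
  obtain ⟨s, hs⟩ := local_two hp hu P3 hε hab' hw F1 F2
  obtain ⟨σ, hσ⟩ := exists_approx (K := K) v h0 hv s 2
  rw [e2] at hσ
  have e4 : (2 : R) ^ 2 = 4 := by norm_num
  have e4' : (2 : 𝓞 K) ^ 2 = 4 := by norm_num
  rw [e4] at hσ
  obtain ⟨q, hq⟩ := hσ
  refine ⟨σ, sign_of_norm hodd hN ?_⟩
  have dvd4 : ∀ x : 𝓞 K, (4 : R) ∣ algebraMap (𝓞 K) R x → (4 : 𝓞 K) ∣ x := by
    intro x hx
    have := (dvd_alg_iff (K := K) v h0 hv x 2).mp (by rw [e2, e4]; exact hx)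
    rwa [e4'] at this
  rcases hs with ⟨r, hr⟩ | ⟨r, hr⟩
  · left
    apply dvd4
    refine ⟨r + q * (s + algebraMap (𝓞 K) R σ), ?_⟩
    rw [map_sub, map_pow]
    linear_combination hr + (s + algebraMap (𝓞 K) R σ) * hq
  · right
    apply dvd4
    refine ⟨r - q * (s + algebraMap (𝓞 K) R σ), ?_⟩
    rw [map_add, map_pow]
    linear_combination hr - (s + algebraMap (𝓞 K) R σ) * hq

end

end Pool.Agent.H10
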