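import Pool.Agent.H10.Semi
import Pool.Agent.H10.TwoInert

/-!
Triviality of the new part of the two-Selmer group when two is inert.
-/

set_option autoImplicit false
set_option linter.style.haveILetI false

open WeierstrassCurve IsDedekindDomain NumberField WithZero

namespace Pool.Agent.H10

section

variable {L : Type} [Field L] [NumberField L]

/-- The prime of `L` generated by an inert two. -/
def primeTwo (h2 : Prime (2 : 𝓞 L)) : HeightOneSpectrum (𝓞 L) :=
  ⟨Ideal.span {(2 : 𝓞 L)}, (Ideal.span_singleton_prime h2.ne_zero).mpr h2, by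
    rw [Ne, Ideal.span_singleton_eq_bot]; exact h2.ne_zero⟩

lemma eq_of_two_mem (h2 : Prime (2 : 𝓞 L)) {P : Ideal (𝓞 L)} (hP : P.IsPrime)
    (h : (2 : 𝓞 L) ∈ P) : P = Ideal.span {(2 : 𝓞 L)} := by
  have hmax : (Ideal.span {(2 : 𝓞 L)}).IsMaximal := (primeTwo h2).isMaximal
  symm
  apply hmax.eq_of_le hP.ne_top
  rw [Ideal.span_singleton_le_iff_mem]
  exact h

lemma notMem_primeTwo (h2 : Prime (2 : 𝓞 L)) {y : 𝓞 L} :
    y ∉ (primeTwo h2).asIdeal ↔ ¬ (2 : 𝓞 L) ∣ y := by
  change y ∉ Ideal.span {(2 : 𝓞 L)} ↔ _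
  rw [Ideal.mem_span_singleton]

lemma val_two (h2 : Prime (2 : 𝓞 L)) : (primeTwo h2).valuation L 2 = exp (-1 : ℤ) := by
  have h := (primeTwo h2).intValuation_singleton h2.ne_zero rfl
  rw [← (primeTwo h2).valuation_of_algebraMap (K := L)] at h
  have e2 : algebraMap (𝓞 L) L 2 = 2 := map_ofNat (algebraMap (𝓞 L) L) 2
  rw [← e2]
  exact h

/-- Normalisation of an element of even valuation at two. -/
lemma exists_odd_rep (h2 : Prime (2 : 𝓞 L)) {x : L} (hx : x ≠ 0)
    (hev : Even (log ((primeTwo h2).valuation L x))) :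
    ∃ (y : 𝓞 L) (t : L), t ≠ 0 ∧ ¬ (2 : 𝓞 L) ∣ y ∧ x = (y : L) * t ^ 2 := by
  obtain ⟨k, hk⟩ := hev
  have hvx := (Valuation.ne_zero_iff ((primeTwo h2).valuation L)).mpr hx
  have h1 : (primeTwo h2).valuation L (x * ((2 : L) ^ k) ^ 2) = 1 := by
    rw [map_mul, map_pow, map_zpow₀, val_two, ← exp_zsmul, ← exp_nsmul, ← exp_log hvx, ← exp_add,
      ← exp_zero]
    congr 1
    simp only [smul_eq_mul]
    rw [hk]
    ring
  obtain ⟨n, ⟨d, hd⟩, hnd⟩ :=
    HeightOneSpectrum.exists_primeCompl_mul_eq_of_integer (primeTwo h2) _ h1.le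
  change d ∉ (primeTwo h2).asIdeal at hd
  change x * ((2 : L) ^ k) ^ 2 * (d : L) = (n : L) at hnd
  have hd1 : (primeTwo h2).valuation L (d : L) = 1 := val_eq_one_of_notMem hd
  have hn : n ∉ (primeTwo h2).asIdeal := by
    apply ((primeTwo h2).valuation_eq_one_iff_notMem (K := L)).mp
    change (primeTwo h2).valuation L (n : L) = 1
    rw [← hnd, map_mul, h1, hd1, mul_one]
  rw [notMem_primeTwo] at hd hn
  have hd0 : (d : L) ≠ 0 := by
    rw [RingOfIntegers.coe_ne_zero_iff]
    rintro rfl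
    exact hd (dvd_zero _)
  have h20 : (2 : L) ^ k ≠ 0 := zpow_ne_zero _ two_ne_zero
  refine ⟨n * d, 1 / ((2 : L) ^ k * d), one_div_ne_zero (mul_ne_zero h20 hd0), ?_, ?_⟩
  · intro h
    rcases h2.dvd_or_dvd h with h | h
    · exact hn h
    · exact hd h
  · have e : ((n * d : 𝓞 L) : L) = (n : L) * (d : L) := map_mul (algebraMap (𝓞 L) L) n d
    rw [e, ← hnd]
    field_simp

/-- An odd element whose norm is a square has norm one modulo four. -/
lemma norm_emod_four (h2 : Prime (2 : 𝓞 L)) {y : 𝓞 L} (hy : ¬ (2 : 𝓞 L) ∣ y)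
    (hN : IsSquare (Algebra.norm ℚ (y : L))) : Algebra.norm ℤ y % 4 = 1 := by
  have h1 : ((Algebra.norm ℤ y : ℤ) : ℚ) = Algebra.norm ℚ (y : L) := Algebra.coe_norm_int y
  rw [← h1] at hN
  have h3 : IsSquare (Algebra.norm ℤ y) := by
    rw [← Rat.isSquare_intCast_iff]; exact hN
  obtain ⟨r, hr⟩ := h3
  -- the norm is odd
  have hodd : Algebra.norm ℤ y % 2 = 1 := by
    have hmax : (Ideal.span {(2 : 𝓞 L)}).IsMaximal := (primeTwo h2).isMaximal
    have hyI : y ∉ Ideal.span {(2 : 𝓞 L)} := by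
      rw [Ideal.mem_span_singleton]; exact hy
    obtain ⟨z, i, hi, hz⟩ := hmax.exists_inv hyI
    rw [Ideal.mem_span_singleton] at hi
    have h4 : ((2 : ℕ) : 𝓞 L) ∣ 1 - z * y := by
      rw [← hz, add_sub_cancel_left]
      exact_mod_cast hi
    have h5 := norm_congr 2 h4
    rw [map_one, map_mul] at h5
    by_contra h
    have h6 : (2 : ℤ) ∣ Algebra.norm ℤ y := by omega
    have h7 : (2 : ℤ) ∣ Algebra.norm ℤ z * Algebra.norm ℤ y := dvd_mul_of_dvd_right h6 _
    push_cast at h5
    omega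
  rw [hr] at hodd ⊢
  have hr2 : r % 2 = 1 := by
    rcases Int.emod_two_eq_zero_or_one r with h | h
    · exfalso
      have : (2 : ℤ) ∣ r * r := dvd_mul_of_dvd_left (Int.dvd_of_emod_eq_zero h) r
      omega
    · exact h
  have := sq_emod_four hr2
  rwa [pow_two] at this

variable {K : Type} [Field K] [NumberField K] [Algebra K L]

lemma intCast_val (w : HeightOneSpectrum (𝓞 L)) {z : ℤ} (h : (z : 𝓞 L) ∉ w.asIdeal) :
    w.valuation L (z : L) = 1 := by
  have h1 := val_eq_one_of_notMem h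
  have h2 : ((z : 𝓞 L) : L) = (z : L) := map_intCast (algebraMap (𝓞 L) L) z
  rwa [h2] at h1

theorem newTrivial_inert (hodd : Odd (Module.finrank ℚ L)) (R1 : NoNewPositive K L)
    (R2 : NoNewUnramified K L) (h2 : Prime (2 : 𝓞 L)) {a b : ℤ}
    (hpos : ∀ φ : K →+* ℝ, 0 < φ (a : K) ∧ 0 < φ (b : K))
    (hadm : Adm a b ∨ (Adm' a b ∧ ¬ 3 ∣ Module.finrank ℚ L))
    (hbad : ∀ v : HeightOneSpectrum (𝓞 K), (2 : 𝓞 K) ∉ v.asIdeal →
      ((a * b * (b - a) : ℤ) : 𝓞 K) ∈ v.asIdeal → UniqueOver K L v.asIdeal) :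
    NewTrivial K L (algebraMap K L 0) (algebraMap K L (a : K)) (algebraMap K L (b : K)) := by
  intro d₁ d₂ d₃ c hd hc Hf Hi N1 N2 N3
  have hoddKL : Odd (Module.finrank K L) := by
    have h := Module.finrank_mul_finrank ℚ K L
    rw [← h] at hodd
    exact (Nat.odd_mul.mp hodd).2
  have hdn : d₁ * d₂ * d₃ ≠ 0 := by rw [hd]; exact pow_ne_zero 2 hc
  have hd1 : d₁ ≠ 0 := fun h => hdn (by rw [h]; ring)
  have hd2 : d₂ ≠ 0 := fun h => hdn (by rw [h]; ring)
  have hd3 : d₃ ≠ 0 := fun h => hdn (by rw [h]; ring)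
  rw [map_zero, map_intCast, map_intCast] at Hf Hi
  -- evenness of all valuations
  have ev : ∀ w : HeightOneSpectrum (𝓞 L), Even (log (w.valuation L d₁)) ∧
      Even (log (w.valuation L d₂)) ∧ Even (log (w.valuation L d₃)) := by
    intro w
    let v : HeightOneSpectrum (𝓞 K) := ⟨w.asIdeal.under (𝓞 K), inferInstance,
      Ideal.IsIntegral.comap_ne_bot _ w.ne_bot⟩
    have hvw : v.asIdeal.map (algebraMap (𝓞 K) (𝓞 L)) ≤ w.asIdeal := Ideal.map_comap_le
    have huniq : UniqueOver K L v.asIdeal → Even (log (w.valuation L d₁)) ∧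
      Even (log (w.valuation L d₂)) ∧ Even (log (w.valuation L d₃)) := fun hu =>
      ⟨even_of_norm_sq hoddKL hu hvw hd1 N1, even_of_norm_sq hoddKL hu hvw hd2 N2,
        even_of_norm_sq hoddKL hu hvw hd3 N3⟩
    have mem_iff : ∀ z : ℤ, (z : 𝓞 K) ∈ v.asIdeal ↔ (z : 𝓞 L) ∈ w.asIdeal := by
      intro z
      change algebraMap (𝓞 K) (𝓞 L) (z : 𝓞 K) ∈ w.asIdeal ↔ _
      rw [map_intCast]
    by_cases hw : (2 : 𝓞 L) ∈ w.asIdeal
    · apply huniq
      have hv2 : (2 : 𝓞 K) ∈ v.asIdeal := by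
        have := (mem_iff 2).mpr (by exact_mod_cast hw)
        exact_mod_cast this
      have h3 : ∀ P : Ideal (𝓞 L), v.asIdeal.map (algebraMap (𝓞 K) (𝓞 L)) ≤ P →
          (2 : 𝓞 L) ∈ P := by
        intro P hP
        have := hP (Ideal.mem_map_of_mem (algebraMap (𝓞 K) (𝓞 L)) hv2)
        rwa [map_ofNat] at this
      intro P Q hP hQ h5 h6
      rw [eq_of_two_mem h2 hP (h3 P h5), eq_of_two_mem h2 hQ (h3 Q h6)]
    · by_cases hb' : ((a * b * (b - a) : ℤ) : 𝓞 L) ∈ w.asIdeal
      · apply huniq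
        apply hbad v
        · intro h
          apply hw
          have := (mem_iff 2).mp (by exact_mod_cast h)
          exact_mod_cast this
        · exact (mem_iff _).mpr hb'
      · have nA : (a : 𝓞 L) ∉ w.asIdeal := fun h => hb' (by
          push_cast
          exact Ideal.mul_mem_right _ _ (Ideal.mul_mem_right _ _ h))
        have nB : (b : 𝓞 L) ∉ w.asIdeal := fun h => hb' (by
          push_cast
          exact Ideal.mul_mem_right _ _ (Ideal.mul_mem_left _ _ h))
        have nC : ((b - a : ℤ) : 𝓞 L) ∉ w.asIdeal := fun h => hb' (by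
          push_cast at h ⊢
          exact Ideal.mul_mem_left _ _ h)
        have vA := intCast_val w nA
        have vB := intCast_val w nB
        have vC := intCast_val w nC
        rw [← valued_algebraMap, ← valued_algebraMap, ← valued_algebraMap]
        refine even_of_cpt (F := w.adicCompletion L) Valued.v ?_ ?_ ?_
          (c := algebraMap L (w.adicCompletion L) c) ?_ ?_ (Hf w)
        · rw [← map_sub, sub_zero, valued_algebraMap, vA]
        · rw [← map_sub, sub_zero, valued_algebraMap, vB]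
        · rw [← map_sub, valued_algebraMap, ← vC]; push_cast; rfl
        · rw [← map_mul, ← map_mul, hd, map_pow]
        · rw [Ne, map_eq_zero]; exact hc
  -- the first component
  have sq1 : IsSquare d₁ := by
    apply R1 d₁ hd1 (fun w => (ev w).1) N1
    intro φ
    obtain ⟨v, ψ, hψ⟩ := exists_completion φ
    have h1 := (Hi v).map ψ
    rw [hψ, hψ, hψ, hψ, hψ, hψ, map_zero, map_intCast, map_intCast] at h1
    refine (real_mp (c := φ c) ?_ ?_ ?_ ?_ h1).1
    · have := (hpos (φ.comp (algebraMap K L))).1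
      rwa [map_intCast] at this
    · have := (hpos (φ.comp (algebraMap K L))).2
      rwa [map_intCast] at this
    · rw [← map_mul, ← map_mul, hd, map_pow]
    · rw [Ne, map_eq_zero]; exact hc
  obtain ⟨x, hx⟩ := sq1
  have hx0 : x ≠ 0 := by
    rintro rfl
    exact hd1 (by rw [hx, mul_zero])
  -- the third component
  obtain ⟨y, t, ht, hy2, hyt⟩ := exists_odd_rep h2 hd3 (ev (primeTwo h2)).2.2
  have hy0 : (y : L) ≠ 0 := by
    intro h
    apply hd3
    rw [hyt, h, zero_mul]
  have hNy : IsSquare (Algebra.norm ℚ (y : L)) := by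
    obtain ⟨q, hq⟩ := N3
    have h5 : Algebra.norm ℚ d₃ = (Algebra.norm ℚ q) ^ 2 := by
      rw [← Algebra.norm_norm (S := K), hq, map_mul, pow_two]
    rw [hyt, map_mul, map_pow] at h5
    have h6 : Algebra.norm ℚ t ≠ 0 := by rw [Ne, Algebra.norm_eq_zero_iff]; exact ht
    refine ⟨Algebra.norm ℚ q / Algebra.norm ℚ t, ?_⟩
    field_simp
    exact h5
  have hN4 := norm_emod_four h2 hy2 hNy
  set w := primeTwo h2 with hw
  have L1 := Hf w
  have L2 : CPt (0 : w.adicCompletion L) (a : w.adicCompletion L) (b : w.adicCompletion L) 1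
      (algebraMap L (w.adicCompletion L) (y : L)) (algebraMap L (w.adicCompletion L) (y : L)) := by
    rw [map_zero, map_intCast, map_intCast] at L1
    have aM : ∀ x : L, x ≠ 0 → algebraMap L (w.adicCompletion L) x ≠ 0 := fun x hx => by
      rw [Ne, map_eq_zero]; exact hx
    refine L1.congr (s₁ := algebraMap L (w.adicCompletion L) (1 / x))
      (s₂ := algebraMap L (w.adicCompletion L) (x * y * t / c))
      (s₃ := algebraMap L (w.adicCompletion L) (1 / t))
      (aM _ (one_div_ne_zero hx0)) (aM _ (div_ne_zero (mul_ne_zero (mul_ne_zero hx0 hy0) ht) hc))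
      (aM _ (one_div_ne_zero ht)) ?_ ?_ ?_
    · rw [← map_pow, ← map_mul, ← map_one (algebraMap L (w.adicCompletion L))]
      congr 1
      rw [hx]
      field_simp
    · rw [← map_pow, ← map_mul]
      congr 1
      rw [hx, hyt] at hd
      field_simp
      linear_combination -hd
    · rw [← map_pow, ← map_mul]
      congr 1
      rw [hyt]
      field_simp
  obtain ⟨s, hs⟩ := exists_sq_mod_four h2 hodd hadm hy2 hN4 (v := w) rfl L2
  have sq3 : IsSquare d₃ := by
    apply R2 d₃ hd3 (fun w => (ev w).2.2) N3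
    intro w' hw'
    have hww : w' = w := HeightOneSpectrum.ext (eq_of_two_mem h2 w'.isPrime hw')
    rw [hww]
    have hvs : w.valuation L (s : L) = 1 := by
      apply val_eq_one_of_notMem
      rw [hw, notMem_primeTwo]
      intro h
      apply hy2
      obtain ⟨q, hq⟩ := hs
      obtain ⟨r, hr⟩ := h
      exact ⟨2 * q + r * s, by linear_combination hq + s * hr⟩
    refine ⟨1 / t, s, one_div_ne_zero ht, hvs, ?_⟩
    obtain ⟨q, hq⟩ := hs
    have h7 : d₃ * (1 / t) ^ 2 - (s : L) ^ 2 = 4 * (q : L) := by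
      have h8 : (y : L) - (s : L) ^ 2 = 4 * (q : L) := by
        have := congrArg (algebraMap (𝓞 L) L) hq
        rw [map_sub, map_pow, map_mul, map_ofNat] at this
        exact this
      rw [hyt, ← h8]
      field_simp
    rw [h7, map_mul]
    exact mul_le_of_le_one_right' (w.valuation_le_one (K := L) _)
  refine ⟨⟨x, hx⟩, ?_, sq3⟩
  obtain ⟨z, hz⟩ := sq3
  have hz0 : z ≠ 0 := by
    rintro rfl
    exact hd3 (by rw [hz, mul_zero])
  refine ⟨c / (x * z), ?_⟩
  rw [hx, hz] at hd
  field_simp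
  linear_combination hd

end

end Pool.Agent.H10
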