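import Pool.Agent.H10.NormSel

/-!
From a vanishing statement for the new part of the two-Selmer group to an isomorphism of
two-primary parts.
-/

set_option autoImplicit false
set_option linter.style.haveILetI false
open scoped Classical

open WeierstrassCurve IsDedekindDomain NumberField

namespace Pool.Agent.H10

section group

variable {A B : Type*} [AddCommGroup A] [AddCommGroup B]

lemma eq_zero_of_two_pow {x : A} {m n : ℕ} (hn : Odd n) (h1 : (2 ^ m) • x = 0)
    (h2 : n • x = 0) : x = 0 := by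
  have hc : Nat.Coprime (2 ^ m) n := Nat.Coprime.pow_left m hn.coprime_two_left
  have h3 : addOrderOf x ∣ 2 ^ m := addOrderOf_dvd_of_nsmul_eq_zero h1
  have h4 : addOrderOf x ∣ n := addOrderOf_dvd_of_nsmul_eq_zero h2
  have h5 := Nat.dvd_gcd h3 h4
  rw [hc, Nat.dvd_one] at h5
  exact AddMonoid.addOrderOf_eq_one_iff.mp h5

theorem bijOn_of_two (r : A →+ B) (t : B →+ A) {n : ℕ} (hn : Odd n)
    (htr : ∀ a, t (r a) = n • a) (hs : ∀ b : B, 2 • b = 0 → ∃ a, 2 • a = 0 ∧ r a = b) :
    Set.BijOn r {a : A | ∃ m : ℕ, 2 ^ m • a = 0} {b : B | ∃ m : ℕ, 2 ^ m • b = 0} := by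
  refine ⟨?_, ?_, ?_⟩
  · rintro a ⟨m, hm⟩
    exact ⟨m, by rw [← map_nsmul, hm, map_zero]⟩
  · rintro a ⟨m, hm⟩ a' ⟨m', hm'⟩ h
    rw [← sub_eq_zero]
    apply eq_zero_of_two_pow (m := m + m') hn
    · rw [smul_sub, pow_add, mul_comm, mul_nsmul', hm, smul_zero, mul_comm, mul_nsmul', hm',
        smul_zero, sub_zero]
    · rw [← htr, map_sub, h, sub_self, map_zero]
  · rintro b ⟨m, hm⟩
    -- vanishing of the kernel of `t`
    have key : ∀ (k : ℕ) (c : B), 2 ^ k • c = 0 → t c = 0 → c = 0 := by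
      intro k
      induction k with
      | zero => intro c hc _; simpa using hc
      | succ k ih =>
        intro c hc htc
        apply ih c _ htc
        obtain ⟨a, ha, hra⟩ := hs (2 ^ k • c) (by rw [← mul_nsmul', ← pow_succ']; exact hc)
        have h1 : n • a = 0 := by rw [← htr, hra, map_nsmul, htc, smul_zero]
        have h2 : a = 0 := eq_zero_of_two_pow (m := 1) hn (by rw [pow_one]; exact ha) h1
        rw [← hra, h2, map_zero]
    -- an inverse of `n`
    obtain ⟨k, hk⟩ : ∃ k : ℤ, ((2 ^ m : ℕ) : ℤ) ∣ 1 - k * n := by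
      have hc : IsCoprime ((2 ^ m : ℕ) : ℤ) (n : ℤ) := by
        rw [Nat.isCoprime_iff_coprime]
        exact Nat.Coprime.pow_left m hn.coprime_two_left
      obtain ⟨u, k, h⟩ := hc
      exact ⟨k, u, by linear_combination -h⟩
    obtain ⟨q, hq⟩ := hk
    have htb : (2 ^ m : ℕ) • t b = 0 := by rw [← map_nsmul, hm, map_zero]
    have hz : ((2 ^ m : ℕ) : ℤ) • t b = 0 := by rw [natCast_zsmul]; exact htb
    have hzb : ((2 ^ m : ℕ) : ℤ) • b = 0 := by rw [natCast_zsmul]; exact hm
    refine ⟨k • t b, ⟨m, ?_⟩, ?_⟩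
    · rw [← natCast_zsmul, smul_comm, hz, smul_zero]
    · symm
      rw [← sub_eq_zero]
      apply key m
      · rw [smul_sub, hm, zero_sub, neg_eq_zero, ← map_nsmul, ← natCast_zsmul, smul_comm, hz,
          smul_zero, map_zero]
      · rw [map_sub, htr, ← natCast_zsmul, smul_smul]
        have : t b = (1 : ℤ) • t b := (one_zsmul _).symm
        conv_lhs => rw [this, smul_smul, mul_one]
        rw [← sub_smul, mul_comm, hq, mul_comm, mul_smul, hz, smul_zero]

end group

section up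

variable {K L : Type} [Field K] [NumberField K] [Field L] [NumberField L] [Algebra K L]

/-- Every finite place of `L` lies over a finite place of `K`. -/
lemma exists_place_below (w : HeightOneSpectrum (𝓞 L)) :
    ∃ (v : HeightOneSpectrum (𝓞 K)) (ψ : v.adicCompletion K →+* w.adicCompletion L),
      ∀ x : K, ψ (algebraMap K (v.adicCompletion K) x) =
        algebraMap L (w.adicCompletion L) (algebraMap K L x) := by
  obtain ⟨a, ha, ha0⟩ : ∃ a : 𝓞 K, algebraMap (𝓞 K) (𝓞 L) a ∈ w.asIdeal ∧ a ≠ 0 := by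
    refine ⟨((Ideal.absNorm w.asIdeal : ℕ) : 𝓞 K), ?_, ?_⟩
    · rw [map_natCast]
      exact Ideal.absNorm_mem w.asIdeal
    · have : Ideal.absNorm w.asIdeal ≠ 0 := by
        rw [Ne, Ideal.absNorm_eq_zero_iff]; exact w.ne_bot
      exact_mod_cast this
  obtain ⟨v, ψ, hψ⟩ := exists_place_of_norm (L := K) (F := w.adicCompletion L)
    ((algebraMap L (w.adicCompletion L)).comp (algebraMap K L)) ha0 (by
      exact (FinitePlace.norm_lt_one_iff_mem L w (algebraMap (𝓞 K) (𝓞 L) a)).mpr ha)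
  exact ⟨v, ψ, hψ⟩

lemma exists_inf_place_below (w : InfinitePlace L) :
    ∃ (v : InfinitePlace K) (ψ : v.Completion →+* w.Completion),
      ∀ x : K, ψ (algebraMap K v.Completion x) =
        algebraMap L w.Completion (algebraMap K L x) :=
  exists_inf_place (K := L) (L := K) (F := w.Completion) w
      ((algebraMap L w.Completion).comp (algebraMap K L))

lemma finSol_up {e₁ e₂ e₃ d₁ d₂ d₃ : K} (H : FinSol K e₁ e₂ e₃ d₁ d₂ d₃) :
    FinSol L (algebraMap K L e₁) (algebraMap K L e₂) (algebraMap K L e₃) (algebraMap K L d₁)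
      (algebraMap K L d₂) (algebraMap K L d₃) := by
  intro w
  obtain ⟨v, ψ, hψ⟩ := exists_place_below (K := K) w
  have h1 := (H v).map ψ
  simp only [hψ] at h1
  exact h1

lemma infSol_up {e₁ e₂ e₃ d₁ d₂ d₃ : K} (H : InfSol K e₁ e₂ e₃ d₁ d₂ d₃) :
    InfSol L (algebraMap K L e₁) (algebraMap K L e₂) (algebraMap K L e₃) (algebraMap K L d₁)
      (algebraMap K L d₂) (algebraMap K L d₃) := by
  intro w
  obtain ⟨v, ψ, hψ⟩ := exists_inf_place_below (K := K) w
  have h1 := (H v).map ψ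
  simp only [hψ] at h1
  exact h1

/-- The vanishing of the new part of the two-Selmer group. -/
def NewTrivial (K L : Type) [Field K] [NumberField K] [Field L] [NumberField L] [Algebra K L]
    (e₁ e₂ e₃ : L) : Prop :=
  ∀ d₁ d₂ d₃ c : L, d₁ * d₂ * d₃ = c ^ 2 → c ≠ 0 → FinSol L e₁ e₂ e₃ d₁ d₂ d₃ →
    InfSol L e₁ e₂ e₃ d₁ d₂ d₃ → IsSquare (Algebra.norm K d₁) → IsSquare (Algebra.norm K d₂) →
    IsSquare (Algebra.norm K d₃) → IsSquare d₁ ∧ IsSquare d₂ ∧ IsSquare d₃

lemma isSquare_norm_aux (hodd : Odd (Module.finrank K L)) (d : L) :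
    IsSquare (Algebra.norm K (d * algebraMap K L (Algebra.norm K d))) := by
  rw [map_mul, Algebra.norm_algebraMap, ← pow_succ']
  exact (hodd.add_one).isSquare_pow _

lemma sel_up (hodd : Odd (Module.finrank K L)) {V : WeierstrassCurve K} {V' : WeierstrassCurve L}
    {e₁ e₂ e₃ : K} (h : IsCub V e₁ e₂ e₃) (hV : V.map (algebraMap K L) = V')
    (H : NewTrivial K L (algebraMap K L e₁) (algebraMap K L e₂) (algebraMap K L e₃))
    {d₁ d₂ d₃ c : L} (hd : d₁ * d₂ * d₃ = c ^ 2) (hc : c ≠ 0)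
    (hf : FinSol L (algebraMap K L e₁) (algebraMap K L e₂) (algebraMap K L e₃) d₁ d₂ d₃)
    (hi : InfSol L (algebraMap K L e₁) (algebraMap K L e₂) (algebraMap K L e₃) d₁ d₂ d₃) :
    ∃ s₁ s₂ s₃ : L, s₁ ≠ 0 ∧ s₂ ≠ 0 ∧ s₃ ≠ 0 ∧ d₁ = algebraMap K L (Algebra.norm K d₁) * s₁ ^ 2 ∧
      d₂ = algebraMap K L (Algebra.norm K d₂) * s₂ ^ 2 ∧
      d₃ = algebraMap K L (Algebra.norm K d₃) * s₃ ^ 2 := by
  obtain ⟨nf, ni⟩ := norm_sel h hV hd hc hf hi
  have nf' := finSol_up (L := L) nf
  have ni' := infSol_up (L := L) ni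
  have h' := h.up hV
  have hdn : d₁ * d₂ * d₃ ≠ 0 := by rw [hd]; exact pow_ne_zero 2 hc
  have hd1 : d₁ ≠ 0 := fun h => hdn (by rw [h]; ring)
  have hd2 : d₂ ≠ 0 := fun h => hdn (by rw [h]; ring)
  have hd3 : d₃ ≠ 0 := fun h => hdn (by rw [h]; ring)
  have hN : ∀ x : L, x ≠ 0 → algebraMap K L (Algebra.norm K x) ≠ 0 := fun x hx => by
    rw [Ne, map_eq_zero, Algebra.norm_eq_zero_iff]; exact hx
  have hNd : algebraMap K L (Algebra.norm K d₁) * algebraMap K L (Algebra.norm K d₂) *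
      algebraMap K L (Algebra.norm K d₃) = (algebraMap K L (Algebra.norm K c)) ^ 2 := by
    rw [← map_mul, ← map_mul, ← map_mul, ← map_mul, hd, map_pow, map_pow]
  have sq : ∀ x : L, x ≠ 0 → IsSquare (x * algebraMap K L (Algebra.norm K x)) →
      ∃ s : L, s ≠ 0 ∧ x = algebraMap K L (Algebra.norm K x) * s ^ 2 := by
    rintro x hx ⟨t, ht⟩
    have hn := hN x hx
    have ht0 : t ≠ 0 := by
      rintro rfl
      rw [mul_zero] at ht
      exact (mul_ne_zero hx hn) ht
    refine ⟨t / algebraMap K L (Algebra.norm K x), div_ne_zero ht0 hn, ?_⟩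
    field_simp
    rw [ht]
    ring
  have key := H (d₁ * algebraMap K L (Algebra.norm K d₁)) (d₂ * algebraMap K L (Algebra.norm K d₂))
    (d₃ * algebraMap K L (Algebra.norm K d₃)) (c * algebraMap K L (Algebra.norm K c)) (by
      rw [mul_pow, ← hNd, ← hd]; ring) (mul_ne_zero hc (hN c hc)) ?_ ?_
      (isSquare_norm_aux hodd _) (isSquare_norm_aux hodd _) (isSquare_norm_aux hodd _)
  · obtain ⟨k1, k2, k3⟩ := key
    obtain ⟨s₁, n1, g1⟩ := sq d₁ hd1 k1
    obtain ⟨s₂, n2, g2⟩ := sq d₂ hd2 k2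
    obtain ⟨s₃, n3, g3⟩ := sq d₃ hd3 k3
    exact ⟨s₁, s₂, s₃, n1, n2, n3, g1, g2, g3⟩
  · intro v
    have inj := (algebraMap L (v.adicCompletion L)).injective
    have hcz : CharZero (v.adicCompletion L) := charZero_of_injective_algebraMap inj
    have := CPt.mul (fun H => h'.h12 (inj H)) (fun H => h'.h13 (inj H)) (fun H => h'.h23 (inj H))
      two_ne_zero (c := algebraMap L (v.adicCompletion L) c)
      (c' := algebraMap L (v.adicCompletion L) (algebraMap K L (Algebra.norm K c)))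
      (by rw [← map_mul, ← map_mul, hd, map_pow]) (by rw [Ne, map_eq_zero]; exact hc)
      (by rw [← map_mul, ← map_mul, hNd, map_pow]) (by rw [Ne, map_eq_zero]; exact hN c hc)
      (hf v) (nf' v)
    rw [map_mul, map_mul, map_mul]
    exact this
  · intro v
    have inj := (algebraMap L v.Completion).injective
    have hcz : CharZero v.Completion := charZero_of_injective_algebraMap inj
    have := CPt.mul (fun H => h'.h12 (inj H)) (fun H => h'.h13 (inj H)) (fun H => h'.h23 (inj H))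
      two_ne_zero (c := algebraMap L v.Completion c)
      (c' := algebraMap L v.Completion (algebraMap K L (Algebra.norm K c)))
      (by rw [← map_mul, ← map_mul, hd, map_pow]) (by rw [Ne, map_eq_zero]; exact hc)
      (by rw [← map_mul, ← map_mul, hNd, map_pow]) (by rw [Ne, map_eq_zero]; exact hN c hc)
      (hi v) (ni' v)
    rw [map_mul, map_mul, map_mul]
    exact this

end up

end Pool.Agent.H10
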