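import Pool.Agent.H10.Iso

/-!
The restriction is an isomorphism on two-primary parts; the Mordell-Weil groups.
-/

set_option autoImplicit false
set_option linter.style.haveILetI false
open scoped Classical

open WeierstrassCurve IsDedekindDomain NumberField

namespace Pool.Agent.H10

section

variable {K L : Type} [Field K] [NumberField K] [Field L] [NumberField L] [Algebra K L]
variable {V : WeierstrassCurve K} {V' : WeierstrassCurve L}

lemma sqrt_up {j : AlgebraicClosure K ≃ₐ[K] AlgebraicClosure L} {r : AlgebraicClosure L} {d s : L}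
    {δ : K} {r₀ : AlgebraicClosure K} (hr : r ^ 2 = algebraMap L (AlgebraicClosure L) d)
    (hd : d = algebraMap K L δ * s ^ 2) (hr₀ : r₀ ^ 2 = algebraMap K (AlgebraicClosure K) δ) :
    ∃ u : ℤˣ, r = ((u : ℤ) : AlgebraicClosure L) * (j r₀ *
      algebraMap L (AlgebraicClosure L) s) := by
  apply sign_of_sq_eq
  rw [hr, hd, mul_pow, ← map_pow j, hr₀, AlgEquiv.commutes, map_mul, map_pow,
    IsScalarTower.algebraMap_apply K L (AlgebraicClosure L)]

lemma sqrt_act {j : AlgebraicClosure K ≃ₐ[K] AlgebraicClosure L} {r : AlgebraicClosure L} {s : L}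
    {r₀ : AlgebraicClosure K} {u : ℤˣ} (hr : r = ((u : ℤ) : AlgebraicClosure L) * (j r₀ *
      algebraMap L (AlgebraicClosure L) s)) (τ : AlgebraicClosure L ≃ₐ[L] AlgebraicClosure L)
    {σ : AlgebraicClosure K ≃ₐ[K] AlgebraicClosure K} (hσ : ∀ x, j (σ x) = τ (j x)) {w : ℤˣ}
    (hw : σ r₀ = ((w : ℤ) : AlgebraicClosure K) * r₀) :
    τ r = ((w : ℤ) : AlgebraicClosure L) * r := by
  rw [hr, map_mul, map_mul, map_intCast, AlgEquiv.commutes, ← hσ, hw, map_mul, map_intCast]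
  ring

/-- Two-torsion classes over `L` come from `K`. -/
theorem two_torsion_up (hodd : Odd (Module.finrank K L))
    {e₁ e₂ e₃ : K} (h : IsCub V e₁ e₂ e₃) (hV : V.map (algebraMap K L) = V')
    (H : NewTrivial K L (algebraMap K L e₁) (algebraMap K L e₂) (algebraMap K L e₃))
    (c : Sha L V') (hc : 2 • c = 0) : ∃ e : Sha K V, 2 • e = 0 ∧ Sha.res hV e = c := by
  obtain ⟨f, rfl⟩ := Sha.mk_surjective c
  rw [← Sha.mk_nsmul, Sha.mk_eq_zero] at hc
  have h' := h.up hV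
  have h2 : IsCobound L V' (fun σ => f.1 σ + f.1 σ) := by
    have : (fun σ => f.1 σ + f.1 σ) = ((2 • f : ShaZ L V') : Coch L V') := by
      funext σ
      change _ = (2 • f.1) σ
      rw [Pi.smul_apply, two_nsmul]
    rw [this]
    exact hc
  obtain ⟨a, Q, r₁, r₂, r₃, d₁, d₂, d₃, c, T⟩ := exists_triple h' f.1 f.2.1 h2
  have hf : FinSol L (algebraMap K L e₁) (algebraMap K L e₂) (algebraMap K L e₃) d₁ d₂ d₃ := by
    intro v
    obtain ⟨ι⟩ := exists_embedding L (v.adicCompletion L)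
    exact T.local_cpt ι (f.2.2.1 v ι)
  have hi : InfSol L (algebraMap K L e₁) (algebraMap K L e₂) (algebraMap K L e₃) d₁ d₂ d₃ := by
    intro v
    obtain ⟨ι⟩ := exists_embedding L v.Completion
    exact T.local_cpt ι (f.2.2.2 v ι)
  obtain ⟨s₁, s₂, s₃, n1, n2, n3, g1, g2, g3⟩ := sel_up hodd h hV H T.hd T.hc hf hi
  obtain ⟨nf, ni⟩ := norm_sel h hV T.hd T.hc hf hi
  obtain ⟨f₀, a₀, q₁, q₂, q₃, k1, k2, k3, T₀⟩ := exists_sha_of_triple h
    (d₁ := Algebra.norm K d₁) (d₂ := Algebra.norm K d₂) (d₃ := Algebra.norm K d₃)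
    (c := Algebra.norm K c) (by rw [← map_mul, ← map_mul, T.hd, map_pow])
    (Algebra.norm_ne_zero_iff.mpr T.hc) nf ni
  refine ⟨Sha.mk ⟨f₀, k1, k2⟩, ?_, ?_⟩
  · rw [← Sha.mk_nsmul, Sha.mk_eq_zero]
    refine ⟨0, fun σ => ?_⟩
    change (2 • f₀) σ = _
    rw [Pi.smul_apply, two_nsmul, k3, map_zero, sub_zero]
  · rw [Sha.res_mk, ← sub_eq_zero]
    have h3 : Sha.mk (resZ hV ⟨f₀, k1, k2⟩) - Sha.mk f =
        Sha.mk (resZ hV ⟨f₀, k1, k2⟩ - f) := rfl
    rw [h3, Sha.mk_eq_zero, isCobound_iff]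
    refine ⟨-Q, fun τ => ?_⟩
    change resF hV f₀ τ - f.1 τ = _
    set j := jj K L with hj
    obtain ⟨u₁, p1⟩ := sqrt_up (j := j) T.q1 g1 T₀.q1
    obtain ⟨u₂, p2⟩ := sqrt_up (j := j) T.q2 g2 T₀.q2
    obtain ⟨u₃, p3⟩ := sqrt_up (j := j) T.q3 g3 T₀.q3
    let σ : AlgebraicClosure K ≃ₐ[K] AlgebraicClosure K :=
      (j.trans (τ.restrictScalars K)).trans j.symm
    have hσ : ∀ x, j (σ x) = τ (j x) := fun x => j.apply_symm_apply _
    obtain ⟨t1, t2, t3⟩ := T₀.sg σ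
    have e1 : Sg (a₀ σ) τ r₁ r₂ r₃ :=
      ⟨sqrt_act p1 τ hσ t1, sqrt_act p2 τ hσ t2, sqrt_act p3 τ hσ t3⟩
    have hb' := h'.bc (Ω := AlgebraicClosure L)
    have e2 : a₀ σ = a τ := Sg.unique hb'.two T.n2 T.n3 e1 (T.sg τ)
    have e3 : resF hV f₀ τ = (h'.bc (Ω := AlgebraicClosure L)).tau (a τ) := by
      have e4 : resF hV f₀ τ = pm (j : AlgebraicClosure K →+* AlgebraicClosure L) (map_jj hV)
        (f₀ σ) := rfl
      rw [e4, T₀.hf σ, map_zero, sub_zero, zero_add, e2]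
      have fix : ∀ e : K, (j : AlgebraicClosure K →+* AlgebraicClosure L)
          (algebraMap K (AlgebraicClosure K) e) =
          algebraMap L (AlgebraicClosure L) (algebraMap K L e) := by
        intro e
        rw [← IsScalarTower.algebraMap_apply K L (AlgebraicClosure L)]
        exact j.commutes e
      exact pm_tau (h.bc (Ω := AlgebraicClosure K)) (h'.bc (Ω := AlgebraicClosure L))
        (j : AlgebraicClosure K →+* AlgebraicClosure L) (map_jj hV) (fix e₁) (fix e₂) (fix e₃) _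
    rw [e3, T.hf τ, map_neg, map_eq_pm]
    change _ - (act (inv_bc L V') τ Q - Q + _) = _
    abel

/-- **Isomorphism on two-primary parts.** -/
theorem sha_bijOn (hodd : Odd (Module.finrank K L))
    {e₁ e₂ e₃ : K} (h : IsCub V e₁ e₂ e₃) (hV : V.map (algebraMap K L) = V')
    (H : NewTrivial K L (algebraMap K L e₁) (algebraMap K L e₂) (algebraMap K L e₃)) :
    Set.BijOn (Sha.res hV) {x | ∃ m : ℕ, 2 ^ m • x = 0} {x | ∃ m : ℕ, 2 ^ m • x = 0} :=
  bijOn_of_two (Sha.res hV) (Sha.cor hV) hodd (Sha.cor_res hV)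
    (two_torsion_up hodd h hV H)

end

end Pool.Agent.H10
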