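import Pool.Agent.H10.Iso2

/-!
The Mordell-Weil groups: every point over `L` is a point over `K` plus twice a point over `L`.
-/

set_option autoImplicit false
set_option linter.style.haveILetI false
open scoped Classical

open WeierstrassCurve IsDedekindDomain NumberField

namespace Pool.Agent.H10

/-- Galois descent for points. -/
lemma pm_descent {k Ω : Type*} [Field k] [Field Ω] [Algebra k Ω] [IsGalois k Ω]
    {V : WeierstrassCurve k} {E : WeierstrassCurve Ω} (hE : V.map (algebraMap k Ω) = E)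
    (h : Inv k E) (P : E.toAffine.Point) (hP : ∀ σ : Ω ≃ₐ[k] Ω, act h σ P = P) :
    ∃ P₀ : V.toAffine.Point, pm (algebraMap k Ω) hE P₀ = P := by
  subst hE
  rcases P with _ | ⟨x, y, hxy⟩
  · exact ⟨0, map_zero _⟩
  · have h1 : ∀ σ : Ω ≃ₐ[k] Ω, σ x = x ∧ σ y = y := by
      intro σ
      have h2 := hP σ
      unfold act at h2
      rw [pm_some, Affine.Point.some.injEq] at h2
      exact h2
    obtain ⟨x₀, hx⟩ := fixed_of_galois x (fun σ => (h1 σ).1)
    obtain ⟨y₀, hy⟩ := fixed_of_galois y (fun σ => (h1 σ).2)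
    subst hx hy
    refine ⟨.some x₀ y₀ ((Affine.map_nonsingular V (algebraMap k Ω).injective x₀ y₀).mp hxy), ?_⟩
    rw [pm_some]

section

variable {K L : Type} [Field K] [NumberField K] [Field L] [NumberField L] [Algebra K L]
variable {V : WeierstrassCurve K} {V' : WeierstrassCurve L}

theorem mw_up (hodd : Odd (Module.finrank K L))
    {e₁ e₂ e₃ : K} (h : IsCub V e₁ e₂ e₃) (hV : V.map (algebraMap K L) = V')
    (H : NewTrivial K L (algebraMap K L e₁) (algebraMap K L e₂) (algebraMap K L e₃))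
    (P : V'.toAffine.Point) : ∃ (Q : V.toAffine.Point) (R : V'.toAffine.Point),
      P = pm (algebraMap K L) hV Q + (R + R) := by
  have h' := h.up hV
  have hb := h.bc (Ω := AlgebraicClosure K)
  have hb' := h'.bc (Ω := AlgebraicClosure L)
  have hL : V'.map (algebraMap L (AlgebraicClosure L)) = V'.baseChange (AlgebraicClosure L) := rfl
  have hK : V.map (algebraMap K (AlgebraicClosure K)) = V.baseChange (AlgebraicClosure K) := rfl
  obtain ⟨R', hR'⟩ := hb'.exists_two_nsmul (pm (algebraMap L (AlgebraicClosure L)) hL P)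
  -- the cocycle
  set iL := inv_bc (Ω := AlgebraicClosure L) L V' with hiL
  set iK := inv_bc (Ω := AlgebraicClosure K) K V with hiK
  have hPinv : ∀ τ, act iL τ (pm (algebraMap L (AlgebraicClosure L)) hL P) =
      pm (algebraMap L (AlgebraicClosure L)) hL P := by
    intro τ
    unfold act
    rw [pm_pm]
    exact pm_congr _ _ (fun x => τ.commutes x) _
  let f : Coch L V' := fun τ => act iL τ R' - R'
  have hf2 : ∀ τ, f τ + f τ = 0 := by
    intro τ
    have h1 := hPinv τ
    rw [← hR', map_add] at h1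
    calc f τ + f τ = (act iL τ R' + act iL τ R') - (R' + R') := by simp only [f]; abel
      _ = 0 := by rw [h1, sub_self]
  have hfc : IsCocycle L V' f := (isCocycle_iff _).mpr (isCoc_cob iL R')
  obtain ⟨a, r₁, r₂, r₃, d₁, d₂, d₃, c, T⟩ := exists_triple_half h' f hfc 0 (by
    intro σ
    rw [hf2, add_zero, map_zero, sub_zero])
  have hcob : IsCobound L V' f := (isCobound_iff _).mpr ⟨R', fun σ => rfl⟩
  have hC := T.cpt hcob
  have hN := CPt.norm (k := K) h.h12 h.h13 h.h23 T.hd T.hc hC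
  obtain ⟨s₁, s₂, s₃, n1, n2, n3, g1, g2, g3⟩ := sel_up hodd h hV H T.hd T.hc
    (fun v => hC.map (algebraMap L (v.adicCompletion L)))
    (fun v => hC.map (algebraMap L v.Completion))
  have hdn : d₁ * d₂ * d₃ ≠ 0 := by rw [T.hd]; exact pow_ne_zero 2 T.hc
  have hd1 : d₁ ≠ 0 := fun h => hdn (by rw [h]; ring)
  have hd2 : d₂ ≠ 0 := fun h => hdn (by rw [h]; ring)
  have hd3 : d₃ ≠ 0 := fun h => hdn (by rw [h]; ring)
  obtain ⟨q₁, m1, p1⟩ := exists_sqrt (AlgebraicClosure K)
    (Algebra.norm_ne_zero_iff (R := K).mpr hd1)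
  obtain ⟨q₂, m2, p2⟩ := exists_sqrt (AlgebraicClosure K)
    (Algebra.norm_ne_zero_iff (R := K).mpr hd2)
  obtain ⟨q₃, m3, p3⟩ := exists_sqrt (AlgebraicClosure K)
    (Algebra.norm_ne_zero_iff (R := K).mpr hd3)
  obtain ⟨R₀, hR₀⟩ := bridge_mpr (K₀ := K) (k := K) h m1 m2 m3 p1 p2 p3 hN
  have hprod : Algebra.norm K d₁ * Algebra.norm K d₂ * Algebra.norm K d₃ =
      (Algebra.norm K c) ^ 2 := by rw [← map_mul, ← map_mul, T.hd, map_pow]
  have hact : ∀ σ : AlgebraicClosure K ≃ₐ[K] AlgebraicClosure K, ∃ b, Sg b σ q₁ q₂ q₃ ∧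
      act iK σ R₀ = R₀ + hb.tau b := by
    intro σ
    obtain ⟨b, hb'⟩ := exists_sg (k := K) σ (fun y => σ.commutes y) m1 m2 m3 p1 p2 p3 hprod
    refine ⟨b, hb', ?_⟩
    have h1 := hR₀ σ.toAlgHom (fun y => σ.commutes y) b hb'
    rw [map_eq_pm] at h1
    exact h1
  -- twice `R₀` is rational
  obtain ⟨Q, hQ⟩ := pm_descent (V := V) hK iK (R₀ + R₀) (by
    intro σ
    obtain ⟨b, -, hb1⟩ := hact σ
    rw [map_add, hb1]
    have := hb.tau_add_self b
    calc R₀ + hb.tau b + (R₀ + hb.tau b) = (R₀ + R₀) + (hb.tau b + hb.tau b) := by abel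
      _ = R₀ + R₀ := by rw [this, add_zero])
  set j := jj K L with hj
  obtain ⟨u₁, w1⟩ := sqrt_up (j := j) T.q1 g1 p1
  obtain ⟨u₂, w2⟩ := sqrt_up (j := j) T.q2 g2 p2
  obtain ⟨u₃, w3⟩ := sqrt_up (j := j) T.q3 g3 p3
  let R₁ := pm (j : AlgebraicClosure K →+* AlgebraicClosure L) (map_jj hV) R₀
  obtain ⟨R, hR⟩ := pm_descent (V := V') hL iL (R' - R₁) (by
    intro τ
    let σ : AlgebraicClosure K ≃ₐ[K] AlgebraicClosure K :=
      (j.trans (τ.restrictScalars K)).trans j.symm
    have hσ : ∀ x, j (σ x) = τ (j x) := fun x => j.apply_symm_apply _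
    obtain ⟨b, ⟨t1, t2, t3⟩, hb1⟩ := hact σ
    have e1 : Sg b τ r₁ r₂ r₃ :=
      ⟨sqrt_act w1 τ hσ t1, sqrt_act w2 τ hσ t2, sqrt_act w3 τ hσ t3⟩
    have e2 : b = a τ := Sg.unique hb'.two T.n2 T.n3 e1 (T.sg τ)
    have e3 : act iL τ R' - R' = hb'.tau (a τ) := by
      have := T.hf τ
      rw [map_zero, sub_zero, zero_add] at this
      exact this
    have e4 : act iL τ R₁ = R₁ + hb'.tau (a τ) := by
      have e5 : act iL τ R₁ = pm (j : AlgebraicClosure K →+* AlgebraicClosure L) (map_jj hV)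
          (act iK σ R₀) := by
        unfold act
        rw [pm_pm, pm_pm]
        exact pm_congr _ _ (fun x => (hσ x).symm) _
      have fix : ∀ e : K, (j : AlgebraicClosure K →+* AlgebraicClosure L)
          (algebraMap K (AlgebraicClosure K) e) =
          algebraMap L (AlgebraicClosure L) (algebraMap K L e) := by
        intro e
        rw [← IsScalarTower.algebraMap_apply K L (AlgebraicClosure L)]
        exact j.commutes e
      rw [e5, hb1, map_add, e2]
      congr 1
      exact pm_tau hb hb' (j : AlgebraicClosure K →+* AlgebraicClosure L) (map_jj hV)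
        (fix e₁) (fix e₂) (fix e₃) _
    have e6 : act iL τ R' = R' + hb'.tau (a τ) := by rw [← e3]; abel
    rw [map_sub, e4, e6]
    abel)
  refine ⟨Q, R, ?_⟩
  apply pm_injective (algebraMap L (AlgebraicClosure L)) hL
  have e7 : pm (algebraMap L (AlgebraicClosure L)) hL (pm (algebraMap K L) hV Q) = R₁ + R₁ := by
    have e8 : R₁ + R₁ = pm (j : AlgebraicClosure K →+* AlgebraicClosure L) (map_jj hV)
        (pm (algebraMap K (AlgebraicClosure K)) hK Q) := by
      rw [hQ, map_add]
    rw [e8, pm_pm, pm_pm]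
    apply pm_congr
    intro x
    change algebraMap L (AlgebraicClosure L) (algebraMap K L x) =
      j (algebraMap K (AlgebraicClosure K) x)
    rw [← IsScalarTower.algebraMap_apply K L (AlgebraicClosure L), AlgEquiv.commutes]
  rw [map_add, map_add, e7, hR, ← hR']
  abel

end

end Pool.Agent.H10
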