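import Pool.Agent.H10.Trace

/-!
Quadratic Kummer theory for a locally constant sign character of an absolute Galois group.
-/

set_option autoImplicit false

open WeierstrassCurve

namespace Pool.Agent.H10

/-- A locally constant homomorphism from the Galois group to the signs is the sign character of
a square root. -/
theorem exists_kummer {k Ω : Type*} [Field k] [Field Ω] [Algebra k Ω] [IsGalois k Ω]
    (χ : (Ω ≃ₐ[k] Ω) → ℤˣ) (hloc : IsLocallyConstant χ)
    (hmul : ∀ σ τ, χ (σ * τ) = χ σ * χ τ) :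
    ∃ r : Ω, r ≠ 0 ∧ ∀ σ, σ r = ((χ σ : ℤ) : Ω) * r := by
  by_cases hall : ∀ σ, χ σ = 1
  · exact ⟨1, one_ne_zero, fun σ => by simp [hall σ]⟩
  · push Not at hall
    obtain ⟨σ₀, hσ₀⟩ := hall
    have hσ₀' : χ σ₀ = -1 := (Int.units_eq_one_or _).resolve_left hσ₀
    let φ : (Ω ≃ₐ[k] Ω) →* ℤˣ := MonoidHom.mk' χ hmul
    let N : ClosedSubgroup (Ω ≃ₐ[k] Ω) :=
      { φ.ker with
        isClosed' := by
          have : (φ.ker : Set (Ω ≃ₐ[k] Ω)) = χ ⁻¹' {1} := by
            ext σ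
            simp [φ, MonoidHom.mem_ker]
          change IsClosed (φ.ker : Set (Ω ≃ₐ[k] Ω))
          rw [this]
          exact hloc.isClosed_fiber 1 }
    have hmem : ∀ σ, σ ∈ N.toSubgroup ↔ χ σ = 1 := by
      intro σ
      change σ ∈ φ.ker ↔ _
      rw [MonoidHom.mem_ker]
      rfl
    have hN : σ₀ ∉ (IntermediateField.fixedField N.toSubgroup).fixingSubgroup := by
      rw [InfiniteGalois.fixingSubgroup_fixedField N]
      intro h
      exact hσ₀ ((hmem σ₀).1 h)
    rw [IntermediateField.mem_fixingSubgroup_iff] at hN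
    push Not at hN
    obtain ⟨u, hu, hu0⟩ := hN
    have hfix : ∀ σ, χ σ = 1 → σ u = u := by
      intro σ hσ
      exact (IntermediateField.mem_fixedField_iff N.toSubgroup u).1 hu σ ((hmem σ).2 hσ)
    have inv_mul : ∀ σ, χ (σ₀⁻¹ * σ) = χ σ₀ * χ σ := by
      intro σ
      have h1 : χ (σ₀ * (σ₀⁻¹ * σ)) = χ σ₀ * χ (σ₀⁻¹ * σ) := hmul _ _
      rw [mul_inv_cancel_left] at h1
      rw [h1, ← mul_assoc, Int.units_mul_self, one_mul]
    refine ⟨u - σ₀ u, sub_ne_zero.2 (fun h => hu0 h.symm), ?_⟩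
    intro σ
    rcases Int.units_eq_one_or (χ σ) with h | h
    · have h1 : σ u = u := hfix σ h
      have h2 : σ (σ₀ u) = σ₀ u := by
        have : χ (σ₀⁻¹ * (σ * σ₀)) = 1 := by
          rw [inv_mul, hmul, h, one_mul, Int.units_mul_self]
        have h3 := hfix _ this
        have h4 : σ₀ ((σ₀⁻¹ * (σ * σ₀)) u) = σ₀ u := by rw [h3]
        rw [← AlgEquiv.mul_apply, mul_inv_cancel_left, AlgEquiv.mul_apply] at h4
        exact h4
      rw [map_sub, h1, h2, h]
      simp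
    · have h1 : σ u = σ₀ u := by
        have : χ (σ₀⁻¹ * σ) = 1 := by
          rw [inv_mul, hσ₀', h]; decide
        have h3 := hfix _ this
        have h4 : σ₀ ((σ₀⁻¹ * σ) u) = σ₀ u := by rw [h3]
        rw [← AlgEquiv.mul_apply, mul_inv_cancel_left] at h4
        exact h4
      have h2 : σ (σ₀ u) = u := by
        have : χ (σ * σ₀) = 1 := by
          rw [hmul, h, hσ₀']; decide
        exact hfix _ this
      rw [map_sub, h1, h2, h]
      simp

/-- The action on a point is locally constant. -/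
lemma isLocallyConstant_map {K₀ Ω : Type*} [Field K₀] [Field Ω] [Algebra K₀ Ω]
    [Algebra.IsIntegral K₀ Ω] [DecidableEq Ω] (W : WeierstrassCurve K₀)
    (Q : (W.baseChange Ω).toAffine.Point) :
    IsLocallyConstant (fun σ : Ω ≃ₐ[K₀] Ω => (Affine.Point.map σ.toAlgHom :
      (W.baseChange Ω).toAffine.Point →+ (W.baseChange Ω).toAffine.Point) Q) := by
  rw [IsLocallyConstant.iff_exists_open]
  intro σ
  rcases Q with _ | ⟨x, y, hxy⟩
  · refine ⟨Set.univ, isOpen_univ, Set.mem_univ _, fun τ _ => ?_⟩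
    rfl
  · have hx := stabilizer_isOpen_of_isIntegral (K := K₀) (L := Ω) x
    have hy := stabilizer_isOpen_of_isIntegral (K := K₀) (L := Ω) y
    let U : Set (Ω ≃ₐ[K₀] Ω) := (fun τ => σ⁻¹ * τ) ⁻¹'
      ((MulAction.stabilizer (Ω ≃ₐ[K₀] Ω) x : Set (Ω ≃ₐ[K₀] Ω)) ∩
       (MulAction.stabilizer (Ω ≃ₐ[K₀] Ω) y : Set (Ω ≃ₐ[K₀] Ω)))
    refine ⟨U, (hx.inter hy).preimage (continuous_const_mul σ⁻¹), ?_, ?_⟩
    · simp [U]
    · rintro τ ⟨h1, h2⟩
      have e1 : (σ⁻¹ * τ) x = x := h1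
      have e2 : (σ⁻¹ * τ) y = y := h2
      have f1 : τ x = σ x := by
        have : σ ((σ⁻¹ * τ) x) = σ x := by rw [e1]
        rw [← AlgEquiv.mul_apply, mul_inv_cancel_left] at this
        exact this
      have f2 : τ y = σ y := by
        have : σ ((σ⁻¹ * τ) y) = σ y := by rw [e2]
        rw [← AlgEquiv.mul_apply, mul_inv_cancel_left] at this
        exact this
      rw [Affine.Point.map_some, Affine.Point.map_some, Affine.Point.some.injEq]
      exact ⟨f1, f2⟩

/-- Divisibility by two over an algebraically closed field. -/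
lemma IsCub.exists_two_nsmul {Ω : Type*} [Field Ω] [IsAlgClosed Ω] [DecidableEq Ω]
    {W : WeierstrassCurve Ω} {e₁ e₂ e₃ : Ω} (h : IsCub W e₁ e₂ e₃) (Q : W.toAffine.Point) :
    ∃ Q' : W.toAffine.Point, Q' + Q' = Q := by
  rcases Q with _ | ⟨x, y, hxy⟩
  · exact ⟨0, by simp; rfl⟩
  · obtain ⟨s₁, h1⟩ := IsAlgClosed.exists_pow_nat_eq (x - e₁) (n := 2) (by norm_num)
    obtain ⟨s₂, h2⟩ := IsAlgClosed.exists_pow_nat_eq (x - e₂) (n := 2) (by norm_num)
    obtain ⟨s₃, h3⟩ := IsAlgClosed.exists_pow_nat_eq (x - e₃) (n := 2) (by norm_num)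
    have hEq := (h.equation_iff x y).1 hxy.1
    have hsq : (s₁ * s₂ * s₃) ^ 2 = y ^ 2 := by
      rw [mul_pow, mul_pow, h1, h2, h3, hEq]
    rcases sq_eq_sq_iff_eq_or_eq_neg.1 hsq with H | H
    · subst H
      exact ⟨_, h.half_add_half h1 h2 h3 hxy⟩
    · have H' : y = (-s₁) * s₂ * s₃ := by rw [neg_mul, neg_mul, H, neg_neg]
      subst H'
      have h1' : (-s₁) ^ 2 = x - e₁ := by rw [← h1]; ring
      exact ⟨_, h.half_add_half h1' h2 h3 hxy⟩

end Pool.Agent.H10
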