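import Mathlib

/-!
Divisibility and approximation in the completed integers at a principal prime.
-/

set_option autoImplicit false

open IsDedekindDomain NumberField WithZero

namespace Pool.Agent.H10

section

variable {R K : Type*} [CommRing R] [IsDedekindDomain R] [Field K] [Algebra R K]
  [IsFractionRing R K]

lemma valued_algebraMap (v : HeightOneSpectrum R) (k : K) :
    Valued.v (algebraMap K (v.adicCompletion K) k) = v.valuation K k :=
  v.valuedAdicCompletion_eq_valuation' k

lemma valued_natCast (v : HeightOneSpectrum R) (n : ℕ) :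
    Valued.v (n : v.adicCompletion K) = v.valuation K (n : K) := by
  rw [← valued_algebraMap, map_natCast (algebraMap K (v.adicCompletion K))]

lemma valued_intCast_le (v : HeightOneSpectrum R) (n : ℤ) :
    Valued.v (n : v.adicCompletion K) ≤ 1 := by
  have h := valued_algebraMap (K := K) v (algebraMap R K (n : R))
  rw [map_intCast (algebraMap R K), map_intCast (algebraMap K (v.adicCompletion K))] at h
  rw [h]
  have h1 := v.valuation_le_one (K := K) (n : R)
  change v.valuation K (algebraMap R K (n : R)) ≤ 1 at h1
  rwa [map_intCast (algebraMap R K)] at h1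

lemma valued_coe_int (v : HeightOneSpectrum R) (a : R) :
    Valued.v ((algebraMap R (v.adicCompletionIntegers K) a : v.adicCompletionIntegers K) :
      v.adicCompletion K) = v.intValuation a := by
  rw [← v.valuation_of_algebraMap (K := K), ← v.valuedAdicCompletion_eq_valuation']
  rfl

lemma dvd_pow_iff (v : HeightOneSpectrum R) {π : R} (h0 : π ≠ 0)
    (hv : v.asIdeal = Ideal.span {π}) (x : v.adicCompletionIntegers K) (n : ℕ) :
    (algebraMap R (v.adicCompletionIntegers K) π) ^ n ∣ x ↔
      Valued.v (x : v.adicCompletion K) ≤ exp (-(n : ℤ)) := by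
  have hval : Valued.v ((((algebraMap R (v.adicCompletionIntegers K) π) ^ n :
      v.adicCompletionIntegers K)) : v.adicCompletion K) = exp (-(n : ℤ)) := by
    have h1 : ((((algebraMap R (v.adicCompletionIntegers K) π) ^ n :
      v.adicCompletionIntegers K)) : v.adicCompletion K) =
        ((algebraMap R (v.adicCompletionIntegers K) π : v.adicCompletionIntegers K) :
          v.adicCompletion K) ^ n := rfl
    rw [h1, map_pow, valued_coe_int, v.intValuation_singleton h0 hv, ← exp_nsmul]
    simp
  rw [(HeightOneSpectrum.adicCompletionIntegers.integers K v).dvd_iff_le]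
  change Valued.v (x : v.adicCompletion K) ≤ Valued.v ((((algebraMap R
    (v.adicCompletionIntegers K) π) ^ n : v.adicCompletionIntegers K)) : v.adicCompletion K) ↔ _
  rw [hval]

lemma dvd_alg_iff (v : HeightOneSpectrum R) {π : R} (h0 : π ≠ 0)
    (hv : v.asIdeal = Ideal.span {π}) (a : R) (n : ℕ) :
    (algebraMap R (v.adicCompletionIntegers K) π) ^ n ∣
      algebraMap R (v.adicCompletionIntegers K) a ↔ π ^ n ∣ a := by
  rw [dvd_pow_iff v h0 hv, valued_coe_int, v.intValuation_le_pow_iff_mem, hv,
    Ideal.span_singleton_pow, Ideal.mem_span_singleton]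

lemma isUnit_of_not_dvd (v : HeightOneSpectrum R) {π : R} (h0 : π ≠ 0)
    (hv : v.asIdeal = Ideal.span {π}) (x : v.adicCompletionIntegers K)
    (hx : ¬ (algebraMap R (v.adicCompletionIntegers K) π) ∣ x) : IsUnit x := by
  rw [HeightOneSpectrum.adicCompletionIntegers.isUnit_iff_valued_eq_one]
  by_contra hne
  apply hx
  have h1 : Valued.v (x : v.adicCompletion K) < 1 := lt_of_le_of_ne x.2 hne
  have := (dvd_pow_iff v h0 hv x 1).mpr ?_
  · simpa using this
  · have h2 := (lt_mul_exp_iff_le (x := Valued.v (x : v.adicCompletion K))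
      (y := exp (-1 : ℤ)) exp_ne_zero).mp (by
        rw [← exp_add, neg_add_cancel, exp_zero]
        exact h1)
    simpa using h2

lemma prime_unif (v : HeightOneSpectrum R) {π : R} (h0 : π ≠ 0)
    (hv : v.asIdeal = Ideal.span {π}) :
    Prime (algebraMap R (v.adicCompletionIntegers K) π) := by
  have hinj : Function.Injective (algebraMap R (v.adicCompletionIntegers K)) :=
    FaithfulSMul.algebraMap_injective _ _
  refine ⟨fun h => h0 (hinj (by rw [h, map_zero])), ?_, ?_⟩
  · intro h
    rw [HeightOneSpectrum.adicCompletionIntegers.isUnit_iff_valued_eq_one, valued_coe_int,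
      v.intValuation_singleton h0 hv, ← exp_zero, exp_inj] at h
    omega
  · intro a b hab
    by_contra hcon
    rw [not_or] at hcon
    have ha := isUnit_of_not_dvd v h0 hv a hcon.1
    have hb := isUnit_of_not_dvd v h0 hv b hcon.2
    have hu := isUnit_of_dvd_unit hab (ha.mul hb)
    rw [HeightOneSpectrum.adicCompletionIntegers.isUnit_iff_valued_eq_one, valued_coe_int,
      v.intValuation_singleton h0 hv, ← exp_zero, exp_inj] at hu
    omega

lemma exists_approx (v : HeightOneSpectrum R) {π : R} (h0 : π ≠ 0)
    (hv : v.asIdeal = Ideal.span {π}) (x : v.adicCompletionIntegers K) (n : ℕ) :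
    ∃ a : R, (algebraMap R (v.adicCompletionIntegers K) π) ^ n ∣
      x - algebraMap R (v.adicCompletionIntegers K) a := by
  -- approximate by an element of `K`
  have hd := HeightOneSpectrum.denseRange_algebraMap (K := K) v
  have hopen : IsOpen {y : v.adicCompletion K | Valued.v (y - x) < exp (-(n : ℤ))} := by
    have h1 : IsOpen {y : v.adicCompletion K | Valued.v y < exp (-(n : ℤ))} := by
      obtain ⟨t, ht⟩ := v.valuedAdicCompletion_surjective K (exp (-(n : ℤ)))
      have := Valued.isOpen_ball (v.adicCompletion K) (Valued.v.restrict t)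
      simp_rw [Valuation.restrict_lt_iff] at this
      rwa [ht] at this
    exact h1.preimage (continuous_sub_right (x : v.adicCompletion K))
  obtain ⟨k, hk⟩ := hd.exists_mem_open hopen ⟨x, by simp⟩
  have hk1 : v.valuation K k ≤ 1 := by
    rw [← v.valuedAdicCompletion_eq_valuation']
    have h2 : ((k : K) : v.adicCompletion K) =
        (algebraMap K (v.adicCompletion K) k - x) + x := by
      rw [sub_add_cancel]; rfl
    rw [h2]
    refine (Valuation.map_add_le _ ?_ x.2)
    refine le_trans (le_of_lt hk) ?_
    rw [← exp_zero, exp_le_exp]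
    omega
  obtain ⟨a, ha⟩ := v.exists_valuation_sub_lt_of_integer hk1
    (Units.mk0 (exp (-(n : ℤ)) : ℤᵐ⁰) (exp_ne_zero))
  refine ⟨a, ?_⟩
  rw [dvd_pow_iff v h0 hv]
  have h3 : ((x - algebraMap R (v.adicCompletionIntegers K) a : v.adicCompletionIntegers K) :
      v.adicCompletion K) =
      -(algebraMap K (v.adicCompletion K) k - x) -
        algebraMap K (v.adicCompletion K) (algebraMap R K a - k) := by
    rw [map_sub]
    change (x : v.adicCompletion K) - algebraMap K (v.adicCompletion K) (algebraMap R K a) = _
    ring
  rw [h3]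
  refine le_trans (Valuation.map_sub _ _ _) (max_le ?_ ?_)
  · rw [Valuation.map_neg]
    exact le_of_lt hk
  · have := v.valuedAdicCompletion_eq_valuation' (K := K) (algebraMap R K a - k)
    change Valued.v (algebraMap K (v.adicCompletion K) (algebraMap R K a - k)) = _ at this
    rw [this]
    exact le_of_lt ha

end

end Pool.Agent.H10
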