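import Pool.Agent.H10.Func7
import Pool.Agent.H10.Hasse
import Pool.Agent.H10.SelDef

/-!
The norm of an everywhere locally soluble triple is everywhere locally soluble.
-/

set_option autoImplicit false
set_option linter.style.haveILetI false
open scoped Classical

open WeierstrassCurve IsDedekindDomain NumberField

namespace Pool.Agent.H10

section

variable {F F' : Type*} [Field F] [Field F'] {V : WeierstrassCurve F} {V' : WeierstrassCurve F'}

lemma pm_tau {e₁ e₂ e₃ : F} {e₁' e₂' e₃' : F'} (h : IsCub V e₁ e₂ e₃) (h' : IsCub V' e₁' e₂' e₃')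
    (φ : F →+* F') (hV : V.map φ = V') (g1 : φ e₁ = e₁') (g2 : φ e₂ = e₂') (g3 : φ e₃ = e₃')
    (x : ℤˣ × ℤˣ) : pm φ hV (h.tau x) = h'.tau x := by
  unfold IsCub.tau
  split_ifs
  · exact map_zero _
  · unfold IsCub.T₂
    rw [pm_some, Affine.Point.some.injEq]
    exact ⟨g2, map_zero _⟩
  · unfold IsCub.T₃
    rw [pm_some, Affine.Point.some.injEq]
    exact ⟨g3, map_zero _⟩
  · unfold IsCub.T₁
    rw [pm_some, Affine.Point.some.injEq]
    exact ⟨g1, map_zero _⟩

lemma tau_prod {ι : Type*} {e₁ e₂ e₃ : F} (h : IsCub V e₁ e₂ e₃) (s : Finset ι)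
    (a : ι → ℤˣ × ℤˣ) : h.tau (∏ j ∈ s, a j) = ∑ j ∈ s, h.tau (a j) := by
  induction s using Finset.induction_on with
  | empty => simp [IsCub.tau_one]
  | insert j s hj ih => rw [Finset.sum_insert hj, Finset.prod_insert hj, IsCub.tau_add, ih]

end

section

variable {K L : Type} [Field K] [NumberField K] [Field L] [NumberField L] [Algebra K L]
variable {V : WeierstrassCurve K} {V' : WeierstrassCurve L}

lemma IsCub.up {e₁ e₂ e₃ : K} (h : IsCub V e₁ e₂ e₃) (hV : V.map (algebraMap K L) = V') :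
    IsCub V' (algebraMap K L e₁) (algebraMap K L e₂) (algebraMap K L e₃) := by
  have h1 := h.bc (Ω := L)
  have h2 : V.baseChange L = V' := hV
  rwa [h2] at h1

theorem norm_sel {e₁ e₂ e₃ : K} (h : IsCub V e₁ e₂ e₃) (hV : V.map (algebraMap K L) = V')
    {d₁ d₂ d₃ c : L} (hd : d₁ * d₂ * d₃ = c ^ 2) (hc : c ≠ 0)
    (hf : FinSol L (algebraMap K L e₁) (algebraMap K L e₂) (algebraMap K L e₃) d₁ d₂ d₃)
    (hi : InfSol L (algebraMap K L e₁) (algebraMap K L e₂) (algebraMap K L e₃) d₁ d₂ d₃) :
    FinSol K e₁ e₂ e₃ (Algebra.norm K d₁) (Algebra.norm K d₂) (Algebra.norm K d₃) ∧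
    InfSol K e₁ e₂ e₃ (Algebra.norm K d₁) (Algebra.norm K d₂) (Algebra.norm K d₃) := by
  have h' := h.up hV
  obtain ⟨f, a, r₁, r₂, r₃, hcoc, hloc, -, T⟩ := exists_sha_of_triple h' hd hc hf hi
  have hg1 := isCocycle_cor hV hcoc
  have hg2 := isLocTriv_cor hV hcoc hloc
  set j : AlgebraicClosure K ≃ₐ[K] AlgebraicClosure L := jj K L with hj
  let cj : (AlgebraicClosure K ≃ₐ[K] AlgebraicClosure K) →
    (AlgebraicClosure L ≃ₐ[K] AlgebraicClosure L) := fun σ => (j.symm.trans σ).trans j
  have hcj : ∀ σ x, cj σ x = j (σ (j.symm x)) := fun σ x => rfl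
  let pr : AlgebraicClosure L → AlgebraicClosure L := fun r => ∏ φ : L →ₐ[K] AlgebraicClosure L,
    lft φ r
  have prmv : ∀ (σ : AlgebraicClosure L ≃ₐ[K] AlgebraicClosure L) (r : AlgebraicClosure L),
      ∏ φ : L →ₐ[K] AlgebraicClosure L, lft (mv σ φ) r = pr r := by
    intro σ r
    have := sum_mv (M := Additive (AlgebraicClosure L)) σ
      (fun φ : L →ₐ[K] AlgebraicClosure L => Additive.ofMul (lft φ r))
    exact this
  have prn : ∀ r, r ≠ 0 → pr r ≠ 0 := by
    intro r hr
    refine Finset.prod_ne_zero_iff.2 fun φ _ => ?_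
    intro h0
    exact hr ((lft φ).injective (by rw [h0, map_zero]))
  have prsq : ∀ r d, r ^ 2 = algebraMap L (AlgebraicClosure L) d →
      (j.symm (pr r)) ^ 2 = algebraMap K (AlgebraicClosure K) (Algebra.norm K d) := by
    intro r d hr
    rw [← map_pow, ← Finset.prod_pow]
    have h1 : ∏ φ : L →ₐ[K] AlgebraicClosure L, (lft φ r) ^ 2 =
        algebraMap K (AlgebraicClosure L) (Algebra.norm K d) := by
      rw [Algebra.norm_eq_prod_embeddings K (AlgebraicClosure L) d]
      refine Finset.prod_congr rfl fun φ _ => ?_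
      rw [← map_pow, hr, lft_apply]
    rw [h1]
    exact j.symm.commutes _
  let a' : (AlgebraicClosure K ≃ₐ[K] AlgebraicClosure K) → ℤˣ × ℤˣ := fun σ =>
    ∏ φ : L →ₐ[K] AlgebraicClosure L, a (hh (cj σ) φ)
  have hj0 : ∀ x, x ≠ 0 → j.symm x ≠ 0 := fun x hx h0 => hx (j.symm.injective (by rw [h0, map_zero]))
  have T' : Triple h (corF hV f) a' 0 (j.symm (pr r₁)) (j.symm (pr r₂)) (j.symm (pr r₃))
      (Algebra.norm K d₁) (Algebra.norm K d₂) (Algebra.norm K d₃) (Algebra.norm K c) := by
    refine ⟨hj0 _ (prn _ T.n1), hj0 _ (prn _ T.n2), hj0 _ (prn _ T.n3), prsq _ _ T.q1,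
      prsq _ _ T.q2, prsq _ _ T.q3, Algebra.norm_ne_zero_iff.mpr hc, ?_, ?_, ?_⟩
    · rw [← map_mul, ← map_mul, hd, map_pow]
    · intro σ
      have h1 : Sg (a' σ) ((cj σ : AlgebraicClosure L →ₐ[K] AlgebraicClosure L)) (pr r₁) (pr r₂)
          (pr r₃) := by
        refine Sg.prod Finset.univ (fun φ => a (hh (cj σ) φ)) _ (fun φ => lft φ r₁)
          (fun φ => lft φ r₂) (fun φ => lft φ r₃) (fun φ => lft (mv (cj σ) φ) r₁)
          (fun φ => lft (mv (cj σ) φ) r₂) (fun φ => lft (mv (cj σ) φ) r₃) ?_ ?_ ?_ (prmv _ _)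
          (prmv _ _) (prmv _ _)
        · intro φ _
          change cj σ (lft φ r₁) = _
          rw [← lft_hh, (T.sg (hh (cj σ) φ)).1, map_mul, map_intCast]
        · intro φ _
          change cj σ (lft φ r₂) = _
          rw [← lft_hh, (T.sg (hh (cj σ) φ)).2.1, map_mul, map_intCast]
        · intro φ _
          change cj σ (lft φ r₃) = _
          rw [← lft_hh, (T.sg (hh (cj σ) φ)).2.2, map_mul, map_intCast]
      have h2 : ∀ x, σ (j.symm x) = j.symm (cj σ x) := fun x => by
        rw [hcj, AlgEquiv.symm_apply_apply]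
      obtain ⟨s1, s2, s3⟩ := h1
      refine ⟨?_, ?_, ?_⟩
      · rw [h2]
        have := congrArg j.symm s1
        rw [map_mul, map_intCast] at this
        exact this
      · rw [h2]
        have := congrArg j.symm s2
        rw [map_mul, map_intCast] at this
        exact this
      · rw [h2]
        have := congrArg j.symm s3
        rw [map_mul, map_intCast] at this
        exact this
    · intro σ
      rw [map_zero, sub_zero, zero_add]
      have hft : ∀ τ, f τ = (h'.bc (Ω := AlgebraicClosure L)).tau (a τ) := by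
        intro τ
        rw [T.hf τ, map_zero, sub_zero, zero_add]
      have h1 : corF hV f σ = pm (j.symm : AlgebraicClosure L →+* AlgebraicClosure K)
          (map_jj_symm hV) (cor (inv_up hV) f (cj σ)) := rfl
      have h2 : cor (inv_up hV) f (cj σ) = (h'.bc (Ω := AlgebraicClosure L)).tau (a' σ) := by
        unfold cor term
        rw [tau_prod]
        refine Finset.sum_congr rfl fun φ _ => ?_
        rw [hft]
        unfold act
        have fix : ∀ e : K, (lft (mv (cj σ) φ)) (algebraMap L (AlgebraicClosure L)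
            (algebraMap K L e)) = algebraMap L (AlgebraicClosure L) (algebraMap K L e) := by
          intro e
          rw [← IsScalarTower.algebraMap_apply K L (AlgebraicClosure L), AlgEquiv.commutes]
        exact pm_tau _ _ _ _ (fix e₁) (fix e₂) (fix e₃) _
      rw [h1, h2]
      have fix : ∀ e : K, j.symm (algebraMap L (AlgebraicClosure L) (algebraMap K L e)) =
          algebraMap K (AlgebraicClosure K) e := by
        intro e
        rw [← IsScalarTower.algebraMap_apply K L (AlgebraicClosure L), AlgEquiv.commutes]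
      exact pm_tau _ _ _ _ (fix e₁) (fix e₂) (fix e₃) _
  constructor
  · intro v
    obtain ⟨ι⟩ := exists_embedding K (v.adicCompletion K)
    exact T'.local_cpt ι (hg2.1 v ι)
  · intro v
    obtain ⟨ι⟩ := exists_embedding K v.Completion
    exact T'.local_cpt ι (hg2.2 v ι)

end

end Pool.Agent.H10
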