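import Mathlib

/-!
Maps on points along homomorphisms of fields, and local constancy on Galois groups.
-/

set_option autoImplicit false

open WeierstrassCurve

namespace Pool.Agent.H10

section pm

variable {F F' F'' : Type*} [Field F] [Field F'] [Field F'']
variable {V : WeierstrassCurve F} {V' : WeierstrassCurve F'} {V'' : WeierstrassCurve F''}

/-- The map on points along a homomorphism of fields, as a function. -/
def pmFun (φ : F →+* F') (h : V.map φ = V') : V.toAffine.Point → V'.toAffine.Point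
  | 0 => 0
  | .some x y hxy => .some (φ x) (φ y) (by
      rw [← h]; exact (Affine.map_nonsingular V φ.injective x y).mpr hxy)

variable [DecidableEq F] [DecidableEq F'] [DecidableEq F'']

/-- The map on points along a homomorphism of fields. -/
noncomputable def pm (φ : F →+* F') (h : V.map φ = V') :
    V.toAffine.Point →+ V'.toAffine.Point where
  toFun := pmFun φ h
  map_zero' := rfl
  map_add' := by
    subst h
    rintro (_ | ⟨x₁, y₁, h₁⟩) (_ | ⟨x₂, y₂, h₂⟩)
    any_goals rfl
    by_cases hxy : x₁ = x₂ ∧ y₁ = V.toAffine.negY x₂ y₂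
    · rw [Affine.Point.add_of_Y_eq hxy.left hxy.right]
      change _ = Affine.Point.some (φ x₁) (φ y₁) _ + Affine.Point.some (φ x₂) (φ y₂) _
      rw [Affine.Point.add_of_Y_eq (congr_arg _ hxy.left) (by
        rw [hxy.right, Affine.map_negY])]
      rfl
    · rw [Affine.Point.add_some hxy]
      change Affine.Point.some (φ _) (φ _) _ =
        Affine.Point.some (φ x₁) (φ y₁) _ + Affine.Point.some (φ x₂) (φ y₂) _
      rw [Affine.Point.add_some (fun h => hxy ⟨φ.injective h.1, φ.injective (by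
        rw [← Affine.map_negY]; exact h.2)⟩)]
      rw [Affine.Point.some.injEq]
      constructor
      · rw [← Affine.map_addX, ← Affine.map_slope]
      · rw [← Affine.map_addY, ← Affine.map_slope]

omit [DecidableEq F] [DecidableEq F'] in
lemma pmFun_zero (φ : F →+* F') (h : V.map φ = V') : pmFun φ h 0 = 0 := rfl

lemma pm_some (φ : F →+* F') (h : V.map φ = V') {x y : F} (hxy : V.toAffine.Nonsingular x y) :
    pm φ h (.some x y hxy) = .some (φ x) (φ y) (by
      rw [← h]; exact (Affine.map_nonsingular V φ.injective x y).mpr hxy) := rfl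

lemma pm_pm (φ : F →+* F') (h : V.map φ = V') (ψ : F' →+* F'') (h' : V'.map ψ = V'')
    (P : V.toAffine.Point) :
    pm ψ h' (pm φ h P) = pm (ψ.comp φ) (by rw [← h', ← h, WeierstrassCurve.map_map]) P := by
  rcases P with _ | ⟨x, y, hxy⟩ <;> rfl

lemma pm_congr {φ ψ : F →+* F'} (h : V.map φ = V') (h' : V.map ψ = V') (e : ∀ x, φ x = ψ x)
    (P : V.toAffine.Point) : pm φ h P = pm ψ h' P := by
  have : φ = ψ := RingHom.ext e
  subst this
  rfl

lemma pm_id (h : V.map (RingHom.id F) = V) (P : V.toAffine.Point) : pm (RingHom.id F) h P = P := by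
  rcases P with _ | ⟨x, y, hxy⟩ <;> rfl

lemma pm_eq_self {φ : F →+* F} (h : V.map φ = V) (e : ∀ x, φ x = x) (P : V.toAffine.Point) :
    pm φ h P = P := by
  rcases P with _ | ⟨x, y, hxy⟩
  · rfl
  · rw [pm_some, Affine.Point.some.injEq]
    exact ⟨e x, e y⟩

lemma pm_injective (φ : F →+* F') (h : V.map φ = V') : Function.Injective (pm φ h) := by
  rintro (_ | ⟨x₁, y₁, h₁⟩) (_ | ⟨x₂, y₂, h₂⟩) H
  · rfl
  · exact absurd H.symm (Affine.Point.some_ne_zero _)
  · exact absurd H (Affine.Point.some_ne_zero _)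
  · rw [pm_some, pm_some, Affine.Point.some.injEq] at H
    rw [Affine.Point.some.injEq]
    exact ⟨φ.injective H.1, φ.injective H.2⟩

end pm

section mapeq

variable {R S F K : Type*} [Field R] [Field S] [Field F] [Field K] [Algebra R S]
  [Algebra R F] [Algebra S F] [IsScalarTower R S F] [Algebra R K] [Algebra S K]
  [IsScalarTower R S K] [DecidableEq F] [DecidableEq K]

lemma map_eq_pm (W : WeierstrassCurve R) (f : F →ₐ[S] K) (P : (W.baseChange F).toAffine.Point) :
    (Affine.Point.map f : (W.baseChange F).toAffine.Point →+ (W.baseChange K).toAffine.Point) P =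
      pm (f : F →+* K) (by
        rw [WeierstrassCurve.baseChange, WeierstrassCurve.baseChange, WeierstrassCurve.map_map]
        congr 1
        exact f.comp_algebraMap_of_tower R) P := by
  rcases P with _ | ⟨x, y, hxy⟩ <;> rfl

end mapeq

section lc

variable {K Ω : Type*} [Field K] [Field Ω] [Algebra K Ω]

/-- Local constancy in elementary terms. -/
lemma lc_iff [Algebra.IsIntegral K Ω] {X : Type*} (f : (Ω ≃ₐ[K] Ω) → X) :
    IsLocallyConstant f ↔ ∀ σ₀ : Ω ≃ₐ[K] Ω, ∃ E : Finset Ω, ∀ σ : Ω ≃ₐ[K] Ω,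
      (∀ x ∈ E, σ x = σ₀ x) → f σ = f σ₀ := by
  constructor
  · intro h σ₀
    obtain ⟨U, hU, hσ₀, hUf⟩ := (IsLocallyConstant.iff_exists_open f).mp h σ₀
    have h1 : (fun τ => σ₀ * τ) ⁻¹' U ∈ nhds (1 : Ω ≃ₐ[K] Ω) := by
      apply (hU.preimage (continuous_const_mul σ₀)).mem_nhds
      change σ₀ * 1 ∈ U
      rw [mul_one]; exact hσ₀
    rw [krullTopology_mem_nhds_one_iff] at h1
    obtain ⟨E, hE, hEU⟩ := h1
    classical
    let b := Module.finBasis K E
    refine ⟨Finset.univ.image (fun i => ((b i : E) : Ω)), fun σ hσ => ?_⟩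
    apply hUf
    have h2 : σ₀⁻¹ * σ ∈ (E.fixingSubgroup : Set (Ω ≃ₐ[K] Ω)) := by
      rw [SetLike.mem_coe, IntermediateField.mem_fixingSubgroup_iff]
      intro x hx
      have h3 : ∀ i, (σ₀⁻¹ * σ) ((b i : E) : Ω) = ((b i : E) : Ω) := by
        intro i
        have h4 := hσ _ (Finset.mem_image_of_mem (fun i => ((b i : E) : Ω)) (Finset.mem_univ i))
        rw [AlgEquiv.mul_apply, h4]
        exact σ₀.symm_apply_apply _
      have h5 : (⟨x, hx⟩ : E) = ∑ i, b.repr ⟨x, hx⟩ i • b i := (b.sum_repr _).symm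
      have h6 : x = ∑ i, b.repr ⟨x, hx⟩ i • ((b i : E) : Ω) := by
        have h8 := congrArg E.val h5
        rw [map_sum] at h8
        simp only [map_smul] at h8
        exact h8
      rw [h6, map_sum]
      refine Finset.sum_congr rfl fun i _ => ?_
      rw [map_smul, h3]
    have h7 := hEU h2
    change σ₀ * (σ₀⁻¹ * σ) ∈ U at h7
    rwa [mul_inv_cancel_left] at h7
  · intro h
    rw [IsLocallyConstant.iff_exists_open]
    intro σ₀
    obtain ⟨E, hE⟩ := h σ₀
    refine ⟨(fun τ => σ₀⁻¹ * τ) ⁻¹' (⋂ x ∈ E,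
      (MulAction.stabilizer (Ω ≃ₐ[K] Ω) x : Set (Ω ≃ₐ[K] Ω))), ?_, ?_, ?_⟩
    · apply IsOpen.preimage (continuous_const_mul σ₀⁻¹)
      exact isOpen_biInter_finset fun x _ => stabilizer_isOpen_of_isIntegral (K := K) (L := Ω) x
    · simp
    · intro σ hσ
      apply hE
      intro x hx
      have h1 : (σ₀⁻¹ * σ) x = x := by
        have := Set.mem_iInter₂.mp hσ x hx
        exact this
      have h2 : σ₀ ((σ₀⁻¹ * σ) x) = σ₀ x := by rw [h1]
      rw [← AlgEquiv.mul_apply, mul_inv_cancel_left] at h2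
      exact h2

end lc

end Pool.Agent.H10
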