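import Pool.Agent.H10.LocalRing

/-!
Residue field facts at an inert two, and the norm modulo four.
-/

set_option autoImplicit false

open IsDedekindDomain NumberField

namespace Pool.Agent.H10

section

variable (K : Type*) [Field K] [NumberField K]

lemma norm_natCast (m : ℕ) :
    Algebra.norm ℤ (m : 𝓞 K) = (m : ℤ) ^ Module.finrank ℚ K := by
  have h := Algebra.norm_algebraMap (S := 𝓞 K) (m : ℤ)
  rw [RingOfIntegers.rank] at h
  rw [← h]
  simp

lemma card_quot_natCast (m : ℕ) :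
    Nat.card (𝓞 K ⧸ Ideal.span {(m : 𝓞 K)}) = m ^ Module.finrank ℚ K := by
  rw [← Submodule.cardQuot_apply, ← Ideal.absNorm_apply, Ideal.absNorm_span_singleton,
    norm_natCast, Int.natAbs_pow, Int.natAbs_natCast]

variable {K}

lemma pow_card_quot {m k : ℕ} (h2 : Prime (m : 𝓞 K)) (hm : m ≠ 0) {x : 𝓞 K}
    (hx1 : ¬ (m : 𝓞 K) ∣ x - 1) (hxk : (m : 𝓞 K) ∣ x ^ k - 1) (hk : k.Prime) :
    k ∣ m ^ Module.finrank ℚ K - 1 := by
  have hp : (Ideal.span {(m : 𝓞 K)}).IsPrime := by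
    rw [Ideal.span_singleton_prime h2.ne_zero]
    exact h2
  have hmax : (Ideal.span {(m : 𝓞 K)}).IsMaximal :=
    hp.isMaximal (by rw [Ne, Ideal.span_singleton_eq_bot]; exact h2.ne_zero)
  let _ : Field (𝓞 K ⧸ Ideal.span {(m : 𝓞 K)}) := Ideal.Quotient.field _
  have hcard := card_quot_natCast K m
  have hfin : Finite (𝓞 K ⧸ Ideal.span {(m : 𝓞 K)}) := by
    apply Nat.finite_of_card_ne_zero
    rw [hcard]
    exact pow_ne_zero _ hm
  set y : 𝓞 K ⧸ Ideal.span {(m : 𝓞 K)} := Ideal.Quotient.mk _ x with hy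
  have hy1 : y ≠ 1 := by
    intro h
    apply hx1
    rw [← Ideal.mem_span_singleton, ← Ideal.Quotient.eq_zero_iff_mem, map_sub, map_one, ← hy, h,
      sub_self]
  have hyk : y ^ k = 1 := by
    have : Ideal.Quotient.mk (Ideal.span {(m : 𝓞 K)}) (x ^ k - 1) = 0 := by
      rw [Ideal.Quotient.eq_zero_iff_mem, Ideal.mem_span_singleton]
      exact hxk
    rw [map_sub, map_one, map_pow, ← hy] at this
    exact sub_eq_zero.mp this
  have hord : orderOf y = k := by
    have h1 := orderOf_dvd_of_pow_eq_one hyk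
    rcases (Nat.dvd_prime hk).mp h1 with h | h
    · exact absurd (orderOf_eq_one_iff.mp h) hy1
    · exact h
  have hy0 : y ≠ 0 := by
    intro h
    rw [h, zero_pow hk.ne_zero] at hyk
    exact zero_ne_one hyk
  let _ := Fintype.ofFinite (𝓞 K ⧸ Ideal.span {(m : 𝓞 K)})
  have hfc : y ^ (Fintype.card (𝓞 K ⧸ Ideal.span {(m : 𝓞 K)}) - 1) = 1 :=
    FiniteField.pow_card_sub_one_eq_one y hy0
  rw [← Nat.card_eq_fintype_card, hcard] at hfc
  rw [← hord]
  exact orderOf_dvd_of_pow_eq_one hfc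

lemma no_root_three (h2 : Prime (2 : 𝓞 K)) (hodd : Odd (Module.finrank ℚ K)) (x : 𝓞 K) :
    ¬ (2 : 𝓞 K) ∣ x ^ 2 + x + 1 := by
  intro hx
  have h2' : Prime ((2 : ℕ) : 𝓞 K) := by simpa using h2
  have key := pow_card_quot (m := 2) (k := 3) h2' (by norm_num) (x := x) ?_ ?_ Nat.prime_three
  · obtain ⟨k, hk⟩ := hodd
    rw [hk, pow_succ, pow_mul] at key
    have h4 : (2 ^ 2) ^ k % 3 = 1 := by
      rw [Nat.pow_mod]; norm_num
    omega
  · rintro ⟨q, hq⟩
    push_cast at hq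
    have hx1 : x = 1 + 2 * q := by linear_combination hq
    rw [hx1] at hx
    obtain ⟨r, hr⟩ := hx
    apply h2.not_dvd_one
    exact ⟨r - 3 * q - 2 * q ^ 2 - 1, by linear_combination hr⟩
  · push_cast
    have : x ^ 3 - 1 = (x - 1) * (x ^ 2 + x + 1) := by ring
    rw [this]
    exact Dvd.dvd.mul_left hx _

lemma no_root_seven (h2 : Prime (2 : 𝓞 K)) (h3 : ¬ 3 ∣ Module.finrank ℚ K) (x : 𝓞 K) :
    ¬ (2 : 𝓞 K) ∣ x ^ 3 + x ^ 2 + 1 := by
  intro hx
  have h2' : Prime ((2 : ℕ) : 𝓞 K) := by simpa using h2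
  have key := pow_card_quot (m := 2) (k := 7) h2' (by norm_num) (x := x) ?_ ?_
    (by norm_num)
  · have h8 : ∀ k : ℕ, (2 ^ 3) ^ k % 7 = 1 := by
      intro k
      rw [Nat.pow_mod]; norm_num
    obtain ⟨k, hk⟩ | ⟨k, hk⟩ : (∃ k, Module.finrank ℚ K = 3 * k + 1) ∨
        (∃ k, Module.finrank ℚ K = 3 * k + 2) := by
      have : Module.finrank ℚ K % 3 = 1 ∨ Module.finrank ℚ K % 3 = 2 := by omega
      rcases this with h | h
      · left; exact ⟨Module.finrank ℚ K / 3, by omega⟩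
      · right; exact ⟨Module.finrank ℚ K / 3, by omega⟩
    · rw [hk, pow_succ, pow_mul] at key
      have := h8 k
      omega
    · rw [hk, pow_add, pow_mul] at key
      have := h8 k
      omega
  · rintro ⟨q, hq⟩
    push_cast at hq
    have hx1 : x = 1 + 2 * q := by linear_combination hq
    rw [hx1] at hx
    obtain ⟨r, hr⟩ := hx
    apply h2.not_dvd_one
    exact ⟨r - 1 - 5 * q - 8 * q ^ 2 - 4 * q ^ 3, by linear_combination hr⟩
  · push_cast
    obtain ⟨r, hr⟩ := hx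
    refine ⟨r * (x ^ 4 + x ^ 3 + x ^ 2 + 1) - (x ^ 6 + x ^ 5 + x ^ 4 + x ^ 3 + x ^ 2 + 1), ?_⟩
    linear_combination (x ^ 4 + x ^ 3 + x ^ 2 + 1) * hr

/-- The norm respects congruences. -/
lemma norm_congr (m : ℕ) {x y : 𝓞 K} (h : (m : 𝓞 K) ∣ x - y) :
    (m : ℤ) ∣ Algebra.norm ℤ x - Algebra.norm ℤ y := by
  classical
  obtain ⟨z, hz⟩ := h
  have hx : x = y + algebraMap ℤ (𝓞 K) (m : ℤ) * z := by
    rw [eq_add_of_sub_eq' hz]
    simp
  let b := RingOfIntegers.basis K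
  rw [Algebra.norm_eq_matrix_det b, Algebra.norm_eq_matrix_det b, ← Int.modEq_iff_dvd,
    ← ZMod.intCast_eq_intCast_iff]
  have hM : (Algebra.leftMulMatrix b x).map (Int.castRingHom (ZMod m)) =
      (Algebra.leftMulMatrix b y).map (Int.castRingHom (ZMod m)) := by
    rw [hx, ← Algebra.smul_def, map_add, map_smul]
    ext i j
    simp only [Matrix.map_apply, Matrix.add_apply, Matrix.smul_apply, smul_eq_mul, map_add,
      map_mul]
    simp
  have h1 := (Int.castRingHom (ZMod m)).map_det (Algebra.leftMulMatrix b x)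
  have h2 := (Int.castRingHom (ZMod m)).map_det (Algebra.leftMulMatrix b y)
  simp only [RingHom.mapMatrix_apply] at h1 h2
  rw [hM] at h1
  rw [← h1] at h2
  exact h2

lemma sq_emod_four {a : ℤ} (ha : a % 2 = 1) : a ^ 2 % 4 = 1 := by
  obtain ⟨k, hk⟩ : ∃ k, a = 2 * k + 1 := ⟨a / 2, by omega⟩
  rw [hk]
  have : (2 * k + 1) ^ 2 = 4 * (k ^ 2 + k) + 1 := by ring
  rw [this]
  omega

lemma sq_emod_two {a : ℤ} (ha : a % 2 = 0) : a ^ 2 % 4 = 0 := by
  obtain ⟨k, hk⟩ : ∃ k, a = 2 * k := ⟨a / 2, by omega⟩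
  rw [hk]
  have : (2 * k) ^ 2 = 4 * (k ^ 2) := by ring
  rw [this]
  omega

/-- An element of an odd degree field whose norm is one modulo four and which is congruent to plus
or minus a square modulo four is congruent to a square. -/
lemma sign_of_norm (hodd : Odd (Module.finrank ℚ K)) {ε s : 𝓞 K}
    (hε : Algebra.norm ℤ ε % 4 = 1) (h : (4 : 𝓞 K) ∣ ε - s ^ 2 ∨ (4 : 𝓞 K) ∣ ε + s ^ 2) :
    (4 : 𝓞 K) ∣ ε - s ^ 2 := by
  rcases h with h | h
  · exact h
  · exfalso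
    have h1 : ((4 : ℕ) : 𝓞 K) ∣ ε - (((-1 : ℤ)) : 𝓞 K) * s ^ 2 := by
      push_cast
      rw [neg_one_mul, sub_neg_eq_add]
      exact h
    have h2 := norm_congr 4 h1
    rw [map_mul, map_pow] at h2
    have h3 : Algebra.norm ℤ (((-1 : ℤ)) : 𝓞 K) = -1 := by
      have h := Algebra.norm_algebraMap (S := 𝓞 K) (-1 : ℤ)
      rw [RingOfIntegers.rank, hodd.neg_one_pow, eq_intCast (algebraMap ℤ (𝓞 K))] at h
      exact h
    rw [h3] at h2
    rcases Int.emod_two_eq_zero_or_one (Algebra.norm ℤ s) with h4 | h4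
    · have := sq_emod_two h4
      omega
    · have := sq_emod_four h4
      omega

end

end Pool.Agent.H10
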