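import Pool.Agent.H10.Class
import Pool.Agent.H10.Resid

/-!
Rational primes with a unique prime above them.
-/

set_option autoImplicit false

open IsDedekindDomain NumberField nonZeroDivisors UniqueFactorizationMonoid

namespace Pool.Agent.H10

/-- There is at most one prime ideal of the ring of integers of `K` above `p`. -/
def UniqueAbove (K : Type*) [Field K] [NumberField K] (p : ℕ) : Prop :=
  ∀ P Q : Ideal (𝓞 K), P.IsPrime → Q.IsPrime → (p : 𝓞 K) ∈ P → (p : 𝓞 K) ∈ Q → P = Q

section

variable {K : Type*} [Field K] [NumberField K]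

lemma uniqueAbove_of_prime {p : ℕ} (h : Prime (p : 𝓞 K)) : UniqueAbove K p := by
  have hp : (Ideal.span {(p : 𝓞 K)}).IsPrime := by
    rw [Ideal.span_singleton_prime h.ne_zero]
    exact h
  have hmax : (Ideal.span {(p : 𝓞 K)}).IsMaximal :=
    hp.isMaximal (by rw [Ne, Ideal.span_singleton_eq_bot]; exact h.ne_zero)
  have key : ∀ P : Ideal (𝓞 K), P.IsPrime → (p : 𝓞 K) ∈ P → P = Ideal.span {(p : 𝓞 K)} := by
    intro P hP hm
    symm
    apply hmax.eq_of_le hP.ne_top
    rw [Ideal.span_singleton_le_iff_mem]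
    exact hm
  intro P Q hP hQ h1 h2
  rw [key P hP h1, key Q hQ h2]

lemma exists_above {p : ℕ} (hp : p.Prime) (hu : UniqueAbove K p) :
    ∃ (v : HeightOneSpectrum (𝓞 K)) (e : ℕ), e ≠ 0 ∧ v.asIdeal ^ e = Ideal.span {(p : 𝓞 K)} := by
  classical
  have hp0 : (p : 𝓞 K) ≠ 0 := by exact_mod_cast hp.ne_zero
  have hI : Ideal.span {(p : 𝓞 K)} ≠ 0 := by
    rw [Ideal.zero_eq_bot, Ne, Ideal.span_singleton_eq_bot]; exact hp0
  have hnt : Ideal.span {(p : 𝓞 K)} ≠ ⊤ := by
    intro h
    have h1 := card_quot_natCast K p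
    rw [← Submodule.cardQuot_apply, ← Ideal.absNorm_apply, h, Ideal.absNorm_top] at h1
    have h2 : 1 < p ^ Module.finrank ℚ K :=
      Nat.one_lt_pow (Module.finrank_pos).ne' hp.one_lt
    omega
  obtain ⟨P, hPmax, hle⟩ := Ideal.exists_le_maximal _ hnt
  have hP := hPmax.isPrime
  have hpP : (p : 𝓞 K) ∈ P := hle (Ideal.mem_span_singleton_self _)
  have hP0 : P ≠ ⊥ := by
    rintro rfl
    exact hp0 (by simpa using hpP)
  have hall : ∀ Q ∈ normalizedFactors (Ideal.span {(p : 𝓞 K)}), Q = P := by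
    intro Q hQ
    have hQp : Q.IsPrime := Ideal.isPrime_of_prime (prime_of_normalized_factor Q hQ)
    have hdvd := dvd_of_mem_normalizedFactors hQ
    rw [Ideal.dvd_span_singleton] at hdvd
    exact hu Q P hQp hP hdvd hpP
  have hrep := Multiset.eq_replicate_card.mpr hall
  refine ⟨⟨P, hP, hP0⟩, Multiset.card (normalizedFactors (Ideal.span {(p : 𝓞 K)})), ?_, ?_⟩
  · intro h0
    have h1 := Ideal.prod_normalizedFactors_eq_self hI
    rw [Multiset.card_eq_zero] at h0
    rw [h0, Multiset.prod_zero] at h1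
    exact hnt (by rw [← h1, Ideal.one_eq_top])
  · change P ^ _ = _
    rw [← Multiset.prod_replicate, ← hrep]
    exact Ideal.prod_normalizedFactors_eq_self hI

lemma odd_ramification {p e : ℕ} (hp : p.Prime) (hodd : Odd (Module.finrank ℚ K))
    {v : HeightOneSpectrum (𝓞 K)} (h : v.asIdeal ^ e = Ideal.span {(p : 𝓞 K)}) : Odd e := by
  have h1 := card_quot_natCast K p
  rw [← Submodule.cardQuot_apply, ← Ideal.absNorm_apply, ← h, map_pow] at h1
  have he : e ≠ 0 := by
    rintro rfl
    rw [pow_zero] at h1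
    have h2 : 1 < p ^ Module.finrank ℚ K :=
      Nat.one_lt_pow (Module.finrank_pos).ne' hp.one_lt
    omega
  have h2 : Ideal.absNorm v.asIdeal ∣ p ^ Module.finrank ℚ K := by
    rw [← h1]; exact dvd_pow_self _ he
  obtain ⟨f, hf, hf'⟩ := (Nat.dvd_prime_pow hp).mp h2
  rw [hf', ← pow_mul] at h1
  have h3 := Nat.pow_right_injective hp.two_le h1
  rw [← h3] at hodd
  exact (Nat.odd_mul.mp hodd).2

lemma log_valuation_natCast {p e : ℕ} {v : HeightOneSpectrum (𝓞 K)} (hp : p ≠ 0)
    (h : v.asIdeal ^ e = Ideal.span {(p : 𝓞 K)}) :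
    v.valuation K (p : K) = WithZero.exp (-(e : ℤ)) := by
  have hp0 : (p : 𝓞 K) ≠ 0 := by exact_mod_cast hp
  have h1 := v.intValuation_eq_exp_neg_multiplicity hp0
  rw [← v.valuation_of_algebraMap (K := K), ← h] at h1
  have h2 : multiplicity v.asIdeal (v.asIdeal ^ e) = e := by
    apply multiplicity_pow_self
    · exact v.ne_bot
    · exact Ideal.isUnit_iff.not.mpr v.isPrime.ne_top
  rw [h2] at h1
  simpa using h1

lemma valuation_natCast_eq_one {p : ℕ} {v : HeightOneSpectrum (𝓞 K)}
    (h : (p : 𝓞 K) ∉ v.asIdeal) : v.valuation K (p : K) = 1 := by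
  have h1 := (v.valuation_eq_one_iff_notMem (K := K) (r := (p : 𝓞 K))).mpr h
  simpa using h1

theorem exists_decomp (hodd : Odd (Module.finrank ℚ K)) (hcl : Odd (NumberField.classNumber K))
    (S : Finset ℕ) (hS : ∀ p ∈ S, p.Prime ∧ UniqueAbove K p) :
    ∀ {x : K}, x ≠ 0 → (∀ v : HeightOneSpectrum (𝓞 K), (∀ p ∈ S, (p : 𝓞 K) ∉ v.asIdeal) →
      Even (WithZero.log (v.valuation K x))) →
    ∃ (ε : (𝓞 K)ˣ) (m : ℕ) (c : K), c ≠ 0 ∧ m ≠ 0 ∧ (∀ q : ℕ, q.Prime → q ∣ m → q ∈ S) ∧
      x = ((ε : 𝓞 K) : K) * m * c ^ 2 := by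
  induction S using Finset.induction_on with
  | empty =>
    intro x hx hev
    obtain ⟨ε, c, hc, h⟩ := exists_unit_mul_sq hcl hx (fun v => hev v (by simp))
    refine ⟨ε, 1, c, hc, one_ne_zero, ?_, by rw [h]; push_cast; ring⟩
    intro q hq hq1
    exact absurd (Nat.dvd_one.mp hq1) hq.one_lt.ne'
  | insert p S hpS ih =>
    intro x hx hev
    have hS' : ∀ q ∈ S, q.Prime ∧ UniqueAbove K q := fun q hq =>
      hS q (Finset.mem_insert_of_mem hq)
    obtain ⟨hp, hu⟩ := hS p (Finset.mem_insert_self _ _)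
    obtain ⟨v₀, e, he, hv₀⟩ := exists_above hp hu
    have hpv₀ : (p : 𝓞 K) ∈ v₀.asIdeal := by
      rw [← Ideal.dvd_span_singleton, ← hv₀]
      exact dvd_pow_self _ he
    have heodd := odd_ramification hp hodd hv₀
    have hpK : (p : K) ≠ 0 := by exact_mod_cast hp.ne_zero
    have hval := log_valuation_natCast (K := K) hp.ne_zero hv₀
    by_cases hpar : Even (WithZero.log (v₀.valuation K x))
    · obtain ⟨ε, m, c, hc, hm, hmS, h⟩ := ih hS' hx (by
        intro v hv
        by_cases hpv : (p : 𝓞 K) ∈ v.asIdeal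
        · have : v = v₀ := HeightOneSpectrum.ext (hu _ _ v.isPrime v₀.isPrime hpv hpv₀)
          rw [this]; exact hpar
        · apply hev v
          intro q hq
          rcases Finset.mem_insert.mp hq with rfl | hq
          · exact hpv
          · exact hv q hq)
      exact ⟨ε, m, c, hc, hm, fun q hq hqm => Finset.mem_insert_of_mem (hmS q hq hqm), h⟩
    · obtain ⟨ε, m, c, hc, hm, hmS, h⟩ := ih hS' (x := x * p) (mul_ne_zero hx hpK) (by
        intro v hv
        rw [map_mul, WithZero.log_mul ((Valuation.ne_zero_iff _).mpr hx)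
          ((Valuation.ne_zero_iff _).mpr hpK)]
        by_cases hpv : (p : 𝓞 K) ∈ v.asIdeal
        · have : v = v₀ := HeightOneSpectrum.ext (hu _ _ v.isPrime v₀.isPrime hpv hpv₀)
          rw [this, hval, WithZero.log_exp]
          rw [Int.not_even_iff_odd] at hpar
          obtain ⟨k, hk⟩ := heodd
          rw [hk]
          rw [Int.odd_iff] at hpar
          rw [Int.even_iff]
          push_cast
          omega
        · rw [valuation_natCast_eq_one hpv, WithZero.log_one, add_zero]
          apply hev v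
          intro q hq
          rcases Finset.mem_insert.mp hq with rfl | hq
          · exact hpv
          · exact hv q hq)
      refine ⟨ε, m * p, c / p, div_ne_zero hc hpK, mul_ne_zero hm hp.ne_zero, ?_, ?_⟩
      · intro q hq hqm
        rcases hq.dvd_mul.mp hqm with h1 | h1
        · exact Finset.mem_insert_of_mem (hmS q hq h1)
        · rw [(Nat.prime_dvd_prime_iff_eq hq hp).mp h1]
          exact Finset.mem_insert_self _ _
      · have h2 : x = x * p / p := by field_simp
        rw [h2, h]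
        push_cast
        field_simp

end

end Pool.Agent.H10
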