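import Pool.Agent.H10.TwoInert
import Pool.Agent.H10.Unique

/-!
Local points over the completions of the rationals give solutions of congruences.
-/

set_option autoImplicit false

open IsDedekindDomain NumberField

namespace Pool.Agent.H10

lemma exists_int (x : 𝓞 ℚ) : ∃ z : ℤ, x = (z : 𝓞 ℚ) := by
  refine ⟨Rat.ringOfIntegersEquiv x, ?_⟩
  apply Rat.ringOfIntegersEquiv.injective
  rw [map_intCast]
  rfl

lemma intCast_dvd {m z : ℤ} (h : (m : 𝓞 ℚ) ∣ (z : 𝓞 ℚ)) : m ∣ z := by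
  have := map_dvd Rat.ringOfIntegersEquiv h
  rw [map_intCast, map_intCast] at this
  exact this

lemma prime_natCast {p : ℕ} (hp : p.Prime) : Prime (p : 𝓞 ℚ) := by
  rw [← MulEquiv.prime_iff (Rat.ringOfIntegersEquiv : 𝓞 ℚ ≃* ℤ)]
  change Prime (Rat.ringOfIntegersEquiv (p : 𝓞 ℚ))
  rw [map_natCast]
  exact Nat.prime_iff_prime_int.mp hp

/-- The place of `ℚ` at a prime number. -/
def ratPlace {p : ℕ} (hp : p.Prime) : HeightOneSpectrum (𝓞 ℚ) :=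
  ⟨Ideal.span {(p : 𝓞 ℚ)}, (Ideal.span_singleton_prime (prime_natCast hp).ne_zero).mpr
    (prime_natCast hp), by
    rw [Ne, Ideal.span_singleton_eq_bot]; exact (prime_natCast hp).ne_zero⟩

lemma uniqueAbove_rat {p : ℕ} (hp : p.Prime) : UniqueAbove ℚ p :=
  uniqueAbove_of_prime (prime_natCast hp)

lemma odd_classNumber_rat : Odd (NumberField.classNumber ℚ) := by
  rw [Rat.classNumber_eq]; exact odd_one

/-- Solubility at `p` gives primitive solutions modulo all powers of `p`. -/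
theorem exists_prim {p : ℕ} (hp : p.Prime) {e₁ e₂ e₃ d₁ d₂ d₃ : ℤ}
    (H : CPt (algebraMap ℚ ((ratPlace hp).adicCompletion ℚ) e₁)
      (algebraMap ℚ ((ratPlace hp).adicCompletion ℚ) e₂)
      (algebraMap ℚ ((ratPlace hp).adicCompletion ℚ) e₃)
      (algebraMap ℚ ((ratPlace hp).adicCompletion ℚ) d₁)
      (algebraMap ℚ ((ratPlace hp).adicCompletion ℚ) d₂)
      (algebraMap ℚ ((ratPlace hp).adicCompletion ℚ) d₃)) (n : ℕ) (hn : n ≠ 0) :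
    ∃ z₀ z₁ z₂ z₃ : ℤ, ¬ ((p : ℤ) ∣ z₀ ∧ (p : ℤ) ∣ z₁ ∧ (p : ℤ) ∣ z₂ ∧ (p : ℤ) ∣ z₃) ∧
      (p : ℤ) ^ n ∣ d₁ * z₁ ^ 2 + e₁ * z₀ ^ 2 - (d₂ * z₂ ^ 2 + e₂ * z₀ ^ 2) ∧
      (p : ℤ) ^ n ∣ d₁ * z₁ ^ 2 + e₁ * z₀ ^ 2 - (d₃ * z₃ ^ 2 + e₃ * z₀ ^ 2) := by
  set v := ratPlace hp with hv'
  have hv : v.asIdeal = Ideal.span {(p : 𝓞 ℚ)} := rfl
  let R := v.adicCompletionIntegers ℚ
  have h0 : (p : 𝓞 ℚ) ≠ 0 := (prime_natCast hp).ne_zero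
  have ep : algebraMap (𝓞 ℚ) R p = p := map_natCast _ p
  have hpR : Prime (p : R) := by
    rw [← ep]; exact prime_unif v h0 hv
  obtain ⟨z₀, z₁, z₂, z₃, hz, E1, E2⟩ := H
  simp only [map_intCast] at E1 E2
  obtain ⟨t, ht, htz, l0, l1, l2, l3⟩ :=
    exists_max_four (Valued.v (R := v.adicCompletion ℚ)) hz
  let w₀ : R := ⟨z₀ / t, l0⟩
  let w₁ : R := ⟨z₁ / t, l1⟩
  let w₂ : R := ⟨z₂ / t, l2⟩
  let w₃ : R := ⟨z₃ / t, l3⟩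
  have F1 : (d₁ : R) * w₁ ^ 2 + e₁ * w₀ ^ 2 = d₂ * w₂ ^ 2 + e₂ * w₀ ^ 2 := by
    apply Subtype.ext
    push_cast
    change (d₁ : v.adicCompletion ℚ) * (z₁ / t) ^ 2 + e₁ * (z₀ / t) ^ 2 =
      d₂ * (z₂ / t) ^ 2 + e₂ * (z₀ / t) ^ 2
    field_simp
    linear_combination E1
  have F2 : (d₁ : R) * w₁ ^ 2 + e₁ * w₀ ^ 2 = d₃ * w₃ ^ 2 + e₃ * w₀ ^ 2 := by
    apply Subtype.ext
    push_cast
    change (d₁ : v.adicCompletion ℚ) * (z₁ / t) ^ 2 + e₁ * (z₀ / t) ^ 2 =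
      d₃ * (z₃ / t) ^ 2 + e₃ * (z₀ / t) ^ 2
    field_simp
    linear_combination E2
  have hw : ¬ ((p : R) ∣ w₀ ∧ (p : R) ∣ w₁ ∧ (p : R) ∣ w₂ ∧ (p : R) ∣ w₃) := by
    rintro ⟨k0, k1, k2, k3⟩
    apply hpR.not_dvd_one
    rcases htz with h | h | h | h
    · have : w₀ = 1 := Subtype.ext (by change z₀ / t = 1; rw [← h, div_self ht])
      rwa [this] at k0
    · have : w₁ = 1 := Subtype.ext (by change z₁ / t = 1; rw [← h, div_self ht])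
      rwa [this] at k1
    · have : w₂ = 1 := Subtype.ext (by change z₂ / t = 1; rw [← h, div_self ht])
      rwa [this] at k2
    · have : w₃ = 1 := Subtype.ext (by change z₃ / t = 1; rw [← h, div_self ht])
      rwa [this] at k3
  have apx : ∀ x : R, ∃ (y : ℤ) (q : R), x - y = (p : R) ^ n * q := by
    intro x
    obtain ⟨y, hy⟩ := exists_approx (K := ℚ) v h0 hv x n
    obtain ⟨z, rfl⟩ := exists_int y
    rw [ep, map_intCast] at hy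
    obtain ⟨q, hq⟩ := hy
    exact ⟨z, q, hq⟩
  obtain ⟨y₀, q₀, g₀⟩ := apx w₀
  obtain ⟨y₁, q₁, g₁⟩ := apx w₁
  obtain ⟨y₂, q₂, g₂⟩ := apx w₂
  obtain ⟨y₃, q₃, g₃⟩ := apx w₃
  have back : ∀ z : ℤ, (p : R) ^ n ∣ (z : R) → (p : ℤ) ^ n ∣ z := by
    intro z hz
    have h1 := (dvd_alg_iff (K := ℚ) v h0 hv (z : 𝓞 ℚ) n).mp (by
      rw [ep, map_intCast]; exact hz)
    apply intCast_dvd
    push_cast
    exact h1
  have forw : ∀ (x : R) (y : ℤ) (q : R), x - y = (p : R) ^ n * q → (p : ℤ) ∣ y → (p : R) ∣ x := by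
    intro x y q hx hy
    have h1 : x = (y : R) + (p : R) ^ n * q := by rw [← hx]; ring
    rw [h1]
    refine dvd_add ?_ (dvd_mul_of_dvd_left (dvd_pow_self _ hn) _)
    obtain ⟨m, rfl⟩ := hy
    exact ⟨(m : R), by push_cast; ring⟩
  refine ⟨y₀, y₁, y₂, y₃, ?_, ?_, ?_⟩
  · rintro ⟨a0, a1, a2, a3⟩
    exact hw ⟨forw _ _ _ g₀ a0, forw _ _ _ g₁ a1, forw _ _ _ g₂ a2, forw _ _ _ g₃ a3⟩
  · apply back
    push_cast
    refine ⟨-(d₁ * q₁ * (w₁ + y₁)) - e₁ * q₀ * (w₀ + y₀) + d₂ * q₂ * (w₂ + y₂) +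
      e₂ * q₀ * (w₀ + y₀), ?_⟩
    linear_combination F1 - d₁ * (w₁ + y₁) * g₁ - e₁ * (w₀ + y₀) * g₀ +
      d₂ * (w₂ + y₂) * g₂ + e₂ * (w₀ + y₀) * g₀
  · apply back
    push_cast
    refine ⟨-(d₁ * q₁ * (w₁ + y₁)) - e₁ * q₀ * (w₀ + y₀) + d₃ * q₃ * (w₃ + y₃) +
      e₃ * q₀ * (w₀ + y₀), ?_⟩
    linear_combination F2 - d₁ * (w₁ + y₁) * g₁ - e₁ * (w₀ + y₀) * g₀ +
      d₃ * (w₃ + y₃) * g₃ + e₃ * (w₀ + y₀) * g₀

end Pool.Agent.H10
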