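import Pool.Agent.H10.SelTors
import Pool.Agent.H10.RatLoc
import Pool.Agent.H10.Semi

/-!
The two-Selmer group of `y^2 = x (x - p) (x - 2 p)` over the rationals.
-/

set_option autoImplicit false
set_option linter.style.haveILetI false
open scoped Classical

open WeierstrassCurve IsDedekindDomain NumberField WithZero

namespace Pool.Agent.H10

section arith

/-- Anisotropy of the form `x^2 - n y^2` modulo a prime. -/
def Aniso (q : ℕ) (n : ℤ) : Prop := ∀ x y : ℤ, (q : ℤ) ∣ x ^ 2 - n * y ^ 2 → (q : ℤ) ∣ x ∧ (q : ℤ) ∣ y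

lemma aniso_of {q : ℕ} (hq : q.Prime) {n : ℤ} (h : ¬ IsSquare (n : ZMod q)) : Aniso q n := by
  have := Fact.mk hq
  have hqi := Nat.prime_iff_prime_int.mp hq
  intro x y hxy
  by_cases hy : (q : ℤ) ∣ y
  · refine ⟨?_, hy⟩
    apply hqi.dvd_of_dvd_pow (n := 2)
    have h1 : x ^ 2 = (x ^ 2 - n * y ^ 2) + n * y ^ 2 := by ring
    rw [h1]
    exact dvd_add hxy (dvd_mul_of_dvd_right (dvd_pow hy two_ne_zero) _)
  · exfalso
    apply h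
    rw [← ZMod.intCast_zmod_eq_zero_iff_dvd] at hy
    rw [← ZMod.intCast_zmod_eq_zero_iff_dvd] at hxy
    push_cast at hxy
    refine ⟨(x : ZMod q) / y, ?_⟩
    field_simp
    linear_combination -hxy

lemma aniso_neg_one {q : ℕ} (hq : q.Prime) (h : q % 8 = 3) : Aniso q (-1) := by
  have := Fact.mk hq
  apply aniso_of hq
  push_cast
  rw [ZMod.exists_sq_eq_neg_one_iff]
  omega

lemma aniso_two {q : ℕ} (hq : q.Prime) (h : q % 8 = 3 ∨ q % 8 = 5) : Aniso q 2 := by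
  have := Fact.mk hq
  apply aniso_of hq
  push_cast
  rw [ZMod.exists_sq_eq_two_iff (by omega)]
  omega

lemma aniso_neg_two {q : ℕ} (hq : q.Prime) (h : q % 8 = 5) : Aniso q (-2) := by
  have := Fact.mk hq
  apply aniso_of hq
  push_cast
  rw [ZMod.exists_sq_eq_neg_two_iff (by omega)]
  omega

/-- Elimination at `q`, coefficient prime to `q`. -/
lemma elim_coprime {q : ℕ} (hq : q.Prime) {n r : ℤ} (hr : ¬ (q : ℤ) ∣ r) (h : Aniso q n)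
    {z₀ z₁ z₂ z₃ : ℤ}
    (E1 : (q : ℤ) ^ 2 ∣ z₁ ^ 2 - n * z₂ ^ 2 - q * r * z₀ ^ 2)
    (E2 : (q : ℤ) ^ 2 ∣ z₁ ^ 2 - n * z₃ ^ 2 - 2 * (q * r) * z₀ ^ 2) :
    (q : ℤ) ∣ z₀ ∧ (q : ℤ) ∣ z₁ ∧ (q : ℤ) ∣ z₂ ∧ (q : ℤ) ∣ z₃ := by
  have hqi := Nat.prime_iff_prime_int.mp hq
  have hq0 : (q : ℤ) ≠ 0 := hqi.ne_zero
  obtain ⟨A, hA⟩ := E1
  obtain ⟨B, hB⟩ := E2
  obtain ⟨d1, d2⟩ := h z₁ z₂ ⟨q * A + r * z₀ ^ 2, by linear_combination hA⟩
  obtain ⟨-, d3⟩ := h z₁ z₃ ⟨q * B + 2 * r * z₀ ^ 2, by linear_combination hB⟩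
  refine ⟨?_, d1, d2, d3⟩
  obtain ⟨x, rfl⟩ := d1
  obtain ⟨y, rfl⟩ := d2
  apply hqi.dvd_of_dvd_pow (n := 2)
  refine (hqi.dvd_or_dvd (a := r) ⟨x ^ 2 - n * y ^ 2 - A, ?_⟩).resolve_left hr
  apply mul_left_cancel₀ hq0
  linear_combination -hA

/-- Elimination at `q`, coefficient divisible by `q`. -/
lemma elim_dvd {q : ℕ} (hq : q.Prime) {m r : ℤ} (hr : ¬ (q : ℤ) ∣ r) (hm : ¬ (q : ℤ) ∣ m)
    (h : Aniso q 2) {z₀ z₁ z₂ z₃ : ℤ}
    (E1 : (q : ℤ) ^ 2 ∣ z₁ ^ 2 - m * q * z₂ ^ 2 - q * r * z₀ ^ 2)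
    (E2 : (q : ℤ) ^ 2 ∣ z₁ ^ 2 - m * q * z₃ ^ 2 - 2 * (q * r) * z₀ ^ 2) :
    (q : ℤ) ∣ z₀ ∧ (q : ℤ) ∣ z₁ ∧ (q : ℤ) ∣ z₂ ∧ (q : ℤ) ∣ z₃ := by
  have hqi := Nat.prime_iff_prime_int.mp hq
  have hq0 : (q : ℤ) ≠ 0 := hqi.ne_zero
  obtain ⟨A, hA⟩ := E1
  obtain ⟨B, hB⟩ := E2
  have d1 : (q : ℤ) ∣ z₁ := by
    apply hqi.dvd_of_dvd_pow (n := 2)
    exact ⟨q * A + m * z₂ ^ 2 + r * z₀ ^ 2, by linear_combination hA⟩
  obtain ⟨x, rfl⟩ := d1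
  have hA' : m * z₂ ^ 2 + r * z₀ ^ 2 = q * (x ^ 2 - A) := by
    apply mul_left_cancel₀ hq0
    linear_combination -hA
  have hB' : m * z₃ ^ 2 + 2 * r * z₀ ^ 2 = q * (x ^ 2 - B) := by
    apply mul_left_cancel₀ hq0
    linear_combination -hB
  have h1 : (q : ℤ) ∣ m * (z₃ ^ 2 - 2 * z₂ ^ 2) :=
    ⟨x ^ 2 - B - 2 * (x ^ 2 - A), by linear_combination hB' - 2 * hA'⟩
  obtain ⟨d3, d2⟩ := h z₃ z₂ ((hqi.dvd_or_dvd h1).resolve_left hm)
  refine ⟨?_, ⟨x, rfl⟩, d2, d3⟩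
  apply hqi.dvd_of_dvd_pow (n := 2)
  have h2 : r * z₀ ^ 2 = q * (x ^ 2 - A) - m * z₂ ^ 2 := by linear_combination hA'
  refine (hqi.dvd_or_dvd (a := r) ?_).resolve_left hr
  rw [h2]
  exact dvd_sub (dvd_mul_right _ _) (dvd_mul_of_dvd_right (dvd_pow d2 two_ne_zero) _)

/-- Elimination at two, second case. -/
lemma elim_two' {r n : ℤ} (hr : r % 2 = 1) (hn : n % 4 = 3) {z₀ z₁ z₂ z₃ : ℤ}
    (E1 : (2 : ℤ) ^ 2 ∣ z₁ ^ 2 - n * z₂ ^ 2 - 2 * r * z₀ ^ 2)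
    (E2 : (2 : ℤ) ^ 2 ∣ z₁ ^ 2 - n * z₃ ^ 2 - 2 * (2 * r) * z₀ ^ 2) :
    (2 : ℤ) ∣ z₀ ∧ (2 : ℤ) ∣ z₁ ∧ (2 : ℤ) ∣ z₂ ∧ (2 : ℤ) ∣ z₃ := by
  obtain ⟨k, rfl⟩ : ∃ k, n = 4 * k + 3 := ⟨n / 4, by omega⟩
  obtain ⟨l, rfl⟩ : ∃ l, r = 2 * l + 1 := ⟨r / 2, by omega⟩
  have h2 : Prime (2 : ℤ) := Int.prime_two
  obtain ⟨A, hA⟩ := E1
  obtain ⟨B, hB⟩ := E2
  have par : ∀ z : ℤ, (2 : ℤ) ∣ z ∨ ∃ w, z = 2 * w + 1 := by
    intro z
    rcases Int.even_or_odd' z with ⟨w, rfl | rfl⟩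
    · exact Or.inl ⟨w, rfl⟩
    · exact Or.inr ⟨w, rfl⟩
  have d13 : (2 : ℤ) ∣ z₁ ∧ (2 : ℤ) ∣ z₃ := by
    rcases par z₁ with h | ⟨x, rfl⟩ <;> rcases par z₃ with h' | ⟨y, rfl⟩
    · exact ⟨h, h'⟩
    · exfalso
      obtain ⟨x, rfl⟩ := h
      ring_nf at hB
      omega
    · exfalso
      obtain ⟨y, rfl⟩ := h'
      ring_nf at hB
      omega
    · exfalso
      ring_nf at hB
      omega
  obtain ⟨⟨x, rfl⟩, d3⟩ := d13
  have d2 : (2 : ℤ) ∣ z₂ := by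
    apply h2.dvd_of_dvd_pow (n := 2)
    exact ⟨2 * x ^ 2 - (2 * l + 1) * z₀ ^ 2 - 2 * A - (2 * k + 1) * z₂ ^ 2, by
      linear_combination -hA⟩
  obtain ⟨y, rfl⟩ := d2
  refine ⟨?_, ⟨x, rfl⟩, ⟨y, rfl⟩, d3⟩
  apply h2.dvd_of_dvd_pow (n := 2)
  refine ⟨x ^ 2 - (4 * k + 3) * y ^ 2 - A - l * z₀ ^ 2, ?_⟩
  apply mul_left_cancel₀ (two_ne_zero (α := ℤ))
  linear_combination -hA

/-- Elimination at two. -/
lemma elim_two {p n : ℤ} (hp : p % 2 = 1) (hn : n % 4 = 2) {z₀ z₁ z₂ z₃ : ℤ}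
    (E1 : (2 : ℤ) ^ 2 ∣ z₁ ^ 2 - n * z₂ ^ 2 - p * z₀ ^ 2)
    (E2 : (2 : ℤ) ^ 2 ∣ z₁ ^ 2 - n * z₃ ^ 2 - 2 * p * z₀ ^ 2) :
    (2 : ℤ) ∣ z₀ ∧ (2 : ℤ) ∣ z₁ ∧ (2 : ℤ) ∣ z₂ ∧ (2 : ℤ) ∣ z₃ := by
  obtain ⟨k, rfl⟩ : ∃ k, n = 2 * (2 * k + 1) := ⟨n / 4, by omega⟩
  obtain ⟨l, rfl⟩ : ∃ l, p = 2 * l + 1 := ⟨p / 2, by omega⟩
  have h2 : Prime (2 : ℤ) := Int.prime_two
  obtain ⟨A, hA⟩ := E1
  obtain ⟨B, hB⟩ := E2
  have d1 : (2 : ℤ) ∣ z₁ := by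
    apply h2.dvd_of_dvd_pow (n := 2)
    exact ⟨2 * B + (2 * k + 1) * z₃ ^ 2 + (2 * l + 1) * z₀ ^ 2, by linear_combination hB⟩
  obtain ⟨x, rfl⟩ := d1
  have d0 : (2 : ℤ) ∣ z₀ := by
    apply h2.dvd_of_dvd_pow (n := 2)
    exact ⟨2 * x ^ 2 - (2 * k + 1) * z₂ ^ 2 - 2 * A - l * z₀ ^ 2, by linear_combination -hA⟩
  obtain ⟨y, rfl⟩ := d0
  have d2 : (2 : ℤ) ∣ z₂ := by
    apply h2.dvd_of_dvd_pow (n := 2)
    refine ⟨x ^ 2 - k * z₂ ^ 2 - (2 * l + 1) * y ^ 2 - A, ?_⟩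
    apply mul_left_cancel₀ (two_ne_zero (α := ℤ))
    linear_combination -hA
  have d3 : (2 : ℤ) ∣ z₃ := by
    apply h2.dvd_of_dvd_pow (n := 2)
    refine ⟨x ^ 2 - k * z₃ ^ 2 - 2 * (2 * l + 1) * y ^ 2 - B, ?_⟩
    apply mul_left_cancel₀ (two_ne_zero (α := ℤ))
    linear_combination -hB
  exact ⟨⟨y, rfl⟩, ⟨x, rfl⟩, d2, d3⟩

/-- A number whose prime factors are among two and `p` is up to squares a divisor of `2 p`. -/
lemma nat_rep {p m : ℕ} (hm : m ≠ 0) (h : ∀ q : ℕ, q.Prime → q ∣ m → q = 2 ∨ q = p) :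
    ∃ n k : ℕ, k ≠ 0 ∧ m = n * k ^ 2 ∧ (n = 1 ∨ n = 2 ∨ n = p ∨ n = 2 * p) := by
  obtain ⟨n, k, hnk, hsq⟩ := Nat.sq_mul_squarefree m
  have hk : k ≠ 0 := by
    rintro rfl
    apply hm
    rw [← hnk]; ring
  have hn0 : n ≠ 0 := hsq.ne_zero
  have h' : ∀ q : ℕ, q.Prime → q ∣ n → q = 2 ∨ q = p := fun q hq hqn =>
    h q hq (by rw [← hnk]; exact dvd_mul_of_dvd_right hqn _)
  refine ⟨n, k, hk, by rw [← hnk]; ring, ?_⟩
  have hprod := Nat.prod_primeFactors_of_squarefree hsq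
  have hsub : n.primeFactors ⊆ {2, p} := by
    intro q hq
    rw [Nat.mem_primeFactors] at hq
    rw [Finset.mem_insert, Finset.mem_singleton]
    exact h' q hq.1 hq.2.1
  by_cases h2 : 2 ∈ n.primeFactors
  · by_cases hp : p ∈ n.primeFactors
    · have : n.primeFactors = {2, p} := by
        apply Finset.Subset.antisymm hsub
        intro q hq
        rw [Finset.mem_insert, Finset.mem_singleton] at hq
        rcases hq with rfl | rfl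
        · exact h2
        · exact hp
      rw [this] at hprod
      by_cases hp2 : p = 2
      · rw [hp2, Finset.pair_eq_singleton, Finset.prod_singleton] at hprod
        omega
      · rw [Finset.prod_pair (fun h => hp2 h.symm)] at hprod
        omega
    · have : n.primeFactors = {2} := by
        apply Finset.Subset.antisymm
        · intro q hq
          have := hsub hq
          rw [Finset.mem_insert, Finset.mem_singleton] at this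
          rcases this with rfl | rfl
          · exact Finset.mem_singleton_self _
          · exact absurd hq hp
        · rw [Finset.singleton_subset_iff]; exact h2
      rw [this, Finset.prod_singleton] at hprod
      omega
  · by_cases hp : p ∈ n.primeFactors
    · have : n.primeFactors = {p} := by
        apply Finset.Subset.antisymm
        · intro q hq
          have := hsub hq
          rw [Finset.mem_insert, Finset.mem_singleton] at this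
          rcases this with rfl | rfl
          · exact absurd hq h2
          · exact Finset.mem_singleton_self _
        · rw [Finset.singleton_subset_iff]; exact hp
      rw [this, Finset.prod_singleton] at hprod
      omega
    · have : n.primeFactors = ∅ := by
        rw [Finset.eq_empty_iff_forall_notMem]
        intro q hq
        have := hsub hq
        rw [Finset.mem_insert, Finset.mem_singleton] at this
        rcases this with rfl | rfl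
        · exact h2 hq
        · exact hp hq
      rw [this, Finset.prod_empty] at hprod
      omega

end arith

end Pool.Agent.H10
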