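import Pool.Agent.H10.RatSel

/-!
The two-Selmer group of `y^2 = x (x - p) (x - 2 p)` over the rationals, continued.
-/

set_option autoImplicit false
set_option linter.style.haveILetI false
open scoped Classical

open WeierstrassCurve IsDedekindDomain NumberField WithZero

namespace Pool.Agent.H10

lemma unit_rat (ε : (𝓞 ℚ)ˣ) : ((ε : 𝓞 ℚ) : ℚ) = 1 ∨ ((ε : 𝓞 ℚ) : ℚ) = -1 := by
  let u : ℤˣ := Units.map (Rat.ringOfIntegersEquiv : 𝓞 ℚ →* ℤ) ε
  have hu : ((u : ℤ) : ℚ) = ((ε : 𝓞 ℚ) : ℚ) := Rat.ringOfIntegersEquiv_apply_coe (ε : 𝓞 ℚ)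
  rcases Int.units_eq_one_or u with h | h
  · left; rw [← hu, h]; simp
  · right; rw [← hu, h]; simp

lemma rat_rep {p : ℕ} (hp : p = 1 ∨ p.Prime) {d : ℚ} (hd : d ≠ 0)
    (hev : ∀ v : HeightOneSpectrum (𝓞 ℚ), (2 : 𝓞 ℚ) ∉ v.asIdeal → (p : 𝓞 ℚ) ∉ v.asIdeal →
      Even (log (v.valuation ℚ d))) :
    ∃ (n : ℤ) (c : ℚ), c ≠ 0 ∧ d = n * c ^ 2 ∧ (n = 1 ∨ n = 2 ∨ n = p ∨ n = 2 * p ∨
      n = -1 ∨ n = -2 ∨ n = -p ∨ n = -(2 * p)) := by
  let S : Finset ℕ := ({2, p} : Finset ℕ).filter Nat.Prime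
  have hS : ∀ q ∈ S, q.Prime ∧ UniqueAbove ℚ q := by
    intro q hq
    rw [Finset.mem_filter] at hq
    exact ⟨hq.2, uniqueAbove_rat hq.2⟩
  obtain ⟨ε, m, c, hc, hm, hmS, h⟩ := exists_decomp (K := ℚ) (by rw [Module.finrank_self]; exact odd_one)
    odd_classNumber_rat S hS hd (by
      intro v hv
      apply hev v
      · have := hv 2 (by rw [Finset.mem_filter]; exact ⟨by simp, Nat.prime_two⟩)
        exact_mod_cast this
      · rcases hp with rfl | hp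
        · intro h1
          rw [Nat.cast_one] at h1
          exact v.isPrime.ne_top ((Ideal.eq_top_iff_one _).mpr h1)
        · exact hv p (by rw [Finset.mem_filter]; exact ⟨by simp, hp⟩))
  obtain ⟨n, k, hk, hnk, hn⟩ := nat_rep (p := p) hm (by
    intro q hq hqm
    have := hmS q hq hqm
    rw [Finset.mem_filter, Finset.mem_insert, Finset.mem_singleton] at this
    exact this.1)
  have hkc : (k : ℚ) * c ≠ 0 := mul_ne_zero (by exact_mod_cast hk) hc
  rcases unit_rat ε with hε | hε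
  · refine ⟨n, k * c, hkc, ?_, ?_⟩
    · rw [h, hε, hnk]; push_cast; ring
    · rcases hn with rfl | rfl | rfl | rfl
      · left; simp
      · right; left; simp
      · right; right; left; simp
      · right; right; right; left; simp
  · refine ⟨-n, k * c, hkc, ?_, ?_⟩
    · rw [h, hε, hnk]; push_cast; ring
    · rcases hn with rfl | rfl | rfl | rfl
      · right; right; right; right; left; simp
      · right; right; right; right; right; left; simp
      · right; right; right; right; right; right; left; simp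
      · right; right; right; right; right; right; right; simp

/-- The admissible pairs: `N = 1`, or `N = p` for a prime `p = 3` modulo eight, or `N = 2 p` for a
prime `p = 5` modulo eight. -/
def GoodN (N p : ℕ) : Prop :=
  (N = 1 ∧ p = 1) ∨ (p.Prime ∧ p % 8 = 3 ∧ N = p) ∨ (p.Prime ∧ p % 8 = 5 ∧ N = 2 * p)

/-- Elimination of the diagonal classes. -/
lemma kill {N p : ℕ} (hN : GoodN N p) {n : ℤ} (hn : n = 1 ∨ n = 2 ∨ n = p ∨ n = 2 * p ∨
      n = -1 ∨ n = -2 ∨ n = -p ∨ n = -(2 * p)) (H : FinSol ℚ 0 (N : ℚ) (2 * N) 1 n n) :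
    n = 1 ∨ (N = 1 ∧ n = -1) := by
  have hC : ∀ {q : ℕ} (hq : q.Prime) (k : ℕ), k ≠ 0 → ∃ z₀ z₁ z₂ z₃ : ℤ,
      ¬ ((q : ℤ) ∣ z₀ ∧ (q : ℤ) ∣ z₁ ∧ (q : ℤ) ∣ z₂ ∧ (q : ℤ) ∣ z₃) ∧
      (q : ℤ) ^ k ∣ z₁ ^ 2 - n * z₂ ^ 2 - N * z₀ ^ 2 ∧
      (q : ℤ) ^ k ∣ z₁ ^ 2 - n * z₃ ^ 2 - 2 * N * z₀ ^ 2 := by
    intro q hq k hk
    have h1 := H (ratPlace hq)
    have e : ((2 * (N : ℤ) : ℤ) : ℚ) = 2 * (N : ℚ) := by push_cast; ring
    obtain ⟨z₀, z₁, z₂, z₃, h2, h3, h4⟩ := exists_prim hq (e₁ := 0) (e₂ := N) (e₃ := 2 * N)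
      (d₁ := 1) (d₂ := n) (d₃ := n) (by
        rw [Int.cast_zero, Int.cast_natCast, e, Int.cast_one]; exact h1) k hk
    refine ⟨z₀, z₁, z₂, z₃, h2, ?_, ?_⟩
    · obtain ⟨A, hA⟩ := h3
      exact ⟨A, by rw [← hA]; ring⟩
    · obtain ⟨A, hA⟩ := h4
      exact ⟨A, by rw [← hA]; ring⟩
  -- the elimination at `p`
  have atp : p.Prime → (p % 8 = 3 ∨ p % 8 = 5) → ∀ r : ℤ, ¬ (p : ℤ) ∣ r → (N : ℤ) = p * r →
      (∀ m : ℤ, (m = 1 ∨ m = -1 ∨ m = 2 ∨ m = -2) → n ≠ m * p) ∧ (Aniso p n → False) := by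
    intro hp hp8 r hr hNr
    constructor
    · intro m hm h
      have hpm : ¬ (p : ℤ) ∣ m := by
        intro hd
        have := Int.le_of_dvd (b := m.natAbs) (by rcases hm with rfl | rfl | rfl | rfl <;> simp)
          (Int.dvd_natAbs.mpr hd)
        have h3 : m.natAbs ≤ 2 := by rcases hm with rfl | rfl | rfl | rfl <;> simp
        omega
      obtain ⟨z₀, z₁, z₂, z₃, h1, h2, h3⟩ := hC hp 2 (by norm_num)
      rw [h, hNr] at h2 h3
      exact h1 (elim_dvd hp hr hpm (aniso_two hp hp8) h2 h3)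
    · intro han
      obtain ⟨z₀, z₁, z₂, z₃, h1, h2, h3⟩ := hC hp 2 (by norm_num)
      rw [hNr] at h2 h3
      exact h1 (elim_coprime hp hr han h2 h3)
  rcases hN with ⟨rfl, rfl⟩ | ⟨hp, hp8, rfl⟩ | ⟨hp, hp8, rfl⟩
  · have two : n % 4 ≠ 2 := by
      intro hn4
      obtain ⟨z₀, z₁, z₂, z₃, h1, h2, h3⟩ := hC Nat.prime_two 2 (by norm_num)
      push_cast at h1 h2 h3
      exact h1 (elim_two (p := 1) rfl hn4 h2 h3)
    push_cast at hn
    omega
  · have two : n % 4 ≠ 2 := by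
      intro hn4
      obtain ⟨z₀, z₁, z₂, z₃, h1, h2, h3⟩ := hC Nat.prime_two 2 (by norm_num)
      push_cast at h1 h2 h3
      exact h1 (elim_two (by omega) hn4 h2 h3)
    obtain ⟨mm, an⟩ := atp hp (Or.inl hp8) 1 (by
      intro h
      have := Int.le_of_dvd one_pos h
      omega) (by ring)
    have m1 : n ≠ -1 := by
      intro h
      rw [h] at an
      exact an (aniso_neg_one hp hp8)
    rcases hn with h | h | h | h | h | h | h | h
    · left; exact h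
    · exfalso; omega
    · exact absurd (by rw [h]; ring) (mm 1 (by simp))
    · exact absurd (by rw [h]) (mm 2 (by simp))
    · exact absurd h m1
    · exfalso; omega
    · exact absurd (by rw [h]; ring) (mm (-1) (by simp))
    · exact absurd (by rw [h]; ring) (mm (-2) (by simp))
  · have two : n % 4 ≠ 3 := by
      intro hn4
      obtain ⟨z₀, z₁, z₂, z₃, h1, h2, h3⟩ := hC Nat.prime_two 2 (by norm_num)
      push_cast at h1 h2 h3
      exact h1 (elim_two' (r := p) (by omega) hn4 h2 h3)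
    obtain ⟨mm, an⟩ := atp hp (Or.inr hp8) 2 (by
      intro h
      have := Int.le_of_dvd two_pos h
      omega) (by push_cast; ring)
    have m2 : n ≠ 2 := by
      intro h
      rw [h] at an
      exact an (aniso_two hp (Or.inr hp8))
    have m2' : n ≠ -2 := by
      intro h
      rw [h] at an
      exact an (aniso_neg_two hp hp8)
    rcases hn with h | h | h | h | h | h | h | h
    · left; exact h
    · exact absurd h m2
    · exact absurd (by rw [h]; ring) (mm 1 (by simp))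
    · exact absurd (by rw [h]) (mm 2 (by simp))
    · exfalso; omega
    · exact absurd h m2'
    · exact absurd (by rw [h]; ring) (mm (-1) (by simp))
    · exact absurd (by rw [h]; ring) (mm (-2) (by simp))

section

variable {K : Type} [Field K] [NumberField K] {e₁ e₂ e₃ : K}

lemma FinSol.sq_congr {d₁ d₂ d₃ d₁' d₂' d₃' s₁ s₂ s₃ : K} (h1 : s₁ ≠ 0)
    (h2 : s₂ ≠ 0) (h3 : s₃ ≠ 0) (H : FinSol K e₁ e₂ e₃ d₁ d₂ d₃) (g1 : d₁' = d₁ * s₁ ^ 2)
    (g2 : d₂' = d₂ * s₂ ^ 2) (g3 : d₃' = d₃ * s₃ ^ 2) : FinSol K e₁ e₂ e₃ d₁' d₂' d₃' := by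
  intro v
  have aM : ∀ x : K, x ≠ 0 → algebraMap K (v.adicCompletion K) x ≠ 0 := fun x hx => by
    rw [Ne, map_eq_zero]; exact hx
  refine (H v).congr (aM _ h1) (aM _ h2) (aM _ h3) ?_ ?_ ?_
  · rw [g1, map_mul, map_pow]
  · rw [g2, map_mul, map_pow]
  · rw [g3, map_mul, map_pow]

lemma FinSol.even {d₁ d₂ d₃ c : K} (hd : d₁ * d₂ * d₃ = c ^ 2) (hc : c ≠ 0)
    (Hf : FinSol K e₁ e₂ e₃ d₁ d₂ d₃) (v : HeightOneSpectrum (𝓞 K))
    (h12 : v.valuation K (e₂ - e₁) = 1) (h13 : v.valuation K (e₃ - e₁) = 1)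
    (h23 : v.valuation K (e₃ - e₂) = 1) :
    Even (log (v.valuation K d₁)) ∧ Even (log (v.valuation K d₂)) ∧
      Even (log (v.valuation K d₃)) := by
  rw [← valued_algebraMap, ← valued_algebraMap, ← valued_algebraMap]
  refine even_of_cpt (F := v.adicCompletion K) Valued.v ?_ ?_ ?_
    (c := algebraMap K (v.adicCompletion K) c) ?_ ?_ (Hf v)
  · rw [← map_sub, valued_algebraMap, h12]
  · rw [← map_sub, valued_algebraMap, h13]
  · rw [← map_sub, valued_algebraMap, h23]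
  · rw [← map_mul, ← map_mul, hd, map_pow]
  · rw [Ne, map_eq_zero]; exact hc

lemma InfSol.real {d₁ d₂ d₃ c : K} (hd : d₁ * d₂ * d₃ = c ^ 2) (hc : c ≠ 0)
    (Hi : InfSol K e₁ e₂ e₃ d₁ d₂ d₃) (φ : K →+* ℝ) (h12 : φ e₁ < φ e₂) (h13 : φ e₁ < φ e₃) :
    0 < φ d₁ := by
  obtain ⟨v, ψ, hψ⟩ := exists_completion φ
  have h1 := (Hi v).map ψ
  rw [hψ, hψ, hψ, hψ, hψ, hψ] at h1
  exact (real_mp (c := φ c) h12 h13 (by rw [← map_mul, ← map_mul, hd, map_pow])
    (by rw [Ne, map_eq_zero]; exact hc) h1).1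

/-- Multiplication of soluble triples. -/
lemma FinSol.mul_cpt (h12 : e₁ ≠ e₂) (h13 : e₁ ≠ e₃) (h23 : e₂ ≠ e₃)
    {d₁ d₂ d₃ c b₁ b₂ b₃ c' : K} (hd : d₁ * d₂ * d₃ = c ^ 2) (hc : c ≠ 0)
    (hb : b₁ * b₂ * b₃ = c' ^ 2) (hc' : c' ≠ 0) (H : FinSol K e₁ e₂ e₃ d₁ d₂ d₃)
    (H' : CPt e₁ e₂ e₃ b₁ b₂ b₃) : FinSol K e₁ e₂ e₃ (d₁ * b₁) (d₂ * b₂) (d₃ * b₃) := by
  intro v
  have inj := (algebraMap K (v.adicCompletion K)).injective
  have h1 := H'.map (algebraMap K (v.adicCompletion K))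
  have h2 := CPt.mul (fun h => h12 (inj h)) (fun h => h13 (inj h)) (fun h => h23 (inj h))
    (two_ne_zero (α := v.adicCompletion K))
    (c := algebraMap K (v.adicCompletion K) c) (c' := algebraMap K (v.adicCompletion K) c')
    (by rw [← map_mul, ← map_mul, hd, map_pow]) (by rw [Ne, map_eq_zero]; exact hc)
    (by rw [← map_mul, ← map_mul, hb, map_pow]) (by rw [Ne, map_eq_zero]; exact hc') (H v) h1
  rw [map_mul, map_mul, map_mul]
  exact h2

end

end Pool.Agent.H10
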