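import Pool.Agent.H10.RatSel2

/-!
The two-Selmer group of `y^2 = x (x - N) (x - 2 N)` over the rationals, conclusion.
-/

set_option autoImplicit false
set_option linter.style.haveILetI false
open scoped Classical

open WeierstrassCurve IsDedekindDomain NumberField WithZero

namespace Pool.Agent.H10

lemma GoodN.notMem {N p : ℕ} (hN : GoodN N p) {R : Type*} [CommRing R] {I : Ideal R}
    (hI : I.IsPrime) (h2 : (2 : R) ∉ I) (hp : (p : R) ∉ I) : (N : R) ∉ I := by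
  rcases hN with ⟨rfl, rfl⟩ | ⟨-, -, rfl⟩ | ⟨-, -, rfl⟩
  · exact hp
  · exact hp
  · intro h
    push_cast at h
    rcases hI.mem_or_mem h with h | h
    · exact h2 h
    · exact hp h

lemma even_rat {N p : ℕ} (hN : GoodN N p) {d₁ d₂ d₃ c : ℚ} (hd : d₁ * d₂ * d₃ = c ^ 2)
    (hc : c ≠ 0) (Hf : FinSol ℚ 0 (N : ℚ) (2 * N) d₁ d₂ d₃) (v : HeightOneSpectrum (𝓞 ℚ))
    (h2 : (2 : 𝓞 ℚ) ∉ v.asIdeal) (hp : (p : 𝓞 ℚ) ∉ v.asIdeal) :
    Even (log (v.valuation ℚ d₁)) ∧ Even (log (v.valuation ℚ d₂)) ∧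
      Even (log (v.valuation ℚ d₃)) := by
  have v2 : v.valuation ℚ 2 = 1 := by
    have := val_eq_one_of_notMem (L := ℚ) h2
    rwa [show ((2 : 𝓞 ℚ) : ℚ) = 2 from map_ofNat (algebraMap (𝓞 ℚ) ℚ) 2] at this
  have vp : v.valuation ℚ (N : ℚ) = 1 :=
    valuation_natCast_eq_one (hN.notMem v.isPrime h2 hp)
  refine Hf.even hd hc v ?_ ?_ ?_
  · rw [sub_zero, vp]
  · rw [sub_zero, map_mul, v2, vp, one_mul]
  · rw [← vp]
    congr 1
    ring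

theorem selTors_rat {N p : ℕ} (hN : GoodN N p) : SelTors ℚ 0 (N : ℚ) (2 * N) := by
  have hp' : p = 1 ∨ p.Prime := by
    rcases hN with ⟨-, h⟩ | ⟨h, -, -⟩ | ⟨h, -, -⟩
    · exact Or.inl h
    · exact Or.inr h
    · exact Or.inr h
  have hp0 : 0 < p := by
    rcases hp' with rfl | h
    · exact one_pos
    · exact h.pos
  have hN0 : 0 < N := by
    rcases hN with ⟨rfl, -⟩ | ⟨-, -, rfl⟩ | ⟨-, -, rfl⟩ <;> omega
  have hpQ : (0 : ℚ) < p := by exact_mod_cast hp0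
  have hNQ : (0 : ℚ) < N := by exact_mod_cast hN0
  intro d₁ d₂ d₃ c hd hc Hf Hi
  have hdn : d₁ * d₂ * d₃ ≠ 0 := by rw [hd]; exact pow_ne_zero 2 hc
  have hd1 : d₁ ≠ 0 := fun h => hdn (by rw [h]; ring)
  have hd2 : d₂ ≠ 0 := fun h => hdn (by rw [h]; ring)
  have hd3 : d₃ ≠ 0 := fun h => hdn (by rw [h]; ring)
  -- the first component is positive
  have pos : 0 < d₁ := by
    have hNR : (0 : ℝ) < N := by exact_mod_cast hN0
    have h2 := Hi.real hd hc (Rat.castHom ℝ) (by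
      change ((0 : ℚ) : ℝ) < ((N : ℚ) : ℝ)
      exact_mod_cast hN0) (by
      change ((0 : ℚ) : ℝ) < ((2 * N : ℚ) : ℝ)
      push_cast
      linarith)
    change (0 : ℝ) < (d₁ : ℝ) at h2
    exact_mod_cast h2
  -- a torsion class with the same first component
  obtain ⟨t₁, t₂, t₃, ht, s₁, hs₁, hsq⟩ : ∃ t₁ t₂ t₃ : ℚ, TorsCls 0 (N : ℚ) (2 * N) t₁ t₂ t₃ ∧
      ∃ s₁ : ℚ, s₁ ≠ 0 ∧ d₁ * t₁ = s₁ ^ 2 := by
    obtain ⟨n, c₁, hc₁, hdc, hn⟩ := rat_rep hp' hd1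
      (fun v h2 h3 => (even_rat hN hd hc Hf v h2 h3).1)
    have hnpos : (0 : ℚ) < n := by
      rw [hdc] at pos
      exact pos_of_mul_pos_left pos (sq_nonneg c₁)
    have hnpos' : 0 < n := by exact_mod_cast hnpos
    rcases hn with h | h | h | h | h | h | h | h
    · refine ⟨1, 1, 1, Or.inl ⟨rfl, rfl, rfl⟩, c₁, hc₁, ?_⟩
      rw [hdc, h]; push_cast; ring
    · refine ⟨_, _, _, Or.inr (Or.inl ⟨rfl, rfl, rfl⟩), 2 * N * c₁, by positivity, ?_⟩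
      rw [hdc, h]; push_cast; ring
    · rcases hN with ⟨rfl, rfl⟩ | ⟨-, -, rfl⟩ | ⟨-, -, rfl⟩
      · refine ⟨_, _, _, Or.inr (Or.inr (Or.inl ⟨rfl, rfl, rfl⟩)), c₁, by positivity, ?_⟩
        rw [hdc, h]; push_cast; ring
      · refine ⟨_, _, _, Or.inr (Or.inr (Or.inl ⟨rfl, rfl, rfl⟩)), N * c₁, by positivity, ?_⟩
        rw [hdc, h]; push_cast; ring
      · refine ⟨_, _, _, Or.inr (Or.inr (Or.inr ⟨rfl, rfl, rfl⟩)), 2 * p * c₁, by positivity, ?_⟩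
        rw [hdc, h]; push_cast; ring
    · rcases hN with ⟨rfl, rfl⟩ | ⟨-, -, rfl⟩ | ⟨-, -, rfl⟩
      · refine ⟨_, _, _, Or.inr (Or.inr (Or.inr ⟨rfl, rfl, rfl⟩)), 2 * c₁, by positivity, ?_⟩
        rw [hdc, h]; push_cast; ring
      · refine ⟨_, _, _, Or.inr (Or.inr (Or.inr ⟨rfl, rfl, rfl⟩)), 2 * N * c₁, by positivity, ?_⟩
        rw [hdc, h]; push_cast; ring
      · refine ⟨_, _, _, Or.inr (Or.inr (Or.inl ⟨rfl, rfl, rfl⟩)), 2 * p * c₁, by positivity, ?_⟩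
        rw [hdc, h]; push_cast; ring
    · exfalso; omega
    · exfalso; omega
    · exfalso; omega
    · exfalso; omega
  have h12 : (0 : ℚ) ≠ N := hNQ.ne
  have h13 : (0 : ℚ) ≠ 2 * N := by positivity
  have h23 : (N : ℚ) ≠ 2 * N := by intro h; linarith
  obtain ⟨c', hc', ht'⟩ := ht.prod h12 h13 h23
  have htn : t₁ * t₂ * t₃ ≠ 0 := by rw [ht']; exact pow_ne_zero 2 hc'
  have ht1 : t₁ ≠ 0 := fun h => htn (by rw [h]; ring)
  have ht2 : t₂ ≠ 0 := fun h => htn (by rw [h]; ring)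
  have ht3 : t₃ ≠ 0 := fun h => htn (by rw [h]; ring)
  have HF := FinSol.mul_cpt h12 h13 h23 hd hc ht' hc' Hf ht.cpt
  have hD : (d₁ * t₁) * (d₂ * t₂) * (d₃ * t₃) = (c * c') ^ 2 := by
    calc _ = (d₁ * d₂ * d₃) * (t₁ * t₂ * t₃) := by ring
      _ = _ := by rw [hd, ht']; ring
  have hcc : c * c' ≠ 0 := mul_ne_zero hc hc'
  have hD2 : d₂ * t₂ ≠ 0 := mul_ne_zero hd2 ht2
  obtain ⟨n, c₂, hc₂, hdc, hn⟩ := rat_rep hp' hD2
    (fun v h2 h3 => (even_rat hN hD hcc HF v h2 h3).2.1)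
  have hn0 : (n : ℚ) ≠ 0 := by
    intro h
    rw [h, zero_mul] at hdc
    exact hD2 hdc
  have HG : FinSol ℚ 0 (N : ℚ) (2 * N) 1 n n := by
    refine HF.sq_congr (s₁ := 1 / s₁) (s₂ := 1 / c₂) (s₃ := s₁ * n * c₂ / (c * c'))
      (one_div_ne_zero hs₁) (one_div_ne_zero hc₂)
      (div_ne_zero (mul_ne_zero (mul_ne_zero hs₁ hn0) hc₂) hcc) ?_ ?_ ?_
    · rw [hsq]
      field_simp
    · rw [hdc]
      field_simp
    · rw [hsq, hdc] at hD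
      have h5 : s₁ ^ 2 * (n * c₂ ^ 2) * (d₃ * t₃) = (c * c') ^ 2 := hD
      rw [div_pow, mul_div_assoc', eq_div_iff (pow_ne_zero 2 hcc), ← h5]
      ring
  have hfin := kill hN hn HG
  have hD3 : (d₃ * t₃) * (s₁ * c₂) ^ 2 * n = (c * c') ^ 2 := by
    rw [hsq, hdc] at hD
    rw [← hD]; ring
  have hsc : s₁ * c₂ ≠ 0 := mul_ne_zero hs₁ hc₂
  rcases hfin with rfl | ⟨rfl, rfl⟩
  · refine ⟨t₁, t₂, t₃, ht, ⟨s₁, by rw [hsq]; ring⟩, ⟨c₂, by rw [hdc]; push_cast; ring⟩,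
      ⟨c * c' / (s₁ * c₂), ?_⟩⟩
    rw [Int.cast_one, mul_one] at hD3
    rw [div_mul_div_comm, eq_div_iff (mul_ne_zero hsc hsc)]
    linear_combination hD3
  · -- swap the class
    have key : ∃ t₁' t₂' t₃' u₁ u₂ u₃ : ℚ, TorsCls 0 ((1 : ℕ) : ℚ) (2 * (1 : ℕ)) t₁' t₂' t₃' ∧
        t₁' = t₁ * u₁ ^ 2 ∧ t₂' = -t₂ * u₂ ^ 2 ∧ t₃' = -t₃ * u₃ ^ 2 := by
      rcases ht with ⟨rfl, rfl, rfl⟩ | ⟨rfl, rfl, rfl⟩ | ⟨rfl, rfl, rfl⟩ | ⟨rfl, rfl, rfl⟩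
      · exact ⟨_, _, _, 1, 1, 1, Or.inr (Or.inr (Or.inl ⟨rfl, rfl, rfl⟩)), by push_cast; ring,
          by push_cast; ring, by push_cast; ring⟩
      · exact ⟨_, _, _, 1, 1, 1, Or.inr (Or.inr (Or.inr ⟨rfl, rfl, rfl⟩)), by push_cast; ring,
          by push_cast; ring, by push_cast; ring⟩
      · exact ⟨_, _, _, 1, 1, 1, Or.inl ⟨rfl, rfl, rfl⟩, by push_cast; ring,
          by push_cast; ring, by push_cast; ring⟩
      · exact ⟨_, _, _, 1, 1, 1, Or.inr (Or.inl ⟨rfl, rfl, rfl⟩), by push_cast; ring,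
          by push_cast; ring, by push_cast; ring⟩
    obtain ⟨t₁', t₂', t₃', u₁, u₂, u₃, hcls, g1, g2, g3⟩ := key
    refine ⟨t₁', t₂', t₃', hcls, ⟨s₁ * u₁, ?_⟩, ⟨c₂ * u₂, ?_⟩, ⟨c * c' / (s₁ * c₂) * u₃, ?_⟩⟩
    · rw [g1]; linear_combination u₁ ^ 2 * hsq
    · rw [g2]
      push_cast at hdc
      linear_combination -(u₂ ^ 2) * hdc
    · rw [g3]
      push_cast at hD3
      have h6 : -(d₃ * t₃) = (c * c' / (s₁ * c₂)) ^ 2 := by
        rw [div_pow, eq_div_iff (pow_ne_zero 2 hsc)]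
        linear_combination hD3
      linear_combination u₃ ^ 2 * h6

end Pool.Agent.H10
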