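import Pool.Agent.H10.OddIndex
import Pool.Agent.H10.SelDef

/-!
Curves whose two-Selmer group is the image of the two-torsion.
-/

set_option autoImplicit false
set_option linter.style.haveILetI false
open scoped Classical

open WeierstrassCurve IsDedekindDomain NumberField

namespace Pool.Agent.H10

/-- The classes of the two-torsion points. -/
def TorsCls {k : Type*} [Field k] (e₁ e₂ e₃ t₁ t₂ t₃ : k) : Prop :=
  (t₁ = 1 ∧ t₂ = 1 ∧ t₃ = 1) ∨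
  (t₁ = (e₁ - e₂) * (e₁ - e₃) ∧ t₂ = e₁ - e₂ ∧ t₃ = e₁ - e₃) ∨
  (t₁ = e₂ - e₁ ∧ t₂ = (e₂ - e₁) * (e₂ - e₃) ∧ t₃ = e₂ - e₃) ∨
  (t₁ = e₃ - e₁ ∧ t₂ = e₃ - e₂ ∧ t₃ = (e₃ - e₁) * (e₃ - e₂))

/-- All everywhere locally soluble triples are classes of two-torsion points. -/
def SelTors (K : Type) [Field K] [NumberField K] (e₁ e₂ e₃ : K) : Prop :=
  ∀ d₁ d₂ d₃ c : K, d₁ * d₂ * d₃ = c ^ 2 → c ≠ 0 → FinSol K e₁ e₂ e₃ d₁ d₂ d₃ →
    InfSol K e₁ e₂ e₃ d₁ d₂ d₃ → ∃ t₁ t₂ t₃ : K, TorsCls e₁ e₂ e₃ t₁ t₂ t₃ ∧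
      IsSquare (d₁ * t₁) ∧ IsSquare (d₂ * t₂) ∧ IsSquare (d₃ * t₃)

section

variable {k : Type*} [Field k] {e₁ e₂ e₃ t₁ t₂ t₃ : k}

lemma TorsCls.cpt (h : TorsCls e₁ e₂ e₃ t₁ t₂ t₃) : CPt e₁ e₂ e₃ t₁ t₂ t₃ := by
  rcases h with ⟨rfl, rfl, rfl⟩ | ⟨rfl, rfl, rfl⟩ | ⟨rfl, rfl, rfl⟩ | ⟨rfl, rfl, rfl⟩
  · exact ⟨0, 1, 1, 1, Or.inr (Or.inl one_ne_zero), by ring, by ring⟩
  · exact ⟨1, 0, 1, 1, Or.inl one_ne_zero, by ring, by ring⟩
  · exact ⟨1, 1, 0, 1, Or.inl one_ne_zero, by ring, by ring⟩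
  · exact ⟨1, 1, 1, 0, Or.inl one_ne_zero, by ring, by ring⟩

lemma TorsCls.prod (h : TorsCls e₁ e₂ e₃ t₁ t₂ t₃) (h12 : e₁ ≠ e₂) (h13 : e₁ ≠ e₃)
    (h23 : e₂ ≠ e₃) : ∃ c : k, c ≠ 0 ∧ t₁ * t₂ * t₃ = c ^ 2 := by
  have n12 := sub_ne_zero.mpr h12
  have n13 := sub_ne_zero.mpr h13
  have n23 := sub_ne_zero.mpr h23
  rcases h with ⟨rfl, rfl, rfl⟩ | ⟨rfl, rfl, rfl⟩ | ⟨rfl, rfl, rfl⟩ | ⟨rfl, rfl, rfl⟩
  · exact ⟨1, one_ne_zero, by ring⟩
  · exact ⟨(e₁ - e₂) * (e₁ - e₃), mul_ne_zero n12 n13, by ring⟩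
  · exact ⟨(e₁ - e₂) * (e₂ - e₃), mul_ne_zero n12 n23, by ring⟩
  · exact ⟨(e₁ - e₃) * (e₂ - e₃), mul_ne_zero n13 n23, by ring⟩

lemma CPt.of_sq (hC : CPt e₁ e₂ e₃ t₁ t₂ t₃) {c : k} (hc : c ≠ 0) (ht : t₁ * t₂ * t₃ = c ^ 2)
    {d₁ d₂ d₃ : k} (hd1 : d₁ ≠ 0) (hd2 : d₂ ≠ 0) (hd3 : d₃ ≠ 0)
    (h1 : IsSquare (d₁ * t₁)) (h2 : IsSquare (d₂ * t₂)) (h3 : IsSquare (d₃ * t₃)) :
    CPt e₁ e₂ e₃ d₁ d₂ d₃ := by
  have htn : t₁ * t₂ * t₃ ≠ 0 := by rw [ht]; exact pow_ne_zero 2 hc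
  have ht1 : t₁ ≠ 0 := fun h => htn (by rw [h]; ring)
  have ht2 : t₂ ≠ 0 := fun h => htn (by rw [h]; ring)
  have ht3 : t₃ ≠ 0 := fun h => htn (by rw [h]; ring)
  obtain ⟨s₁, g1⟩ := h1
  obtain ⟨s₂, g2⟩ := h2
  obtain ⟨s₃, g3⟩ := h3
  have n : ∀ {d t s : k}, d ≠ 0 → t ≠ 0 → d * t = s * s → s / t ≠ 0 := by
    intro d t s hd ht h
    apply div_ne_zero _ ht
    rintro rfl
    rw [mul_zero] at h
    exact mul_ne_zero hd ht h
  refine hC.congr (n hd1 ht1 g1) (n hd2 ht2 g2) (n hd3 ht3 g3) ?_ ?_ ?_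
  · field_simp
    linear_combination g1
  · field_simp
    linear_combination g2
  · field_simp
    linear_combination g3

end

section

variable {K : Type} [Field K] [NumberField K] {V : WeierstrassCurve K} {e₁ e₂ e₃ : K}

theorem SelTors.hasse (h : IsCub V e₁ e₂ e₃) (H : SelTors K e₁ e₂ e₃) : HasseTwo K e₁ e₂ e₃ := by
  intro d₁ d₂ d₃ c hd hc hf hi
  obtain ⟨t₁, t₂, t₃, ht, g1, g2, g3⟩ := H d₁ d₂ d₃ c hd hc hf hi
  obtain ⟨c', hc', ht'⟩ := ht.prod h.h12 h.h13 h.h23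
  have hdn : d₁ * d₂ * d₃ ≠ 0 := by rw [hd]; exact pow_ne_zero 2 hc
  have hd1 : d₁ ≠ 0 := fun h => hdn (by rw [h]; ring)
  have hd2 : d₂ ≠ 0 := fun h => hdn (by rw [h]; ring)
  have hd3 : d₃ ≠ 0 := fun h => hdn (by rw [h]; ring)
  exact ht.cpt.of_sq hc' ht' hd1 hd2 hd3 g1 g2 g3

omit [NumberField K] in
/-- A point all of whose coordinates `x - e i` are squares is divisible by two. -/
lemma half_of_sq (h : IsCub V e₁ e₂ e₃) {x y : K} (hxy : V.toAffine.Nonsingular x y)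
    (h1 : IsSquare (x - e₁)) (h2 : IsSquare (x - e₂)) (h3 : IsSquare (x - e₃)) :
    ∃ R : V.toAffine.Point, Affine.Point.some x y hxy = R + R := by
  obtain ⟨s₁, g1⟩ := h1
  obtain ⟨s₂, g2⟩ := h2
  obtain ⟨s₃, g3⟩ := h3
  have hy : y ^ 2 = (s₁ * s₂ * s₃) ^ 2 := by
    rw [(h.equation_iff x y).mp hxy.1, g1, g2, g3]; ring
  rcases sq_eq_sq_iff_eq_or_eq_neg.mp hy with hy | hy
  · subst hy
    exact ⟨h.half x s₁ s₂ s₃ (by rw [g1]; ring) (by rw [g2]; ring) (by rw [g3]; ring),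
      (h.half_add_half _ _ _ hxy).symm⟩
  · have hy' : y = (-s₁) * s₂ * s₃ := by rw [hy]; ring
    subst hy'
    exact ⟨h.half x (-s₁) s₂ s₃ (by rw [g1]; ring) (by rw [g2]; ring) (by rw [g3]; ring),
      (h.half_add_half _ _ _ hxy).symm⟩

omit [NumberField K] in
lemma half_of_T₁ (h : IsCub V e₁ e₂ e₃) {x y : K} (hxy : V.toAffine.Nonsingular x y)
    (hy : y ≠ 0) (h1 : IsSquare ((x - e₁) * ((e₁ - e₂) * (e₁ - e₃))))
    (h2 : IsSquare ((x - e₂) * (e₁ - e₂))) (h3 : IsSquare ((x - e₃) * (e₁ - e₃))) :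
    ∃ R : V.toAffine.Point, Affine.Point.some x y hxy + h.T₁ = R + R := by
  have hE := (h.equation_iff x y).mp hxy.1
  have hn : (x - e₁) * (x - e₂) * (x - e₃) ≠ 0 := by rw [← hE]; exact pow_ne_zero 2 hy
  have n1 : x - e₁ ≠ 0 := fun h => hn (by rw [h]; ring)
  have n2 : x - e₂ ≠ 0 := fun h => hn (by rw [h]; ring)
  have n3 : x - e₃ ≠ 0 := fun h => hn (by rw [h]; ring)
  have hx : x ≠ e₁ := sub_ne_zero.mp n1
  unfold IsCub.T₁
  rw [Affine.Point.add_of_X_ne hx]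
  have hsl : V.toAffine.slope x e₁ y 0 = y / (x - e₁) := by
    rw [Affine.slope_of_X_ne hx, sub_zero]
  have key : ∀ e : K, V.toAffine.addX x e₁ (V.toAffine.slope x e₁ y 0) - e =
      (x - e₂) * (x - e₃) / (x - e₁) + e₂ + e₃ - x - e := by
    intro e
    rw [hsl, Affine.addX, h.a₁, h.a₂, div_pow, hE]
    field_simp
    ring
  obtain ⟨s₁, g1⟩ := h1
  obtain ⟨s₂, g2⟩ := h2
  obtain ⟨s₃, g3⟩ := h3
  apply half_of_sq h
  · refine ⟨s₁ / (x - e₁), ?_⟩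
    rw [key]
    field_simp
    linear_combination g1
  · refine ⟨s₂ * y / ((x - e₁) * (x - e₂)), ?_⟩
    rw [key]
    have g2' : s₂ * s₂ = (x - e₂) * (e₁ - e₂) := g2.symm
    have : s₂ * y / ((x - e₁) * (x - e₂)) * (s₂ * y / ((x - e₁) * (x - e₂))) =
        (s₂ * s₂) * y ^ 2 / ((x - e₁) * (x - e₂)) ^ 2 := by
      field_simp
    rw [this, g2', hE]
    field_simp
    ring
  · refine ⟨s₃ * y / ((x - e₁) * (x - e₃)), ?_⟩
    rw [key]
    have g3' : s₃ * s₃ = (x - e₃) * (e₁ - e₃) := g3.symm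
    have : s₃ * y / ((x - e₁) * (x - e₃)) * (s₃ * y / ((x - e₁) * (x - e₃))) =
        (s₃ * s₃) * y ^ 2 / ((x - e₁) * (x - e₃)) ^ 2 := by
      field_simp
    rw [this, g3', hE]
    field_simp
    ring

/-- Every rational point is a two-torsion point plus a double. -/
theorem SelTors.point (h : IsCub V e₁ e₂ e₃) (H : SelTors K e₁ e₂ e₃) (P : V.toAffine.Point) :
    ∃ T R : V.toAffine.Point, T + T = 0 ∧ P = T + (R + R) := by
  rcases P with _ | ⟨x, y, hxy⟩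
  · exact ⟨0, 0, add_zero 0, by rw [add_zero, add_zero]; rfl⟩
  · by_cases hy : y = 0
    · refine ⟨.some x y hxy, 0, ?_, by rw [add_zero, add_zero]⟩
      apply Affine.Point.add_self_of_Y_eq
      rw [h.negY_eq, hy, neg_zero]
    · have hE := (h.equation_iff x y).mp hxy.1
      have hn : (x - e₁) * (x - e₂) * (x - e₃) ≠ 0 := by rw [← hE]; exact pow_ne_zero 2 hy
      have hC : CPt e₁ e₂ e₃ (x - e₁) (x - e₂) (x - e₃) :=
        ⟨1, 1, 1, 1, Or.inl one_ne_zero, by ring, by ring⟩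
      obtain ⟨t₁, t₂, t₃, ht, g1, g2, g3⟩ := H (x - e₁) (x - e₂) (x - e₃) y hE.symm hy
        (fun v => hC.map (algebraMap K (v.adicCompletion K)))
        (fun v => hC.map (algebraMap K v.Completion))
      rcases ht with ⟨rfl, rfl, rfl⟩ | ⟨rfl, rfl, rfl⟩ | ⟨rfl, rfl, rfl⟩ | ⟨rfl, rfl, rfl⟩
      · rw [mul_one] at g1 g2 g3
        obtain ⟨R, hR⟩ := half_of_sq h hxy g1 g2 g3
        exact ⟨0, R, add_zero 0, by rw [hR, zero_add]⟩
      · obtain ⟨R, hR⟩ := half_of_T₁ h hxy hy g1 g2 g3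
        have hT := h.T_add_self
        refine ⟨h.T₁, R, hT, ?_⟩
        rw [← hR]
        calc Affine.Point.some x y hxy = Affine.Point.some x y hxy + (h.T₁ + h.T₁) := by
              rw [hT, add_zero]
          _ = h.T₁ + (Affine.Point.some x y hxy + h.T₁) := by abel
      · obtain ⟨R, hR⟩ := half_of_T₁ h.swap12 hxy hy g2 g1 g3
        have hT := h.swap12.T_add_self
        refine ⟨h.swap12.T₁, R, hT, ?_⟩
        rw [← hR]
        calc Affine.Point.some x y hxy =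
              Affine.Point.some x y hxy + (h.swap12.T₁ + h.swap12.T₁) := by
              rw [hT, add_zero]
          _ = h.swap12.T₁ + (Affine.Point.some x y hxy + h.swap12.T₁) := by abel
      · obtain ⟨R, hR⟩ := half_of_T₁ h.swap13 hxy hy (by rw [mul_comm (e₃ - e₂)]; exact g3) g2 g1
        have hT := h.swap13.T_add_self
        refine ⟨h.swap13.T₁, R, hT, ?_⟩
        rw [← hR]
        calc Affine.Point.some x y hxy =
              Affine.Point.some x y hxy + (h.swap13.T₁ + h.swap13.T₁) := by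
              rw [hT, add_zero]
          _ = h.swap13.T₁ + (Affine.Point.some x y hxy + h.swap13.T₁) := by abel

/-- Every rational point is torsion. -/
theorem SelTors.torsion (h : IsCub V e₁ e₂ e₃) (H : SelTors K e₁ e₂ e₃) :
    ∃ m : ℕ, m ≠ 0 ∧ ∀ P : V.toAffine.Point, m • P = 0 := by
  have := h.isElliptic
  let A : AddSubgroup V.toAffine.Point := (nsmulAddMonoidHom 2 : V.toAffine.Point →+ _).ker
  obtain ⟨m, hm, hP⟩ := odd_exponent A.subtype (Pool.Agent.H11.mordell_weil V) (by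
    intro P
    obtain ⟨T, R, hT, hPT⟩ := H.point h P
    refine ⟨⟨T, ?_⟩, R, hPT⟩
    rw [AddMonoidHom.mem_ker]
    change 2 • T = 0
    rw [two_nsmul, hT])
  refine ⟨2 * m, by rintro h0; obtain ⟨k, hk⟩ := hm; omega, fun P => ?_⟩
  obtain ⟨a, ha⟩ := hP P
  rw [mul_nsmul', ha]
  have h2 := a.2
  rw [AddMonoidHom.mem_ker] at h2
  exact h2

/-- If multiples of all points of `E(L)` come from `E(K)`, which is torsion, then `E(L)` is
finite. -/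
theorem finite_of_torsion {V : WeierstrassCurve K} [V.IsElliptic] {m : ℕ} (hm : m ≠ 0)
    (h : ∀ P : V.toAffine.Point, m • P = 0) : Finite V.toAffine.Point := by
  have hfg : AddGroup.FG V.toAffine.Point := Pool.Agent.H11.mordell_weil V
  apply AddCommGroup.finite_of_fg_isAddTorsion
  intro P
  rw [isOfFinAddOrder_iff_nsmul_eq_zero]
  exact ⟨m, Nat.pos_of_ne_zero hm, h P⟩

end

end Pool.Agent.H10
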