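import Pool.Agent.H10.SemiTwo

/-!
Local analysis at a place above two at which two is a uniformiser.
-/

set_option autoImplicit false

open WithZero

namespace Pool.Agent.H10

section

variable {F : Type*} [Field F] (V : Valuation F (WithZero (Multiplicative ℤ)))

/-- Up to squares `d` is `1 + 2 (n y + m y ^ 2)` modulo four, where `y` is modulo the maximal ideal
equal to one or a root of `T ^ 2 + T + 1` or of `T ^ 3 + T ^ 2 + 1`. -/
def KapForm (d : F) : Prop :=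
  ∃ (t y : F) (n m : ℤ), t ≠ 0 ∧ V y ≤ 1 ∧
    V (d * t ^ 2 - (1 + 2 * (n * y + m * y ^ 2))) ≤ exp (-2 : ℤ) ∧
    (V (y - 1) < 1 ∨ V (y ^ 2 + y + 1) < 1 ∨ V (y ^ 3 + y ^ 2 + 1) < 1)

variable {V}

lemma le_exp_neg_one {x : F} (h : V x < 1) : V x ≤ exp (-1 : ℤ) := by
  by_cases h0 : V x = 0
  · rw [h0]; exact zero_le
  · rw [← exp_log h0, ← exp_zero, exp_lt_exp] at h
    rw [← exp_log h0, exp_le_exp]
    omega

lemma exp_one_le {x : F} (h : 1 < V x) : exp (1 : ℤ) ≤ V x := by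
  have h0 : V x ≠ 0 := by
    intro h0
    rw [h0] at h
    exact absurd h not_lt_zero
  rw [← exp_log h0, ← exp_zero, exp_lt_exp] at h
  rw [← exp_log h0, exp_le_exp]
  omega

lemma exp_neg_lt_one : exp (-1 : ℤ) < (1 : WithZero (Multiplicative ℤ)) := by
  rw [← exp_zero, exp_lt_exp]; norm_num

lemma exp_neg_two_lt : exp (-2 : ℤ) < (exp (-1 : ℤ) : WithZero (Multiplicative ℤ)) := by
  rw [exp_lt_exp]; norm_num

lemma exp_neg_two : (exp (-2 : ℤ) : WithZero (Multiplicative ℤ)) = exp (-1) * exp (-1) := by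
  rw [← exp_add]; norm_num

lemma V_four (h2 : V 2 = exp (-1 : ℤ)) : V 4 = exp (-2 : ℤ) := by
  have h : (4 : F) = 2 * 2 := by norm_num
  rw [h, map_mul, h2, ← exp_neg_two]

lemma V_int (n : ℤ) : V (n : F) ≤ 1 := intCast_mem V.integer n

lemma V_two_mul_le (h2 : V 2 = exp (-1 : ℤ)) {x : F} (h : V x ≤ 1) :
    V (2 * x) ≤ exp (-1 : ℤ) := by
  rw [map_mul, h2]
  exact mul_le_of_le_one_right' h

lemma V_two_mul (h2 : V 2 = exp (-1 : ℤ)) {x : F} (h : V x < 1) : V (2 * x) ≤ exp (-2 : ℤ) := by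
  rw [map_mul, h2, exp_neg_two]
  exact mul_le_mul_right (le_exp_neg_one h) _

lemma V_sq_le {x : F} (h : V x < 1) : V (x ^ 2) ≤ exp (-2 : ℤ) := by
  rw [map_pow, pow_two, exp_neg_two]
  exact mul_le_mul' (le_exp_neg_one h) (le_exp_neg_one h)

lemma V_odd (h2 : V 2 = exp (-1 : ℤ)) {n : ℤ} (h : n % 2 = 1) : V (n : F) = 1 := by
  obtain ⟨k, hk⟩ : ∃ k : ℤ, n = 1 + 2 * k := ⟨n / 2, by omega⟩
  rw [hk]
  push_cast
  exact Valuation.map_one_add_of_lt V ((V_two_mul_le h2 (V_int k)).trans_lt exp_neg_lt_one)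

lemma V_even (h2 : V 2 = exp (-1 : ℤ)) {n : ℤ} (h : n % 2 = 0) : V (n : F) < 1 := by
  obtain ⟨k, hk⟩ : ∃ k : ℤ, n = 2 * k := ⟨n / 2, by omega⟩
  rw [hk]
  push_cast
  exact (V_two_mul_le h2 (V_int k)).trans_lt exp_neg_lt_one

lemma V_four_dvd (h2 : V 2 = exp (-1 : ℤ)) {n : ℤ} (h : n % 4 = 0) :
    V (n : F) ≤ exp (-2 : ℤ) := by
  obtain ⟨k, hk⟩ : ∃ k : ℤ, n = 2 * (2 * k) := ⟨n / 4, by omega⟩
  rw [hk]
  push_cast
  exact V_two_mul h2 ((V_two_mul_le h2 (V_int k)).trans_lt exp_neg_lt_one)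

lemma V_two_mod_four (h2 : V 2 = exp (-1 : ℤ)) {n : ℤ} (h : n % 4 = 2) :
    V (n : F) = exp (-1 : ℤ) := by
  obtain ⟨k, hk⟩ : ∃ k : ℤ, n = 2 * (1 + 2 * k) := ⟨n / 4, by omega⟩
  have h1 : V (((1 + 2 * k : ℤ)) : F) = 1 := V_odd h2 (by omega)
  rw [hk, Int.cast_mul, map_mul, h1, mul_one]
  exact_mod_cast h2

lemma V_add_lt {x y : F} (hx : V x < 1) (hy : V y < 1) : V (x + y) < 1 :=
  (Valuation.map_add V _ _).trans_lt (max_lt hx hy)

lemma V_add_le {x y : F} {c : WithZero (Multiplicative ℤ)} (hx : V x ≤ c) (hy : V y ≤ c) :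
    V (x + y) ≤ c := (Valuation.map_add V _ _).trans (max_le hx hy)

lemma V_sub_le {x y : F} {c : WithZero (Multiplicative ℤ)} (hx : V x ≤ c) (hy : V y ≤ c) :
    V (x - y) ≤ c := (Valuation.map_sub V _ _).trans (max_le hx hy)

lemma V_sub_lt {x y : F} (hx : V x < 1) (hy : V y < 1) : V (x - y) < 1 :=
  (Valuation.map_sub V _ _).trans_lt (max_lt hx hy)

lemma V_mul_le {x y : F} (hx : V x ≤ 1) (hy : V y ≤ 1) : V (x * y) ≤ 1 := by
  rw [map_mul]; exact mul_le_one' hx hy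

lemma V_mul_lt {x y : F} (hx : V x ≤ 1) (hy : V y < 1) : V (x * y) < 1 := by
  rw [map_mul]
  exact (mul_le_of_le_one_left' hx).trans_lt hy

lemma V_two_mul_lt (h2 : V 2 = exp (-1 : ℤ)) {x : F} (h : V x ≤ 1) : V (2 * x) < 1 :=
  (V_two_mul_le h2 h).trans_lt exp_neg_lt_one

lemma V_lt_of_sq {x : F} (h : V (x ^ 2) < 1) : V x < 1 := by
  by_contra h1
  rw [not_lt] at h1
  rw [map_pow] at h
  exact absurd (one_le_pow₀ h1) (not_le.mpr h)

/-- The square of a unit congruent to one. -/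
lemma V_sq_sub_one (h2 : V 2 = exp (-1 : ℤ)) {s : F} (h : V (s - 1) < 1) :
    V (s ^ 2 - 1) ≤ exp (-2 : ℤ) := by
  have h1 : s ^ 2 - 1 = (s - 1) * (s + 1) := by ring
  have h3 : V (s + 1) < 1 := by
    have : s + 1 = (s - 1) + 2 * 1 := by ring
    rw [this]
    exact V_add_lt h (V_two_mul_lt h2 (by rw [map_one]))
  rw [h1, map_mul, exp_neg_two]
  exact mul_le_mul' (le_exp_neg_one h) (le_exp_neg_one h3)

lemma V_sub_one_of_sq (h2 : V 2 = exp (-1 : ℤ)) {s : F} (hs : V s ≤ 1)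
    (h : V (s ^ 2 - 1) < 1) : V (s - 1) < 1 := by
  apply V_lt_of_sq
  have h1 : (s - 1) ^ 2 = (s ^ 2 - 1) - 2 * (s - 1) := by ring
  rw [h1]
  exact V_sub_lt h (V_two_mul_lt h2 (V_sub_le hs (by rw [map_one])))

/-- Comparison of two elements congruent to one modulo two whose quotient is a square. -/
lemma V_sqratio (h2 : V 2 = exp (-1 : ℤ)) {κ₁ κ₂ ρ : F} (h1 : V κ₁ ≤ 1) (h1' : V κ₂ ≤ 1)
    (h : 1 + 2 * κ₁ = (1 + 2 * κ₂) * ρ ^ 2) : V (κ₁ - κ₂) < 1 := by
  have u1 : V (1 + 2 * κ₁) = 1 := Valuation.map_one_add_of_lt V (V_two_mul_lt h2 h1)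
  have u2 : V (1 + 2 * κ₂) = 1 := Valuation.map_one_add_of_lt V (V_two_mul_lt h2 h1')
  have hρ : V (ρ ^ 2) = 1 := by
    have := congrArg V h
    rw [map_mul, u1, u2, one_mul] at this
    exact this.symm
  have hρ1 : V ρ = 1 := val_eq_one_of_sq hρ
  have e1 : (1 + 2 * κ₂) * (ρ ^ 2 - 1) = 2 * (κ₁ - κ₂) := by linear_combination -h
  have e2 : V (ρ ^ 2 - 1) = V (2 * (κ₁ - κ₂)) := by
    rw [← e1, map_mul, u2, one_mul]
  have hk : V (κ₁ - κ₂) ≤ 1 := V_sub_le h1 h1'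
  have e3 : V (ρ ^ 2 - 1) < 1 := by
    rw [e2]; exact V_two_mul_lt h2 hk
  have e4 := V_sq_sub_one h2 (V_sub_one_of_sq h2 hρ1.le e3)
  rw [e2, map_mul, h2, exp_neg_two] at e4
  have e5 : V (κ₁ - κ₂) ≤ exp (-1 : ℤ) := by
    rwa [mul_le_mul_iff_right₀ (by rw [zero_lt_iff]; exact exp_ne_zero)] at e4
  exact e5.trans_lt exp_neg_lt_one

variable {d : F}

lemma kap_int {t : F} (ht : t ≠ 0) {k : ℤ} (hk : k % 2 = 1)
    (h : V (d * t ^ 2 - k) ≤ exp (-2 : ℤ)) : KapForm V d := by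
  obtain ⟨n, hn⟩ : ∃ n : ℤ, k = 1 + 2 * n := ⟨k / 2, by omega⟩
  refine ⟨t, 1, n, 0, ht, by rw [map_one], ?_, Or.inl (by rw [sub_self, map_zero]; exact one_pos)⟩
  have : (1 : F) + 2 * ((n : F) * 1 + ((0 : ℤ) : F) * 1 ^ 2) = (k : F) := by
    rw [hn]; push_cast; ring
  rw [this]
  exact h

lemma big_s {s u : F} {a : ℤ} (hs : 1 < V s)
    (hu : s ^ 2 = d * u ^ 2 + a) : KapForm V d := by
  have hs0 : s ≠ 0 := by
    rintro rfl
    rw [map_zero] at hs
    exact absurd hs not_lt_zero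
  have hu0 : u ≠ 0 := by
    rintro rfl
    have h1 : V (s ^ 2) ≤ 1 := by
      rw [hu]
      have : d * (0 : F) ^ 2 + a = (a : F) := by ring
      rw [this]; exact V_int a
    rw [map_pow] at h1
    exact absurd (one_lt_pow₀ hs two_ne_zero) (not_lt.mpr h1)
  refine kap_int (t := u / s) (div_ne_zero hu0 hs0) (k := 1) (by norm_num) ?_
  have e1 : d * (u / s) ^ 2 - ((1 : ℤ) : F) = -(a / s ^ 2) := by
    field_simp
    push_cast
    linear_combination -hu
  rw [e1, Valuation.map_neg, map_div₀, map_pow]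
  have h3 := exp_one_le hs
  have h4 : exp (2 : ℤ) ≤ V s ^ 2 := by
    have : (exp (2 : ℤ) : WithZero (Multiplicative ℤ)) = exp 1 * exp 1 := by
      rw [← exp_add]; norm_num
    rw [this, pow_two]
    exact mul_le_mul' h3 h3
  have hpos : (0 : WithZero (Multiplicative ℤ)) < V s ^ 2 := lt_of_lt_of_le (exp_pos) h4
  rw [div_le_iff₀ hpos]
  refine (V_int a).trans ?_
  calc (1 : WithZero (Multiplicative ℤ)) = exp (-2) * exp 2 := by rw [← exp_add]; norm_num
    _ ≤ exp (-2) * V s ^ 2 := mul_le_mul_right h4 _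

lemma small_s (h2 : V 2 = exp (-1 : ℤ)) {s u : F} {a : ℤ} (ha : a % 2 = 1) (hs : V s < 1)
    (hu : s ^ 2 = d * u ^ 2 + a) : KapForm V d := by
  have hu0 : u ≠ 0 := by
    rintro rfl
    have h1 : V (s ^ 2) = 1 := by
      rw [hu]
      have : d * (0 : F) ^ 2 + a = (a : F) := by ring
      rw [this]; exact V_odd h2 ha
    have h3 := V_sq_le hs
    rw [h1] at h3
    exact absurd (exp_neg_two_lt.trans exp_neg_lt_one) (not_lt.mpr h3)
  refine kap_int (t := u) hu0 (k := -a) (by omega) ?_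
  have e1 : d * u ^ 2 - ((-a : ℤ) : F) = s ^ 2 := by
    push_cast
    linear_combination -hu
  rw [e1]
  exact V_sq_le hs

lemma one_s (h2 : V 2 = exp (-1 : ℤ)) {s v : F} {b : ℤ} (hb : b % 2 = 0) (hs : V s = 1)
    (hs1 : V (s - 1) < 1) (hv : s ^ 2 = d * v ^ 2 + b) : KapForm V d := by
  have hv0 : v ≠ 0 := by
    rintro rfl
    have h1 : V (s ^ 2) < 1 := by
      rw [hv]
      have : d * (0 : F) ^ 2 + b = (b : F) := by ring
      rw [this]; exact V_even h2 hb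
    rw [map_pow, hs, one_pow] at h1
    exact absurd h1 (lt_irrefl _)
  refine kap_int (t := v) hv0 (k := 1 - b) (by omega) ?_
  have e1 : d * v ^ 2 - ((1 - b : ℤ) : F) = s ^ 2 - 1 := by
    push_cast
    linear_combination -hv
  rw [e1]
  exact V_sq_sub_one h2 hs1

/-- The substitution `y = 1 / (s - 1)`. -/
lemma sub_y {s : F} (hs : V s = 1) (hs1 : V (s - 1) = 1) :
    ∃ y : F, V y = 1 ∧ y ≠ 0 ∧ V (1 + y) = 1 ∧ s * y = 1 + y := by
  have h0 : s - 1 ≠ 0 := by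
    intro h
    rw [h, map_zero] at hs1
    exact zero_ne_one hs1
  refine ⟨1 / (s - 1), ?_, one_div_ne_zero h0, ?_, ?_⟩
  · rw [map_div₀, map_one, hs1, div_one]
  · have : 1 + 1 / (s - 1) = s / (s - 1) := by field_simp; ring
    rw [this, map_div₀, hs, hs1, div_one]
  · field_simp; ring

lemma core_A (h2 : V 2 = exp (-1 : ℤ)) {s u v : F} {a b : ℤ} (ha : a % 2 = 1) (hb : b % 2 = 0)
    (hs : V s = 1) (hs1 : V (s - 1) = 1) (hu : s ^ 2 = d * u ^ 2 + a)
    (hv : s ^ 2 = d * v ^ 2 + b) : KapForm V d := by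
  obtain ⟨y, hy, hy0, hy1, hsy⟩ := sub_y hs hs1
  have hs0 : s ≠ 0 := by
    rintro rfl
    rw [map_zero] at hs
    exact zero_ne_one hs
  have hu0 : u ≠ 0 := by
    rintro rfl
    have h1 : s ^ 2 - 1 = ((a - 1 : ℤ) : F) := by push_cast; linear_combination hu
    have h3 : V (s ^ 2 - 1) < 1 := by rw [h1]; exact V_even h2 (by omega)
    exact absurd (V_sub_one_of_sq h2 hs.le h3) (by rw [hs1]; exact lt_irrefl _)
  have hv0 : v ≠ 0 := by
    rintro rfl
    have h1 : V (s ^ 2) < 1 := by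
      rw [hv]
      have : d * (0 : F) ^ 2 + b = (b : F) := by ring
      rw [this]; exact V_even h2 hb
    rw [map_pow, hs, one_pow] at h1
    exact absurd h1 (lt_irrefl _)
  obtain ⟨a₁, ha₁⟩ : ∃ k : ℤ, a = 1 + 2 * k := ⟨a / 2, by omega⟩
  obtain ⟨b₁, hb₁⟩ : ∃ k : ℤ, b = 2 * k := ⟨b / 2, by omega⟩
  have haF : (a : F) = 1 + 2 * a₁ := by rw [ha₁]; push_cast; ring
  have hbF : (b : F) = 2 * b₁ := by rw [hb₁]; push_cast; ring
  rw [haF] at hu
  rw [hbF] at hv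
  have k1 : d * (u * y) ^ 2 = 1 + 2 * (y - a₁ * y ^ 2) := by
    have : d * (u * y) ^ 2 = (s * y) ^ 2 - (1 + 2 * a₁) * y ^ 2 := by linear_combination -y ^ 2 * hu
    rw [this, hsy]; ring
  have Vy : V y ≤ 1 := hy.le
  have Vy2 : V (y ^ 2) ≤ 1 := by rw [map_pow, hy, one_pow]
  have V1 : V (y - a₁ * y ^ 2) ≤ 1 := V_sub_le Vy (V_mul_le (V_int a₁) Vy2)
  have V2 : V (-(b₁ / s ^ 2)) ≤ 1 := by
    rw [Valuation.map_neg, map_div₀, map_pow, hs, one_pow, div_one]
    exact V_int b₁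
  have k2 : 1 + 2 * (y - a₁ * y ^ 2) = (1 + 2 * (-(b₁ / s ^ 2))) * (s * (u * y) / v) ^ 2 := by
    rw [← k1]
    field_simp
    linear_combination -hv
  have k3 := V_sqratio h2 V1 V2 k2
  have k4 : V ((1 - a₁ * y) * (1 + y) ^ 2 + b₁ * y) < 1 := by
    have e1 : y * ((1 - a₁ * y) * (1 + y) ^ 2 + b₁ * y) =
        (y - a₁ * y ^ 2 - (-(b₁ / s ^ 2))) * (1 + y) ^ 2 := by
      rw [← hsy]
      field_simp
      ring
    have e2 : V (y * ((1 - a₁ * y) * (1 + y) ^ 2 + b₁ * y)) < 1 := by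
      rw [e1, map_mul, map_pow, hy1, one_pow, mul_one]
      exact k3
    rwa [map_mul, hy, one_mul] at e2
  refine ⟨u * y, y, 1, -a₁, mul_ne_zero hu0 hy0, Vy, ?_, Or.inr ?_⟩
  · have : d * (u * y) ^ 2 - (1 + 2 * (((1 : ℤ) : F) * y + ((-a₁ : ℤ) : F) * y ^ 2)) = 0 := by
      rw [k1]; push_cast; ring
    rw [this, map_zero]
    exact zero_le
  · obtain ⟨a₂, α, ha₂, hα⟩ : ∃ k α : ℤ, a₁ = 2 * k + α ∧ (α = 0 ∨ α = 1) :=
      ⟨a₁ / 2, a₁ % 2, by omega, by omega⟩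
    obtain ⟨b₂, β, hb₂, hβ⟩ : ∃ k β : ℤ, b₁ = 2 * k + β ∧ (β = 0 ∨ β = 1) :=
      ⟨b₁ / 2, b₁ % 2, by omega, by omega⟩
    have k5 : V ((1 - α * y) * (1 + y) ^ 2 + β * y) < 1 := by
      have e1 : (1 - α * y) * (1 + y) ^ 2 + β * y = ((1 - a₁ * y) * (1 + y) ^ 2 + b₁ * y) +
          2 * (a₂ * (y * (1 + y) ^ 2) - b₂ * y) := by
        rw [ha₂, hb₂]; push_cast; ring
      rw [e1]
      refine V_add_lt k4 (V_two_mul_lt h2 (V_sub_le (V_mul_le (V_int _) (V_mul_le Vy ?_))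
        (V_mul_le (V_int _) Vy)))
      rw [map_pow, hy1, one_pow]
    have n1 : ¬ V (1 + y) < 1 := by rw [hy1]; exact lt_irrefl _
    rcases hα with rfl | rfl <;> rcases hβ with rfl | rfl
    · exfalso
      apply n1
      apply V_lt_of_sq
      have : (1 + y) ^ 2 = (1 - ((0 : ℤ) : F) * y) * (1 + y) ^ 2 + ((0 : ℤ) : F) * y := by
        push_cast; ring
      rw [this]; exact k5
    · left
      have : y ^ 2 + y + 1 = ((1 - ((0 : ℤ) : F) * y) * (1 + y) ^ 2 + ((1 : ℤ) : F) * y) -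
          2 * y := by
        push_cast; ring
      rw [this]
      exact V_sub_lt k5 (V_two_mul_lt h2 Vy)
    · exfalso
      apply n1
      have e1 : (1 - ((1 : ℤ) : F) * y) * (1 + y) ^ 2 + ((0 : ℤ) : F) * y =
        (1 - y) * (1 + y) ^ 2 := by push_cast; ring
      rw [e1, map_mul, map_pow, hy1, one_pow, mul_one] at k5
      have e2 : 1 + y = (1 - y) + 2 * y := by ring
      rw [e2]
      exact V_add_lt k5 (V_two_mul_lt h2 Vy)
    · right
      have : y ^ 3 + y ^ 2 + 1 = 2 * (1 + y) -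
          ((1 - ((1 : ℤ) : F) * y) * (1 + y) ^ 2 + ((1 : ℤ) : F) * y) := by
        push_cast; ring
      rw [this]
      exact V_sub_lt (V_two_mul_lt h2 hy1.le) k5

/-- An equation `s ^ 2 = d u ^ 2 + a` forces the parity of the valuation of `s ^ 2 - a`. -/
lemma odd_absurd {s u : F} {a : ℤ} (hd : d ≠ 0) (hev : Even (log (V d)))
    (h : V (s ^ 2 - a) = exp (-1 : ℤ)) (hu : s ^ 2 = d * u ^ 2 + a) : False := by
  have e1 : s ^ 2 - (a : F) = d * u ^ 2 := by linear_combination hu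
  rw [e1] at h
  have hu0 : u ≠ 0 := by
    rintro rfl
    rw [zero_pow two_ne_zero, mul_zero, map_zero] at h
    exact exp_ne_zero h.symm
  have h3 := congrArg log h
  rw [log_mul_sq V hd hu0, log_exp] at h3
  rw [Int.even_iff] at hev
  omega

lemma core_B (h2 : V 2 = exp (-1 : ℤ)) {s u v : F} {a b : ℤ} (ha : a % 4 = 2) (hb : b % 4 = 0)
    (hd : d ≠ 0) (hev : Even (log (V d))) (hs : V s ≤ 1) (hu : s ^ 2 = d * u ^ 2 + a)
    (hv : s ^ 2 = d * v ^ 2 + b) : KapForm V d := by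
  rcases lt_or_eq_of_le hs with hs | hs
  · exfalso
    refine odd_absurd hd hev ?_ hu
    have h3 : V (s ^ 2) < V (a : F) := by
      rw [V_two_mod_four h2 ha]
      exact (V_sq_le hs).trans_lt exp_neg_two_lt
    rw [Valuation.map_sub_eq_of_lt_right V h3, V_two_mod_four h2 ha]
  · have hs0 : s ≠ 0 := by
      rintro rfl
      rw [map_zero] at hs
      exact zero_ne_one hs
    have hv0 : v ≠ 0 := by
      rintro rfl
      have h1 : V (s ^ 2) < 1 := by
        rw [hv]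
        have : d * (0 : F) ^ 2 + b = (b : F) := by ring
        rw [this]; exact V_even h2 (by omega)
      rw [map_pow, hs, one_pow] at h1
      exact absurd h1 (lt_irrefl _)
    refine kap_int (t := v / s) (div_ne_zero hv0 hs0) (k := 1) (by norm_num) ?_
    have e1 : d * (v / s) ^ 2 - ((1 : ℤ) : F) = -(b / s ^ 2) := by
      field_simp
      push_cast
      linear_combination -hv
    rw [e1, Valuation.map_neg, map_div₀, map_pow, hs, one_pow, div_one]
    exact V_four_dvd h2 hb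

lemma core_C (h2 : V 2 = exp (-1 : ℤ)) {s u v : F} {a b : ℤ} (ha : a % 2 = 1)
    (hab : (b - a) % 4 = 2) (hd : d ≠ 0) (hev : Even (log (V d))) (hs : V s = 1)
    (hu : s ^ 2 = d * u ^ 2 + a) (hv : s ^ 2 = d * v ^ 2 + b) : KapForm V d := by
  have hs1' : V (s - 1) ≤ 1 := V_sub_le hs.le (by rw [map_one])
  rcases lt_or_eq_of_le hs1' with hs1 | hs1
  · exfalso
    have h3 := V_sq_sub_one h2 hs1
    have key : ∀ c : ℤ, (1 - c) % 4 = 2 → V (s ^ 2 - c) = exp (-1 : ℤ) := by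
      intro c hc
      have e1 : s ^ 2 - (c : F) = (s ^ 2 - 1) + ((1 - c : ℤ) : F) := by push_cast; ring
      have h4 : V (s ^ 2 - 1) < V ((1 - c : ℤ) : F) := by
        rw [V_two_mod_four h2 hc]
        exact h3.trans_lt exp_neg_two_lt
      rw [e1, Valuation.map_add_eq_of_lt_right V h4, V_two_mod_four h2 hc]
    rcases (by omega : (1 - a) % 4 = 2 ∨ (1 - b) % 4 = 2) with h | h
    · exact odd_absurd hd hev (key a h) hu
    · exact odd_absurd hd hev (key b h) hv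
  · exfalso
    obtain ⟨y, hy, hy0, hy1, hsy⟩ := sub_y hs hs1
    have key : ∀ c : ℤ, ∀ x : F, c % 2 = 1 → s ^ 2 = d * x ^ 2 + c → x ≠ 0 := by
      intro c x hc hx
      rintro rfl
      have h1 : s ^ 2 - 1 = ((c - 1 : ℤ) : F) := by push_cast; linear_combination hx
      have h3 : V (s ^ 2 - 1) < 1 := by rw [h1]; exact V_even h2 (by omega)
      exact absurd (V_sub_one_of_sq h2 hs.le h3) (by rw [hs1]; exact lt_irrefl _)
    have hu0 := key a u ha hu
    have hv0 := key b v (by omega) hv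
    obtain ⟨a₁, ha₁⟩ : ∃ k : ℤ, a = 1 + 2 * k := ⟨a / 2, by omega⟩
    obtain ⟨b₁, hb₁⟩ : ∃ k : ℤ, b = 1 + 2 * k := ⟨b / 2, by omega⟩
    have haF : (a : F) = 1 + 2 * a₁ := by rw [ha₁]; push_cast; ring
    have hbF : (b : F) = 1 + 2 * b₁ := by rw [hb₁]; push_cast; ring
    rw [haF] at hu
    rw [hbF] at hv
    have k1 : d * (u * y) ^ 2 = 1 + 2 * (y - a₁ * y ^ 2) := by
      have : d * (u * y) ^ 2 = (s * y) ^ 2 - (1 + 2 * a₁) * y ^ 2 := by
        linear_combination -y ^ 2 * hu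
      rw [this, hsy]; ring
    have k1' : d * (v * y) ^ 2 = 1 + 2 * (y - b₁ * y ^ 2) := by
      have : d * (v * y) ^ 2 = (s * y) ^ 2 - (1 + 2 * b₁) * y ^ 2 := by
        linear_combination -y ^ 2 * hv
      rw [this, hsy]; ring
    have Vy : V y ≤ 1 := hy.le
    have Vy2 : V (y ^ 2) ≤ 1 := by rw [map_pow, hy, one_pow]
    have k2 : 1 + 2 * (y - a₁ * y ^ 2) = (1 + 2 * (y - b₁ * y ^ 2)) * (u / v) ^ 2 := by
      rw [← k1, ← k1']
      field_simp
    have k3 := V_sqratio h2 (V_sub_le Vy (V_mul_le (V_int a₁) Vy2))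
      (V_sub_le Vy (V_mul_le (V_int b₁) Vy2)) k2
    have e1 : y - a₁ * y ^ 2 - (y - b₁ * y ^ 2) = ((b₁ - a₁ : ℤ) : F) * y ^ 2 := by
      push_cast; ring
    rw [e1, map_mul, map_pow, hy, one_pow, mul_one, V_odd h2 (by omega)] at k3
    exact lt_irrefl _ k3

/-- The admissible residues modulo four of the two roots. -/
def Nrm (a b : ℤ) : Prop :=
  (a % 2 = 1 ∧ b % 2 = 0) ∨ (a % 2 = 0 ∧ b % 2 = 1) ∨ (a % 4 = 2 ∧ b % 4 = 0) ∨
    (a % 4 = 0 ∧ b % 4 = 2) ∨ (a % 2 = 1 ∧ (b - a) % 4 = 2)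

theorem star_loc (h2 : V 2 = exp (-1 : ℤ)) {a b : ℤ} (hab : Nrm a b) (hd : d ≠ 0)
    (hev : Even (log (V d))) (H : CPt 0 (a : F) (b : F) 1 d d) : KapForm V d := by
  obtain ⟨z₀, z₁, z₂, z₃, hz, E1, E2⟩ := H
  by_cases hz0 : z₀ = 0
  · subst hz0
    have g1 : z₁ ^ 2 = d * z₂ ^ 2 := by linear_combination E1
    have g2 : z₁ ^ 2 = d * z₃ ^ 2 := by linear_combination E2
    have n1 : z₁ ≠ 0 := by
      rintro rfl
      have k2 : z₂ = 0 := by
        have : d * z₂ ^ 2 = 0 := by rw [← g1]; ring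
        exact pow_eq_zero_iff two_ne_zero |>.mp ((mul_eq_zero.mp this).resolve_left hd)
      have k3 : z₃ = 0 := by
        have : d * z₃ ^ 2 = 0 := by rw [← g2]; ring
        exact pow_eq_zero_iff two_ne_zero |>.mp ((mul_eq_zero.mp this).resolve_left hd)
      rcases hz with h | h | h | h
      · exact h rfl
      · exact h rfl
      · exact h k2
      · exact h k3
    have n2 : z₂ ≠ 0 := by
      rintro rfl
      have : z₁ ^ 2 = 0 := by rw [g1]; ring
      exact n1 (pow_eq_zero_iff two_ne_zero |>.mp this)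
    refine kap_int (t := z₂ / z₁) (div_ne_zero n2 n1) (k := 1) (by norm_num) ?_
    have e1 : d * (z₂ / z₁) ^ 2 - ((1 : ℤ) : F) = 0 := by
      field_simp
      push_cast
      linear_combination -g1
    rw [e1, map_zero]
    exact zero_le
  · have hu : (z₁ / z₀) ^ 2 = d * (z₂ / z₀) ^ 2 + a := by
      field_simp
      linear_combination E1
    have hv : (z₁ / z₀) ^ 2 = d * (z₃ / z₀) ^ 2 + b := by
      field_simp
      linear_combination E2
    by_cases hs : 1 < V (z₁ / z₀)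
    · exact big_s hs hu
    rw [not_lt] at hs
    rcases hab with ⟨ha, hb⟩ | ⟨ha, hb⟩ | ⟨ha, hb⟩ | ⟨ha, hb⟩ | ⟨ha, hb⟩
    · rcases lt_or_eq_of_le hs with h | h
      · exact small_s h2 ha h hu
      · have h' : V (z₁ / z₀ - 1) ≤ 1 := V_sub_le hs (by rw [map_one])
        rcases lt_or_eq_of_le h' with h1 | h1
        · exact one_s h2 hb h h1 hv
        · exact core_A h2 ha hb h h1 hu hv
    · rcases lt_or_eq_of_le hs with h | h
      · exact small_s h2 hb h hv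
      · have h' : V (z₁ / z₀ - 1) ≤ 1 := V_sub_le hs (by rw [map_one])
        rcases lt_or_eq_of_le h' with h1 | h1
        · exact one_s h2 ha h h1 hu
        · exact core_A h2 hb ha h h1 hv hu
    · exact core_B h2 ha hb hd hev hs hu hv
    · exact core_B h2 hb ha hd hev hs hv hu
    · rcases lt_or_eq_of_le hs with h | h
      · exact small_s h2 ha h hu
      · exact core_C h2 ha hb hd hev h hu hv

end

end Pool.Agent.H10
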