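import Pool.Agent.H10.Bridge3

/-!
The trace lemma: a soluble triple over a finite extension has a soluble norm.
-/

set_option autoImplicit false

open WeierstrassCurve

namespace Pool.Agent.H10

lemma Sg.prod {k Ω ι : Type*} [Field k] [Field Ω] [Algebra k Ω] (s : Finset ι)
    (a : ι → ℤˣ × ℤˣ) (σ : Ω →ₐ[k] Ω) (r₁ r₂ r₃ r₁' r₂' r₃' : ι → Ω)
    (h1 : ∀ j ∈ s, σ (r₁ j) = ((((a j).1 * (a j).2 : ℤˣ) : ℤ) : Ω) * r₁' j)
    (h2 : ∀ j ∈ s, σ (r₂ j) = (((a j).1 : ℤ) : Ω) * r₂' j)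
    (h3 : ∀ j ∈ s, σ (r₃ j) = (((a j).2 : ℤ) : Ω) * r₃' j)
    (p1 : ∏ j ∈ s, r₁' j = ∏ j ∈ s, r₁ j) (p2 : ∏ j ∈ s, r₂' j = ∏ j ∈ s, r₂ j)
    (p3 : ∏ j ∈ s, r₃' j = ∏ j ∈ s, r₃ j) :
    Sg (∏ j ∈ s, a j) σ (∏ j ∈ s, r₁ j) (∏ j ∈ s, r₂ j) (∏ j ∈ s, r₃ j) := by
  refine ⟨?_, ?_, ?_⟩
  · rw [map_prod, Finset.prod_congr rfl h1, Finset.prod_mul_distrib, p1, Prod.fst_prod,
      Prod.snd_prod]
    push_cast
    rw [Finset.prod_mul_distrib]
  · rw [map_prod, Finset.prod_congr rfl h2, Finset.prod_mul_distrib, p2, Prod.fst_prod]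
    push_cast
    rfl
  · rw [map_prod, Finset.prod_congr rfl h3, Finset.prod_mul_distrib, p3, Prod.snd_prod]
    push_cast
    rfl

theorem CPt.norm {k F : Type*} [Field k] [CharZero k] [Field F] [Algebra k F]
    [FiniteDimensional k F] {e₁ e₂ e₃ : k} (h12 : e₁ ≠ e₂)
    (h13 : e₁ ≠ e₃) (h23 : e₂ ≠ e₃) {d₁ d₂ d₃ c : F} (hd : d₁ * d₂ * d₃ = c ^ 2) (hc : c ≠ 0)
    (H : CPt (algebraMap k F e₁) (algebraMap k F e₂) (algebraMap k F e₃) d₁ d₂ d₃) :
    CPt e₁ e₂ e₃ (Algebra.norm k d₁) (Algebra.norm k d₂) (Algebra.norm k d₃) := by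
  classical
  have two : (2 : k) ≠ 0 := two_ne_zero
  have hW := isCub_cub h12 h13 h23 two
  have hdn : d₁ * d₂ * d₃ ≠ 0 := by rw [hd]; exact pow_ne_zero 2 hc
  have hd1 : d₁ ≠ 0 := fun h => hdn (by rw [h]; ring)
  have hd2 : d₂ ≠ 0 := fun h => hdn (by rw [h]; ring)
  have hd3 : d₃ ≠ 0 := fun h => hdn (by rw [h]; ring)
  let Ω := AlgebraicClosure F
  have : CharZero F := charZero_of_injective_algebraMap (algebraMap k F).injective
  have : Algebra.IsAlgebraic k Ω := Algebra.IsAlgebraic.trans k F Ω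
  have : IsAlgClosure k Ω := ⟨inferInstance, inferInstance⟩
  have : Normal k Ω := IsAlgClosure.normal k Ω
  have : IsGalois k Ω := IsGalois.mk
  obtain ⟨r₁, n1, q1⟩ := exists_sqrt Ω hd1
  obtain ⟨r₂, n2, q2⟩ := exists_sqrt Ω hd2
  obtain ⟨r₃, n3, q3⟩ := exists_sqrt Ω hd3
  obtain ⟨R, hR⟩ := bridge_mpr (K₀ := k) (k := F) (Ω := Ω) hW n1 n2 n3 q1 q2 q3 H
  -- lifts of embeddings
  have hlift : ∀ j : F →ₐ[k] Ω, ∃ t : Ω ≃ₐ[k] Ω, ∀ x : F, t (algebraMap F Ω x) = j x := by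
    intro j
    refine ⟨AlgEquiv.ofBijective (j.liftNormal Ω)
      (Algebra.IsAlgebraic.algHom_bijective _), fun x => ?_⟩
    exact j.liftNormal_commutes Ω x
  choose t ht using hlift
  have hnorm : ∀ d r : _, r ^ 2 = algebraMap F Ω d →
      (∏ j : F →ₐ[k] Ω, t j r) ^ 2 = algebraMap k Ω (Algebra.norm k d) := by
    intro d r hr
    rw [← Finset.prod_pow, Algebra.norm_eq_prod_embeddings k Ω d]
    refine Finset.prod_congr rfl fun j _ => ?_
    rw [← map_pow, hr, ht]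
  have hne : ∀ r : Ω, r ≠ 0 → (∏ j : F →ₐ[k] Ω, t j r) ≠ 0 := by
    intro r hr
    refine Finset.prod_ne_zero_iff.2 fun j _ => ?_
    intro h0
    exact hr ((t j).injective (by rw [h0, map_zero]))
  refine bridge_mp (K₀ := k) (k := k) (Ω := Ω) hW (Set.range (fun σ : Ω ≃ₐ[k] Ω => σ.toAlgHom)) ?_
    (hne r₁ n1) (hne r₂ n2) (hne r₃ n3) (hnorm _ _ q1) (hnorm _ _ q2) (hnorm _ _ q3)
    (∑ j : F →ₐ[k] Ω, (Affine.Point.map (t j).toAlgHom :
      ((cub e₁ e₂ e₃).baseChange Ω).toAffine.Point →+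
      ((cub e₁ e₂ e₃).baseChange Ω).toAffine.Point) R) ?_
  · intro z hz
    exact fixed_of_galois z (fun σ => hz σ.toAlgHom ⟨σ, rfl⟩)
  · rintro _ ⟨σ, rfl⟩
    -- the permutation of embeddings
    let π : (F →ₐ[k] Ω) ≃ (F →ₐ[k] Ω) :=
      { toFun := fun j => σ.toAlgHom.comp j
        invFun := fun j => σ.symm.toAlgHom.comp j
        left_inv := fun j => by ext x; simp
        right_inv := fun j => by ext x; simp }
    have hπ : ∀ (j : F →ₐ[k] Ω) (x : F), π j x = σ (j x) := fun j x => rfl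
    let g : (F →ₐ[k] Ω) → (Ω →ₐ[k] Ω) := fun j =>
      ((t (π j)).symm.toAlgHom.comp σ.toAlgHom).comp (t j).toAlgHom
    have hg : ∀ j x, t (π j) (g j x) = σ (t j x) := by
      intro j x
      change t (π j) ((t (π j)).symm (σ (t j x))) = _
      rw [AlgEquiv.apply_symm_apply]
    have hgF : ∀ j (y : F), g j (algebraMap F Ω y) = algebraMap F Ω y := by
      intro j y
      apply (t (π j)).injective
      rw [hg, ht, ht, hπ]
    have hex : ∀ j, ∃ a, Sg a (g j) r₁ r₂ r₃ := fun j =>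
      exists_sg (k := F) (g j) (hgF j) n1 n2 n3 q1 q2 q3 hd
    choose a ha using hex
    refine ⟨∏ j, a j, ?_, ?_⟩
    · rw [map_sum]
      have step : ∀ j : F →ₐ[k] Ω, (Affine.Point.map σ.toAlgHom :
          ((cub e₁ e₂ e₃).baseChange Ω).toAffine.Point →+
          ((cub e₁ e₂ e₃).baseChange Ω).toAffine.Point)
          ((Affine.Point.map (t j).toAlgHom :
          ((cub e₁ e₂ e₃).baseChange Ω).toAffine.Point →+
          ((cub e₁ e₂ e₃).baseChange Ω).toAffine.Point) R) =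
          (Affine.Point.map (t (π j)).toAlgHom :
          ((cub e₁ e₂ e₃).baseChange Ω).toAffine.Point →+
          ((cub e₁ e₂ e₃).baseChange Ω).toAffine.Point) R + (hW.bc (Ω := Ω)).tau (a j) := by
        intro j
        have hcomp : σ.toAlgHom.comp (t j).toAlgHom = (t (π j)).toAlgHom.comp (g j) := by
          ext x
          exact (hg j x).symm
        rw [Affine.Point.map_map, hcomp, ← Affine.Point.map_map, hR (g j) (hgF j) (a j) (ha j),
          map_add, hW.map_tau]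
      rw [Finset.sum_congr rfl fun j _ => step j, Finset.sum_add_distrib]
      congr 1
      · exact Equiv.sum_comp π (fun j => (Affine.Point.map (t j).toAlgHom :
          ((cub e₁ e₂ e₃).baseChange Ω).toAffine.Point →+
          ((cub e₁ e₂ e₃).baseChange Ω).toAffine.Point) R)
      · induction (Finset.univ : Finset (F →ₐ[k] Ω)) using Finset.induction_on with
        | empty => simp [IsCub.tau_one]
        | insert j s hj ih => rw [Finset.sum_insert hj, Finset.prod_insert hj, IsCub.tau_add, ih]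
    · refine Sg.prod Finset.univ a σ.toAlgHom (fun j => t j r₁) (fun j => t j r₂) (fun j => t j r₃)
        (fun j => t (π j) r₁) (fun j => t (π j) r₂) (fun j => t (π j) r₃) ?_ ?_ ?_ ?_ ?_ ?_
      · intro j _
        change σ (t j r₁) = _
        rw [← hg j r₁, (ha j).1, map_mul, map_intCast]
      · intro j _
        change σ (t j r₂) = _
        rw [← hg j r₂, (ha j).2.1, map_mul, map_intCast]
      · intro j _
        change σ (t j r₃) = _
        rw [← hg j r₃, (ha j).2.2, map_mul, map_intCast]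
      · exact Equiv.prod_comp π (fun j => t j r₁)
      · exact Equiv.prod_comp π (fun j => t j r₂)
      · exact Equiv.prod_comp π (fun j => t j r₃)

end Pool.Agent.H10
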