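import Pool.Agent.H10.Bridge2

/-!
Parity of valuations for soluble intersections of quadrics at primes of good reduction.
-/

set_option autoImplicit false

open WithZero

namespace Pool.Agent.H10

section

variable {F : Type*} [Field F] (w : Valuation F (WithZero (Multiplicative ℤ)))

lemma ne_of_parity {x y : F} (hx : x ≠ 0) (ho : Odd (log (w x))) (he : y = 0 ∨ Even (log (w y))) :
    w x ≠ w y := by
  intro h
  rcases he with rfl | he
  · rw [map_zero, map_eq_zero] at h
    exact hx h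
  · rw [← h] at he
    exact (Int.not_even_iff_odd.mpr ho) he

lemma parity_aux {A₁ A₂ A₃ B u u' : F} (hu : w u = 1) (hu' : w u' = 1) (h1 : A₁ - A₂ = u * B)
    (h2 : A₁ - A₃ = u' * B) (o1 : A₁ = 0 ∨ Odd (log (w A₁))) (o2 : A₂ = 0 ∨ Odd (log (w A₂)))
    (e3 : A₃ = 0 ∨ Even (log (w A₃))) (e4 : B = 0 ∨ Even (log (w B))) :
    A₁ = 0 ∧ A₂ = 0 ∧ A₃ = 0 ∧ B = 0 := by
  have hwB : w (A₁ - A₂) = w B := by rw [h1, map_mul, hu, one_mul]
  have hwB' : w (A₁ - A₃) = w B := by rw [h2, map_mul, hu', one_mul]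
  have hB : B = 0 := by
    by_contra hB
    have hB0 : 0 < w B := by
      rw [zero_lt_iff]; exact (Valuation.ne_zero_iff w).mpr hB
    have n1 : w A₁ ≠ w B := by
      rcases o1 with rfl | o1
      · rw [map_zero]; exact hB0.ne
      · apply ne_of_parity w ?_ o1 e4
        rintro rfl
        simp at o1
    have n2 : w A₂ ≠ w B := by
      rcases o2 with rfl | o2
      · rw [map_zero]; exact hB0.ne
      · apply ne_of_parity w ?_ o2 e4
        rintro rfl
        simp at o2
    have heq : w A₁ = w A₂ := by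
      by_contra hne
      rcases lt_or_gt_of_ne hne with h | h
      · have := Valuation.map_sub_eq_of_lt_right w h
        rw [hwB] at this
        exact n2 this.symm
      · have := Valuation.map_sub_eq_of_lt_left w h
        rw [hwB] at this
        exact n1 this.symm
    have hle : w B ≤ w A₁ := by
      rw [← hwB]
      refine le_trans (Valuation.map_sub w _ _) ?_
      rw [heq, max_self]
    have hlt : w B < w A₁ := lt_of_le_of_ne hle n1.symm
    have h3 : w A₃ = w A₁ := by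
      have h4 : A₃ = A₁ - u' * B := by linear_combination -h2
      rw [h4]
      apply Valuation.map_sub_eq_of_lt_left w
      rw [map_mul, hu', one_mul]
      exact hlt
    have hA1 : A₁ ≠ 0 := by
      rintro rfl
      rw [map_zero] at hlt
      exact absurd hlt not_lt_zero
    rcases o1 with h | o1
    · exact hA1 h
    · exact ne_of_parity w hA1 o1 e3 h3.symm
  rw [hB, mul_zero, sub_eq_zero] at h1 h2
  have hA : A₁ = 0 := by
    by_contra hA
    rcases o1 with h | o1
    · exact hA h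
    · exact ne_of_parity w hA o1 e3 (by rw [h2])
  exact ⟨hA, by rw [← h1]; exact hA, by rw [← h2]; exact hA, hB⟩

lemma log_mul_sq {d z : F} (hd : d ≠ 0) (hz : z ≠ 0) :
    log (w (d * z ^ 2)) = log (w d) + 2 * log (w z) := by
  rw [map_mul, map_pow, log_mul ((Valuation.ne_zero_iff w).mpr hd)
    (pow_ne_zero _ ((Valuation.ne_zero_iff w).mpr hz)), log_pow]
  simp

lemma odd_or_zero {d z : F} (hd : d ≠ 0) (ho : Odd (log (w d))) :
    d * z ^ 2 = 0 ∨ Odd (log (w (d * z ^ 2))) := by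
  by_cases hz : z = 0
  · left; rw [hz]; ring
  · right
    rw [log_mul_sq w hd hz]
    rw [Int.odd_iff] at ho ⊢
    omega

lemma even_or_zero {d z : F} (hd : d ≠ 0) (ho : Even (log (w d))) :
    d * z ^ 2 = 0 ∨ Even (log (w (d * z ^ 2))) := by
  by_cases hz : z = 0
  · left; rw [hz]; ring
  · right
    rw [log_mul_sq w hd hz]
    rw [Int.even_iff] at ho ⊢
    omega

lemma even_sq (z : F) : z ^ 2 = 0 ∨ Even (log (w (z ^ 2))) := by
  right
  rw [map_pow, log_pow]
  simp

theorem even_of_cpt {e₁ e₂ e₃ d₁ d₂ d₃ c : F} (h12 : w (e₂ - e₁) = 1) (h13 : w (e₃ - e₁) = 1)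
    (h23 : w (e₃ - e₂) = 1) (hd : d₁ * d₂ * d₃ = c ^ 2) (hc : c ≠ 0)
    (H : CPt e₁ e₂ e₃ d₁ d₂ d₃) :
    Even (log (w d₁)) ∧ Even (log (w d₂)) ∧ Even (log (w d₃)) := by
  have hdn : d₁ * d₂ * d₃ ≠ 0 := by rw [hd]; exact pow_ne_zero 2 hc
  have hd1 : d₁ ≠ 0 := fun h => hdn (by rw [h]; ring)
  have hd2 : d₂ ≠ 0 := fun h => hdn (by rw [h]; ring)
  have hd3 : d₃ ≠ 0 := fun h => hdn (by rw [h]; ring)
  have w1 := (Valuation.ne_zero_iff w).mpr hd1
  have w2 := (Valuation.ne_zero_iff w).mpr hd2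
  have w3 := (Valuation.ne_zero_iff w).mpr hd3
  have hsum : log (w d₁) + log (w d₂) + log (w d₃) = 2 * log (w c) := by
    have := congrArg (fun x => log (w x)) hd
    simp only [map_mul, map_pow] at this
    rw [log_mul (mul_ne_zero w1 w2) w3, log_mul w1 w2, log_pow] at this
    simpa using this
  obtain ⟨z₀, z₁, z₂, z₃, hz, E1, E2⟩ := H
  have contra : ¬ (d₁ * z₁ ^ 2 = 0 ∧ d₂ * z₂ ^ 2 = 0 ∧ d₃ * z₃ ^ 2 = 0 ∧ z₀ ^ 2 = 0) := by
    rintro ⟨a1, a2, a3, a4⟩
    have b1 : z₁ = 0 := by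
      rcases mul_eq_zero.mp a1 with h | h
      · exact absurd h hd1
      · exact pow_eq_zero_iff (two_ne_zero) |>.mp h
    have b2 : z₂ = 0 := by
      rcases mul_eq_zero.mp a2 with h | h
      · exact absurd h hd2
      · exact pow_eq_zero_iff (two_ne_zero) |>.mp h
    have b3 : z₃ = 0 := by
      rcases mul_eq_zero.mp a3 with h | h
      · exact absurd h hd3
      · exact pow_eq_zero_iff (two_ne_zero) |>.mp h
    have b4 : z₀ = 0 := pow_eq_zero_iff (two_ne_zero) |>.mp a4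
    rcases hz with h | h | h | h
    · exact h b4
    · exact h b1
    · exact h b2
    · exact h b3
  rcases Int.even_or_odd (log (w d₁)) with p1 | p1 <;>
    rcases Int.even_or_odd (log (w d₂)) with p2 | p2 <;>
    rcases Int.even_or_odd (log (w d₃)) with p3 | p3
  · exact ⟨p1, p2, p3⟩
  · exfalso; rw [Int.even_iff] at p1 p2; rw [Int.odd_iff] at p3; omega
  · exfalso; rw [Int.even_iff] at p1 p3; rw [Int.odd_iff] at p2; omega
  · exfalso
    have h21 : w (e₁ - e₂) = 1 := by rw [Valuation.map_sub_swap]; exact h12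
    obtain ⟨a1, a2, a3, a4⟩ := parity_aux w (A₁ := d₂ * z₂ ^ 2) (A₂ := d₃ * z₃ ^ 2)
      (A₃ := d₁ * z₁ ^ 2) (B := z₀ ^ 2) h23 h21 (by linear_combination E2 - E1)
      (by linear_combination -E1) (odd_or_zero w hd2 p2) (odd_or_zero w hd3 p3)
      (even_or_zero w hd1 p1) (even_sq w z₀)
    exact contra ⟨a3, a1, a2, a4⟩
  · exfalso; rw [Int.even_iff] at p2 p3; rw [Int.odd_iff] at p1; omega
  · exfalso
    obtain ⟨a1, a2, a3, a4⟩ := parity_aux w (A₁ := d₁ * z₁ ^ 2) (A₂ := d₃ * z₃ ^ 2)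
      (A₃ := d₂ * z₂ ^ 2) (B := z₀ ^ 2) h13 h12 (by linear_combination E2)
      (by linear_combination E1) (odd_or_zero w hd1 p1) (odd_or_zero w hd3 p3)
      (even_or_zero w hd2 p2) (even_sq w z₀)
    exact contra ⟨a1, a3, a2, a4⟩
  · exfalso
    obtain ⟨a1, a2, a3, a4⟩ := parity_aux w (A₁ := d₁ * z₁ ^ 2) (A₂ := d₂ * z₂ ^ 2)
      (A₃ := d₃ * z₃ ^ 2) (B := z₀ ^ 2) h12 h13 (by linear_combination E1)
      (by linear_combination E2) (odd_or_zero w hd1 p1) (odd_or_zero w hd2 p2)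
      (even_or_zero w hd3 p3) (even_sq w z₀)
    exact contra ⟨a1, a2, a3, a4⟩
  · exfalso; rw [Int.odd_iff] at p1 p2 p3; omega

end

end Pool.Agent.H10
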